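import Pool.Agent.W38.CRe

/-!
Coalescence in the critical window, part 1: comparison of the level of the pair chain with the
simple random walk, through the number of its moves.
-/

set_option autoImplicit false

namespace Pool.Agent.K7.H66.CW

open Finset Pool.Agent.H499R2.CO

/-- The probability that the simple random walk from `x` stays positive for `m` steps. -/
noncomputable def ph : ℕ → ℕ → ℝ
  | 0, x => if x = 0 then 0 else 1
  | _ + 1, 0 => 0
  | m + 1, x + 1 => (ph m (x + 2) + ph m x) / 2

theorem ph_zero (m : ℕ) : ph m 0 = 0 := by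
  cases m <;> simp [ph]

theorem ph_pos (x : ℕ) : ph 0 (x + 1) = 1 := by simp [ph]

theorem ph_succ (m x : ℕ) : ph (m + 1) (x + 1) = (ph m (x + 2) + ph m x) / 2 := rfl

theorem ph_nonneg : ∀ m x : ℕ, 0 ≤ ph m x := by
  intro m
  induction m with
  | zero => intro x; cases x <;> simp [ph]
  | succ m ih =>
    intro x
    cases x with
    | zero => rw [ph_zero]
    | succ x => rw [ph_succ]; have := ih (x + 2); have := ih x; linarith

theorem ph_le_one : ∀ m x : ℕ, ph m x ≤ 1 := by
  intro m
  induction m with
  | zero => intro x; cases x <;> simp [ph]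
  | succ m ih =>
    intro x
    cases x with
    | zero => rw [ph_zero]; norm_num
    | succ x => rw [ph_succ]; have := ih (x + 2); have := ih x; linarith

theorem ph_mono (m : ℕ) : Monotone (ph m) := by
  apply monotone_nat_of_le_succ
  induction m with
  | zero => intro x; cases x <;> simp [ph]
  | succ m ih =>
    intro x
    cases x with
    | zero => rw [ph_zero]; exact ph_nonneg _ _
    | succ x =>
      rw [ph_succ, ph_succ]
      have h1 := ih (x + 2)
      have h2 := ih x
      linarith

/-- The probability that the level stays above `κ` up to time `t`. -/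
noncomputable def al (κ : ℕ) : ℕ → ℕ × ℤ → ℝ
  | 0, s => if κ < s.1 then 1 else 0
  | t + 1, s => if κ < s.1 then P (al κ t) s else 0

/-- The probability that the chain makes more than `m` moves up to time `t`, with levels above `κ`
before each of them. -/
noncomputable def hi (κ : ℕ) : ℕ → ℕ → ℕ × ℤ → ℝ
  | 0, _, _ => 0
  | t + 1, m, s => if κ < s.1 then (if s.2 % 2 = 0 then P (hi κ t m) s else
      (match m with
        | 0 => 1
        | m + 1 => P (hi κ t m) s)) else 0

/-- The probability that the level stays above `κ` and the chain makes less than `m` moves. -/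
noncomputable def lo (κ : ℕ) : ℕ → ℕ → ℕ × ℤ → ℝ
  | 0, m, s => if κ < s.1 ∧ 0 < m then 1 else 0
  | t + 1, m, s => if κ < s.1 then (if s.2 % 2 = 0 then P (lo κ t m) s else
      (match m with
        | 0 => 0
        | m + 1 => P (lo κ t m) s)) else 0

/-- The probability of more than `v` moves in `k` steps. -/
noncomputable def hb : ℕ → ℕ → ℕ × ℤ → ℝ
  | 0, _, _ => 0
  | k + 1, v, s => if s.2 % 2 = 0 then P (hb k v) s else
      (match v with
        | 0 => 1
        | v + 1 => P (hb k v) s)

/-- The probability of less than `v` moves in `k` steps. -/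
noncomputable def lb : ℕ → ℕ → ℕ × ℤ → ℝ
  | 0, v, _ => if 0 < v then 1 else 0
  | k + 1, v, s => if s.2 % 2 = 0 then P (lb k v) s else
      (match v with
        | 0 => 0
        | v + 1 => P (lb k v) s)

theorem P_le {F : ℕ × ℤ → ℝ} {c : ℝ} (h : ∀ s, F s ≤ c) (s : ℕ × ℤ) : P F s ≤ c := by
  unfold P
  have := h (step s false); have := h (step s true); linarith

theorem P_ge {F : ℕ × ℤ → ℝ} {c : ℝ} (h : ∀ s, c ≤ F s) (s : ℕ × ℤ) : c ≤ P F s := by
  unfold P
  have := h (step s false); have := h (step s true); linarith

theorem P_add (F G : ℕ × ℤ → ℝ) (s : ℕ × ℤ) : P (fun s => F s + G s) s = P F s + P G s := by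
  unfold P; ring

theorem al_nonneg (κ : ℕ) : ∀ (t : ℕ) (s : ℕ × ℤ), 0 ≤ al κ t s := by
  intro t
  induction t with
  | zero => intro s; simp only [al]; split_ifs <;> norm_num
  | succ t ih =>
    intro s
    simp only [al]
    split_ifs
    · exact P_ge ih s
    · exact le_rfl

theorem al_le_one (κ : ℕ) : ∀ (t : ℕ) (s : ℕ × ℤ), al κ t s ≤ 1 := by
  intro t
  induction t with
  | zero => intro s; simp only [al]; split_ifs <;> norm_num
  | succ t ih =>
    intro s
    simp only [al]
    split_ifs
    · exact P_le ih s
    · norm_num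

theorem hi_nonneg (κ : ℕ) : ∀ (t m : ℕ) (s : ℕ × ℤ), 0 ≤ hi κ t m s := by
  intro t
  induction t with
  | zero => intro m s; simp [hi]
  | succ t ih =>
    intro m s
    simp only [hi]
    split_ifs
    · exact P_ge (ih m) s
    · cases m with
      | zero => norm_num
      | succ m => exact P_ge (ih m) s
    · exact le_rfl

theorem hi_le_one (κ : ℕ) : ∀ (t m : ℕ) (s : ℕ × ℤ), hi κ t m s ≤ 1 := by
  intro t
  induction t with
  | zero => intro m s; simp [hi]
  | succ t ih =>
    intro m s
    simp only [hi]
    split_ifs
    · exact P_le (ih m) s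
    · cases m with
      | zero => norm_num
      | succ m => exact P_le (ih m) s
    · norm_num

theorem lo_nonneg (κ : ℕ) : ∀ (t m : ℕ) (s : ℕ × ℤ), 0 ≤ lo κ t m s := by
  intro t
  induction t with
  | zero => intro m s; simp only [lo]; split_ifs <;> norm_num
  | succ t ih =>
    intro m s
    simp only [lo]
    split_ifs
    · exact P_ge (ih m) s
    · cases m with
      | zero => norm_num
      | succ m => exact P_ge (ih m) s
    · exact le_rfl

theorem lo_le_one (κ : ℕ) : ∀ (t m : ℕ) (s : ℕ × ℤ), lo κ t m s ≤ 1 := by
  intro t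
  induction t with
  | zero => intro m s; simp only [lo]; split_ifs <;> norm_num
  | succ t ih =>
    intro m s
    simp only [lo]
    split_ifs
    · exact P_le (ih m) s
    · cases m with
      | zero => norm_num
      | succ m => exact P_le (ih m) s
    · norm_num

theorem hb_nonneg : ∀ (k v : ℕ) (s : ℕ × ℤ), 0 ≤ hb k v s := by
  intro k
  induction k with
  | zero => intro v s; simp [hb]
  | succ k ih =>
    intro v s
    simp only [hb]
    split_ifs
    · exact P_ge (ih v) s
    · cases v with
      | zero => norm_num
      | succ v => exact P_ge (ih v) s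

theorem hb_le_one : ∀ (k v : ℕ) (s : ℕ × ℤ), hb k v s ≤ 1 := by
  intro k
  induction k with
  | zero => intro v s; simp [hb]
  | succ k ih =>
    intro v s
    simp only [hb]
    split_ifs
    · exact P_le (ih v) s
    · cases v with
      | zero => norm_num
      | succ v => exact P_le (ih v) s

theorem lb_nonneg : ∀ (k v : ℕ) (s : ℕ × ℤ), 0 ≤ lb k v s := by
  intro k
  induction k with
  | zero => intro v s; simp only [lb]; split_ifs <;> norm_num
  | succ k ih =>
    intro v s
    simp only [lb]
    split_ifs
    · exact P_ge (ih v) s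
    · cases v with
      | zero => norm_num
      | succ v => exact P_ge (ih v) s

theorem lb_le_one : ∀ (k v : ℕ) (s : ℕ × ℤ), lb k v s ≤ 1 := by
  intro k
  induction k with
  | zero => intro v s; simp only [lb]; split_ifs <;> norm_num
  | succ k ih =>
    intro v s
    simp only [lb]
    split_ifs
    · exact P_le (ih v) s
    · cases v with
      | zero => norm_num
      | succ v => exact P_le (ih v) s

section eqs
variable {κ t m : ℕ} {s : ℕ × ℤ}

theorem hi_dead (h : ¬ κ < s.1) : hi κ t m s = 0 := by
  cases t
  · rfl
  · simp only [hi, if_neg h]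
theorem hi_even (h : κ < s.1) (ho : s.2 % 2 = 0) : hi κ (t + 1) m s = P (hi κ t m) s := by
  simp only [hi, if_pos h, if_pos ho]
theorem hi_odd0 (h : κ < s.1) (ho : ¬ s.2 % 2 = 0) : hi κ (t + 1) 0 s = 1 := by
  simp only [hi, if_pos h, if_neg ho]
theorem hi_odd (h : κ < s.1) (ho : ¬ s.2 % 2 = 0) : hi κ (t + 1) (m + 1) s = P (hi κ t m) s := by
  simp only [hi, if_pos h, if_neg ho]
theorem lo_dead (h : ¬ κ < s.1) : lo κ t m s = 0 := by
  cases t
  · simp only [lo]; exact if_neg (fun h' => h h'.1)
  · simp only [lo, if_neg h]
theorem lo_zero (h : κ < s.1) : lo κ 0 (m + 1) s = 1 := by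
  simp only [lo]; exact if_pos ⟨h, by omega⟩
theorem lo_even (h : κ < s.1) (ho : s.2 % 2 = 0) : lo κ (t + 1) m s = P (lo κ t m) s := by
  simp only [lo, if_pos h, if_pos ho]
theorem lo_odd0 (ho : ¬ s.2 % 2 = 0) : lo κ (t + 1) 0 s = 0 := by
  by_cases h : κ < s.1
  · simp only [lo, if_pos h, if_neg ho]
  · simp only [lo, if_neg h]
theorem lo_odd (h : κ < s.1) (ho : ¬ s.2 % 2 = 0) : lo κ (t + 1) (m + 1) s = P (lo κ t m) s := by
  simp only [lo, if_pos h, if_neg ho]
theorem hb_even {k v : ℕ} (ho : s.2 % 2 = 0) : hb (k + 1) v s = P (hb k v) s := by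
  simp only [hb, if_pos ho]
theorem hb_odd0 {k : ℕ} (ho : ¬ s.2 % 2 = 0) : hb (k + 1) 0 s = 1 := by
  simp only [hb, if_neg ho]
theorem hb_odd {k v : ℕ} (ho : ¬ s.2 % 2 = 0) : hb (k + 1) (v + 1) s = P (hb k v) s := by
  simp only [hb, if_neg ho]
theorem lb_even {k v : ℕ} (ho : s.2 % 2 = 0) : lb (k + 1) v s = P (lb k v) s := by
  simp only [lb, if_pos ho]
theorem lb_odd0 {k : ℕ} (ho : ¬ s.2 % 2 = 0) : lb (k + 1) 0 s = 0 := by
  simp only [lb, if_neg ho]
theorem lb_odd {k v : ℕ} (ho : ¬ s.2 % 2 = 0) : lb (k + 1) (v + 1) s = P (lb k v) s := by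
  simp only [lb, if_neg ho]
theorem lb_zero (k : ℕ) : ∀ s : ℕ × ℤ, lb k 0 s = 0 := by
  induction k with
  | zero => intro s; simp [lb]
  | succ k ih =>
    intro s
    by_cases ho : s.2 % 2 = 0
    · rw [lb_even ho]; unfold P; rw [ih, ih]; norm_num
    · rw [lb_odd0 ho]
theorem lo_m0 : ∀ (t : ℕ) (s : ℕ × ℤ), lo κ t 0 s = 0 := by
  intro t
  induction t with
  | zero => intro s; simp [lo]
  | succ t ih =>
    intro s
    by_cases h : κ < s.1
    · by_cases ho : s.2 % 2 = 0
      · rw [lo_even h ho]; unfold P; rw [ih, ih]; norm_num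
      · rw [lo_odd0 ho]
    · rw [lo_dead h]
end eqs

/-- If the level stays above `κ` the pair has not coalesced. -/
theorem al_le_q (κ : ℕ) : ∀ (t : ℕ) (s : ℕ × ℤ), al κ t s ≤ q step (0, 0) t s := by
  intro t
  induction t with
  | zero =>
    intro s
    by_cases h : κ < s.1
    · have hne : s ≠ (0, 0) := by rintro rfl; simp at h
      rw [q_zero_ne _ _ hne]; exact al_le_one κ 0 s
    · simp only [al, if_neg h]; exact q_nonneg _ _ _ _
  | succ t ih =>
    intro s
    by_cases h : κ < s.1
    · have hne : s ≠ (0, 0) := by rintro rfl; simp at h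
      rw [q_succ _ _ hne]
      simp only [al, if_pos h]
      exact P_mono ih s
    · simp only [al, if_neg h]; exact q_nonneg _ _ _ _

/-- The levels after an odd state above `κ`. -/
theorem lev_odd {κ : ℕ} {s : ℕ × ℤ} (h : κ < s.1) (ho : ¬ s.2 % 2 = 0) :
    (step s false).1 = s.1 + 1 ∧ (step s true).1 + 1 = s.1 := by
  obtain ⟨i, r⟩ := s
  simp only at h ho
  have ho' : r % 2 = 1 := by omega
  obtain ⟨j, rfl⟩ : ∃ j, i = j + 1 := ⟨i - 1, by omega⟩
  rw [step_sf ho', step_st ho']
  simp

theorem lev_even {s : ℕ × ℤ} (ho : s.2 % 2 = 0) (c : Bool) : (step s c).1 = s.1 := by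
  obtain ⟨i, r⟩ := s
  simp only at ho
  cases c
  · rw [step_ef ho]
  · rw [step_et ho]

/-- Lower bound for staying above `κ`. -/
theorem ph_le (κ : ℕ) : ∀ (t m : ℕ) (s : ℕ × ℤ), ph m (s.1 - κ) ≤ al κ t s + hi κ t m s := by
  intro t
  induction t with
  | zero =>
    intro m s
    by_cases h : κ < s.1
    · simp only [al, if_pos h, hi]; have := ph_le_one m (s.1 - κ); linarith
    · rw [Nat.sub_eq_zero_of_le (by omega), ph_zero]
      have := al_nonneg κ 0 s
      have := hi_nonneg κ 0 m s
      linarith
  | succ t ih =>
    intro m s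
    by_cases h : κ < s.1
    · by_cases ho : s.2 % 2 = 0
      · simp only [al, hi, if_pos h, if_pos ho]
        have e1 := ih m (step s false)
        have e2 := ih m (step s true)
        rw [lev_even ho] at e1 e2
        unfold P
        linarith
      · obtain ⟨l1, l2⟩ := lev_odd h ho
        cases m with
        | zero =>
          simp only [al, hi, if_pos h, if_neg ho]
          have h1 := ph_le_one 0 (s.1 - κ)
          have h2 : 0 ≤ P (al κ t) s := P_ge (al_nonneg κ t) s
          linarith
        | succ m =>
          simp only [al, hi, if_pos h, if_neg ho]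
          have e1 := ih m (step s false)
          have e2 := ih m (step s true)
          obtain ⟨x, hx⟩ : ∃ x, s.1 - κ = x + 1 := ⟨s.1 - κ - 1, by omega⟩
          rw [hx, ph_succ]
          have y1 : (step s false).1 - κ = x + 2 := by omega
          have y2 : (step s true).1 - κ = x := by omega
          rw [y1] at e1
          rw [y2] at e2
          unfold P
          linarith
    · rw [Nat.sub_eq_zero_of_le (by omega), ph_zero]
      have := al_nonneg κ (t + 1) s
      have := hi_nonneg κ (t + 1) m s
      linarith

/-- Upper bound for staying above `κ`. -/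
theorem le_ph (κ : ℕ) : ∀ (t m : ℕ) (s : ℕ × ℤ), al κ t s ≤ ph m (s.1 - κ) + lo κ t m s := by
  intro t
  induction t with
  | zero =>
    intro m s
    by_cases h : κ < s.1
    · obtain ⟨x, hx⟩ : ∃ x, s.1 - κ = x + 1 := ⟨s.1 - κ - 1, by omega⟩
      cases m with
      | zero => simp only [al, if_pos h, hx, ph_pos]; have := lo_nonneg κ 0 0 s; linarith
      | succ m =>
        have h1 : lo κ 0 (m + 1) s = 1 := by simp only [lo]; rw [if_pos ⟨h, by omega⟩]
        simp only [al, if_pos h, h1]
        have := ph_nonneg (m + 1) (s.1 - κ); linarith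
    · simp only [al, if_neg h]
      have := ph_nonneg m (s.1 - κ)
      have := lo_nonneg κ 0 m s
      linarith
  | succ t ih =>
    intro m s
    by_cases h : κ < s.1
    · by_cases ho : s.2 % 2 = 0
      · simp only [al, lo, if_pos h, if_pos ho]
        have e1 := ih m (step s false)
        have e2 := ih m (step s true)
        rw [lev_even ho] at e1 e2
        unfold P
        linarith
      · obtain ⟨l1, l2⟩ := lev_odd h ho
        obtain ⟨x, hx⟩ : ∃ x, s.1 - κ = x + 1 := ⟨s.1 - κ - 1, by omega⟩
        cases m with
        | zero =>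
          have h2 := al_le_one κ (t + 1) s
          have h3 := lo_nonneg κ (t + 1) 0 s
          rw [hx, ph_pos]; linarith
        | succ m =>
          simp only [al, lo, if_pos h, if_neg ho]
          have e1 := ih m (step s false)
          have e2 := ih m (step s true)
          rw [hx, ph_succ]
          have y1 : (step s false).1 - κ = x + 2 := by omega
          have y2 : (step s true).1 - κ = x := by omega
          rw [y1] at e1
          rw [y2] at e2
          unfold P
          linarith
    · have : al κ (t + 1) s = 0 := by simp only [al, if_neg h]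
      rw [this]
      have := ph_nonneg m (s.1 - κ)
      have := lo_nonneg κ (t + 1) m s
      linarith

theorem hi_anti (κ : ℕ) : ∀ (t : ℕ) {m m' : ℕ} (_ : m ≤ m') (s : ℕ × ℤ), hi κ t m' s ≤ hi κ t m s := by
  intro t
  induction t with
  | zero => intro m m' _ s; simp [hi]
  | succ t ih =>
    intro m m' hm s
    by_cases h : κ < s.1
    · by_cases ho : s.2 % 2 = 0
      · simp only [hi, if_pos h, if_pos ho]
        exact P_mono (ih hm) s
      · cases m with
        | zero =>
          have e : hi κ (t + 1) 0 s = 1 := by simp only [hi, if_pos h, if_neg ho]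
          rw [e]; exact hi_le_one κ _ _ s
        | succ m =>
          obtain ⟨m'', rfl⟩ : ∃ m'', m' = m'' + 1 := ⟨m' - 1, by omega⟩
          simp only [hi, if_pos h, if_neg ho]
          exact P_mono (ih (by omega)) s
    · simp only [hi, if_neg h]; exact le_rfl

theorem lo_mono (κ : ℕ) : ∀ (t : ℕ) {m m' : ℕ} (_ : m ≤ m') (s : ℕ × ℤ), lo κ t m s ≤ lo κ t m' s := by
  intro t
  induction t with
  | zero =>
    intro m m' hm s
    simp only [lo]
    split_ifs with h1 h2
    · exact le_rfl
    · exact absurd ⟨h1.1, by omega⟩ h2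
    · norm_num
    · exact le_rfl
  | succ t ih =>
    intro m m' hm s
    by_cases h : κ < s.1
    · by_cases ho : s.2 % 2 = 0
      · simp only [lo, if_pos h, if_pos ho]
        exact P_mono (ih hm) s
      · cases m with
        | zero =>
          have e : lo κ (t + 1) 0 s = 0 := by simp only [lo, if_pos h, if_neg ho]
          rw [e]; exact lo_nonneg κ _ _ s
        | succ m =>
          obtain ⟨m'', rfl⟩ : ∃ m'', m' = m'' + 1 := ⟨m' - 1, by omega⟩
          simp only [lo, if_pos h, if_neg ho]
          exact P_mono (ih (by omega)) s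
    · simp only [lo, if_neg h]; exact le_rfl

theorem hi_time (κ : ℕ) : ∀ (t m : ℕ) (s : ℕ × ℤ), hi κ t m s ≤ hi κ (t + 1) m s := by
  intro t
  induction t with
  | zero => intro m s; have := hi_nonneg κ 1 m s; simpa [hi] using this
  | succ t ih =>
    intro m s
    by_cases h : κ < s.1
    · by_cases ho : s.2 % 2 = 0
      · rw [hi_even h ho, hi_even h ho]
        exact P_mono (ih m) s
      · cases m with
        | zero => rw [hi_odd0 h ho, hi_odd0 h ho]
        | succ m => rw [hi_odd h ho, hi_odd h ho]; exact P_mono (ih m) s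
    · rw [hi_dead h, hi_dead h]

theorem lo_time (κ : ℕ) : ∀ (t m : ℕ) (s : ℕ × ℤ), lo κ (t + 1) m s ≤ lo κ t m s := by
  intro t
  induction t with
  | zero =>
    intro m s
    by_cases h : κ < s.1
    · cases m with
      | zero => rw [lo_m0, lo_m0]
      | succ m => rw [lo_zero h]; exact lo_le_one κ _ _ s
    · rw [lo_dead h, lo_dead h]
  | succ t ih =>
    intro m s
    by_cases h : κ < s.1
    · by_cases ho : s.2 % 2 = 0
      · rw [lo_even h ho, lo_even h ho]
        exact P_mono (ih m) s
      · cases m with
        | zero => rw [lo_odd0 ho, lo_odd0 ho]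
        | succ m => rw [lo_odd h ho, lo_odd h ho]; exact P_mono (ih m) s
    · rw [lo_dead h, lo_dead h]

theorem P_iter_nonneg {F : ℕ × ℤ → ℝ} (h : ∀ s, 0 ≤ F s) (k : ℕ) (s : ℕ × ℤ) : 0 ≤ (P^[k] F) s := by
  induction k generalizing s with
  | zero => exact h s
  | succ k ih => rw [Function.iterate_succ_apply']; exact P_ge ih s

/-- One block. -/
theorem hi_block (κ t : ℕ) : ∀ (k v m : ℕ), v ≤ m → ∀ s : ℕ × ℤ,
    hi κ (k + t) m s ≤ hb k v s + (P^[k] (hi κ t (m - v))) s := by
  intro k
  induction k with
  | zero =>
    intro v m hv s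
    rw [zero_add, Function.iterate_zero, id]
    have := hi_anti κ t (show m - v ≤ m by omega) s
    have := hb_nonneg 0 v s
    linarith
  | succ k ih =>
    intro v m hv s
    have hP : 0 ≤ (P^[k + 1] (hi κ t (m - v))) s := P_iter_nonneg (hi_nonneg κ t _) _ s
    rw [show k + 1 + t = (k + t) + 1 by ring]
    by_cases h : κ < s.1
    · by_cases ho : s.2 % 2 = 0
      · rw [hi_even h ho, hb_even ho, Function.iterate_succ_apply', ← P_add]
        exact P_mono (ih v m hv) s
      · cases v with
        | zero =>
          rw [hb_odd0 ho]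
          have := hi_le_one κ (k + t + 1) m s
          linarith
        | succ v =>
          obtain ⟨m', rfl⟩ : ∃ m', m = m' + 1 := ⟨m - 1, by omega⟩
          rw [hi_odd h ho, hb_odd ho, Function.iterate_succ_apply',
            show m' + 1 - (v + 1) = m' - v by omega, ← P_add]
          exact P_mono (ih v m' (by omega)) s
    · rw [hi_dead h]
      have := hb_nonneg (k + 1) v s
      linarith

theorem lo_block (κ t : ℕ) : ∀ (k v m : ℕ), ∀ s : ℕ × ℤ,
    lo κ (k + t) (m + v) s ≤ lb k v s + (P^[k] (lo κ t m)) s := by
  intro k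
  induction k with
  | zero =>
    intro v m s
    rw [zero_add, Function.iterate_zero, id]
    cases v with
    | zero => have := lb_nonneg 0 0 s; rw [add_zero]; linarith
    | succ v =>
      have e : lb 0 (v + 1) s = 1 := by simp [lb]
      have := lo_le_one κ t (m + (v + 1)) s
      have := lo_nonneg κ t m s
      linarith
  | succ k ih =>
    intro v m s
    have hP : 0 ≤ (P^[k + 1] (lo κ t m)) s := P_iter_nonneg (lo_nonneg κ t _) _ s
    rw [show k + 1 + t = (k + t) + 1 by ring]
    by_cases h : κ < s.1
    · by_cases ho : s.2 % 2 = 0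
      · rw [lo_even h ho, lb_even ho, Function.iterate_succ_apply', ← P_add]
        exact P_mono (ih v m) s
      · cases v with
        | zero =>
          rw [add_zero, lb_zero, zero_add]
          cases m with
          | zero =>
            rw [lo_odd0 ho]
            exact hP
          | succ m =>
            rw [lo_odd h ho, Function.iterate_succ_apply']
            apply P_mono
            intro s'
            have h2 := ih 0 (m + 1) s'
            rw [lb_zero] at h2
            have h3 := lo_mono κ (k + t) (show m ≤ m + 1 + 0 by omega) s'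
            linarith
        | succ v =>
          rw [show m + (v + 1) = (m + v) + 1 by ring, lo_odd h ho, lb_odd ho,
            Function.iterate_succ_apply', ← P_add]
          exact P_mono (ih v m) s
    · rw [lo_dead h]
      have := lb_nonneg (k + 1) v s
      linarith

end Pool.Agent.K7.H66.CW
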