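import Pool.Agent.K7.H66.CW.A
import Pool.Agent.H499R2.CO.E

/-!
Coalescence in the critical window, part 2: in a block of `k` steps from a level at least `k`, the
number of the moves has the binomial law on average over the residue of `r` modulo `2 ^ k`.
-/

set_option autoImplicit false

namespace Pool.Agent.K7.H66.CW

open Finset Pool.Agent.H499R2.CO

/-- The upper tail of the binomial law. -/
noncomputable def bt : ℕ → ℕ → ℝ
  | 0, _ => 0
  | k + 1, 0 => (bt k 0 + 1) / 2
  | k + 1, v + 1 => (bt k (v + 1) + bt k v) / 2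

/-- The lower tail of the binomial law. -/
noncomputable def lt : ℕ → ℕ → ℝ
  | 0, v => if 0 < v then 1 else 0
  | _ + 1, 0 => 0
  | k + 1, v + 1 => (lt k (v + 1) + lt k v) / 2

theorem bt_nonneg : ∀ k v : ℕ, 0 ≤ bt k v := by
  intro k
  induction k with
  | zero => intro v; simp [bt]
  | succ k ih =>
    intro v
    cases v with
    | zero => simp only [bt]; have := ih 0; linarith
    | succ v => simp only [bt]; have := ih (v + 1); have := ih v; linarith

/-- Chernoff's bound. -/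
theorem bt_le {x : ℝ} (hx : 1 ≤ x) : ∀ k v : ℕ, bt k v ≤ ((1 + x) / 2) ^ k / x ^ v := by
  have hx0 : 0 < x := by linarith
  intro k
  induction k with
  | zero => intro v; simp only [bt]; positivity
  | succ k ih =>
    intro v
    cases v with
    | zero =>
      simp only [bt]
      have h1 := ih 0
      have h2 : (1 : ℝ) ≤ ((1 + x) / 2) ^ k := one_le_pow₀ (by linarith)
      simp only [pow_zero, div_one] at h1 ⊢
      rw [pow_succ]
      nlinarith
    | succ v =>
      simp only [bt]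
      have h1 := ih (v + 1)
      have h2 := ih v
      have e : ((1 + x) / 2) ^ (k + 1) / x ^ (v + 1) =
          (((1 + x) / 2) ^ k / x ^ (v + 1) + ((1 + x) / 2) ^ k / x ^ v) / 2 := by
        rw [pow_succ, pow_succ]
        field_simp
      rw [e]; linarith

theorem lt_le {y : ℝ} (hy : 1 ≤ y) : ∀ k v : ℕ, lt k v ≤ y ^ v * ((1 + y⁻¹) / 2) ^ k := by
  have hy0 : 0 < y := by linarith
  intro k
  induction k with
  | zero =>
    intro v
    have := one_le_pow₀ hy (n := v)
    simp only [lt, pow_zero, mul_one]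
    split_ifs <;> linarith
  | succ k ih =>
    intro v
    cases v with
    | zero => simp only [lt]; positivity
    | succ v =>
      simp only [lt]
      have h1 := ih (v + 1)
      have h2 := ih v
      have e : y ^ (v + 1) * ((1 + y⁻¹) / 2) ^ (k + 1) =
          (y ^ (v + 1) * ((1 + y⁻¹) / 2) ^ k + y ^ v * ((1 + y⁻¹) / 2) ^ k) / 2 := by
        rw [pow_succ, pow_succ]
        field_simp
      rw [e]; linarith

/-- The upper tail beyond `(1 / 2 + η) k`. -/
theorem bt_tail {η : ℝ} (hη : 0 ≤ η) {k v : ℕ} (hv : (1 / 2 + η) * k ≤ v) :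
    bt k v ≤ Real.exp (-(2 * η ^ 2 * k)) := by
  set x : ℝ := Real.exp (4 * η) with hx
  have hx1 : 1 ≤ x := by rw [hx]; exact Real.one_le_exp (by linarith)
  refine (bt_le hx1 k v).trans ?_
  have hc : (1 + x) / 2 = Real.exp (2 * η) * Real.cosh (2 * η) := by
    rw [Real.cosh_eq, hx]
    have h1 : Real.exp (4 * η) = Real.exp (2 * η) * Real.exp (2 * η) := by rw [← Real.exp_add]; ring_nf
    have h2 : Real.exp (2 * η) * Real.exp (-(2 * η)) = 1 := by rw [← Real.exp_add]; simp
    rw [h1]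
    linear_combination (-1 / 2 : ℝ) * h2
  have hc2 : (1 + x) / 2 ≤ Real.exp (2 * η + 2 * η ^ 2) := by
    rw [hc, Real.exp_add]
    apply mul_le_mul_of_nonneg_left _ (Real.exp_pos _).le
    have := Real.cosh_le_exp_half_sq (2 * η)
    refine this.trans (le_of_eq ?_)
    congr 1; ring
  have hc3 : ((1 + x) / 2) ^ k ≤ Real.exp (k * (2 * η + 2 * η ^ 2)) := by
    rw [Real.exp_nat_mul]
    exact pow_le_pow_left₀ (by linarith) hc2 k
  have hxv : x ^ v = Real.exp (v * (4 * η)) := by rw [hx, Real.exp_nat_mul]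
  rw [div_le_iff₀ (by positivity), hxv, ← Real.exp_add]
  refine hc3.trans ?_
  rw [Real.exp_le_exp]
  nlinarith

/-- The lower tail below `(1 / 2 - η) k`. -/
theorem lt_tail {η : ℝ} (hη : 0 ≤ η) {k v : ℕ} (hv : (v : ℝ) ≤ (1 / 2 - η) * k) :
    lt k v ≤ Real.exp (-(2 * η ^ 2 * k)) := by
  set y : ℝ := Real.exp (4 * η) with hy
  have hy1 : 1 ≤ y := by rw [hy]; exact Real.one_le_exp (by linarith)
  refine (lt_le hy1 k v).trans ?_
  have hc : (1 + y⁻¹) / 2 = Real.exp (-(2 * η)) * Real.cosh (2 * η) := by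
    rw [Real.cosh_eq, hy, ← Real.exp_neg]
    have h1 : Real.exp (-(4 * η)) = Real.exp (-(2 * η)) * Real.exp (-(2 * η)) := by
      rw [← Real.exp_add]; ring_nf
    have h2 : Real.exp (-(2 * η)) * Real.exp (2 * η) = 1 := by rw [← Real.exp_add]; simp
    rw [h1]
    linear_combination (-1 / 2 : ℝ) * h2
  have hc2 : (1 + y⁻¹) / 2 ≤ Real.exp (-(2 * η) + 2 * η ^ 2) := by
    rw [hc, Real.exp_add]
    apply mul_le_mul_of_nonneg_left _ (Real.exp_pos _).le
    have := Real.cosh_le_exp_half_sq (2 * η)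
    refine this.trans (le_of_eq ?_)
    congr 1; ring
  have hc3 : ((1 + y⁻¹) / 2) ^ k ≤ Real.exp (k * (-(2 * η) + 2 * η ^ 2)) := by
    rw [Real.exp_nat_mul]
    exact pow_le_pow_left₀ (by positivity) hc2 k
  have hyv : y ^ v = Real.exp (v * (4 * η)) := by rw [hy, Real.exp_nat_mul]
  rw [hyv]
  refine (mul_le_mul_of_nonneg_left hc3 (Real.exp_pos _).le).trans ?_
  rw [← Real.exp_add, Real.exp_le_exp]
  nlinarith

theorem ediv_shift {r c m : ℤ} (h : (r + c) % 2 = 0) : (r + 2 * m + c) / 2 = (r + c) / 2 + m := by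
  omega

theorem hb_per : ∀ (k v i : ℕ), k ≤ i → ∀ r m : ℤ, hb k v (i, r + m * 2 ^ k) = hb k v (i, r) := by
  intro k
  induction k with
  | zero => intro v i _ r m; simp [hb]
  | succ k ih =>
    intro v i hi r m
    have e2 : m * (2 : ℤ) ^ (k + 1) = 2 * (m * 2 ^ k) := by rw [pow_succ]; ring
    obtain ⟨j, rfl⟩ : ∃ j, i = j + 1 := ⟨i - 1, by omega⟩
    by_cases ho : r % 2 = 0
    · have ho' : (r + m * 2 ^ (k + 1)) % 2 = 0 := by rw [e2]; omega
      rw [hb_even (s := (j + 1, r)) ho, hb_even (s := (j + 1, r + m * 2 ^ (k + 1))) ho']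
      unfold P
      obtain ⟨p, hp⟩ : ∃ p, (3 : ℤ) ^ (j + 1) = 2 * p + 1 := ⟨3 ^ (j + 1) / 2, by have := odd3 (j + 1); omega⟩
      rw [step_ef ho, step_et ho, step_ef ho', step_et ho']
      have h1 : (r + m * 2 ^ (k + 1)) / 2 = r / 2 + m * 2 ^ k := by rw [e2]; omega
      have h2 : (3 * (r + m * 2 ^ (k + 1)) + 1 - 3 ^ (j + 1)) / 2 =
          (3 * r + 1 - 3 ^ (j + 1)) / 2 + (3 * m) * 2 ^ k := by
        rw [e2, hp, show 3 * m * (2 : ℤ) ^ k = 3 * (m * 2 ^ k) by ring]; omega
      rw [h1, h2, ih v (j + 1) (by omega), ih v (j + 1) (by omega)]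
    · have hr : r % 2 = 1 := by omega
      have ho' : ¬ (r + m * 2 ^ (k + 1)) % 2 = 0 := by rw [e2]; omega
      have hr' : (r + m * 2 ^ (k + 1)) % 2 = 1 := by rw [e2]; omega
      cases v with
      | zero => rw [hb_odd0 (s := (j + 1, r)) ho, hb_odd0 (s := (j + 1, r + m * 2 ^ (k + 1))) ho']
      | succ v =>
        rw [hb_odd (s := (j + 1, r)) ho, hb_odd (s := (j + 1, r + m * 2 ^ (k + 1))) ho']
        unfold P
        obtain ⟨p, hp⟩ : ∃ p, (3 : ℤ) ^ j = 2 * p + 1 := ⟨3 ^ j / 2, by have := odd3 j; omega⟩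
        rw [step_sf hr, step_st hr, step_sf hr', step_st hr']
        have h1 : (3 * (r + m * 2 ^ (k + 1)) + 1) / 2 = (3 * r + 1) / 2 + (3 * m) * 2 ^ k := by
          rw [e2, show 3 * m * (2 : ℤ) ^ k = 3 * (m * 2 ^ k) by ring]; omega
        have h2 : (r + m * 2 ^ (k + 1) - 3 ^ j) / 2 = (r - 3 ^ j) / 2 + m * 2 ^ k := by
          rw [e2, hp]; omega
        rw [h1, h2, ih v (j + 2) (by omega), ih v j (by omega)]

theorem lb_per : ∀ (k v i : ℕ), k ≤ i → ∀ r m : ℤ, lb k v (i, r + m * 2 ^ k) = lb k v (i, r) := by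
  intro k
  induction k with
  | zero => intro v i _ r m; simp [lb]
  | succ k ih =>
    intro v i hi r m
    have e2 : m * (2 : ℤ) ^ (k + 1) = 2 * (m * 2 ^ k) := by rw [pow_succ]; ring
    obtain ⟨j, rfl⟩ : ∃ j, i = j + 1 := ⟨i - 1, by omega⟩
    by_cases ho : r % 2 = 0
    · have ho' : (r + m * 2 ^ (k + 1)) % 2 = 0 := by rw [e2]; omega
      rw [lb_even (s := (j + 1, r)) ho, lb_even (s := (j + 1, r + m * 2 ^ (k + 1))) ho']
      unfold P
      obtain ⟨p, hp⟩ : ∃ p, (3 : ℤ) ^ (j + 1) = 2 * p + 1 := ⟨3 ^ (j + 1) / 2, by have := odd3 (j + 1); omega⟩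
      rw [step_ef ho, step_et ho, step_ef ho', step_et ho']
      have h1 : (r + m * 2 ^ (k + 1)) / 2 = r / 2 + m * 2 ^ k := by rw [e2]; omega
      have h2 : (3 * (r + m * 2 ^ (k + 1)) + 1 - 3 ^ (j + 1)) / 2 =
          (3 * r + 1 - 3 ^ (j + 1)) / 2 + (3 * m) * 2 ^ k := by
        rw [e2, hp, show 3 * m * (2 : ℤ) ^ k = 3 * (m * 2 ^ k) by ring]; omega
      rw [h1, h2, ih v (j + 1) (by omega), ih v (j + 1) (by omega)]
    · have hr : r % 2 = 1 := by omega
      have ho' : ¬ (r + m * 2 ^ (k + 1)) % 2 = 0 := by rw [e2]; omega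
      have hr' : (r + m * 2 ^ (k + 1)) % 2 = 1 := by rw [e2]; omega
      cases v with
      | zero => rw [lb_odd0 (s := (j + 1, r)) ho, lb_odd0 (s := (j + 1, r + m * 2 ^ (k + 1))) ho']
      | succ v =>
        rw [lb_odd (s := (j + 1, r)) ho, lb_odd (s := (j + 1, r + m * 2 ^ (k + 1))) ho']
        unfold P
        obtain ⟨p, hp⟩ : ∃ p, (3 : ℤ) ^ j = 2 * p + 1 := ⟨3 ^ j / 2, by have := odd3 j; omega⟩
        rw [step_sf hr, step_st hr, step_sf hr', step_st hr']
        have h1 : (3 * (r + m * 2 ^ (k + 1)) + 1) / 2 = (3 * r + 1) / 2 + (3 * m) * 2 ^ k := by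
          rw [e2, show 3 * m * (2 : ℤ) ^ k = 3 * (m * 2 ^ k) by ring]; omega
        have h2 : (r + m * 2 ^ (k + 1) - 3 ^ j) / 2 = (r - 3 ^ j) / 2 + m * 2 ^ k := by
          rw [e2, hp]; omega
        rw [h1, h2, ih v (j + 2) (by omega), ih v j (by omega)]

/-- The sums over the even and the odd residues. -/
theorem block_sum {F F' : ℕ × ℤ → ℝ} {k j : ℕ} (hF : ∀ i, k ≤ i → ∀ r m : ℤ, F (i, r + m * 2 ^ k) = F (i, r))
    (hF' : ∀ i, k ≤ i → ∀ r m : ℤ, F' (i, r + m * 2 ^ k) = F' (i, r)) (hj : k ≤ j) {G : ℕ × ℤ → ℝ}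
    (hGe : ∀ r : ℤ, r % 2 = 0 → G (j + 1, r) = P F (j + 1, r))
    (hGo : ∀ r : ℤ, ¬ r % 2 = 0 → G (j + 1, r) = P F' (j + 1, r)) :
    ∑ u ∈ range (2 ^ (k + 1)), G (j + 1, (u : ℤ)) =
      ∑ u ∈ range (2 ^ k), F (j + 1, (u : ℤ)) +
        (∑ u ∈ range (2 ^ k), F' (j + 2, (u : ℤ)) + ∑ u ∈ range (2 ^ k), F' (j, (u : ℤ))) / 2 := by
  rw [pow_succ, mul_comm (2 ^ k) 2, sum_two]
  obtain ⟨p, hp⟩ : ∃ p, (3 : ℤ) ^ (j + 1) = 2 * p + 1 := ⟨3 ^ (j + 1) / 2, by have := odd3 (j + 1); omega⟩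
  obtain ⟨p', hp'⟩ : ∃ p', (3 : ℤ) ^ j = 2 * p' + 1 := ⟨3 ^ j / 2, by have := odd3 j; omega⟩
  congr 1
  · have h1 : ∀ u ∈ range (2 ^ k), G (j + 1, ((2 * u : ℕ) : ℤ)) =
        (F (j + 1, (u : ℤ)) + F (j + 1, 3 * (u : ℤ) + (-p))) / 2 := by
      intro u _
      have ho : ((2 * u : ℕ) : ℤ) % 2 = 0 := by push_cast; omega
      rw [hGe _ ho]
      unfold P
      rw [step_ef ho, step_et ho]
      have e1 : ((2 * u : ℕ) : ℤ) / 2 = u := by push_cast; omega
      have e3 : (3 * ((2 * u : ℕ) : ℤ) + 1 - 3 ^ (j + 1)) / 2 = 3 * (u : ℤ) + (-p) := by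
        rw [hp]; push_cast; omega
      rw [e1, e3]
    rw [sum_congr rfl h1, ← sum_div, sum_add_distrib]
    have h2 := sum_affine k (fun x : ℤ => F (j + 1, x)) (fun x m => hF _ (by omega) x m) (a := 3)
      (by norm_num) (-p)
    rw [h2]; ring
  · have h1 : ∀ u ∈ range (2 ^ k), G (j + 1, ((2 * u + 1 : ℕ) : ℤ)) =
        (F' (j + 2, 3 * (u : ℤ) + 2) + F' (j, 1 * (u : ℤ) + (-p'))) / 2 := by
      intro u _
      have ho : ((2 * u + 1 : ℕ) : ℤ) % 2 = 1 := by push_cast; omega
      rw [hGo _ (by omega)]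
      unfold P
      rw [step_sf ho, step_st ho]
      have e1 : (3 * ((2 * u + 1 : ℕ) : ℤ) + 1) / 2 = 3 * (u : ℤ) + 2 := by push_cast; omega
      have e3 : (((2 * u + 1 : ℕ) : ℤ) - 3 ^ j) / 2 = 1 * (u : ℤ) + (-p') := by
        rw [hp']; push_cast; omega
      rw [e1, e3]
    rw [sum_congr rfl h1, ← sum_div, sum_add_distrib]
    have h2 := sum_affine k (fun x : ℤ => F' (j + 2, x)) (fun x m => hF' _ (by omega) x m) (a := 3)
      (by norm_num) 2
    have h3 := sum_affine k (fun x : ℤ => F' (j, x)) (fun x m => hF' _ (by omega) x m) (a := 1)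
      (by norm_num) (-p')
    rw [h2, h3]

theorem hb_sum : ∀ (k v i : ℕ), k ≤ i → ∑ u ∈ range (2 ^ k), hb k v (i, (u : ℤ)) = 2 ^ k * bt k v := by
  intro k
  induction k with
  | zero => intro v i _; simp [hb, bt]
  | succ k ih =>
    intro v i hi
    obtain ⟨j, rfl⟩ : ∃ j, i = j + 1 := ⟨i - 1, by omega⟩
    cases v with
    | zero =>
      have h := block_sum (F := hb k 0) (F' := fun _ => 1) (k := k) (j := j) (G := hb (k + 1) 0)
        (fun i hi r m => hb_per k 0 i hi r m) (fun _ _ _ _ => rfl) (by omega)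
        (fun r hr => hb_even (s := (j + 1, r)) hr)
        (fun r hr => by rw [hb_odd0 (s := (j + 1, r)) hr]; unfold P; norm_num)
      rw [h, ih 0 (j + 1) (by omega)]
      simp only [sum_const, card_range, nsmul_eq_mul, mul_one, bt, pow_succ]
      push_cast; ring
    | succ v =>
      have h := block_sum (F := hb k (v + 1)) (F' := hb k v) (k := k) (j := j) (G := hb (k + 1) (v + 1))
        (fun i hi r m => hb_per k (v + 1) i hi r m) (fun i hi r m => hb_per k v i hi r m) (by omega)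
        (fun r hr => hb_even (s := (j + 1, r)) hr)
        (fun r hr => hb_odd (s := (j + 1, r)) hr)
      rw [h, ih (v + 1) (j + 1) (by omega), ih v (j + 2) (by omega), ih v j (by omega)]
      simp only [bt, pow_succ]
      ring

theorem lb_sum : ∀ (k v i : ℕ), k ≤ i → ∑ u ∈ range (2 ^ k), lb k v (i, (u : ℤ)) = 2 ^ k * lt k v := by
  intro k
  induction k with
  | zero => intro v i _; simp [lb, lt]
  | succ k ih =>
    intro v i hi
    obtain ⟨j, rfl⟩ : ∃ j, i = j + 1 := ⟨i - 1, by omega⟩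
    cases v with
    | zero =>
      simp only [lb_zero, lt]
      simp
    | succ v =>
      have h := block_sum (F := lb k (v + 1)) (F' := lb k v) (k := k) (j := j) (G := lb (k + 1) (v + 1))
        (fun i hi r m => lb_per k (v + 1) i hi r m) (fun i hi r m => lb_per k v i hi r m) (by omega)
        (fun r hr => lb_even (s := (j + 1, r)) hr)
        (fun r hr => lb_odd (s := (j + 1, r)) hr)
      rw [h, ih (v + 1) (j + 1) (by omega), ih v (j + 2) (by omega), ih v j (by omega)]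
      simp only [lt, pow_succ]
      ring

/-- The sum over an interval of a nonnegative periodic function. -/
theorem per_sum_le {F : ℤ → ℝ} (h0 : ∀ r, 0 ≤ F r) {k : ℕ} (hF : ∀ r m : ℤ, F (r + m * 2 ^ k) = F r)
    {S : ℝ} (hS : ∑ u ∈ range (2 ^ k), F (u : ℤ) = S) (x : ℤ) (n : ℕ) :
    ∑ r ∈ Finset.Ico x (x + n), F r ≤ ((n : ℝ) / 2 ^ k + 1) * S := by
  have hS0 : 0 ≤ S := by rw [← hS]; exact sum_nonneg (fun u _ => h0 _)
  -- blocks
  have hb : ∀ (M : ℕ) (x : ℤ), ∑ r ∈ Finset.Ico x (x + M * 2 ^ k), F r = M * S := by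
    intro M
    induction M with
    | zero => intro x; simp
    | succ M ih =>
      intro x
      have h1 : (∑ r ∈ Finset.Ico x (x + 2 ^ k), F r) = S := by
        rw [← hS]
        have h2 := sum_affine k F hF (a := 1) (by norm_num) x
        rw [← h2]
        symm
        apply Finset.sum_bij (fun (u : ℕ) _ => 1 * (u : ℤ) + x)
        · intro u hu
          rw [mem_range] at hu
          rw [Finset.mem_Ico]
          have : (u : ℤ) < 2 ^ k := by exact_mod_cast hu
          constructor <;> omega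
        · intro u _ u' _ h
          omega
        · intro r hr
          rw [Finset.mem_Ico] at hr
          have h5 : ((r - x).toNat : ℤ) = r - x := Int.toNat_of_nonneg (by omega)
          refine ⟨(r - x).toNat, ?_, ?_⟩
          · rw [mem_range]
            have : ((r - x).toNat : ℤ) < ((2 ^ k : ℕ) : ℤ) := by rw [h5]; push_cast; omega
            exact_mod_cast this
          · rw [h5]; ring
        · intro u _; rfl
      have h3 : x ≤ x + 2 ^ k := by have : (0 : ℤ) < 2 ^ k := by positivity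
                                    omega
      have h4 : x + 2 ^ k ≤ x + ((M + 1 : ℕ) : ℤ) * 2 ^ k := by
        push_cast
        have : (0 : ℤ) ≤ M * 2 ^ k := by positivity
        linarith
      rw [← Finset.Ico_union_Ico_eq_Ico h3 h4, Finset.sum_union (Finset.Ico_disjoint_Ico_consecutive _ _ _), h1]
      have e : x + ((M + 1 : ℕ) : ℤ) * 2 ^ k = (x + 2 ^ k) + M * 2 ^ k := by push_cast; ring
      rw [e, ih]
      push_cast; ring
  have h2 : (0 : ℝ) < 2 ^ k := by positivity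
  set M := n / 2 ^ k + 1 with hM
  have h3 : n ≤ M * 2 ^ k := by
    have := Nat.lt_div_mul_add (a := n) (b := 2 ^ k) (by positivity)
    rw [hM, add_mul, one_mul]; exact this.le
  calc ∑ r ∈ Finset.Ico x (x + n), F r ≤ ∑ r ∈ Finset.Ico x (x + M * 2 ^ k), F r := by
        apply sum_le_sum_of_subset_of_nonneg
        · apply Finset.Ico_subset_Ico_right
          have : (n : ℤ) ≤ M * 2 ^ k := by exact_mod_cast h3
          linarith
        · intro r _ _; exact h0 r
    _ = M * S := hb M x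
    _ ≤ ((n : ℝ) / 2 ^ k + 1) * S := by
        apply mul_le_mul_of_nonneg_right _ hS0
        rw [hM]
        push_cast
        have : ((n / 2 ^ k : ℕ) : ℝ) ≤ (n : ℝ) / ((2 ^ k : ℕ) : ℝ) := Nat.cast_div_le
        push_cast at this
        linarith

end Pool.Agent.K7.H66.CW
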