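import Pool.Agent.W38.CRg
import Pool.Agent.K7.H66.CW.B

/-!
Coalescence in the critical window, part 3: the constant terms of the forms.
-/

set_option autoImplicit false

namespace Pool.Agent.K7.H66.CW

open Finset Pool.Agent.H499R2.CO Pool.Agent.W38.CR

/-- `1` if `p` holds and `0` otherwise. -/
noncomputable def ind (p : Prop) : ℝ := by
  classical
  exact if p then 1 else 0

theorem ind_pos {p : Prop} (h : p) : ind p = 1 := if_pos h

theorem ind_neg {p : Prop} (h : ¬ p) : ind p = 0 := if_neg h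

theorem ind_nonneg (p : Prop) : 0 ≤ ind p := by
  by_cases h : p
  · rw [ind_pos h]; norm_num
  · rw [ind_neg h]

theorem ind_le_one (p : Prop) : ind p ≤ 1 := by
  by_cases h : p
  · rw [ind_pos h]
  · rw [ind_neg h]; norm_num

theorem av_one (F : List Bool → ℝ) : av 1 F = (F [false] + F [true]) / 2 := by
  simp [av]

theorem av_succ' (k : ℕ) (F : List Bool → ℝ) :
    av (k + 1) F = av k (fun l => (F (l ++ [false]) + F (l ++ [true])) / 2) := by
  rw [av_append]
  simp only [av_one]

theorem bv_append (l : List Bool) (b : Bool) : bv (l ++ [b]) = bv l + 2 ^ l.length * bz b := by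
  induction l with
  | nil => simp [bv]
  | cons a l ih => simp only [List.cons_append, bv, ih, List.length_cons, pow_succ]; ring

theorem fl_snoc (l : List Bool) (b : Bool) (A : ℕ × ℤ) : fl (l ++ [b]) A = fs b (fl l A) := by
  rw [fl_append]; rfl

/-- The increase of the level. -/
def dl (l : List Bool) (A : ℕ × ℤ) : ℕ := (fl l A).1 - A.1

theorem dl_add (l : List Bool) (A : ℕ × ℤ) : A.1 + dl l A = (fl l A).1 := by
  unfold dl
  have := (fl_level l A).1
  omega

theorem dl_le (l : List Bool) (A : ℕ × ℤ) : dl l A ≤ l.length := by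
  unfold dl
  have := (fl_level l A).2
  omega

/-- The part of the constant term which comes from the odd steps. -/
def cc (l : List Bool) (A : ℕ × ℤ) : ℤ :=
  2 ^ l.length * (fl l A).2 - 3 ^ dl l A * (3 ^ A.1 * bv l + A.2)

theorem cc_nil (A : ℕ × ℤ) : cc [] A = 0 := by
  simp [cc, dl, fl, bv]

theorem fs_even {b : Bool} {A : ℕ × ℤ} (h : vl b A % 2 = 0) : fs b A = (A.1, vl b A / 2) := by
  unfold fs; rw [if_pos h]

theorem fs_odd {b : Bool} {A : ℕ × ℤ} (h : ¬ vl b A % 2 = 0) : fs b A = (A.1 + 1, (3 * vl b A + 1) / 2) := by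
  unfold fs; rw [if_neg h]

theorem dl_even {l : List Bool} {b : Bool} {A : ℕ × ℤ} (h : vl b (fl l A) % 2 = 0) :
    dl (l ++ [b]) A = dl l A := by
  unfold dl; rw [fl_snoc, fs_even h]

theorem dl_odd {l : List Bool} {b : Bool} {A : ℕ × ℤ} (h : ¬ vl b (fl l A) % 2 = 0) :
    dl (l ++ [b]) A = dl l A + 1 := by
  unfold dl; rw [fl_snoc, fs_odd h]
  have := (fl_level l A).1
  simp only
  omega

theorem cc_even {l : List Bool} {b : Bool} {A : ℕ × ℤ} (h : vl b (fl l A) % 2 = 0) :
    cc (l ++ [b]) A = cc l A := by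
  unfold cc
  rw [dl_even h, bv_append, fl_snoc, fs_even h, List.length_append, List.length_singleton, pow_succ]
  obtain ⟨m, hm⟩ : ∃ m, vl b (fl l A) = 2 * m := ⟨vl b (fl l A) / 2, by omega⟩
  have h1 : vl b (fl l A) / 2 = m := by omega
  simp only
  rw [h1]
  have h2 : vl b (fl l A) = (fl l A).2 + 3 ^ (fl l A).1 * bz b := rfl
  rw [← dl_add l A, pow_add] at h2
  rw [hm] at h2
  linear_combination (2 ^ l.length : ℤ) * h2

theorem cc_odd {l : List Bool} {b : Bool} {A : ℕ × ℤ} (h : ¬ vl b (fl l A) % 2 = 0) :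
    cc (l ++ [b]) A = 3 * cc l A + 2 ^ l.length := by
  unfold cc
  rw [dl_odd h, bv_append, fl_snoc, fs_odd h, List.length_append, List.length_singleton, pow_succ, pow_succ]
  obtain ⟨m, hm⟩ : ∃ m, vl b (fl l A) = 2 * m + 1 := ⟨vl b (fl l A) / 2, by omega⟩
  have h1 : (3 * vl b (fl l A) + 1) / 2 = 3 * m + 2 := by omega
  simp only
  rw [h1]
  have h2 : vl b (fl l A) = (fl l A).2 + 3 ^ (fl l A).1 * bz b := rfl
  rw [← dl_add l A, pow_add] at h2
  rw [hm] at h2
  linear_combination (3 * 2 ^ l.length : ℤ) * h2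

/-- Exactly one of the two bits gives an even value. -/
theorem vl_cases (A : ℕ × ℤ) : (vl false A % 2 = 0 ∧ ¬ vl true A % 2 = 0) ∨
    (¬ vl false A % 2 = 0 ∧ vl true A % 2 = 0) := by
  obtain ⟨m, hm⟩ := odd3z A.1
  have e0 : vl false A = A.2 := by simp [vl, bz]
  have e1 : vl true A = A.2 + (2 * m + 1) := by simp [vl, bz, hm]
  rw [e0, e1]
  omega

theorem cc_nonneg (A : ℕ × ℤ) (l : List Bool) : 0 ≤ cc l A := by
  induction l using List.reverseRecOn with
  | nil => rw [cc_nil]
  | append_singleton l b ih =>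
    by_cases h : vl b (fl l A) % 2 = 0
    · rw [cc_even h]; exact ih
    · rw [cc_odd h]
      have : (0 : ℤ) < 2 ^ l.length := by positivity
      omega

/-- The normalised constant. -/
noncomputable def gam (l : List Bool) (A : ℕ × ℤ) : ℝ := (cc l A : ℝ) / 2 ^ l.length

theorem gam_nonneg (l : List Bool) (A : ℕ × ℤ) : 0 ≤ gam l A := by
  unfold gam
  have : (0 : ℝ) ≤ cc l A := by exact_mod_cast cc_nonneg A l
  positivity

theorem gam_pair (l : List Bool) (A : ℕ × ℤ) :
    (gam (l ++ [false]) A + gam (l ++ [true]) A) / 2 = gam l A + 1 / 4 := by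
  have h2 : (0 : ℝ) < 2 ^ l.length := by positivity
  unfold gam
  simp only [List.length_append, List.length_singleton, pow_succ]
  rcases vl_cases (fl l A) with ⟨h0, h1⟩ | ⟨h0, h1⟩
  · rw [cc_even h0, cc_odd h1]
    push_cast
    field_simp
    ring
  · rw [cc_odd h0, cc_even h1]
    push_cast
    field_simp
    ring

/-- The mean of the constant. -/
theorem av_gam (A : ℕ × ℤ) (k : ℕ) : av k (fun l => gam l A) = k / 4 := by
  induction k with
  | zero => simp [av, gam, cc_nil]
  | succ k ih =>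
    rw [av_succ']
    simp only [gam_pair]
    rw [av_add, ih, av_const]
    push_cast; ring

/-- The generating function of the level. -/
theorem av_pow (A : ℕ × ℤ) (x : ℝ) (k : ℕ) : av k (fun l => x ^ dl l A) = ((1 + x) / 2) ^ k := by
  induction k with
  | zero => simp [av, dl, fl]
  | succ k ih =>
    rw [av_succ']
    have h : ∀ l : List Bool, (x ^ dl (l ++ [false]) A + x ^ dl (l ++ [true]) A) / 2 =
        ((1 + x) / 2) * x ^ dl l A := by
      intro l
      rcases vl_cases (fl l A) with ⟨h0, h1⟩ | ⟨h0, h1⟩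
      · rw [dl_even h0, dl_odd h1, pow_succ]; ring
      · rw [dl_odd h0, dl_even h1, pow_succ]; ring
    simp only [h]
    rw [av_smul, ih, pow_succ]; ring

/-- Markov's inequality for averages. -/
theorem av_markov {k : ℕ} {F : List Bool → ℝ} (hF : ∀ l, 0 ≤ F l) {c : ℝ} (hc : 0 < c) :
    av k (fun l => ind (c < F l)) ≤ av k F / c := by
  have h : av k (fun l => ind (c < F l)) ≤ av k (fun l => (1 / c) * F l) := by
    apply av_mono
    intro l _
    by_cases h : c < F l
    · rw [ind_pos h, one_div, inv_mul_eq_div, le_div_iff₀ hc]; linarith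
    · rw [ind_neg h]; have := hF l; positivity
  rw [av_smul] at h
  refine h.trans (le_of_eq ?_)
  ring

theorem av_gam_big (A : ℕ × ℤ) (k : ℕ) {c : ℝ} (hc : 0 < c) :
    av k (fun l => ind (c < gam l A)) ≤ k / (4 * c) := by
  refine (av_markov (F := fun l => gam l A) (fun l => gam_nonneg l A) hc).trans (le_of_eq ?_)
  rw [av_gam, div_div]

/-- The number of the lists with a given level and the constant in a given interval. -/
theorem count_gam (A : ℕ × ℤ) (k o : ℕ) (x lam : ℝ) (hlam : 0 ≤ lam) :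
    av k (fun l => ind ((fl l A).1 = o ∧ x ≤ gam l A ∧ gam l A ≤ x + lam)) ≤ lam + 1 / 2 ^ k := by
  classical
  have h2 : (0 : ℝ) < 2 ^ k := by positivity
  have h1 := sum_bits k (fun l => ind ((fl l A).1 = o ∧ x ≤ gam l A ∧ gam l A ≤ x + lam))
  set S := (range (2 ^ k)).filter (fun n => (fl (bits k n) A).1 = o ∧ x ≤ gam (bits k n) A ∧
    gam (bits k n) A ≤ x + lam) with hS
  have h3 : ∑ n ∈ range (2 ^ k), ind ((fl (bits k n) A).1 = o ∧ x ≤ gam (bits k n) A ∧
      gam (bits k n) A ≤ x + lam) = #S := by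
    rw [hS, card_filter]
    push_cast
    apply sum_congr rfl
    intro n _
    unfold ind
    congr
  rw [h3] at h1
  -- injection into the integers of an interval
  have hinj : Set.InjOn (fun n => cc (bits k n) A) (S : Set ℕ) := by
    intro n hn n' hn' h
    rw [mem_coe, hS, mem_filter, mem_range] at hn hn'
    have hd : dl (bits k n) A = dl (bits k n') A := by unfold dl; rw [hn.2.1, hn'.2.1]
    simp only [cc, length_bits] at h
    rw [hd, bv_bits_mod, bv_bits_mod, Nat.mod_eq_of_lt hn.1, Nat.mod_eq_of_lt hn'.1] at h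
    set d := dl (bits k n') A with hdd
    have h4 : (2 : ℤ) ^ k ∣ (3 ^ (d + A.1)) * ((n : ℤ) - n') := by
      refine ⟨(fl (bits k n) A).2 - (fl (bits k n') A).2, ?_⟩
      rw [pow_add]
      linear_combination (-1 : ℤ) * h
    have hcop : IsCoprime ((2 : ℤ) ^ k) (3 ^ (d + A.1)) := by
      apply IsCoprime.pow
      exact ⟨-1, 1, by norm_num⟩
    have h5 : (2 : ℤ) ^ k ∣ (n : ℤ) - n' := hcop.dvd_of_dvd_mul_left h4
    have hn1 : (n : ℤ) < 2 ^ k := by exact_mod_cast hn.1
    have hn2 : (n' : ℤ) < 2 ^ k := by exact_mod_cast hn'.1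
    have h6 : (n : ℤ) - n' = 0 := by
      apply Int.eq_zero_of_abs_lt_dvd h5
      rw [abs_lt]; constructor <;> omega
    omega
  have hmaps : ∀ n ∈ S, cc (bits k n) A ∈ Finset.Icc ⌈2 ^ k * x⌉ ⌊2 ^ k * (x + lam)⌋ := by
    intro n hn
    rw [hS, mem_filter, mem_range] at hn
    have hg : gam (bits k n) A = (cc (bits k n) A : ℝ) / 2 ^ k := by unfold gam; rw [length_bits]
    rw [hg] at hn
    rw [Finset.mem_Icc]
    constructor
    · apply Int.ceil_le.2
      have := hn.2.2.1
      rw [le_div_iff₀ h2] at this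
      linarith
    · apply Int.le_floor.2
      have := hn.2.2.2
      rw [div_le_iff₀ h2] at this
      linarith
  have h4 := card_le_card_of_injOn _ hmaps hinj
  rw [Int.card_Icc] at h4
  have h5 : (#S : ℝ) ≤ 2 ^ k * lam + 1 := by
    have h6 : ((⌊2 ^ k * (x + lam)⌋ + 1 - ⌈2 ^ k * x⌉).toNat : ℝ) ≤ 2 ^ k * lam + 1 := by
      rcases le_total 0 (⌊2 ^ k * (x + lam)⌋ + 1 - ⌈2 ^ k * x⌉) with h | h
      · have h7 : ((⌊2 ^ k * (x + lam)⌋ + 1 - ⌈2 ^ k * x⌉).toNat : ℝ) =
            ((⌊2 ^ k * (x + lam)⌋ + 1 - ⌈2 ^ k * x⌉ : ℤ) : ℝ) := by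
          exact_mod_cast congrArg (Int.cast : ℤ → ℝ) (Int.toNat_of_nonneg h)
        rw [h7]
        push_cast
        have h8 := Int.floor_le (2 ^ k * (x + lam))
        have h9 := Int.le_ceil (2 ^ k * x)
        linarith
      · rw [Int.toNat_of_nonpos h]
        push_cast
        positivity
    have h7 : (#S : ℝ) ≤ ((⌊2 ^ k * (x + lam)⌋ + 1 - ⌈2 ^ k * x⌉).toNat : ℝ) := by exact_mod_cast h4
    linarith
  rw [h1] at h5
  have h6 : (av k fun l => ind ((fl l A).1 = o ∧ x ≤ gam l A ∧ gam l A ≤ x + lam)) ≤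
      (2 ^ k * lam + 1) / 2 ^ k := by
    rw [le_div_iff₀ h2]; linarith
  refine h6.trans (le_of_eq ?_)
  field_simp

end Pool.Agent.K7.H66.CW
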