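import Pool.Agent.K7.H66.CW.C

/-!
Coalescence in the critical window, part 4: the law of the offset at a high level is spread out, and
so the moves of the chain follow the fair clock.
-/

set_option autoImplicit false

namespace Pool.Agent.K7.H66.CW

open Finset Pool.Agent.H499R2.CO Pool.Agent.W38.CR

theorem cc_rel {l : List Bool} {A B : ℕ × ℤ} {i : ℕ} (h : (fl l A).1 + i = (fl l B).1) {r : ℤ}
    (hr : (fl l B).2 - 3 ^ i * (fl l A).2 = r) :
    3 ^ i * cc l A = cc l B - 2 ^ l.length * r + 3 ^ dl l B * B.2 - 3 ^ (i + dl l A) * A.2 := by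
  unfold cc
  have h1 : (3 : ℤ) ^ dl l B * 3 ^ B.1 = 3 ^ i * (3 ^ dl l A * 3 ^ A.1) := by
    rw [← pow_add, ← pow_add, ← pow_add]
    congr 1
    have := dl_add l A
    have := dl_add l B
    omega
  rw [← hr, pow_add]
  linear_combination (bv l) * h1

theorem gam_rel {l : List Bool} {A B : ℕ × ℤ} {i : ℕ} (h : (fl l A).1 + i = (fl l B).1) {r : ℤ}
    (hr : (fl l B).2 - 3 ^ i * (fl l A).2 = r) :
    3 ^ i * gam l A = gam l B - r + 3 ^ dl l B * B.2 / 2 ^ l.length -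
      3 ^ (i + dl l A) * A.2 / 2 ^ l.length := by
  have h1 := cc_rel h hr
  have h2 : (0 : ℝ) < 2 ^ l.length := by positivity
  have h3 : (3 : ℝ) ^ i * cc l A = cc l B - 2 ^ l.length * r + 3 ^ dl l B * B.2 -
      3 ^ (i + dl l A) * A.2 := by exact_mod_cast h1
  unfold gam
  field_simp
  linear_combination h3

/-- The two cases for the state of a pair. -/
theorem st_cases {A B : ℕ × ℤ} {i : ℕ} {r : ℤ} (h : st A B = (i, r)) :
    (A.1 + i = B.1 ∧ B.2 - 3 ^ i * A.2 = r) ∨ (B.1 + i = A.1 ∧ A.2 - 3 ^ i * B.2 = r) := by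
  unfold st at h
  split_ifs at h with h1
  · rw [Prod.mk.injEq] at h
    left
    obtain ⟨ha, hb⟩ := h
    rw [ha] at hb
    exact ⟨by omega, hb⟩
  · rw [Prod.mk.injEq] at h
    right
    obtain ⟨ha, hb⟩ := h
    rw [ha] at hb
    exact ⟨by omega, hb⟩

/-- One side of the bound for the probability of a state. -/
theorem side_count (A B : ℕ × ℤ) (k i : ℕ) (r : ℤ) (Bd : ℕ) :
    av k (fun l => ind (((fl l A).1 + i = (fl l B).1 ∧ (fl l B).2 - 3 ^ i * (fl l A).2 = r) ∧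
      gam l B ≤ Bd)) ≤ (k + 1) * ((Bd : ℝ) / 3 ^ i + 1 / 2 ^ k) := by
  have h3 : (0 : ℝ) < 3 ^ i := by positivity
  set x : ℕ → ℝ := fun o => (-(r : ℝ) + 3 ^ (A.1 + o + i - B.1) * B.2 / 2 ^ k -
      3 ^ (i + o) * A.2 / 2 ^ k) / 3 ^ i with hx
  have h1 : av k (fun l => ind (((fl l A).1 + i = (fl l B).1 ∧ (fl l B).2 - 3 ^ i * (fl l A).2 = r) ∧
      gam l B ≤ Bd)) ≤ av k (fun l => ∑ o ∈ range (k + 1), ind ((fl l A).1 = A.1 + o ∧
        x o ≤ gam l A ∧ gam l A ≤ x o + (Bd : ℝ) / 3 ^ i)) := by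
    apply av_mono
    intro l hl
    by_cases h : ((fl l A).1 + i = (fl l B).1 ∧ (fl l B).2 - 3 ^ i * (fl l A).2 = r) ∧ gam l B ≤ Bd
    · rw [ind_pos h]
      obtain ⟨⟨ha, hb⟩, hc⟩ := h
      have hd := dl_le l A
      rw [hl] at hd
      have hda := dl_add l A
      have hdb := dl_add l B
      have h4 := gam_rel ha hb
      rw [hl] at h4
      have h5 : dl l B = A.1 + dl l A + i - B.1 := by omega
      rw [h5] at h4
      have h6 : 3 ^ i * x (dl l A) = -(r : ℝ) + 3 ^ (A.1 + dl l A + i - B.1) * B.2 / 2 ^ k -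
          3 ^ (i + dl l A) * A.2 / 2 ^ k := by
        rw [hx]; field_simp
      have h7 := gam_nonneg l B
      have hmem : dl l A ∈ range (k + 1) := by rw [mem_range]; omega
      refine le_trans ?_ (single_le_sum (f := fun o => ind ((fl l A).1 = A.1 + o ∧
        x o ≤ gam l A ∧ gam l A ≤ x o + (Bd : ℝ) / 3 ^ i)) (fun o _ => ind_nonneg _) hmem)
      rw [ind_pos]
      refine ⟨by omega, ?_, ?_⟩
      · have : 3 ^ i * x (dl l A) ≤ 3 ^ i * gam l A := by rw [h6, h4]; linarith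
        exact le_of_mul_le_mul_left this h3
      · have : 3 ^ i * gam l A ≤ 3 ^ i * (x (dl l A) + (Bd : ℝ) / 3 ^ i) := by
          rw [mul_add, h6, h4]
          have : 3 ^ i * ((Bd : ℝ) / 3 ^ i) = Bd := by field_simp
          linarith
        exact le_of_mul_le_mul_left this h3
    · rw [ind_neg h]
      exact sum_nonneg (fun o _ => ind_nonneg _)
  refine h1.trans ?_
  rw [av_sum]
  calc ∑ o ∈ range (k + 1), av k (fun l => ind ((fl l A).1 = A.1 + o ∧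
        x o ≤ gam l A ∧ gam l A ≤ x o + (Bd : ℝ) / 3 ^ i)) ≤
      ∑ o ∈ range (k + 1), ((Bd : ℝ) / 3 ^ i + 1 / 2 ^ k) :=
        sum_le_sum (fun o _ => count_gam A k _ _ _ (by positivity))
    _ = (k + 1) * ((Bd : ℝ) / 3 ^ i + 1 / 2 ^ k) := by
        rw [sum_const, card_range, nsmul_eq_mul]; push_cast; ring

/-- The law of the state is spread out: every offset at the level `i` has probability at most
`3 ^ (-i)`, up to a polynomial factor. -/
theorem state_count (A B : ℕ × ℤ) (k i : ℕ) (r : ℤ) (Bd : ℕ) :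
    av k (fun l => ind (st (fl l A) (fl l B) = (i, r) ∧ gam l A ≤ Bd ∧ gam l B ≤ Bd)) ≤
      2 * (k + 1) * ((Bd : ℝ) / 3 ^ i + 1 / 2 ^ k) := by
  have h1 : av k (fun l => ind (st (fl l A) (fl l B) = (i, r) ∧ gam l A ≤ Bd ∧ gam l B ≤ Bd)) ≤
      av k (fun l => ind (((fl l A).1 + i = (fl l B).1 ∧ (fl l B).2 - 3 ^ i * (fl l A).2 = r) ∧
        gam l B ≤ Bd) + ind (((fl l B).1 + i = (fl l A).1 ∧ (fl l A).2 - 3 ^ i * (fl l B).2 = r) ∧
        gam l A ≤ Bd)) := by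
    apply av_mono
    intro l _
    by_cases h : st (fl l A) (fl l B) = (i, r) ∧ gam l A ≤ Bd ∧ gam l B ≤ Bd
    · rw [ind_pos h]
      rcases st_cases h.1 with h2 | h2
      · rw [ind_pos ⟨h2, h.2.2⟩]
        have := ind_nonneg (((fl l B).1 + i = (fl l A).1 ∧ (fl l A).2 - 3 ^ i * (fl l B).2 = r) ∧
          gam l A ≤ Bd)
        linarith
      · rw [ind_pos (p := ((fl l B).1 + i = (fl l A).1 ∧ (fl l A).2 - 3 ^ i * (fl l B).2 = r) ∧
          gam l A ≤ Bd) ⟨h2, h.2.1⟩]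
        have := ind_nonneg (((fl l A).1 + i = (fl l B).1 ∧ (fl l B).2 - 3 ^ i * (fl l A).2 = r) ∧
          gam l B ≤ Bd)
        linarith
    · rw [ind_neg h]
      exact add_nonneg (ind_nonneg _) (ind_nonneg _)
  refine h1.trans ?_
  rw [av_add]
  have e1 := side_count A B k i r Bd
  have e2 := side_count B A k i r Bd
  linarith

/-- The size of the offset. -/
theorem r_bound {l : List Bool} {A B : ℕ × ℤ} {i : ℕ} (h : (fl l A).1 + i = (fl l B).1) {r : ℤ}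
    (hr : (fl l B).2 - 3 ^ i * (fl l A).2 = r) {Bd : ℕ} (hA : gam l A ≤ Bd) (hB : gam l B ≤ Bd)
    (hA' : 3 ^ dl l A * |(A.2 : ℝ)| ≤ 2 ^ l.length) (hB' : 3 ^ dl l B * |(B.2 : ℝ)| ≤ 2 ^ l.length) :
    |r| ≤ 2 * 3 ^ i * (Bd + 1) := by
  have h1 := gam_rel h hr
  have h2 : (0 : ℝ) < 2 ^ l.length := by positivity
  have h3 : (1 : ℝ) ≤ 3 ^ i := one_le_pow₀ (by norm_num)
  have g1 := gam_nonneg l A
  have g2 := gam_nonneg l B
  have e1 : |3 ^ dl l B * (B.2 : ℝ) / 2 ^ l.length| ≤ 1 := by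
    rw [abs_div, abs_mul, abs_of_pos h2, div_le_one h2, abs_of_pos (by positivity)]; exact hB'
  have e2 : |3 ^ (i + dl l A) * (A.2 : ℝ) / 2 ^ l.length| ≤ 3 ^ i := by
    rw [abs_div, abs_mul, abs_of_pos h2, div_le_iff₀ h2, abs_of_pos (show (0 : ℝ) < 3 ^ (i + dl l A) by positivity),
      pow_add, mul_assoc]
    exact mul_le_mul_of_nonneg_left hA' (by positivity)
  rw [abs_le] at e1 e2
  have e3 : 3 ^ i * gam l A ≤ 3 ^ i * Bd := mul_le_mul_of_nonneg_left hA (by positivity)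
  have e4 : 0 ≤ 3 ^ i * gam l A := by positivity
  have hBd : (0 : ℝ) ≤ Bd := by positivity
  have e5 : (Bd : ℝ) ≤ 3 ^ i * Bd := by nlinarith
  have h4 : |(r : ℝ)| ≤ 2 * 3 ^ i * (Bd + 1) := by
    rw [abs_le]
    constructor <;> linarith
  have h5 : (|r| : ℝ) ≤ ((2 * 3 ^ i * (Bd + 1) : ℤ) : ℝ) := by push_cast; exact h4
  exact_mod_cast h5

/-- The error in one block. -/
theorem block_err {β : ℕ × ℤ → ℝ} {κ K : ℕ} {τ : ℝ} (hτ : 0 ≤ τ) (h0 : ∀ s, 0 ≤ β s) (h1 : ∀ s, β s ≤ 1)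
    (hκ : ∀ s : ℕ × ℤ, s.1 ≤ κ → β s = 0)
    (hper : ∀ i, κ < i → ∀ r m : ℤ, β (i, r + m * 2 ^ K) = β (i, r))
    (hsum : ∀ i, κ < i → ∑ u ∈ range (2 ^ K), β (i, (u : ℤ)) ≤ 2 ^ K * τ) (hK : K ≤ κ)
    (A B : ℕ × ℤ) (k : ℕ) (Bd : ℕ) (hBd : 1 ≤ Bd) :
    av k (fun l => β (st (fl l A) (fl l B))) ≤
      av k (fun l => ind ((Bd : ℝ) < gam l A)) + av k (fun l => ind ((Bd : ℝ) < gam l B)) +
      av k (fun l => ind ((2 : ℝ) ^ k < 3 ^ dl l A * |(A.2 : ℝ)|)) +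
      av k (fun l => ind ((2 : ℝ) ^ k < 3 ^ dl l B * |(B.2 : ℝ)|)) +
      av k (fun l => ind (k < 2 * (st (fl l A) (fl l B)).1)) + 80 * (k : ℝ) ^ 2 * Bd ^ 2 * τ := by
  classical
  have hBr : (1 : ℝ) ≤ Bd := by exact_mod_cast hBd
  set n : ℕ → ℕ := fun i => 2 * 3 ^ i * (Bd + 1) with hn
  set J : List Bool → ℝ := fun l => ∑ i ∈ Finset.Ioc κ (k / 2), ∑ r ∈ Finset.Ico (-(n i : ℤ)) (-(n i : ℤ) + ((2 * n i + 1 : ℕ) : ℤ)),
    β (i, r) * ind (st (fl l A) (fl l B) = (i, r) ∧ gam l A ≤ Bd ∧ gam l B ≤ Bd) with hJ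
  have hpt : ∀ l : List Bool, l.length = k → β (st (fl l A) (fl l B)) ≤
      ((((ind ((Bd : ℝ) < gam l A) + ind ((Bd : ℝ) < gam l B)) +
      ind ((2 : ℝ) ^ k < 3 ^ dl l A * |(A.2 : ℝ)|)) +
      ind ((2 : ℝ) ^ k < 3 ^ dl l B * |(B.2 : ℝ)|)) +
      ind (k < 2 * (st (fl l A) (fl l B)).1)) + J l := by
    intro l hl
    have hJ0 : 0 ≤ J l := sum_nonneg (fun i _ => sum_nonneg (fun r _ => mul_nonneg (h0 _) (ind_nonneg _)))
    have i1 := ind_nonneg ((Bd : ℝ) < gam l A)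
    have i2 := ind_nonneg ((Bd : ℝ) < gam l B)
    have i3 := ind_nonneg ((2 : ℝ) ^ k < 3 ^ dl l A * |(A.2 : ℝ)|)
    have i4 := ind_nonneg ((2 : ℝ) ^ k < 3 ^ dl l B * |(B.2 : ℝ)|)
    have i5 := ind_nonneg (k < 2 * (st (fl l A) (fl l B)).1)
    have hb1 := h1 (st (fl l A) (fl l B))
    by_cases c1 : (Bd : ℝ) < gam l A
    · rw [ind_pos c1]; linarith
    by_cases c2 : (Bd : ℝ) < gam l B
    · rw [ind_pos c2]; linarith
    by_cases c3 : (2 : ℝ) ^ k < 3 ^ dl l A * |(A.2 : ℝ)|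
    · rw [ind_pos c3]; linarith
    by_cases c4 : (2 : ℝ) ^ k < 3 ^ dl l B * |(B.2 : ℝ)|
    · rw [ind_pos c4]; linarith
    by_cases c5 : k < 2 * (st (fl l A) (fl l B)).1
    · rw [ind_pos c5]; linarith
    push Not at c1 c2 c3 c4 c5
    by_cases c6 : (st (fl l A) (fl l B)).1 ≤ κ
    · rw [hκ _ c6]; linarith
    push Not at c6
    obtain ⟨⟨i, r⟩, hir⟩ : ∃ s : ℕ × ℤ, st (fl l A) (fl l B) = s := ⟨_, rfl⟩
    rw [hir] at c5 c6 i5 ⊢
    simp only at c5 c6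
    have hr : |r| ≤ 2 * 3 ^ i * (Bd + 1) := by
      rcases st_cases hir with h2 | h2
      · exact r_bound h2.1 h2.2 c1 c2 (by rw [hl]; exact c3) (by rw [hl]; exact c4)
      · exact r_bound h2.1 h2.2 c2 c1 (by rw [hl]; exact c4) (by rw [hl]; exact c3)
    have hni : (n i : ℤ) = 2 * 3 ^ i * (Bd + 1) := by rw [hn]; push_cast; ring
    rw [← hni, abs_le] at hr
    have hle : β (i, r) ≤ J l := by
      have e1 : β (i, r) = β (i, r) * ind (st (fl l A) (fl l B) = (i, r) ∧ gam l A ≤ Bd ∧ gam l B ≤ Bd) := by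
        rw [ind_pos ⟨hir, c1, c2⟩, mul_one]
      rw [e1]
      have hmem1 : i ∈ Finset.Ioc κ (k / 2) := by rw [Finset.mem_Ioc]; omega
      have hmem2 : r ∈ Finset.Ico (-(n i : ℤ)) (-(n i : ℤ) + ((2 * n i + 1 : ℕ) : ℤ)) := by
        rw [Finset.mem_Ico]; push_cast; omega
      have e2 := single_le_sum (f := fun r => β (i, r) * ind (st (fl l A) (fl l B) = (i, r) ∧ gam l A ≤ Bd ∧ gam l B ≤ Bd))
        (fun r _ => mul_nonneg (h0 _) (ind_nonneg _)) hmem2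
      have e3 := single_le_sum (f := fun i => ∑ r ∈ Finset.Ico (-(n i : ℤ)) (-(n i : ℤ) + ((2 * n i + 1 : ℕ) : ℤ)),
        β (i, r) * ind (st (fl l A) (fl l B) = (i, r) ∧ gam l A ≤ Bd ∧ gam l B ≤ Bd))
        (fun i _ => sum_nonneg (fun r _ => mul_nonneg (h0 _) (ind_nonneg _))) hmem1
      exact e2.trans e3
    linarith
  have hav := av_mono (k := k) hpt
  rw [av_add, av_add, av_add, av_add, av_add] at hav
  have hJav : av k J ≤ 80 * (k : ℝ) ^ 2 * Bd ^ 2 * τ := by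
    rw [hJ, av_sum]
    have hterm : ∀ i ∈ Finset.Ioc κ (k / 2), av k (fun l => ∑ r ∈ Finset.Ico (-(n i : ℤ)) (-(n i : ℤ) + ((2 * n i + 1 : ℕ) : ℤ)),
        β (i, r) * ind (st (fl l A) (fl l B) = (i, r) ∧ gam l A ≤ Bd ∧ gam l B ≤ Bd)) ≤
        40 * (k + 1) * Bd ^ 2 * τ := by
      intro i hi
      rw [Finset.mem_Ioc] at hi
      rw [av_sum]
      have e1 : ∀ r ∈ Finset.Ico (-(n i : ℤ)) (-(n i : ℤ) + ((2 * n i + 1 : ℕ) : ℤ)),
          av k (fun l => β (i, r) * ind (st (fl l A) (fl l B) = (i, r) ∧ gam l A ≤ Bd ∧ gam l B ≤ Bd)) ≤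
          β (i, r) * (2 * (k + 1) * ((Bd : ℝ) / 3 ^ i + 1 / 2 ^ k)) := by
        intro r _
        rw [av_smul]
        exact mul_le_mul_of_nonneg_left (state_count A B k i r Bd) (h0 _)
      refine (sum_le_sum e1).trans ?_
      rw [← sum_mul]
      set S := ∑ u ∈ range (2 ^ K), β (i, (u : ℤ)) with hS
      have e2 := per_sum_le (F := fun r => β (i, r)) (fun r => h0 _) (k := K) (fun r m => hper i hi.1 r m)
        (S := S) rfl (-(n i : ℤ)) (2 * n i + 1)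
      have hS1 : S ≤ 2 ^ K * τ := hsum i hi.1
      have p2 : (0 : ℝ) < 2 ^ K := by positivity
      have p3 : (0 : ℝ) < 3 ^ i := by positivity
      have hle23 : (2 : ℝ) ^ K ≤ 3 ^ i := by
        calc (2 : ℝ) ^ K ≤ 3 ^ K := pow_le_pow_left₀ (by norm_num) (by norm_num) K
          _ ≤ 3 ^ i := pow_le_pow_right₀ (by norm_num) (by omega)
      have h31 : (1 : ℝ) ≤ 3 ^ i := one_le_pow₀ (by norm_num)
      have hnr : (n i : ℝ) = 2 * 3 ^ i * (Bd + 1) := by rw [hn]; push_cast; ring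
      have e3 : ∑ r ∈ Finset.Ico (-(n i : ℤ)) (-(n i : ℤ) + ((2 * n i + 1 : ℕ) : ℤ)), β (i, r) ≤
          10 * 3 ^ i * Bd * τ := by
        refine e2.trans ?_
        have e4 : (((2 * n i + 1 : ℕ) : ℝ) / 2 ^ K + 1) * S ≤ (((2 * n i + 1 : ℕ) : ℝ) / 2 ^ K + 1) * (2 ^ K * τ) :=
          mul_le_mul_of_nonneg_left hS1 (by positivity)
        refine e4.trans ?_
        have e5 : (((2 * n i + 1 : ℕ) : ℝ) / 2 ^ K + 1) * (2 ^ K * τ) = (2 * n i + 1 + 2 ^ K) * τ := by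
          push_cast; field_simp
        rw [e5, hnr]
        apply mul_le_mul_of_nonneg_right _ hτ
        nlinarith
      have hpos : (0 : ℝ) ≤ 2 * (k + 1) * ((Bd : ℝ) / 3 ^ i + 1 / 2 ^ k) := by positivity
      refine (mul_le_mul_of_nonneg_right e3 hpos).trans ?_
      have h32 : (3 : ℝ) ^ i ≤ 2 ^ k := by
        calc (3 : ℝ) ^ i ≤ 3 ^ (k / 2) := pow_le_pow_right₀ (by norm_num) hi.2
          _ ≤ 4 ^ (k / 2) := pow_le_pow_left₀ (by norm_num) (by norm_num) _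
          _ = 2 ^ (2 * (k / 2)) := by rw [pow_mul]; norm_num
          _ ≤ 2 ^ k := pow_le_pow_right₀ (by norm_num) (by omega)
      have e6 : 3 ^ i * ((Bd : ℝ) / 3 ^ i + 1 / 2 ^ k) ≤ 2 * Bd := by
        have : 3 ^ i * ((Bd : ℝ) / 3 ^ i + 1 / 2 ^ k) = Bd + 3 ^ i / 2 ^ k := by field_simp
        rw [this]
        have : (3 : ℝ) ^ i / 2 ^ k ≤ 1 := by rw [div_le_one (by positivity)]; exact h32
        linarith
      calc 10 * 3 ^ i * Bd * τ * (2 * (k + 1) * ((Bd : ℝ) / 3 ^ i + 1 / 2 ^ k)) =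
          (20 * (k + 1) * Bd * τ) * (3 ^ i * ((Bd : ℝ) / 3 ^ i + 1 / 2 ^ k)) := by ring
        _ ≤ (20 * (k + 1) * Bd * τ) * (2 * Bd) := mul_le_mul_of_nonneg_left e6 (by positivity)
        _ = 40 * (k + 1) * Bd ^ 2 * τ := by ring
    refine (sum_le_sum hterm).trans ?_
    rw [sum_const, Nat.card_Ioc, nsmul_eq_mul]
    have hX : 0 ≤ 40 * ((k : ℝ) + 1) * Bd ^ 2 * τ := by positivity
    rcases Nat.eq_zero_or_pos k with rfl | hk
    · simp
    · have hk1 : (1 : ℝ) ≤ k := by exact_mod_cast hk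
      have hc : ((k / 2 - κ : ℕ) : ℝ) ≤ k := by exact_mod_cast (by omega : k / 2 - κ ≤ k)
      calc ((k / 2 - κ : ℕ) : ℝ) * (40 * (k + 1) * Bd ^ 2 * τ) ≤ k * (40 * (k + 1) * Bd ^ 2 * τ) :=
            mul_le_mul_of_nonneg_right hc hX
        _ ≤ k * (40 * (2 * k) * Bd ^ 2 * τ) := by
            apply mul_le_mul_of_nonneg_left _ (by positivity)
            have : 40 * ((k : ℝ) + 1) ≤ 40 * (2 * k) := by linarith
            have h5 : (0 : ℝ) ≤ Bd ^ 2 * τ := by positivity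
            calc 40 * ((k : ℝ) + 1) * Bd ^ 2 * τ = 40 * ((k : ℝ) + 1) * (Bd ^ 2 * τ) := by ring
              _ ≤ 40 * (2 * k) * (Bd ^ 2 * τ) := mul_le_mul_of_nonneg_right this h5
              _ = _ := by ring
        _ = 80 * (k : ℝ) ^ 2 * Bd ^ 2 * τ := by ring
  linarith

end Pool.Agent.K7.H66.CW
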