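import Pool.Agent.K7.H66.CW.D

/-!
Coalescence in the critical window, part 5: the moves of the chain follow the fair clock.
-/

set_option autoImplicit false

namespace Pool.Agent.K7.H66.CW

open Finset Pool.Agent.H499R2.CO Pool.Agent.W38.CR

/-- The event that the coefficient has not been forgotten. -/
theorem av_coef (A : ℕ × ℤ) (k : ℕ) :
    av k (fun l => ind ((2 : ℝ) ^ k < 3 ^ dl l A * |(A.2 : ℝ)|)) ≤ √ |(A.2 : ℝ)| * 0.966 ^ k := by
  have h3 : √ (3 : ℝ) ≤ 1.73206 := by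
    rw [Real.sqrt_le_left (by norm_num)]; norm_num
  have h2 : 1.41421 ≤ √ (2 : ℝ) := by
    apply Real.le_sqrt_of_sq_le; norm_num
  have hs2 : (0 : ℝ) < √ 2 := by positivity
  have h1 : av k (fun l => ind ((2 : ℝ) ^ k < 3 ^ dl l A * |(A.2 : ℝ)|)) ≤
      av k (fun l => (√ |(A.2 : ℝ)| / √ 2 ^ k) * √ 3 ^ dl l A) := by
    apply av_mono
    intro l _
    by_cases h : (2 : ℝ) ^ k < 3 ^ dl l A * |(A.2 : ℝ)|
    · rw [ind_pos h]
      have e := Real.sqrt_le_sqrt h.le
      rw [Real.sqrt_mul (by positivity)] at e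
      have e3 : √ ((3 : ℝ) ^ dl l A) = √ 3 ^ dl l A := by
        rw [Real.sqrt_eq_iff_mul_self_eq (by positivity) (by positivity), ← mul_pow,
          Real.mul_self_sqrt (by norm_num)]
      have e2 : √ ((2 : ℝ) ^ k) = √ 2 ^ k := by
        rw [Real.sqrt_eq_iff_mul_self_eq (by positivity) (by positivity), ← mul_pow,
          Real.mul_self_sqrt (by norm_num)]
      rw [e3, e2] at e
      rw [div_mul_eq_mul_div, le_div_iff₀ (by positivity), one_mul]
      linarith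
    · rw [ind_neg h]; positivity
  refine h1.trans ?_
  rw [av_smul, av_pow]
  have e : √ |(A.2 : ℝ)| / √ 2 ^ k * ((1 + √ 3) / 2) ^ k = √ |(A.2 : ℝ)| * (((1 + √ 3) / 2) / √ 2) ^ k := by
    rw [div_pow ((1 + √ 3) / 2)]; ring
  rw [e]
  apply mul_le_mul_of_nonneg_left _ (Real.sqrt_nonneg _)
  apply pow_le_pow_left₀ (by positivity)
  rw [div_le_iff₀ hs2]
  linarith

theorem exp_half : 1.648 ≤ Real.exp (1 / 2) ∧ Real.exp (1 / 2) ≤ 1.649 := by
  have h : Real.exp (1 / 2) ^ 2 = Real.exp 1 := by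
    rw [← Real.exp_nat_mul]; norm_num
  have h1 := Real.exp_one_gt_d9
  have h2 := Real.exp_one_lt_d9
  have h0 := Real.exp_pos (1 / 2)
  constructor
  · apply le_of_sq_le_sq _ h0.le; rw [h]; linarith
  · apply le_of_sq_le_sq _ (by norm_num); rw [h]; linarith

theorem cosh_one_le : Real.cosh 1 ≤ 0.95 * Real.exp (1 / 2) := by
  obtain ⟨h1, h2⟩ := exp_half
  have h : Real.exp (1 / 2) * Real.exp (1 / 2) = Real.exp 1 := by
    rw [← Real.exp_add]; norm_num
  rw [Real.cosh_eq, Real.exp_neg, ← h]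
  set y := Real.exp (1 / 2)
  have hy : 0 < y := by linarith
  have e : (y * y + (y * y)⁻¹) / 2 = (y ^ 4 + 1) / (2 * y ^ 2) := by field_simp
  rw [e, div_le_iff₀ (by positivity)]
  nlinarith [mul_pos hy hy, mul_nonneg (sub_nonneg.2 h1) (sub_nonneg.2 h2), sq_nonneg y]

/-- The event that the levels are far apart. -/
theorem av_high (A B : ℕ × ℤ) (k : ℕ) :
    av k (fun l => ind (k < 2 * (st (fl l A) (fl l B)).1)) ≤
      2 * Real.exp ((st A B).1) * 0.95 ^ k := by
  have hc : 0 < Real.cosh ((k : ℝ) / 2) := Real.cosh_pos _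
  have h1 : av k (fun l => ind (k < 2 * (st (fl l A) (fl l B)).1)) ≤
      av k (fun l => (1 / Real.cosh ((k : ℝ) / 2)) * ch 1 (st (fl l A) (fl l B))) := by
    apply av_mono
    intro l _
    have hch := ch_pos 1 (st (fl l A) (fl l B))
    by_cases h : k < 2 * (st (fl l A) (fl l B)).1
    · rw [ind_pos h, one_div, inv_mul_eq_div, le_div_iff₀ hc, one_mul]
      unfold ch
      rw [Real.cosh_le_cosh, abs_of_nonneg (by positivity), abs_of_nonneg (by positivity)]
      have h' : (k : ℝ) ≤ 2 * ((st (fl l A) (fl l B)).1 : ℝ) := by exact_mod_cast h.le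
      linarith
    · rw [ind_neg h]; positivity
  refine h1.trans ?_
  rw [av_smul, av_pair (Ev_ch 1)]
  have h2 := P_iter_ch 1 k (st A B)
  have h3 : ch 1 (st A B) ≤ Real.exp ((st A B).1) := by
    unfold ch
    rw [one_mul, Real.cosh_eq]
    have : Real.exp (-((st A B).1 : ℝ)) ≤ Real.exp ((st A B).1) := by
      apply Real.exp_le_exp.2
      have : (0 : ℝ) ≤ (st A B).1 := by positivity
      linarith
    linarith
  have h4 : Real.exp ((k : ℝ) / 2) / 2 ≤ Real.cosh ((k : ℝ) / 2) := by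
    rw [Real.cosh_eq]
    have := Real.exp_pos (-((k : ℝ) / 2))
    linarith
  have h5 : Real.exp ((k : ℝ) / 2) = Real.exp (1 / 2) ^ k := by
    rw [← Real.exp_nat_mul]; congr 1; ring
  have hcp := Real.cosh_pos 1
  have hE := Real.exp_pos ((st A B).1 : ℝ)
  rw [one_div, inv_mul_eq_div, div_le_iff₀ hc]
  refine h2.trans ?_
  have h6 : Real.cosh 1 ^ k ≤ (0.95 * Real.exp (1 / 2)) ^ k :=
    pow_le_pow_left₀ hcp.le cosh_one_le k
  calc Real.cosh 1 ^ k * ch 1 (st A B) ≤ (0.95 * Real.exp (1 / 2)) ^ k * Real.exp ((st A B).1) :=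
        mul_le_mul h6 h3 (ch_pos _ _).le (by positivity)
    _ = 2 * Real.exp ((st A B).1) * 0.95 ^ k * (Real.exp ((k : ℝ) / 2) / 2) := by
        rw [mul_pow, h5]; ring
    _ ≤ 2 * Real.exp ((st A B).1) * 0.95 ^ k * Real.cosh ((k : ℝ) / 2) :=
        mul_le_mul_of_nonneg_left h4 (by positivity)

/-- The error in one block, final form. -/
theorem block_bd {β : ℕ × ℤ → ℝ} {κ K : ℕ} {τ : ℝ} (hτ : 0 ≤ τ) (h0 : ∀ s, 0 ≤ β s) (h1 : ∀ s, β s ≤ 1)
    (hκ : ∀ s : ℕ × ℤ, s.1 ≤ κ → β s = 0)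
    (hper : ∀ i, κ < i → ∀ r m : ℤ, β (i, r + m * 2 ^ K) = β (i, r))
    (hsum : ∀ i, κ < i → ∑ u ∈ range (2 ^ K), β (i, (u : ℤ)) ≤ 2 ^ K * τ) (hK : K ≤ κ)
    (A B : ℕ × ℤ) (k : ℕ) (Bd : ℕ) (hBd : 1 ≤ Bd) :
    (P^[k] β) (st A B) ≤ (k : ℝ) / (2 * Bd) + (√ |(A.2 : ℝ)| + √ |(B.2 : ℝ)|) * 0.966 ^ k +
      2 * Real.exp ((st A B).1) * 0.95 ^ k + 80 * (k : ℝ) ^ 2 * Bd ^ 2 * τ := by
  have hEv : Ev β := by
    intro r
    rw [hκ (0, -r) (by simp), hκ (0, r) (by simp)]
  rw [← av_pair hEv]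
  have hB : (0 : ℝ) < Bd := by exact_mod_cast hBd
  have e1 := block_err hτ h0 h1 hκ hper hsum hK A B k Bd hBd
  have e2 := av_gam_big A k hB
  have e3 := av_gam_big B k hB
  have e4 := av_coef A k
  have e5 := av_coef B k
  have e6 := av_high A B k
  have e7 : (k : ℝ) / (4 * Bd) + k / (4 * Bd) = k / (2 * Bd) := by
    field_simp; ring
  linarith

theorem P_def (F : ℕ × ℤ → ℝ) (s : ℕ × ℤ) : P F s = (F (step s false) + F (step s true)) / 2 := rfl

theorem P_iter_sum (k : ℕ) {ι : Type*} (s : Finset ι) (F : ι → ℕ × ℤ → ℝ) (x : ℕ × ℤ) :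
    (P^[k] (fun x => ∑ i ∈ s, F i x)) x = ∑ i ∈ s, (P^[k] (F i)) x := by
  induction k generalizing x with
  | zero => rfl
  | succ k ih =>
    rw [Function.iterate_succ_apply', P_def, ih, ih, ← sum_add_distrib, sum_div]
    apply sum_congr rfl
    intro i _
    rw [Function.iterate_succ_apply', P_def]

theorem P_iter_add (k : ℕ) (F G : ℕ × ℤ → ℝ) (x : ℕ × ℤ) :
    (P^[k] (fun x => F x + G x)) x = (P^[k] F) x + (P^[k] G) x := by
  induction k generalizing x with
  | zero => rfl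
  | succ k ih =>
    rw [Function.iterate_succ_apply', Function.iterate_succ_apply', Function.iterate_succ_apply',
      P_def, P_def, P_def, ih, ih]
    ring

theorem P_iter_smul (k : ℕ) (c : ℝ) (F : ℕ × ℤ → ℝ) (x : ℕ × ℤ) :
    (P^[k] (fun x => c * F x)) x = c * (P^[k] F) x := by
  induction k generalizing x with
  | zero => rfl
  | succ k ih =>
    rw [Function.iterate_succ_apply', Function.iterate_succ_apply', P_def, P_def, ih, ih]
    ring

theorem P_iter_const (k : ℕ) (c : ℝ) (x : ℕ × ℤ) : (P^[k] (fun _ => c)) x = c := by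
  induction k generalizing x with
  | zero => rfl
  | succ k ih =>
    rw [Function.iterate_succ_apply', P_def, ih, ih]
    ring

/-- Only the states above `κ`. -/
noncomputable def cut (κ : ℕ) (F : ℕ × ℤ → ℝ) (s : ℕ × ℤ) : ℝ := if κ < s.1 then F s else 0

theorem cut_nonneg {κ : ℕ} {F : ℕ × ℤ → ℝ} (h : ∀ s, 0 ≤ F s) (s : ℕ × ℤ) : 0 ≤ cut κ F s := by
  unfold cut; split_ifs
  · exact h s
  · exact le_rfl

/-- Block by block. -/
theorem hi_iter (κ K v : ℕ) : ∀ (n m : ℕ), n * v ≤ m → ∀ s : ℕ × ℤ,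
    hi κ (n * K) m s ≤ ∑ j ∈ range n, (P^[j * K] (cut κ (hb K v))) s := by
  intro n
  induction n with
  | zero => intro m _ s; simp [hi]
  | succ n ih =>
    intro m hm s
    have hvm : v ≤ m := by nlinarith
    have hnm : n * v ≤ m - v := by
      have : (n + 1) * v = n * v + v := by ring
      omega
    by_cases h : κ < s.1
    · have h1 := hi_block κ (n * K) K v m hvm s
      have h2 := P_iter_mono K (fun s => ih (m - v) hnm s) s
      rw [P_iter_sum] at h2
      rw [show (n + 1) * K = K + n * K by ring, sum_range_succ']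
      have e : ∀ j : ℕ, (P^[K] (P^[j * K] (cut κ (hb K v)))) s = (P^[(j + 1) * K] (cut κ (hb K v))) s := by
        intro j
        rw [← Function.iterate_add_apply, show K + j * K = (j + 1) * K by ring]
      simp only [e] at h2
      have e2 : (P^[0 * K] (cut κ (hb K v))) s = hb K v s := by
        rw [zero_mul, Function.iterate_zero, id]
        unfold cut; rw [if_pos h]
      rw [e2]
      linarith
    · rw [hi_dead h]
      exact sum_nonneg (fun j _ => P_iter_nonneg (cut_nonneg (hb_nonneg K v)) _ _)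

theorem lo_iter (κ K v : ℕ) : ∀ (n : ℕ), ∀ s : ℕ × ℤ,
    lo κ (n * K) (n * v) s ≤ ∑ j ∈ range n, (P^[j * K] (cut κ (lb K v))) s := by
  intro n
  induction n with
  | zero => intro s; simp [lo]
  | succ n ih =>
    intro s
    by_cases h : κ < s.1
    · have h1 := lo_block κ (n * K) K v (n * v) s
      have h2 := P_iter_mono K (fun s => ih s) s
      rw [P_iter_sum] at h2
      rw [show (n + 1) * K = K + n * K by ring, show (n + 1) * v = n * v + v by ring, sum_range_succ']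
      have e : ∀ j : ℕ, (P^[K] (P^[j * K] (cut κ (lb K v)))) s = (P^[(j + 1) * K] (cut κ (lb K v))) s := by
        intro j
        rw [← Function.iterate_add_apply, show K + j * K = (j + 1) * K by ring]
      simp only [e] at h2
      have e2 : (P^[0 * K] (cut κ (lb K v))) s = lb K v s := by
        rw [zero_mul, Function.iterate_zero, id]
        unfold cut; rw [if_pos h]
      rw [e2]
      linarith
    · rw [lo_dead h]
      exact sum_nonneg (fun j _ => P_iter_nonneg (cut_nonneg (lb_nonneg K v)) _ _)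

/-- The error of the clock, after an initial phase. -/
noncomputable def Er (j0 n K Bd : ℕ) (w d : ℝ) (τ : ℝ) : ℝ :=
  n * (((j0 + n * K : ℕ) : ℝ) / (2 * Bd) + w * 0.966 ^ j0 + 2 * Real.exp d * 0.95 ^ j0 +
    80 * ((j0 + n * K : ℕ) : ℝ) ^ 2 * Bd ^ 2 * τ)

theorem cut_err {β : ℕ × ℤ → ℝ} {κ K : ℕ} {τ : ℝ} (hτ : 0 ≤ τ) (h0 : ∀ s, 0 ≤ β s) (h1 : ∀ s, β s ≤ 1)
    (hper : ∀ i, K ≤ i → ∀ r m : ℤ, β (i, r + m * 2 ^ K) = β (i, r))
    (hsum : ∀ i, K ≤ i → ∑ u ∈ range (2 ^ K), β (i, (u : ℤ)) ≤ 2 ^ K * τ) (hK : K ≤ κ)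
    (A B : ℕ × ℤ) (j0 n : ℕ) (Bd : ℕ) (hBd : 1 ≤ Bd) :
    (P^[j0] (fun s => ∑ j ∈ range n, (P^[j * K] (cut κ β)) s)) (st A B) ≤
      Er j0 n K Bd (√ |(A.2 : ℝ)| + √ |(B.2 : ℝ)|) ((st A B).1) τ := by
  rw [P_iter_sum]
  have hterm : ∀ j ∈ range n, (P^[j0] (P^[j * K] (cut κ β))) (st A B) ≤
      (((j0 + n * K : ℕ) : ℝ) / (2 * Bd) + (√ |(A.2 : ℝ)| + √ |(B.2 : ℝ)|) * 0.966 ^ j0 +
      2 * Real.exp ((st A B).1) * 0.95 ^ j0 + 80 * ((j0 + n * K : ℕ) : ℝ) ^ 2 * Bd ^ 2 * τ) := by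
    intro j hj
    rw [mem_range] at hj
    rw [← Function.iterate_add_apply]
    have hb := block_bd (β := cut κ β) (κ := κ) (K := K) hτ (cut_nonneg h0)
      (by intro s; unfold cut; split_ifs
          · exact h1 s
          · norm_num)
      (by intro s hs; unfold cut; rw [if_neg (by omega)])
      (by intro i hi r m; unfold cut; rw [if_pos (by exact hi), if_pos (by exact hi)]
          exact hper i (by omega) r m)
      (by intro i hi
          have e : ∀ u ∈ range (2 ^ K), cut κ β (i, (u : ℤ)) = β (i, (u : ℤ)) := by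
            intro u _; unfold cut; rw [if_pos (by exact hi)]
          rw [sum_congr rfl e]
          exact hsum i (by omega)) hK A B (j0 + j * K) Bd hBd
    refine hb.trans ?_
    have hjn : j0 + j * K ≤ j0 + n * K := by
      have := Nat.mul_le_mul_right K hj.le
      omega
    have hc : ((j0 + j * K : ℕ) : ℝ) ≤ ((j0 + n * K : ℕ) : ℝ) := by exact_mod_cast hjn
    have hBr : (0 : ℝ) < Bd := by exact_mod_cast hBd
    have i1 : ((j0 + j * K : ℕ) : ℝ) / (2 * Bd) ≤ ((j0 + n * K : ℕ) : ℝ) / (2 * Bd) :=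
      div_le_div_of_nonneg_right hc (by positivity)
    have i2 : (√ |(A.2 : ℝ)| + √ |(B.2 : ℝ)|) * (0.966 : ℝ) ^ (j0 + j * K) ≤
        (√ |(A.2 : ℝ)| + √ |(B.2 : ℝ)|) * 0.966 ^ j0 := by
      apply mul_le_mul_of_nonneg_left _ (by positivity)
      exact pow_le_pow_of_le_one (by norm_num) (by norm_num) (by omega)
    have i3 : 2 * Real.exp ((st A B).1) * (0.95 : ℝ) ^ (j0 + j * K) ≤
        2 * Real.exp ((st A B).1) * 0.95 ^ j0 := by
      apply mul_le_mul_of_nonneg_left _ (by positivity)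
      exact pow_le_pow_of_le_one (by norm_num) (by norm_num) (by omega)
    have i4 : 80 * ((j0 + j * K : ℕ) : ℝ) ^ 2 * Bd ^ 2 * τ ≤ 80 * ((j0 + n * K : ℕ) : ℝ) ^ 2 * Bd ^ 2 * τ := by
      apply mul_le_mul_of_nonneg_right _ hτ
      apply mul_le_mul_of_nonneg_right _ (by positivity)
      apply mul_le_mul_of_nonneg_left _ (by norm_num)
      exact pow_le_pow_left₀ (by positivity) hc 2
    linarith
  refine (sum_le_sum hterm).trans ?_
  rw [sum_const, card_range, nsmul_eq_mul]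
  exact le_rfl

theorem hi_err {κ K v : ℕ} {η : ℝ} (hη : 0 ≤ η) (hv : (1 / 2 + η) * K ≤ v) (hK : K ≤ κ)
    (A B : ℕ × ℤ) (j0 n m : ℕ) (hm : n * v ≤ m) (Bd : ℕ) (hBd : 1 ≤ Bd) :
    (P^[j0] (hi κ (n * K) m)) (st A B) ≤
      Er j0 n K Bd (√ |(A.2 : ℝ)| + √ |(B.2 : ℝ)|) ((st A B).1) (Real.exp (-(2 * η ^ 2 * K))) := by
  refine (P_iter_mono j0 (fun s => hi_iter κ K v n m hm s) (st A B)).trans ?_
  refine cut_err (Real.exp_pos _).le (hb_nonneg K v) (hb_le_one K v) (fun i hi => hb_per K v i hi) ?_ hK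
    A B j0 n Bd hBd
  intro i hi
  rw [hb_sum K v i hi]
  exact mul_le_mul_of_nonneg_left (bt_tail hη hv) (by positivity)

theorem lo_err {κ K v : ℕ} {η : ℝ} (hη : 0 ≤ η) (hv : (v : ℝ) ≤ (1 / 2 - η) * K) (hK : K ≤ κ)
    (A B : ℕ × ℤ) (j0 n : ℕ) (Bd : ℕ) (hBd : 1 ≤ Bd) :
    (P^[j0] (lo κ (n * K) (n * v))) (st A B) ≤
      Er j0 n K Bd (√ |(A.2 : ℝ)| + √ |(B.2 : ℝ)|) ((st A B).1) (Real.exp (-(2 * η ^ 2 * K))) := by
  refine (P_iter_mono j0 (fun s => lo_iter κ K v n s) (st A B)).trans ?_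
  refine cut_err (Real.exp_pos _).le (lb_nonneg K v) (lb_le_one K v) (fun i hi => lb_per K v i hi) ?_ hK
    A B j0 n Bd hBd
  intro i hi
  rw [lb_sum K v i hi]
  exact mul_le_mul_of_nonneg_left (lt_tail hη hv) (by positivity)

end Pool.Agent.K7.H66.CW
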