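import Pool.Agent.K7.H66.CW.E

/-!
Coalescence in the critical window, part 7: the size of the errors.
-/

set_option autoImplicit false

namespace Pool.Agent.K7.H66.CW

open Finset Filter Topology Pool.Agent.H499R2.CO Pool.Agent.W38.CR

theorem t_exp_lim {c : ℝ} (hc : 0 < c) :
    Tendsto (fun t : ℕ => (t : ℝ) * Real.exp (-(c * t))) atTop (𝓝 0) := by
  have h1 := Real.tendsto_pow_mul_exp_neg_atTop_nhds_zero 1
  have h2 : Tendsto (fun t : ℕ => c * (t : ℝ)) atTop atTop :=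
    tendsto_natCast_atTop_atTop.const_mul_atTop hc
  have h3 := (h1.comp h2).const_mul (1 / c)
  rw [mul_zero] at h3
  refine h3.congr (fun t => ?_)
  simp only [Function.comp_apply, pow_one]
  field_simp

theorem inv_lim (c : ℝ) : Tendsto (fun t : ℕ => c / (t : ℝ)) atTop (𝓝 0) :=
  tendsto_const_nhds.div_atTop tendsto_natCast_atTop_atTop

theorem pow_exp {a b : ℝ} (ha : 0 ≤ a) (hab : a ≤ Real.exp (-b)) (k : ℕ) :
    a ^ k ≤ Real.exp (-(b * k)) := by
  refine (pow_le_pow_left₀ ha hab k).trans (le_of_eq ?_)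
  rw [← Real.exp_nat_mul]; congr 1; ring

theorem exp_966 : (0.966 : ℝ) ≤ Real.exp (-0.034) := by
  have := Real.add_one_le_exp (-0.034 : ℝ); linarith

theorem exp_95 : (0.95 : ℝ) ≤ Real.exp (-0.05) := by
  have := Real.add_one_le_exp (-0.05 : ℝ); linarith

theorem exp_98 : (0.98 : ℝ) ≤ Real.exp (-0.02) := by
  have := Real.add_one_le_exp (-0.02 : ℝ); linarith

/-- The error is small. -/
theorem Er_small {η : ℝ} (hη : 0 < η) {ε : ℝ} (hε : 0 < ε) : ∃ t0 : ℕ, 1 ≤ t0 ∧ ∀ t ≥ t0,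
    ∀ (n K j0 : ℕ) (w d : ℝ), n ≤ 2 * t → j0 + n * K ≤ 3 * t → η * t - 1 ≤ j0 → 0 ≤ w →
    w ≤ 2 * Real.exp (η * t / 100) → d ≤ η * t / 100 → 5 * Real.log t ≤ η ^ 2 * K →
    Er j0 n K (t ^ 3) w d (Real.exp (-(2 * η ^ 2 * K))) ≤ ε := by
  have hl : Tendsto (fun t : ℕ => 1443 / (t : ℝ) + 16 * ((t : ℝ) * Real.exp (-(0.02 * η * t))))
      atTop (𝓝 0) := by
    have h := (inv_lim 1443).add ((t_exp_lim (c := 0.02 * η) (by positivity)).const_mul 16)
    rw [mul_zero, add_zero] at h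
    exact h
  obtain ⟨t1, ht1⟩ := eventually_atTop.1 (hl.eventually (eventually_le_nhds hε))
  refine ⟨max t1 1, le_max_right _ _, fun t ht n K j0 w d hn hj hj0 hw0 hw hd hK => ?_⟩
  refine le_trans ?_ (ht1 t ((le_max_left _ _).trans ht))
  have ht' : 1 ≤ t := (le_max_right _ _).trans ht
  have htr : (1 : ℝ) ≤ t := by exact_mod_cast ht'
  have ht0 : (0 : ℝ) < t := by linarith
  have hnr : (n : ℝ) ≤ 2 * t := by exact_mod_cast hn
  have hjr : ((j0 + n * K : ℕ) : ℝ) ≤ 3 * t := by exact_mod_cast hj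
  unfold Er
  push_cast at hjr ⊢
  -- first term
  have e1 : ((j0 : ℝ) + n * K) / (2 * (t : ℝ) ^ 3) ≤ 3 / (2 * (t : ℝ) ^ 2) := by
    rw [div_le_div_iff₀ (by positivity) (by positivity)]
    calc ((j0 : ℝ) + n * K) * (2 * (t : ℝ) ^ 2) ≤ (3 * t) * (2 * (t : ℝ) ^ 2) :=
          mul_le_mul_of_nonneg_right hjr (by positivity)
      _ = 3 * (2 * (t : ℝ) ^ 3) := by ring
  -- second term
  have e2 : w * (0.966 : ℝ) ^ j0 ≤ 4 * Real.exp (-(0.02 * η * t)) := by
    have h1 := pow_exp (by norm_num) exp_966 j0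
    have h2 : Real.exp (-(0.034 * (j0 : ℝ))) ≤ Real.exp (0.034) * Real.exp (-(0.034 * η * t)) := by
      rw [← Real.exp_add]; apply Real.exp_le_exp.2; linarith
    have h3 : Real.exp 0.034 ≤ 2 := by
      have h := Real.exp_le_exp.2 (show (0.034 : ℝ) ≤ 1 / 2 by norm_num)
      have := exp_half.2
      linarith
    calc w * (0.966 : ℝ) ^ j0 ≤ (2 * Real.exp (η * t / 100)) * (Real.exp (0.034) * Real.exp (-(0.034 * η * t))) :=
          mul_le_mul hw (h1.trans h2) (by positivity) (by positivity)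
      _ ≤ (2 * Real.exp (η * t / 100)) * (2 * Real.exp (-(0.034 * η * t))) := by gcongr
      _ = 4 * Real.exp (η * t / 100 + -(0.034 * η * t)) := by rw [Real.exp_add]; ring
      _ ≤ 4 * Real.exp (-(0.02 * η * t)) := by
          apply mul_le_mul_of_nonneg_left _ (by norm_num)
          apply Real.exp_le_exp.2
          have : 0 < η * t := by positivity
          linarith
  -- third term
  have e3 : 2 * Real.exp d * (0.95 : ℝ) ^ j0 ≤ 4 * Real.exp (-(0.02 * η * t)) := by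
    have h1 := pow_exp (by norm_num) exp_95 j0
    have h2 : Real.exp (-(0.05 * (j0 : ℝ))) ≤ Real.exp (0.05) * Real.exp (-(0.05 * η * t)) := by
      rw [← Real.exp_add]; apply Real.exp_le_exp.2; linarith
    have h3 : Real.exp 0.05 ≤ 2 := by
      have h := Real.exp_le_exp.2 (show (0.05 : ℝ) ≤ 1 / 2 by norm_num)
      have := exp_half.2
      linarith
    calc 2 * Real.exp d * (0.95 : ℝ) ^ j0 ≤ (2 * Real.exp (η * t / 100)) * (Real.exp (0.05) * Real.exp (-(0.05 * η * t))) := by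
          refine mul_le_mul ?_ (h1.trans h2) (by positivity) (by positivity)
          exact mul_le_mul_of_nonneg_left (Real.exp_le_exp.2 hd) (by norm_num)
      _ ≤ (2 * Real.exp (η * t / 100)) * (2 * Real.exp (-(0.05 * η * t))) := by gcongr
      _ = 4 * Real.exp (η * t / 100 + -(0.05 * η * t)) := by rw [Real.exp_add]; ring
      _ ≤ 4 * Real.exp (-(0.02 * η * t)) := by
          apply mul_le_mul_of_nonneg_left _ (by norm_num)
          apply Real.exp_le_exp.2
          have : 0 < η * t := by positivity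
          linarith
  -- fourth term
  have e4 : Real.exp (-(2 * η ^ 2 * K)) ≤ 1 / (t : ℝ) ^ 10 := by
    have h1 : Real.exp (-(2 * η ^ 2 * K)) ≤ Real.exp (-(((10 : ℕ) : ℝ) * Real.log t)) := by
      apply Real.exp_le_exp.2; push_cast; linarith
    refine h1.trans (le_of_eq ?_)
    rw [Real.exp_neg, Real.exp_nat_mul, Real.exp_log ht0, one_div]
  have e5 : 80 * ((j0 : ℝ) + n * K) ^ 2 * ((t : ℝ) ^ 3) ^ 2 * Real.exp (-(2 * η ^ 2 * K)) ≤ 720 / (t : ℝ) ^ 2 := by
    have h1 : ((j0 : ℝ) + n * K) ^ 2 ≤ (3 * t) ^ 2 := pow_le_pow_left₀ (by positivity) hjr 2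
    calc 80 * ((j0 : ℝ) + n * K) ^ 2 * ((t : ℝ) ^ 3) ^ 2 * Real.exp (-(2 * η ^ 2 * K)) ≤
        80 * (3 * t) ^ 2 * ((t : ℝ) ^ 3) ^ 2 * (1 / (t : ℝ) ^ 10) := by gcongr
      _ = 720 / (t : ℝ) ^ 2 := by field_simp; ring
  have hsum : ((j0 : ℝ) + n * K) / (2 * (t : ℝ) ^ 3) + w * (0.966 : ℝ) ^ j0 + 2 * Real.exp d * (0.95 : ℝ) ^ j0 +
      80 * ((j0 : ℝ) + n * K) ^ 2 * ((t : ℝ) ^ 3) ^ 2 * Real.exp (-(2 * η ^ 2 * K)) ≤
      3 / (2 * (t : ℝ) ^ 2) + 8 * Real.exp (-(0.02 * η * t)) + 720 / (t : ℝ) ^ 2 := by linarith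
  have hpos : 0 ≤ 3 / (2 * (t : ℝ) ^ 2) + 8 * Real.exp (-(0.02 * η * t)) + 720 / (t : ℝ) ^ 2 := by positivity
  calc (n : ℝ) * (((j0 : ℝ) + n * K) / (2 * (t : ℝ) ^ 3) + w * (0.966 : ℝ) ^ j0 + 2 * Real.exp d * (0.95 : ℝ) ^ j0 +
      80 * ((j0 : ℝ) + n * K) ^ 2 * ((t : ℝ) ^ 3) ^ 2 * Real.exp (-(2 * η ^ 2 * K))) ≤
      n * (3 / (2 * (t : ℝ) ^ 2) + 8 * Real.exp (-(0.02 * η * t)) + 720 / (t : ℝ) ^ 2) :=
        mul_le_mul_of_nonneg_left hsum (by positivity)
    _ ≤ (2 * t) * (3 / (2 * (t : ℝ) ^ 2) + 8 * Real.exp (-(0.02 * η * t)) + 720 / (t : ℝ) ^ 2) :=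
        mul_le_mul_of_nonneg_right hnr hpos
    _ = 1443 / (t : ℝ) + 16 * ((t : ℝ) * Real.exp (-(0.02 * η * t))) := by
        field_simp
        ring

/-! ### coalescence at low levels -/

theorem q_add_eq (n : ℕ) : ∀ (k : ℕ) (s : ℕ × ℤ),
    q step (0, 0) (k + n) s = (P^[k] (fun s => q step (0, 0) n s)) s := by
  intro k
  induction k with
  | zero => intro s; rw [zero_add]; rfl
  | succ k ih =>
    intro s
    rw [Function.iterate_succ_apply', show k + 1 + n = (k + n) + 1 by ring, P_def, ← ih, ← ih]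
    by_cases h : s = (0, 0)
    · subst h
      rw [q_o, show step (0, 0) false = (0, 0) by simp [step], show step (0, 0) true = (0, 0) by simp [step],
        q_o]
      norm_num
    · rw [q_succ _ _ h]

/-- The upper bound by the first passage to low levels. -/
theorem q_upper {κ t1 : ℕ} {Λ δ : ℝ} (hΛ : 0 < Λ) (hδ : 0 ≤ δ)
    (hq : ∀ s : ℕ × ℤ, s.1 ≤ κ → pw s ≤ Λ → q step (0, 0) t1 s ≤ δ) : ∀ (t : ℕ) (s : ℕ × ℤ),
    q step (0, 0) (t + t1) s ≤ al κ t s + δ + (1 / Λ) * ∑ j ∈ range (t + 1), (P^[j] pw) s := by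
  have hnn : ∀ (t : ℕ) (s : ℕ × ℤ), 0 ≤ ∑ j ∈ range t, (P^[j] pw) s := fun t s =>
    sum_nonneg (fun j _ => P_iter_nonneg pw_nonneg j s)
  have hlow : ∀ s : ℕ × ℤ, s.1 ≤ κ → ∀ t, q step (0, 0) (t + t1) s ≤ δ + (1 / Λ) * pw s := by
    intro s hs t
    have h1 : q step (0, 0) (t + t1) s ≤ q step (0, 0) t1 s := q_anti' s (by omega)
    by_cases h : pw s ≤ Λ
    · have := hq s hs h
      have := pw_nonneg s
      have : 0 ≤ (1 / Λ) * pw s := by positivity
      linarith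
    · push Not at h
      have h2 := q_le_one step (0, 0) t1 s
      have h3 : 1 ≤ (1 / Λ) * pw s := by
        rw [one_div, inv_mul_eq_div, le_div_iff₀ hΛ]; linarith
      linarith
  intro t
  induction t with
  | zero =>
    intro s
    rw [zero_add, sum_range_one, Function.iterate_zero, id]
    by_cases h : κ < s.1
    · have h1 : al κ 0 s = 1 := by simp only [al, if_pos h]
      rw [h1]
      have := q_le_one step (0, 0) t1 s
      have := pw_nonneg s
      have : 0 ≤ (1 / Λ) * pw s := by positivity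
      linarith
    · have h1 := hlow s (by omega) 0
      rw [zero_add] at h1
      have := al_nonneg κ 0 s
      linarith
  | succ t ih =>
    intro s
    by_cases h : κ < s.1
    · have h1 : al κ (t + 1) s = P (al κ t) s := by simp only [al, if_pos h]
      rw [h1]
      have h2 : q step (0, 0) (t + 1 + t1) s ≤ P (fun s => q step (0, 0) (t + t1) s) s := by
        rw [show t + 1 + t1 = (t + t1) + 1 by ring]
        exact q_succ_le _ s
      have h3 := P_mono ih s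
      have h4 : P (fun s => al κ t s + δ + (1 / Λ) * ∑ j ∈ range (t + 1), (P^[j] pw) s) s =
          P (al κ t) s + δ + (1 / Λ) * ∑ j ∈ range (t + 1), (P^[j + 1] pw) s := by
        have e : ∀ j ∈ range (t + 1), (P^[j + 1] pw) s =
            ((P^[j] pw) (step s false) + (P^[j] pw) (step s true)) / 2 := by
          intro j _; rw [Function.iterate_succ_apply', P_def]
        rw [sum_congr rfl e, ← sum_div, sum_add_distrib, P_def, P_def]
        ring
      rw [h4] at h3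
      have h5 : ∑ j ∈ range (t + 1), (P^[j + 1] pw) s ≤ ∑ j ∈ range (t + 1 + 1), (P^[j] pw) s := by
        rw [sum_range_succ' _ (t + 1)]
        have := P_iter_nonneg pw_nonneg 0 s
        linarith
      have h6 := mul_le_mul_of_nonneg_left h5 (show 0 ≤ 1 / Λ by positivity)
      linarith
    · have h1 := hlow s (by omega) (t + 1)
      have h2 := al_nonneg κ (t + 1) s
      have h3 : pw s ≤ ∑ j ∈ range (t + 1 + 1), (P^[j] pw) s := by
        rw [sum_range_succ' _ (t + 1)]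
        have := sum_nonneg (s := range (t + 1)) (f := fun j => (P^[j + 1] pw) s)
          (fun j _ => P_iter_nonneg pw_nonneg (j + 1) s)
        rw [Function.iterate_zero, id]
        linarith
      have h4 := mul_le_mul_of_nonneg_left h3 (show 0 ≤ 1 / Λ by positivity)
      linarith

/-- The size of the offset of two forms, relative to the level. -/
theorem pw_st (A B : ℕ × ℤ) : pw (st A B) ≤ √ |(A.2 : ℝ)| + √ |(B.2 : ℝ)| := by
  have key : ∀ (i : ℕ) (a b : ℤ), pw (i, b - 3 ^ i * a) ≤ √ |(a : ℝ)| + √ |(b : ℝ)| := by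
    intro i a b
    unfold pw w
    simp only
    have h1 : |((b - 3 ^ i * a : ℤ) : ℝ)| ≤ |(b : ℝ)| + 3 ^ i * |(a : ℝ)| := by
      push_cast
      refine (abs_sub _ _).trans ?_
      rw [abs_mul, abs_of_pos (show (0 : ℝ) < 3 ^ i by positivity)]
    have h2 : √ |((b - 3 ^ i * a : ℤ) : ℝ)| ≤ √ |(b : ℝ)| + √ ((3 : ℝ) ^ i) * √ |(a : ℝ)| := by
      rw [← Real.sqrt_mul (by positivity), Real.sqrt_le_left (by positivity)]
      have e1 := Real.sq_sqrt (abs_nonneg (b : ℝ))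
      have e2 := Real.sq_sqrt (show (0 : ℝ) ≤ 3 ^ i * |(a : ℝ)| by positivity)
      have e3 : 0 ≤ √ |(b : ℝ)| * √ (3 ^ i * |(a : ℝ)|) := by positivity
      nlinarith
    have h3 : √ ((3 : ℝ) ^ i) = √ 3 ^ i := by
      rw [Real.sqrt_eq_iff_mul_self_eq (by positivity) (by positivity), ← mul_pow,
        Real.mul_self_sqrt (by norm_num)]
    have h4 : √ (3 : ℝ) ≤ 20 / 11 := by
      rw [Real.sqrt_le_left (by norm_num)]; norm_num
    have h5 : (11 / 20 : ℝ) ^ i * √ 3 ^ i ≤ 1 := by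
      rw [← mul_pow]
      apply pow_le_one₀ (by positivity)
      linarith
    have h6 : (11 / 20 : ℝ) ^ i ≤ 1 := pow_le_one₀ (by norm_num) (by norm_num)
    have ha := Real.sqrt_nonneg |(a : ℝ)|
    have hb := Real.sqrt_nonneg |(b : ℝ)|
    rw [h3] at h2
    calc (11 / 20 : ℝ) ^ i * √ |((b - 3 ^ i * a : ℤ) : ℝ)| ≤
        (11 / 20 : ℝ) ^ i * (√ |(b : ℝ)| + √ 3 ^ i * √ |(a : ℝ)|) :=
          mul_le_mul_of_nonneg_left h2 (by positivity)
      _ = (11 / 20 : ℝ) ^ i * √ |(b : ℝ)| + ((11 / 20 : ℝ) ^ i * √ 3 ^ i) * √ |(a : ℝ)| := by ring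
      _ ≤ 1 * √ |(b : ℝ)| + 1 * √ |(a : ℝ)| := by gcongr
      _ = _ := by ring
  unfold st
  split_ifs with h
  · exact key _ _ _
  · have := key (A.1 - B.1) B.2 A.2
    linarith

end Pool.Agent.K7.H66.CW
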