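import Pool.Agent.K7.H66.CW.A
import Pool.Agent.R344.LS.AB

/-!
Coalescence in the critical window, part 6: the walk that stays positive and the normal law.
-/

set_option autoImplicit false

namespace Pool.Agent.K7.H66.CW

open Finset Filter Topology MeasureTheory ProbabilityTheory Pool.Agent.R344.LS
open Pool.Agent.H499R2.ND (Phi)

/-- The distribution function of the simple random walk. -/
noncomputable def cw (m : ℕ) (y : ℝ) : ℝ :=
  ∑ o ∈ range (m + 1), G m (o : ℤ) * (if 2 * (o : ℝ) - m ≤ y then 1 else 0)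

theorem cw_succ (m : ℕ) (y : ℝ) : cw (m + 1) y = (cw m (y + 1) + cw m (y - 1)) / 2 := by
  have h := mom_step (fun x => if x ≤ y then 1 else 0) m
  unfold cw
  push_cast
  rw [h, ← sum_add_distrib, sum_div]
  apply sum_congr rfl
  intro o _
  have e1 : (2 * (o : ℝ) - m - 1 ≤ y) ↔ (2 * (o : ℝ) - m ≤ y + 1) := by
    constructor <;> intro h <;> linarith
  have e2 : (2 * (o : ℝ) - m + 1 ≤ y) ↔ (2 * (o : ℝ) - m ≤ y - 1) := by
    constructor <;> intro h <;> linarith
  simp only [e1, e2]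
  ring

theorem cw_zero (y : ℝ) : cw 0 y = if 0 ≤ y then 1 else 0 := by
  unfold cw
  simp [G_zero]

theorem ph_cw : ∀ m x : ℕ, ph m x = cw m x - cw m (-x) := by
  intro m
  induction m with
  | zero =>
    intro x
    rw [cw_zero, cw_zero]
    rcases x with _ | x
    · simp [ph_zero]
    · rw [ph_pos]
      have h1 : (0 : ℝ) ≤ ((x + 1 : ℕ) : ℝ) := by positivity
      have h2 : ¬ (0 : ℝ) ≤ -((x + 1 : ℕ) : ℝ) := by
        have : (0 : ℝ) ≤ x := by positivity
        push_cast
        linarith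
      rw [if_pos h1, if_neg h2]; norm_num
  | succ m ih =>
    intro x
    rcases x with _ | x
    · simp [ph_zero]
    · rw [ph_succ, ih, ih, cw_succ, cw_succ]
      push_cast
      rw [show (x : ℝ) + 1 + 1 = x + 2 by ring, show (x : ℝ) + 1 - 1 = x by ring,
        show -((x : ℝ) + 1) + 1 = -x by ring, show -((x : ℝ) + 1) - 1 = -(x + 2) by ring]
      ring

theorem cw_bw {m : ℕ} (hm : 1 ≤ m) (y : ℝ) : cw m y = (bw m).real (Set.Iic (y / Real.sqrt m)) := by
  rw [bw_real, sum_filter]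
  unfold cw
  apply sum_congr rfl
  intro o _
  have hm' : (0 : ℝ) < Real.sqrt m := Real.sqrt_pos.2 (by exact_mod_cast hm)
  have e : ((2 * (o : ℝ) - m) / Real.sqrt m ≤ y / Real.sqrt m) ↔ (2 * (o : ℝ) - m ≤ y) :=
    div_le_div_iff_of_pos_right hm'
  simp only [e]
  split_ifs <;> simp

/-! ### the normal distribution function -/

theorem Phi_mono : Monotone Phi := fun _ _ h => measureReal_mono (Set.Iic_subset_Iic.2 h)

theorem Phi_nonneg (x : ℝ) : 0 ≤ Phi x := measureReal_nonneg

theorem Phi_le_one (x : ℝ) : Phi x ≤ 1 := measureReal_le_one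

theorem gauss_Ioc {x y : ℝ} (h : x ≤ y) : (gaussianReal 0 1).real (Set.Ioc x y) = Phi y - Phi x := by
  have h1 : Set.Iic y = Set.Iic x ∪ Set.Ioc x y := by rw [Set.Iic_union_Ioc_eq_Iic h]
  have h2 : Phi y = Phi x + (gaussianReal 0 1).real (Set.Ioc x y) := by
    unfold Phi
    rw [h1, measureReal_union (by
      rw [Set.disjoint_left]
      intro z hz hz'
      exact absurd hz (not_le.2 hz'.1)) measurableSet_Ioc]
  linarith

theorem gauss_density (z : ℝ) : gaussianPDF 0 1 z ≤ 1 := by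
  unfold gaussianPDF
  rw [ENNReal.ofReal_le_one]
  unfold gaussianPDFReal
  have h1 : (√ (2 * Real.pi * ((1 : NNReal) : ℝ)))⁻¹ ≤ 1 := by
    rw [inv_le_one₀ (by simp; positivity)]
    rw [Real.one_le_sqrt]
    have := Real.pi_gt_three
    simp
    linarith
  have h2 : Real.exp (-(z - 0) ^ 2 / (2 * ((1 : NNReal) : ℝ))) ≤ 1 := by
    rw [Real.exp_le_one_iff]
    have : 0 ≤ (z - 0) ^ 2 / (2 * ((1 : NNReal) : ℝ)) := by positivity
    rw [neg_div]
    linarith
  calc _ ≤ (1 : ℝ) * 1 := mul_le_mul h1 h2 (Real.exp_pos _).le (by norm_num)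
    _ = 1 := by norm_num

theorem Phi_lip {x y : ℝ} (h : x ≤ y) : Phi y - Phi x ≤ y - x := by
  rw [← gauss_Ioc h]
  have h1 : (gaussianReal 0 1) (Set.Ioc x y) ≤ ENNReal.ofReal (y - x) := by
    rw [gaussianReal_of_var_ne_zero 0 one_ne_zero, withDensity_apply _ measurableSet_Ioc]
    calc ∫⁻ a in Set.Ioc x y, gaussianPDF 0 1 a ≤ ∫⁻ _ in Set.Ioc x y, 1 :=
          lintegral_mono gauss_density
      _ = ENNReal.ofReal (y - x) := by simp
  rw [measureReal_def]
  exact ENNReal.toReal_le_of_le_ofReal (by linarith) h1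

theorem Phi_lip' (x y : ℝ) : |Phi y - Phi x| ≤ |y - x| := by
  rcases le_total x y with h | h
  · have h1 := Phi_lip h
    have h2 := Phi_mono h
    rw [abs_of_nonneg (by linarith), abs_of_nonneg (by linarith)]
    exact h1
  · have h1 := Phi_lip h
    have h2 := Phi_mono h
    rw [abs_of_nonpos (by linarith), abs_of_nonpos (by linarith)]
    linarith

theorem Phi_top : Tendsto Phi atTop (𝓝 1) := by
  have h := tendsto_cdf_atTop (gaussianReal 0 1)
  refine h.congr (fun x => ?_)
  rw [cdf_eq_real]; rfl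

theorem Phi_bot : Tendsto Phi atBot (𝓝 0) := by
  have h := tendsto_cdf_atBot (gaussianReal 0 1)
  refine h.congr (fun x => ?_)
  rw [cdf_eq_real]; rfl

/-- The theorem of Polya, with a Lipschitz limit. -/
theorem polya {F : ℕ → ℝ → ℝ} (hF : ∀ m, Monotone (F m)) (h0 : ∀ m x, 0 ≤ F m x)
    (h1 : ∀ m x, F m x ≤ 1) (hlim : ∀ x, Tendsto (fun m => F m x) atTop (𝓝 (Phi x)))
    {ε : ℝ} (hε : 0 < ε) : ∃ m0 : ℕ, ∀ m ≥ m0, ∀ x : ℝ, |F m x - Phi x| ≤ ε := by
  obtain ⟨L1, hL1⟩ := (Phi_top.eventually (eventually_ge_nhds (show 1 - ε / 4 < 1 by linarith))).exists_forall_of_atTop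
  obtain ⟨L2, hL2⟩ := (Phi_bot.eventually (eventually_le_nhds (show 0 < ε / 4 by linarith))).exists_forall_of_atBot
  set L : ℝ := max (max L1 (-L2)) 1 with hL
  have hLa : L1 ≤ L := (le_max_left _ _).trans (le_max_left _ _)
  have hLb : -L ≤ L2 := by
    have : -L2 ≤ L := (le_max_right _ _).trans (le_max_left _ _)
    linarith
  have hL0 : 1 ≤ L := le_max_right _ _
  set N : ℕ := ⌈8 * L / ε⌉₊ with hN
  set g : ℕ → ℝ := fun i => -L + i * (ε / 4) with hg
  have hgN : L ≤ g N := by
    have : 8 * L / ε ≤ N := Nat.le_ceil _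
    rw [div_le_iff₀ hε] at this
    simp only [hg]
    linarith
  have hev : ∀ᶠ m in atTop, ∀ i ∈ range (N + 1), |F m (g i) - Phi (g i)| ≤ ε / 4 := by
    rw [Filter.eventually_all_finset]
    intro i _
    have := (hlim (g i)).eventually (Metric.closedBall_mem_nhds _ (show 0 < ε / 4 by linarith))
    filter_upwards [this] with m hm
    rw [Real.dist_eq] at hm
    exact hm
  obtain ⟨m0, hm0⟩ := eventually_atTop.1 hev
  refine ⟨m0, fun m hm x => ?_⟩
  have hgrid := hm0 m hm
  by_cases c1 : x < -L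
  · have e0 := hgrid 0 (by simp)
    have e1 : g 0 = -L := by simp [hg]
    rw [e1, abs_le] at e0
    have e2 := hF m c1.le
    have e3 := hL2 (-L) hLb
    have e4 := Phi_mono c1.le
    have e5 := Phi_nonneg x
    have e6 := h0 m x
    rw [abs_le]
    constructor <;> linarith
  by_cases c2 : g N ≤ x
  · have e0 := hgrid N (by simp)
    rw [abs_le] at e0
    have e2 := hF m c2
    have e3 := hL1 (g N) (hLa.trans hgN)
    have e4 := Phi_mono c2
    have e5 := Phi_le_one x
    have e6 := h1 m x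
    rw [abs_le]
    constructor <;> linarith
  push Not at c1 c2
  set i : ℕ := ⌊(x + L) / (ε / 4)⌋₊ with hi
  have hq : 0 ≤ (x + L) / (ε / 4) := div_nonneg (by linarith) (by linarith)
  have f1 : (i : ℝ) ≤ (x + L) / (ε / 4) := Nat.floor_le hq
  have f2 : (x + L) / (ε / 4) < i + 1 := Nat.lt_floor_add_one _
  rw [le_div_iff₀ (by linarith)] at f1
  rw [div_lt_iff₀ (by linarith)] at f2
  have g1 : g i ≤ x := by simp only [hg]; linarith
  have g2 : x ≤ g (i + 1) := by simp only [hg]; push_cast; linarith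
  have hiN : i < N := by
    by_contra hcon
    push Not at hcon
    have : (N : ℝ) ≤ i := by exact_mod_cast hcon
    have : g N ≤ g i := by
      simp only [hg]
      have := mul_le_mul_of_nonneg_right this (show 0 ≤ ε / 4 by linarith)
      linarith
    linarith
  have e0 := hgrid i (by rw [mem_range]; omega)
  have e1 := hgrid (i + 1) (by rw [mem_range]; omega)
  rw [abs_le] at e0 e1
  have gg : g (i + 1) = g i + ε / 4 := by simp only [hg]; push_cast; ring
  have p1 := Phi_lip g1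
  have p2 := Phi_lip g2
  have q1 := hF m g1
  have q2 := hF m g2
  have r1 := Phi_mono g1
  have r2 := Phi_mono g2
  rw [abs_le]
  constructor <;> linarith

/-- The normal law of an interval around `0`. -/
noncomputable def Ga (x : ℝ) : ℝ := Phi x - Phi (-x)

theorem Ga_mono : Monotone Ga := fun _ _ h => sub_le_sub (Phi_mono h) (Phi_mono (neg_le_neg h))

theorem Ga_le_one (x : ℝ) : Ga x ≤ 1 := by
  unfold Ga
  have := Phi_le_one x
  have := Phi_nonneg (-x)
  linarith

theorem Ga_nonneg {x : ℝ} (hx : 0 ≤ x) : 0 ≤ Ga x := by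
  unfold Ga
  have := Phi_mono (show -x ≤ x by linarith)
  linarith

theorem Ga_lip {x y : ℝ} (h : x ≤ y) : Ga y - Ga x ≤ 2 * (y - x) := by
  unfold Ga
  have h1 := Phi_lip h
  have h2 := Phi_lip (neg_le_neg h)
  linarith

theorem Ga_top : Tendsto Ga atTop (𝓝 1) := by
  have h := Phi_top.sub (Phi_bot.comp tendsto_neg_atTop_atBot)
  rw [sub_zero] at h
  exact h

theorem ph_law {ε : ℝ} (hε : 0 < ε) : ∃ m0 : ℕ, 1 ≤ m0 ∧ ∀ m ≥ m0, ∀ x : ℕ,
    |ph m x - Ga (x / Real.sqrt m)| ≤ ε := by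
  obtain ⟨m0, hm0⟩ := polya (F := fun m x => (bw m).real (Set.Iic x))
    (fun m _ _ h => measureReal_mono (Set.Iic_subset_Iic.2 h)) (fun _ _ => measureReal_nonneg)
    (fun _ _ => measureReal_le_one) bw_lim (show 0 < ε / 2 by linarith)
  refine ⟨max m0 1, le_max_right _ _, fun m hm x => ?_⟩
  have h1 : 1 ≤ m := (le_max_right _ _).trans hm
  have h2 := hm0 m ((le_max_left _ _).trans hm)
  rw [ph_cw, cw_bw h1, cw_bw h1]
  have e1 := h2 ((x : ℝ) / Real.sqrt m)
  have e2 := h2 (-(x : ℝ) / Real.sqrt m)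
  unfold Ga
  rw [neg_div] at *
  rw [abs_le] at *
  constructor <;> linarith [e1.1, e1.2, e2.1, e2.2]

end Pool.Agent.K7.H66.CW
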