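import Pool.Agent.K7.H66.CW.F
import Pool.Agent.K7.H66.CW.G

/-!
Coalescence in the critical window, part 8: the two bounds for the chain.
-/

set_option autoImplicit false

namespace Pool.Agent.K7.H66.CW

open Finset Filter Topology Pool.Agent.H499R2.CO Pool.Agent.W38.CR

theorem f0_iter (j : ℕ) (s : ℕ × ℤ) : (P^[j] (f0 s.1)) s ≤ j := by
  have h := P_iter_f0 (i0 := (s.1 : ℝ)) (by positivity) j s
  have e : f0 (s.1) s = 0 := by unfold f0; ring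
  rw [e] at h
  linarith

/-- The level does not move much. -/
theorem ph_shift_lower (m κ Y j : ℕ) (hY : 1 ≤ Y) (s : ℕ × ℤ) :
    ph m (s.1 - κ - Y) - j / (Y : ℝ) ^ 2 ≤ (P^[j] (fun x => ph m (x.1 - κ))) s := by
  have hYr : (0 : ℝ) < Y := by exact_mod_cast hY
  have h1 : ∀ x : ℕ × ℤ, ph m (s.1 - κ - Y) + (-(1 / (Y : ℝ) ^ 2)) * f0 s.1 x ≤ ph m (x.1 - κ) := by
    intro x
    have hf : 0 ≤ f0 (s.1) x := by unfold f0; positivity
    by_cases h : s.1 ≤ x.1 + Y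
    · have h2 := ph_mono m (show s.1 - κ - Y ≤ x.1 - κ by omega)
      have : 0 ≤ 1 / (Y : ℝ) ^ 2 * f0 (s.1) x := by positivity
      linarith
    · have h2 := ph_le_one m (s.1 - κ - Y)
      have h3 := ph_nonneg m (x.1 - κ)
      have h4 : 1 ≤ 1 / (Y : ℝ) ^ 2 * f0 (s.1) x := by
        rw [one_div, inv_mul_eq_div, le_div_iff₀ (by positivity), one_mul]
        unfold f0
        apply pow_le_pow_left₀ hYr.le
        have : (x.1 : ℝ) + Y ≤ s.1 := by exact_mod_cast (by omega : x.1 + Y ≤ s.1)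
        linarith
      linarith
  have h2 := P_iter_mono j h1 s
  rw [P_iter_add j (fun _ => ph m (s.1 - κ - Y)), P_iter_const, P_iter_smul] at h2
  have h3 := f0_iter j s
  have h4 : 1 / (Y : ℝ) ^ 2 * (P^[j] (f0 s.1)) s ≤ 1 / (Y : ℝ) ^ 2 * j :=
    mul_le_mul_of_nonneg_left h3 (by positivity)
  have e : 1 / (Y : ℝ) ^ 2 * j = j / (Y : ℝ) ^ 2 := by ring
  rw [e] at h4
  linarith

theorem ph_shift_upper (m κ Y j : ℕ) (hY : 1 ≤ Y) (s : ℕ × ℤ) :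
    (P^[j] (fun x => ph m (x.1 - κ))) s ≤ ph m (s.1 + Y - κ) + j / (Y : ℝ) ^ 2 := by
  have hYr : (0 : ℝ) < Y := by exact_mod_cast hY
  have h1 : ∀ x : ℕ × ℤ, ph m (x.1 - κ) ≤ ph m (s.1 + Y - κ) + (1 / (Y : ℝ) ^ 2) * f0 s.1 x := by
    intro x
    have hf : 0 ≤ f0 (s.1) x := by unfold f0; positivity
    by_cases h : x.1 ≤ s.1 + Y
    · have h2 := ph_mono m (show x.1 - κ ≤ s.1 + Y - κ by omega)
      have : 0 ≤ 1 / (Y : ℝ) ^ 2 * f0 (s.1) x := by positivity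
      linarith
    · have h2 := ph_le_one m (x.1 - κ)
      have h3 := ph_nonneg m (s.1 + Y - κ)
      have h4 : 1 ≤ 1 / (Y : ℝ) ^ 2 * f0 (s.1) x := by
        rw [one_div, inv_mul_eq_div, le_div_iff₀ (by positivity), one_mul]
        unfold f0
        rw [← neg_sq ((s.1 : ℝ) - x.1)]
        apply pow_le_pow_left₀ hYr.le
        have : (s.1 : ℝ) + Y ≤ x.1 := by exact_mod_cast (by omega : s.1 + Y ≤ x.1)
        linarith
      linarith
  have h2 := P_iter_mono j h1 s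
  rw [P_iter_add j (fun _ => ph m (s.1 + Y - κ)), P_iter_const, P_iter_smul] at h2
  have h3 := f0_iter j s
  have h4 : 1 / (Y : ℝ) ^ 2 * (P^[j] (f0 s.1)) s ≤ 1 / (Y : ℝ) ^ 2 * j :=
    mul_le_mul_of_nonneg_left h3 (by positivity)
  have e : 1 / (Y : ℝ) ^ 2 * j = j / (Y : ℝ) ^ 2 := by ring
  rw [e] at h4
  linarith

/-- The lower bound. -/
theorem lower_chain {κ K v Y : ℕ} {η : ℝ} (hη : 0 ≤ η) (hv : (1 / 2 + η) * K ≤ v) (hK : K ≤ κ)
    (hY : 1 ≤ Y) (A B : ℕ × ℤ) {t j0 n Bd : ℕ} (hBd : 1 ≤ Bd) (ht : t ≤ j0 + n * K) :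
    ph (n * v) ((st A B).1 - κ - Y) - j0 / (Y : ℝ) ^ 2 -
      Er j0 n K Bd (√ |(A.2 : ℝ)| + √ |(B.2 : ℝ)|) ((st A B).1) (Real.exp (-(2 * η ^ 2 * K))) ≤
      q step (0, 0) t (st A B) := by
  have h1 : q step (0, 0) (j0 + n * K) (st A B) ≤ q step (0, 0) t (st A B) := q_anti' _ ht
  rw [q_add_eq] at h1
  have h2 : ∀ x : ℕ × ℤ, ph (n * v) (x.1 - κ) ≤ q step (0, 0) (n * K) x + hi κ (n * K) (n * v) x := by
    intro x
    have := ph_le κ (n * K) (n * v) x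
    have := al_le_q κ (n * K) x
    linarith
  have h3 := P_iter_mono j0 h2 (st A B)
  rw [P_iter_add j0 (fun x => q step (0, 0) (n * K) x)] at h3
  have h4 := ph_shift_lower (n * v) κ Y j0 hY (st A B)
  have h5 := hi_err hη hv hK A B j0 n (n * v) le_rfl Bd hBd
  linarith

/-- The upper bound. -/
theorem upper_chain {κ K v Y : ℕ} {η : ℝ} (hη : 0 ≤ η) (hv : (v : ℝ) ≤ (1 / 2 - η) * K) (hK : K ≤ κ)
    (hY : 1 ≤ Y) {t1 : ℕ} {Λ δ : ℝ} (hΛ : 0 < Λ) (hδ : 0 ≤ δ)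
    (hq : ∀ s : ℕ × ℤ, s.1 ≤ κ → pw s ≤ Λ → q step (0, 0) t1 s ≤ δ)
    (A B : ℕ × ℤ) {t j0 n Bd : ℕ} (hBd : 1 ≤ Bd) (ht : j0 + (n * K + t1) ≤ t) :
    q step (0, 0) t (st A B) ≤ ph (n * v) ((st A B).1 + Y - κ) + j0 / (Y : ℝ) ^ 2 +
      Er j0 n K Bd (√ |(A.2 : ℝ)| + √ |(B.2 : ℝ)|) ((st A B).1) (Real.exp (-(2 * η ^ 2 * K))) +
      δ + (1 / Λ) * ((n * K + 1 : ℕ) * (0.98 ^ j0 * (√ |(A.2 : ℝ)| + √ |(B.2 : ℝ)|) + 37.5)) := by
  have h1 : q step (0, 0) t (st A B) ≤ q step (0, 0) (j0 + (n * K + t1)) (st A B) := q_anti' _ ht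
  rw [q_add_eq] at h1
  have h2 : ∀ x : ℕ × ℤ, q step (0, 0) (n * K + t1) x ≤ (ph (n * v) (x.1 - κ) + lo κ (n * K) (n * v) x) +
      (δ + (1 / Λ) * ∑ j ∈ range (n * K + 1), (P^[j] pw) x) := by
    intro x
    have := le_ph κ (n * K) (n * v) x
    have := q_upper hΛ hδ hq (n * K) x
    linarith
  have h3 := P_iter_mono j0 h2 (st A B)
  rw [P_iter_add j0 (fun x => ph (n * v) (x.1 - κ) + lo κ (n * K) (n * v) x),
    P_iter_add j0 (fun x => ph (n * v) (x.1 - κ)), P_iter_add j0 (fun _ => δ), P_iter_const,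
    P_iter_smul, P_iter_sum] at h3
  have h4 := ph_shift_upper (n * v) κ Y j0 hY (st A B)
  have h5 := lo_err hη hv hK A B j0 n Bd hBd
  have h6 : ∑ j ∈ range (n * K + 1), (P^[j0] (P^[j] pw)) (st A B) ≤
      (n * K + 1 : ℕ) * (0.98 ^ j0 * (√ |(A.2 : ℝ)| + √ |(B.2 : ℝ)|) + 37.5) := by
    have h7 : ∀ j ∈ range (n * K + 1), (P^[j0] (P^[j] pw)) (st A B) ≤
        0.98 ^ j0 * (√ |(A.2 : ℝ)| + √ |(B.2 : ℝ)|) + 37.5 := by
      intro j _
      rw [← Function.iterate_add_apply]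
      refine (P_iter_pw (j0 + j) (st A B)).trans ?_
      have e1 : (0.98 : ℝ) ^ (j0 + j) ≤ 0.98 ^ j0 :=
        pow_le_pow_of_le_one (by norm_num) (by norm_num) (by omega)
      have e2 := mul_le_mul e1 (pw_st A B) (pw_nonneg _) (by positivity)
      linarith
    refine (sum_le_sum h7).trans (le_of_eq ?_)
    rw [sum_const, card_range, nsmul_eq_mul]
  have h8 := mul_le_mul_of_nonneg_left h6 (show 0 ≤ 1 / Λ by positivity)
  have h9 : (P^[j0] (lo κ (n * K) (n * v))) (st A B) = (P^[j0] (fun x => lo κ (n * K) (n * v) x)) (st A B) := rfl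
  rw [h9] at h5
  linarith

/-- Levels that are far apart. -/
theorem far_chain (t : ℕ) (s : ℕ × ℤ) (hs : 1 ≤ s.1) : 1 - t / (s.1 : ℝ) ^ 2 ≤ q step (0, 0) t s := by
  have hD : (0 : ℝ) < s.1 := by exact_mod_cast hs
  have h1 : ∀ x : ℕ × ℤ, 1 + (-(1 / (s.1 : ℝ) ^ 2)) * f0 s.1 x ≤ q step (0, 0) 0 x := by
    intro x
    have hf : 0 ≤ f0 (s.1) x := by unfold f0; positivity
    by_cases h : x = (0, 0)
    · subst h
      rw [q_o]
      have : f0 (s.1) (0, 0) = (s.1 : ℝ) ^ 2 := by unfold f0; simp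
      rw [this]
      have : 1 / (s.1 : ℝ) ^ 2 * (s.1 : ℝ) ^ 2 = 1 := by field_simp
      linarith
    · rw [q_zero_ne _ _ h]
      have : 0 ≤ 1 / (s.1 : ℝ) ^ 2 * f0 (s.1) x := by positivity
      linarith
  have h2 := P_iter_mono t h1 s
  rw [P_iter_add t (fun _ => (1 : ℝ)), P_iter_const, P_iter_smul] at h2
  have h3 := f0_iter t s
  have h4 : 1 / (s.1 : ℝ) ^ 2 * (P^[t] (f0 s.1)) s ≤ 1 / (s.1 : ℝ) ^ 2 * t :=
    mul_le_mul_of_nonneg_left h3 (by positivity)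
  have h5 := q_add_eq 0 t s
  rw [add_zero] at h5
  have e : 1 / (s.1 : ℝ) ^ 2 * t = t / (s.1 : ℝ) ^ 2 := by ring
  rw [e] at h4
  rw [h5]
  have h6 : (P^[t] (q step (0, 0) 0)) s = (P^[t] (fun x => q step (0, 0) 0 x)) s := rfl
  linarith

end Pool.Agent.K7.H66.CW
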