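import Pool.Agent.K7.H66.CW.H

/-!
Coalescence in the critical window, part 9: the parameters.
-/

set_option autoImplicit false

namespace Pool.Agent.K7.H66.CW

open Finset Filter Topology Pool.Agent.H499R2.CO Pool.Agent.W38.CR

/-- The length of a block. -/
noncomputable def KK (η : ℝ) (t : ℕ) : ℕ := ⌈5 * Real.log t / η ^ 2⌉₊ + 1

/-- The exponent of the size of the offsets at low levels. -/
def MM (t : ℕ) : ℕ := 2 * (Nat.log 2 t + 1)

theorem KK_ge {η : ℝ} (hη : 0 < η) (t : ℕ) : 5 * Real.log t ≤ η ^ 2 * KK η t := by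
  have h := Nat.le_ceil (5 * Real.log t / η ^ 2)
  rw [div_le_iff₀ (by positivity)] at h
  unfold KK
  push_cast
  nlinarith [sq_nonneg η]

theorem MM_le {t : ℕ} (ht : 1 ≤ t) : (MM t : ℝ) ≤ 4 * Real.log t + 2 := by
  have h1 : (2 : ℝ) ^ Nat.log 2 t ≤ t := by exact_mod_cast Nat.pow_log_le_self 2 (by omega)
  have h2 := Real.log_le_log (by positivity) h1
  rw [Real.log_pow] at h2
  have h3 := Real.log_two_gt_d9
  have h4 : (0 : ℝ) ≤ Nat.log 2 t := by positivity
  unfold MM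
  push_cast
  nlinarith

theorem MM_pow (t : ℕ) : (t : ℝ) ^ 2 ≤ 2 ^ MM t := by
  have h1 : t < 2 ^ (Nat.log 2 t + 1) := Nat.lt_pow_succ_log_self (by norm_num) t
  have h2 : (t : ℝ) ≤ 2 ^ (Nat.log 2 t + 1) := by exact_mod_cast h1.le
  unfold MM
  rw [mul_comm, pow_mul]
  exact pow_le_pow_left₀ (by positivity) h2 2

theorem L_small {η : ℝ} (hη : 0 < η) {c : ℝ} (hc : 0 < c) :
    ∀ᶠ t : ℕ in atTop, ((KK η t : ℝ) + MM t + 2) ^ 4 ≤ c * t := by
  set C : ℝ := 5 / η ^ 2 + 4 + 6 with hC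
  have hC0 : 0 < C := by positivity
  have h1 := (Real.isLittleO_pow_log_id_atTop (n := 4)).def (show 0 < c / C ^ 4 by positivity)
  have h2 := tendsto_natCast_atTop_atTop (R := ℝ) |>.eventually h1
  have h3 : ∀ᶠ t : ℕ in atTop, 3 ≤ t := eventually_ge_atTop 3
  filter_upwards [h2, h3] with t h4 h5
  have ht : (3 : ℝ) ≤ t := by exact_mod_cast h5
  have hlog : 1 ≤ Real.log t := by
    rw [Real.le_log_iff_exp_le (by linarith)]
    have := Real.exp_one_lt_d9
    linarith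
  rw [Real.norm_eq_abs, Real.norm_eq_abs, abs_of_nonneg (by positivity), id, abs_of_nonneg (by linarith)] at h4
  have h6 := MM_le (show 1 ≤ t by omega)
  have h7 : (KK η t : ℝ) ≤ 5 * Real.log t / η ^ 2 + 2 := by
    unfold KK
    push_cast
    have := Nat.ceil_lt_add_one (show 0 ≤ 5 * Real.log t / η ^ 2 by positivity)
    linarith
  have h8 : (KK η t : ℝ) + MM t + 2 ≤ C * Real.log t := by
    rw [hC]
    have : (5 / η ^ 2 + 4 + 6) * Real.log t = 5 * Real.log t / η ^ 2 + 4 * Real.log t + 6 * Real.log t := by ring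
    linarith
  calc ((KK η t : ℝ) + MM t + 2) ^ 4 ≤ (C * Real.log t) ^ 4 := pow_le_pow_left₀ (by positivity) h8 4
    _ = C ^ 4 * Real.log t ^ 4 := by ring
    _ ≤ C ^ 4 * (c / C ^ 4 * t) := mul_le_mul_of_nonneg_left h4 (by positivity)
    _ = c * t := by field_simp

/-- `K + M + 2` is at most a small multiple of the square root. -/
theorem L_small' {η : ℝ} (hη : 0 < η) {c : ℝ} (hc : 0 < c) :
    ∀ᶠ t : ℕ in atTop, (KK η t : ℝ) + MM t + 2 ≤ c * √ t := by
  filter_upwards [L_small hη (c := c ^ 4) (by positivity), eventually_ge_atTop 1] with t h1 h2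
  have ht : (1 : ℝ) ≤ t := by exact_mod_cast h2
  have h3 : c ^ 4 * t ≤ (c * √ t) ^ 4 := by
    have : (c * √ (t : ℝ)) ^ 4 = c ^ 4 * ((√ (t : ℝ)) ^ 2) ^ 2 := by ring
    rw [this, Real.sq_sqrt (by linarith)]
    apply mul_le_mul_of_nonneg_left _ (by positivity)
    nlinarith
  have h4 := h1.trans h3
  exact le_of_pow_le_pow_left₀ (by norm_num) (by positivity) h4

theorem KK_big {η : ℝ} (hη : 0 < η) (c : ℝ) : ∀ᶠ t : ℕ in atTop, c ≤ KK η t := by
  have h1 : Tendsto (fun t : ℕ => Real.log (t : ℝ)) atTop atTop :=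
    Real.tendsto_log_atTop.comp tendsto_natCast_atTop_atTop
  filter_upwards [h1.eventually_ge_atTop (η ^ 2 * c / 5)] with t ht
  have h2 := KK_ge hη t
  have h3 : η ^ 2 * c ≤ η ^ 2 * KK η t := by
    rw [div_le_iff₀ (by norm_num)] at ht; linarith
  exact le_of_mul_le_mul_left h3 (by positivity)

theorem sqrt_big (c : ℝ) : ∀ᶠ t : ℕ in atTop, c ≤ √ (t : ℝ) := by
  have h : Tendsto (fun t : ℕ => √ (t : ℝ)) atTop atTop :=
    Real.tendsto_sqrt_atTop.comp tendsto_natCast_atTop_atTop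
  exact h.eventually_ge_atTop c

/-- The bound at low levels. -/
theorem low_small {η : ℝ} (hη : 0 < η) (hη1 : η ≤ 1) {C : ℝ} (hC : 0 < C) {θ : ℝ} (hθ : 0 < θ) :
    ∀ᶠ t : ℕ in atTop, 2 * C * ((KK η t + MM t : ℕ) : ℝ) * rho ⌊η * t⌋₊ ≤ θ := by
  have hc : 0 < η * θ ^ 2 / (16 * C ^ 2) := by positivity
  filter_upwards [L_small hη hc, eventually_ge_atTop 3, sqrt_big (2 / η)] with t h1 h2 h3
  have ht : (3 : ℝ) ≤ t := by exact_mod_cast h2
  have ht0 : (0 : ℝ) < t := by linarith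
  have hηt : 4 ≤ η ^ 2 * t := by
    have h4 : (2 / η) ^ 2 ≤ (√ (t : ℝ)) ^ 2 := pow_le_pow_left₀ (by positivity) h3 2
    rw [Real.sq_sqrt ht0.le, div_pow, div_le_iff₀ (by positivity)] at h4
    linarith
  have hηt' : 4 ≤ η * t := by nlinarith
  set j := ⌊η * t⌋₊ with hj
  have hj1 : η * t / 2 ≤ j := by
    have := Nat.lt_floor_add_one (η * (t : ℝ))
    rw [← hj] at this
    linarith
  have hj0 : (0 : ℝ) < j := by linarith
  have hj1' : 1 ≤ j := by exact_mod_cast hj0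
  have hjt : (j : ℝ) ≤ t := by
    have := Nat.floor_le (show 0 ≤ η * (t : ℝ) by positivity)
    rw [← hj] at this
    nlinarith
  set a : ℝ := ((KK η t + MM t : ℕ) : ℝ) with ha
  have haL : a ≤ (KK η t : ℝ) + MM t + 2 := by rw [ha]; push_cast; linarith
  set L := (KK η t : ℝ) + MM t + 2 with hL
  have ha0 : 0 ≤ a := by rw [ha]; positivity
  have hL0 : 2 ≤ L := by rw [hL]; have : (0 : ℝ) ≤ (KK η t : ℝ) + MM t := by positivity
                         linarith
  have hlog : Real.log ((j : ℝ) + 1) ≤ 2 * L := by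
    have e1 : Real.log ((j : ℝ) + 1) ≤ Real.log (t ^ 2) := by
      apply Real.log_le_log (by linarith)
      nlinarith
    rw [Real.log_pow] at e1
    push_cast at e1
    have e2 := KK_ge hη t
    have e3 : η ^ 2 * KK η t ≤ 1 * KK η t := by
      apply mul_le_mul_of_nonneg_right _ (by positivity)
      nlinarith
    have e4 : 0 ≤ Real.log t := Real.log_nonneg (by linarith)
    have e5 : (KK η t : ℝ) ≤ L := by
      rw [hL]; have : (0 : ℝ) ≤ MM t := by positivity
      linarith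
    linarith
  apply le_of_sq_le_sq _ hθ.le
  rw [mul_pow, mul_pow, mul_pow, rho_sq hj1']
  have hlog0 : 0 ≤ Real.log ((j : ℝ) + 1) := Real.log_nonneg (by linarith)
  have h5 : Real.log ((j : ℝ) + 1) / j ≤ 2 * L / (η * t / 2) :=
    div_le_div₀ (by linarith) hlog (by positivity) hj1
  calc 2 ^ 2 * C ^ 2 * a ^ 2 * (Real.log ((j : ℝ) + 1) / j) ≤ 2 ^ 2 * C ^ 2 * L ^ 2 * (2 * L / (η * t / 2)) := by
        gcongr
    _ = 16 * C ^ 2 * L ^ 3 / (η * t) := by field_simp; ring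
    _ ≤ 16 * C ^ 2 * L ^ 4 / (η * t) := by
        apply div_le_div_of_nonneg_right _ (by positivity)
        apply mul_le_mul_of_nonneg_left _ (by positivity)
        calc L ^ 3 = L ^ 3 * 1 := by ring
          _ ≤ L ^ 3 * L := mul_le_mul_of_nonneg_left (by linarith) (by positivity)
          _ = L ^ 4 := by ring
    _ ≤ 16 * C ^ 2 * (η * θ ^ 2 / (16 * C ^ 2) * t) / (η * t) := by gcongr
    _ = θ ^ 2 := by field_simp

end Pool.Agent.K7.H66.CW
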