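import Pool.Agent.K7.H66.CW.I

/-!
Coalescence in the critical window, part 10: the limit law for the chain.
-/

set_option autoImplicit false

namespace Pool.Agent.K7.H66.CW

open Finset Filter Topology Pool.Agent.H499R2.CO Pool.Agent.W38.CR

theorem Ga_le {x y z : ℝ} (hz : 0 ≤ z) (h : y ≤ x + z) : Ga y ≤ Ga x + 2 * z := by
  rcases le_total y x with h1 | h1
  · have := Ga_mono h1; linarith
  · have := Ga_lip h1; linarith

/-- The lower bound for levels at distance at most `√t / θ`. -/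
theorem near_lower {θ : ℝ} (hθ : 0 < θ) (hθ1 : θ ≤ 1 / 4) : ∃ t0 : ℕ, ∀ t ≥ t0, ∀ A B : ℕ × ℤ,
    √ |(A.2 : ℝ)| ≤ Real.exp (θ ^ 3 * t / 100) → √ |(B.2 : ℝ)| ≤ Real.exp (θ ^ 3 * t / 100) →
    ((st A B).1 : ℝ) ≤ √ t / θ →
    Ga ((st A B).1 / √ (t / 2)) - 11 * θ ≤ q step (0, 0) t (st A B) := by
  set η : ℝ := θ ^ 3 with hη
  have hη0 : 0 < η := by positivity
  have hθ2 : θ ^ 2 ≤ (1 / 4) ^ 2 := pow_le_pow_left₀ hθ.le hθ1 2
  have hη1 : η ≤ θ / 16 := by
    have := mul_le_mul_of_nonneg_right hθ2 hθ.le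
    have e : η = θ ^ 2 * θ := by rw [hη]; ring
    rw [e]; linarith
  have hη2 : η ≤ 1 / 64 := by linarith
  obtain ⟨tE, _, hE⟩ := Er_small hη0 hθ
  obtain ⟨m0, hm01, hm0⟩ := ph_law hθ
  have hev : ∀ᶠ t : ℕ in atTop, ((KK η t : ℝ) + MM t + 2 ≤ (η / 10) * √ t) ∧ 4 / η ≤ KK η t ∧
      100 / (η * θ) ≤ √ (t : ℝ) ∧ 2 * m0 + 1 ≤ t ∧ tE ≤ t := by
    filter_upwards [L_small' hη0 (show 0 < η / 10 by positivity), KK_big hη0 (4 / η),
      sqrt_big (100 / (η * θ)), eventually_ge_atTop (2 * m0 + 1), eventually_ge_atTop tE] with t h1 h2 h3 h4 h5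
    exact ⟨h1, h2, h3, h4, h5⟩
  obtain ⟨t0, ht0⟩ := eventually_atTop.1 hev
  refine ⟨t0, fun t ht A B hA hB hD => ?_⟩
  obtain ⟨hL, hKb, hsq, hm, hte⟩ := ht0 t ht
  set s0 := st A B with hs0
  set K := KK η t with hK
  set R := √ (t : ℝ) with hR
  have hR100 : 6400 ≤ R := by
    refine le_trans ?_ hsq
    rw [le_div_iff₀ (by positivity)]
    have := mul_le_mul hη2 hθ1 hθ.le (by norm_num)
    linarith
  have hR0 : 0 < R := by linarith
  have hRt : R ^ 2 = t := Real.sq_sqrt (by positivity)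
  have htr : (0 : ℝ) < t := by rw [← hRt]; positivity
  have hηθR : 100 ≤ η * θ * R := by
    rw [div_le_iff₀ (by positivity)] at hsq; linarith
  have hηR : 400 ≤ η * R := by
    have := mul_le_mul_of_nonneg_right hθ1 (show 0 ≤ η * R by positivity)
    linarith
  have hRt' : R ≤ t := by
    rw [← hRt]
    have := mul_le_mul_of_nonneg_right (show 1 ≤ R by linarith) hR0.le
    linarith
  have hMM : (0 : ℝ) ≤ MM t := by positivity
  have hKR : (K : ℝ) + 2 ≤ η / 10 * R := by linarith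
  have hKt : (K : ℝ) + 2 ≤ η / 10 * t := hKR.trans (mul_le_mul_of_nonneg_left hRt' (by positivity))
  have hK0 : (0 : ℝ) < K := by
    have : 0 < 4 / η := by positivity
    linarith
  have hK0' : 0 < K := by exact_mod_cast hK0
  have pηt : η * t ≤ 1 / 64 * t := mul_le_mul_of_nonneg_right hη2 htr.le
  have pηt0 : 0 ≤ η * t := by positivity
  have pηK : 0 ≤ η * K := by positivity
  have pηK1 : η * K ≤ 1 / 64 * K := mul_le_mul_of_nonneg_right hη2 hK0.le
  have pRR : 100 * R ≤ η * θ * R * R := mul_le_mul_of_nonneg_right hηθR hR0.le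
  -- the parameters
  set j0 : ℕ := ⌊η * t⌋₊ with hj0
  have hj1 : (j0 : ℝ) ≤ η * t := Nat.floor_le (by positivity)
  have hj2 : η * t - 1 ≤ j0 := by have := Nat.lt_floor_add_one (η * (t : ℝ)); linarith
  set n : ℕ := t / K + 1 with hn
  have hn1 : (t : ℝ) ≤ n * K := by
    have : t < K * (t / K + 1) := Nat.lt_mul_div_succ t hK0'
    have h2 : t ≤ n * K := by rw [hn, mul_comm]; exact this.le
    exact_mod_cast h2
  have hn2 : (n : ℝ) ≤ t / K + 1 := by
    rw [hn]; push_cast; have := @Nat.cast_div_le ℝ _ _ _ t K; linarith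
  have hn3 : (n : ℝ) * K ≤ t + K := by
    calc (n : ℝ) * K ≤ (t / K + 1) * K := mul_le_mul_of_nonneg_right hn2 hK0.le
      _ = t + K := by field_simp
  set v : ℕ := ⌈(1 / 2 + η) * K⌉₊ with hv
  have hv1 : (1 / 2 + η) * K ≤ v := Nat.le_ceil _
  have hv2 : (v : ℝ) ≤ (1 / 2 + η) * K + 1 := (Nat.ceil_lt_add_one (by positivity)).le
  set Y : ℕ := ⌈θ * R⌉₊ + 1 with hY
  have hY1 : θ * R ≤ Y := by rw [hY]; push_cast; have := Nat.le_ceil (θ * R); linarith
  have hY2 : (Y : ℝ) ≤ θ * R + 2 := by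
    rw [hY]; push_cast; have := Nat.ceil_lt_add_one (show 0 ≤ θ * R by positivity); linarith
  have hY0 : (0 : ℝ) < Y := by have : 0 < θ * R := by positivity
                               linarith
  -- the two sides
  have hlow := lower_chain (κ := K) (Y := Y) hη0.le hv1 le_rfl (by omega) A B (t := t) (j0 := j0) (n := n)
    (Bd := t ^ 3) (Nat.one_le_pow _ _ (by omega)) (by
      have : t ≤ n * K := by exact_mod_cast hn1
      omega)
  rw [← hs0] at hlow
  -- the error
  have hnt : n ≤ 2 * t := by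
    have : t / K ≤ t := Nat.div_le_self _ _
    omega
  have herr : Er j0 n K (t ^ 3) (√ |(A.2 : ℝ)| + √ |(B.2 : ℝ)|) (s0.1) (Real.exp (-(2 * η ^ 2 * K))) ≤ θ := by
    refine hE t hte n K j0 _ _ hnt ?_ hj2 (by positivity) (by linarith) ?_ (KK_ge hη0 t)
    · have : ((j0 + n * K : ℕ) : ℝ) ≤ ((3 * t : ℕ) : ℝ) := by push_cast; linarith
      exact_mod_cast this
    · refine hD.trans ?_
      rw [div_le_iff₀ hθ]
      have : η * t / 100 * θ = (η * θ * R) * R / 100 := by rw [← hRt]; ring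
      rw [this]
      linarith
  -- the square of the scale
  set m : ℕ := n * v with hm'
  have hmlow : (t : ℝ) / 2 ≤ m := by
    rw [hm']; push_cast
    have e1 : (K : ℝ) / 2 ≤ v := by linarith
    calc (t : ℝ) / 2 ≤ n * K / 2 := by linarith
      _ = n * (K / 2) := by ring
      _ ≤ n * v := mul_le_mul_of_nonneg_left e1 (by positivity)
  have hmup : (m : ℝ) ≤ (1 / 2 + 2 * η) * t := by
    rw [hm']; push_cast
    have e0 : (t : ℝ) / K ≤ η / 4 * t := by
      rw [div_le_iff₀ hK0]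
      have : 4 ≤ η * K := by
        rw [div_le_iff₀ hη0] at hKb; linarith
      have h2 : 4 * (t : ℝ) ≤ η * K * t := mul_le_mul_of_nonneg_right this htr.le
      linarith
    calc (n : ℝ) * v ≤ (t / K + 1) * ((1 / 2 + η) * K + 1) :=
          mul_le_mul hn2 hv2 (by positivity) (by positivity)
      _ = (1 / 2 + η) * t + (1 / 2 + η) * K + t / K + 1 := by field_simp; ring
      _ ≤ (1 / 2 + 2 * η) * t := by linarith
  have hmm0 : m0 ≤ m := by
    have : (m0 : ℝ) ≤ m := by
      have h2 : ((2 * m0 + 1 : ℕ) : ℝ) ≤ t := by exact_mod_cast hm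
      push_cast at h2
      linarith
    exact_mod_cast this
  have hph := hm0 m hmm0 (s0.1 - K - Y)
  rw [abs_le] at hph
  -- the scales
  set s := √ ((t : ℝ) / 2) with hs
  have hs2 : s ^ 2 = t / 2 := Real.sq_sqrt (by positivity)
  have hs0' : 0 < s := Real.sqrt_pos.2 (by positivity)
  set S := √ (m : ℝ) with hS
  have hS2 : S ^ 2 = m := Real.sq_sqrt (by positivity)
  have hsS : s ≤ S := Real.sqrt_le_sqrt hmlow
  have hSs : S ≤ (1 + 2 * η) * s := by
    apply le_of_sq_le_sq _ (by positivity)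
    rw [mul_pow, hS2, hs2]
    have : 0 ≤ η ^ 2 * t := by positivity
    linarith
  have hS0 : 0 < S := by linarith
  have hRs : R ≤ 3 / 2 * s := by
    apply le_of_sq_le_sq _ (by positivity)
    rw [hRt, mul_pow, hs2]
    linarith
  set D : ℝ := (s0.1 : ℝ) with hDdef
  have hD0 : 0 ≤ D := by positivity
  set x : ℝ := ((s0.1 - K - Y : ℕ) : ℝ) with hx
  have hx1 : D ≤ x + K + Y := by
    rw [hDdef, hx]; exact_mod_cast (by omega : s0.1 ≤ s0.1 - K - Y + K + Y)
  have hx0 : 0 ≤ x := by positivity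
  -- comparison of the arguments
  have hcmp : D / s ≤ x / S + 4 * θ := by
    have e1 : D / s ≤ (1.5 : ℝ) / θ := by
      rw [div_le_div_iff₀ hs0' hθ]
      rw [le_div_iff₀ hθ] at hD
      linarith
    have e2 : D / s ≤ D / S + 2 * η * (D / s) := by
      have h1 : s / S ≥ 1 - 2 * η := by
        rw [ge_iff_le, le_div_iff₀ hS0]
        have h2 : 0 ≤ 1 - 2 * η := by linarith
        calc (1 - 2 * η) * S ≤ (1 - 2 * η) * ((1 + 2 * η) * s) := mul_le_mul_of_nonneg_left hSs h2
          _ = (1 - 4 * η ^ 2) * s := by ring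
          _ ≤ 1 * s := mul_le_mul_of_nonneg_right (by linarith [sq_nonneg η]) hs0'.le
          _ = s := one_mul s
      have h3 : D / S = (s / S) * (D / s) := by field_simp
      rw [h3]
      have h4 : 0 ≤ D / s := by positivity
      have h5 : (1 - 2 * η) * (D / s) ≤ s / S * (D / s) := mul_le_mul_of_nonneg_right h1 h4
      linarith
    have e3 : 2 * η * (D / s) ≤ 3 * θ ^ 2 := by
      calc 2 * η * (D / s) ≤ 2 * η * (1.5 / θ) := mul_le_mul_of_nonneg_left e1 (by positivity)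
        _ = 3 * θ ^ 2 := by rw [hη]; field_simp; norm_num
    have e4 : D / S ≤ x / S + (K + Y) / S := by
      rw [← add_div]
      exact div_le_div_of_nonneg_right (by linarith) hS0.le
    have e5 : ((K : ℝ) + Y) / S ≤ 3 * θ := by
      rw [div_le_iff₀ hS0]
      have h2 : (K : ℝ) + Y ≤ η / 10 * R + θ * R := by linarith
      have h3 : η * R ≤ θ / 16 * R := mul_le_mul_of_nonneg_right hη1 hR0.le
      have h4 : θ * R ≤ θ * (3 / 2 * s) := mul_le_mul_of_nonneg_left hRs hθ.le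
      have h5 : θ * s ≤ θ * S := mul_le_mul_of_nonneg_left hsS hθ.le
      have h6 : 0 ≤ θ * s := by positivity
      linarith
    have e6 : 3 * θ ^ 2 ≤ θ := by
      have := mul_le_mul_of_nonneg_right hθ1 hθ.le
      linarith
    linarith
  have hGa := Ga_le (show 0 ≤ 4 * θ by positivity) hcmp
  have hjY : (j0 : ℝ) / (Y : ℝ) ^ 2 ≤ θ := by
    rw [div_le_iff₀ (by positivity)]
    have h1 : (θ * R) ^ 2 ≤ (Y : ℝ) ^ 2 := pow_le_pow_left₀ (by positivity) hY1 2
    have h2 : θ * (θ * R) ^ 2 = η * t := by rw [hη, ← hRt]; ring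
    have h3 := mul_le_mul_of_nonneg_left h1 hθ.le
    linarith
  linarith

end Pool.Agent.K7.H66.CW
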