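import Pool.Agent.K7.H66.CW.J

/-!
Coalescence in the critical window, part 11: the limit law for the chain.
-/

set_option autoImplicit false

namespace Pool.Agent.K7.H66.CW

open Finset Filter Topology Pool.Agent.H499R2.CO Pool.Agent.W38.CR

/-- The upper bound for levels at distance at most `√t / θ`. -/
theorem near_upper {θ : ℝ} (hθ : 0 < θ) (hθ1 : θ ≤ 1 / 4) : ∃ t0 : ℕ, ∀ t ≥ t0, ∀ A B : ℕ × ℤ,
    √ |(A.2 : ℝ)| ≤ Real.exp (θ ^ 3 * t / 100) → √ |(B.2 : ℝ)| ≤ Real.exp (θ ^ 3 * t / 100) →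
    ((st A B).1 : ℝ) ≤ √ t / θ →
    q step (0, 0) t (st A B) ≤ Ga ((st A B).1 / √ (t / 2)) + 22 * θ := by
  obtain ⟨C, hC, hrate⟩ := q_rate
  set η : ℝ := θ ^ 3 with hη
  have hη0 : 0 < η := by positivity
  have hθ2 : θ ^ 2 ≤ (1 / 4) ^ 2 := pow_le_pow_left₀ hθ.le hθ1 2
  have hη1 : η ≤ θ / 16 := by
    have := mul_le_mul_of_nonneg_right hθ2 hθ.le
    have e : η = θ ^ 2 * θ := by rw [hη]; ring
    rw [e]; linarith
  have hη2 : η ≤ 1 / 64 := by linarith
  obtain ⟨tE, _, hE⟩ := Er_small hη0 hθ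
  obtain ⟨m0, hm01, hm0⟩ := ph_law hθ
  have hev : ∀ᶠ t : ℕ in atTop, ((KK η t : ℝ) + MM t + 2 ≤ (η / 10) * √ t) ∧ 4 / η ≤ KK η t ∧
      100 / (η * θ) ≤ √ (t : ℝ) ∧ 4 * m0 + 1 ≤ t ∧ tE ≤ t ∧
      2 * C * ((KK η t + MM t : ℕ) : ℝ) * rho ⌊η * t⌋₊ ≤ θ ∧ 90 / θ ≤ (t : ℝ) := by
    filter_upwards [L_small' hη0 (show 0 < η / 10 by positivity), KK_big hη0 (4 / η),
      sqrt_big (100 / (η * θ)), eventually_ge_atTop (4 * m0 + 1), eventually_ge_atTop tE,
      low_small hη0 (by linarith) hC hθ, tendsto_natCast_atTop_atTop.eventually_ge_atTop (90 / θ)]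
      with t h1 h2 h3 h4 h5 h6 h7
    exact ⟨h1, h2, h3, h4, h5, h6, h7⟩
  obtain ⟨t0, ht0⟩ := eventually_atTop.1 hev
  refine ⟨t0, fun t ht A B hA hB hD => ?_⟩
  obtain ⟨hL, hKb, hsq, hm, hte, hlow0, ht90⟩ := ht0 t ht
  set s0 := st A B with hs0
  set K := KK η t with hK
  set R := √ (t : ℝ) with hR
  have hR100 : 6400 ≤ R := by
    refine le_trans ?_ hsq
    rw [le_div_iff₀ (by positivity)]
    have := mul_le_mul hη2 hθ1 hθ.le (by norm_num)
    linarith
  have hR0 : 0 < R := by linarith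
  have hRt : R ^ 2 = t := Real.sq_sqrt (by positivity)
  have htr : (0 : ℝ) < t := by rw [← hRt]; positivity
  have hηθR : 100 ≤ η * θ * R := by
    rw [div_le_iff₀ (by positivity)] at hsq; linarith
  have hηR : 400 ≤ η * R := by
    have := mul_le_mul_of_nonneg_right hθ1 (show 0 ≤ η * R by positivity)
    linarith
  have hRt' : R ≤ t := by
    rw [← hRt]
    have := mul_le_mul_of_nonneg_right (show 1 ≤ R by linarith) hR0.le
    linarith
  have hMM : (0 : ℝ) ≤ MM t := by positivity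
  have hKR : (K : ℝ) + 2 ≤ η / 10 * R := by linarith
  have hKt : (K : ℝ) + 2 ≤ η / 10 * t := hKR.trans (mul_le_mul_of_nonneg_left hRt' (by positivity))
  have hK0 : (0 : ℝ) < K := by
    have : 0 < 4 / η := by positivity
    linarith
  have hK0' : 0 < K := by exact_mod_cast hK0
  have pηt : η * t ≤ 1 / 64 * t := mul_le_mul_of_nonneg_right hη2 htr.le
  have pηt0 : 0 ≤ η * t := by positivity
  have pηK : 0 ≤ η * K := by positivity
  have pηK1 : η * K ≤ 1 / 64 * K := mul_le_mul_of_nonneg_right hη2 hK0.le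
  have pRR : 100 * R ≤ η * θ * R * R := mul_le_mul_of_nonneg_right hηθR hR0.le
  have pη2t : 0 ≤ η ^ 2 * t := by positivity
  -- the parameters
  set j0 : ℕ := ⌊η * t⌋₊ with hj0
  have hj1 : (j0 : ℝ) ≤ η * t := Nat.floor_le (by positivity)
  have hj2 : η * t - 1 ≤ j0 := by have := Nat.lt_floor_add_one (η * (t : ℝ)); linarith
  have hjt : 2 * j0 ≤ t := by
    have : ((2 * j0 : ℕ) : ℝ) ≤ t := by push_cast; linarith
    exact_mod_cast this
  set T : ℕ := t - 2 * j0 with hT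
  have hTr : (T : ℝ) = t - 2 * j0 := by rw [hT, Nat.cast_sub hjt]; push_cast; ring
  set n : ℕ := T / K with hn
  have hn1 : n * K ≤ T := Nat.div_mul_le_self T K
  have hn1r : (n : ℝ) * K ≤ T := by exact_mod_cast hn1
  have hn2 : (T : ℝ) / K - 1 ≤ n := by
    have h1 : T < K * (T / K + 1) := Nat.lt_mul_div_succ T hK0'
    have h2 : (T : ℝ) < K * (n + 1) := by exact_mod_cast h1
    rw [sub_le_iff_le_add, div_le_iff₀ hK0]
    linarith
  set v : ℕ := ⌊(1 / 2 - η) * K⌋₊ with hv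
  have hKη : 0 ≤ (1 / 2 - η) * K := by
    apply mul_nonneg _ hK0.le
    linarith
  have hv1 : (v : ℝ) ≤ (1 / 2 - η) * K := Nat.floor_le hKη
  have hv2 : (1 / 2 - η) * K - 1 ≤ v := by have := Nat.lt_floor_add_one ((1 / 2 - η) * (K : ℝ)); linarith
  set Y : ℕ := ⌈θ * R⌉₊ + 1 with hY
  have hY1 : θ * R ≤ Y := by rw [hY]; push_cast; have := Nat.le_ceil (θ * R); linarith
  have hY2 : (Y : ℝ) ≤ θ * R + 2 := by
    rw [hY]; push_cast; have := Nat.ceil_lt_add_one (show 0 ≤ θ * R by positivity); linarith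
  have hY0 : (0 : ℝ) < Y := by have : 0 < θ * R := by positivity
                               linarith
  have hj0pos : 1 ≤ j0 := by
    have h1 : (400 : ℝ) ≤ η * t := by
      have := mul_le_mul_of_nonneg_left hRt' hη0.le
      linarith
    have : (0 : ℝ) < j0 := by linarith
    exact_mod_cast this
  -- low levels
  have hq : ∀ s : ℕ × ℤ, s.1 ≤ K → pw s ≤ 2 ^ MM t → q step (0, 0) j0 s ≤ θ := by
    intro s hs hp
    refine (q_close hC hrate (a := K + MM t) (M := MM t) (by omega) (by omega) hj0pos s (by omega) hp).trans ?_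
    exact hlow0
  have hup := upper_chain (κ := K) (Y := Y) hη0.le hv1 le_rfl (by omega) (t1 := j0) (Λ := 2 ^ MM t)
    (by positivity) hθ.le hq A B (t := t) (j0 := j0) (n := n)
    (Bd := t ^ 3) (Nat.one_le_pow _ _ (by omega)) (by omega)
  rw [← hs0] at hup
  -- the error
  have hnt : n ≤ 2 * t := by
    have : T / K ≤ T := Nat.div_le_self _ _
    omega
  have hDt : (s0.1 : ℝ) ≤ η * t / 100 := by
    refine hD.trans ?_
    rw [div_le_iff₀ hθ]
    have : η * t / 100 * θ = (η * θ * R) * R / 100 := by rw [← hRt]; ring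
    rw [this]
    linarith
  have herr : Er j0 n K (t ^ 3) (√ |(A.2 : ℝ)| + √ |(B.2 : ℝ)|) (s0.1) (Real.exp (-(2 * η ^ 2 * K))) ≤ θ :=
    hE t hte n K j0 _ _ hnt (by omega) hj2 (by positivity) (by linarith) hDt (KK_ge hη0 t)
  -- the last term
  have hlast : (1 / (2 : ℝ) ^ MM t) * ((n * K + 1 : ℕ) * (0.98 ^ j0 * (√ |(A.2 : ℝ)| + √ |(B.2 : ℝ)|) + 37.5)) ≤ θ := by
    have e1 : (0.98 : ℝ) ^ j0 * (√ |(A.2 : ℝ)| + √ |(B.2 : ℝ)|) ≤ 4 := by
      have h1 := pow_exp (by norm_num) exp_98 j0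
      have h2 : Real.exp (-(0.02 * (j0 : ℝ))) ≤ Real.exp (0.02) * Real.exp (-(0.02 * (η * t))) := by
        rw [← Real.exp_add]; apply Real.exp_le_exp.2; linarith
      have h3 : Real.exp 0.02 ≤ 2 := by
        have h := Real.exp_le_exp.2 (show (0.02 : ℝ) ≤ 1 / 2 by norm_num)
        have := exp_half.2
        linarith
      have h4 : Real.exp (-(0.02 * (η * t))) * Real.exp (η * t / 100) ≤ 1 := by
        rw [← Real.exp_add, Real.exp_le_one_iff]; linarith
      have hE1 := Real.exp_pos (η * t / 100)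
      have hE2 := Real.exp_pos (-(0.02 * (η * t)))
      calc (0.98 : ℝ) ^ j0 * (√ |(A.2 : ℝ)| + √ |(B.2 : ℝ)|) ≤
          (Real.exp (0.02) * Real.exp (-(0.02 * (η * t)))) * (2 * Real.exp (η * t / 100)) :=
            mul_le_mul (h1.trans h2) (by linarith) (by positivity) (by positivity)
        _ = 2 * Real.exp 0.02 * (Real.exp (-(0.02 * (η * t))) * Real.exp (η * t / 100)) := by ring
        _ ≤ 2 * 2 * 1 := by gcongr
        _ = 4 := by norm_num
    have e2 : ((n * K + 1 : ℕ) : ℝ) ≤ 2 * t := by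
      have h1 : n * K + 1 ≤ 2 * t := by omega
      exact_mod_cast h1
    have e3 := MM_pow t
    have e4 : (0 : ℝ) < 2 ^ MM t := by positivity
    have e5 : 1 / (2 : ℝ) ^ MM t ≤ 1 / (t : ℝ) ^ 2 := one_div_le_one_div_of_le (by positivity) e3
    calc (1 / (2 : ℝ) ^ MM t) * ((n * K + 1 : ℕ) * (0.98 ^ j0 * (√ |(A.2 : ℝ)| + √ |(B.2 : ℝ)|) + 37.5)) ≤
        (1 / (t : ℝ) ^ 2) * ((2 * t) * (4 + 37.5)) := by gcongr
      _ = 83 / t := by field_simp; norm_num
      _ ≤ θ := by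
          rw [div_le_iff₀ htr]
          rw [div_le_iff₀ hθ] at ht90
          linarith
  -- the square of the scale
  set m : ℕ := n * v with hm'
  have hTb : (T : ℝ) ≤ t := by rw [hTr]; have : (0 : ℝ) ≤ j0 := by positivity
                               linarith
  have hTl : (1 - 2 * η) * t ≤ T := by rw [hTr]; linarith
  have hmlow : (1 / 2 - 3 * η) * t ≤ m := by
    rw [hm']; push_cast
    have e0 : (t : ℝ) / K ≤ η / 4 * t := by
      rw [div_le_iff₀ hK0]
      have : 4 ≤ η * K := by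
        rw [div_le_iff₀ hη0] at hKb; linarith
      have h2 : 4 * (t : ℝ) ≤ η * K * t := mul_le_mul_of_nonneg_right this htr.le
      linarith
    have e1 : (0 : ℝ) ≤ (1 / 2 - η) * K - 1 := by
      have : (256 : ℝ) ≤ K := by
        refine le_trans ?_ hKb
        rw [le_div_iff₀ hη0]
        linarith
      linarith
    have e2 : (T : ℝ) / K ≤ t / K := div_le_div_of_nonneg_right hTb hK0.le
    have e3 : (1 / 2 - η) * ((1 - 2 * η) * t) ≤ (1 / 2 - η) * T :=
      mul_le_mul_of_nonneg_left hTl (by linarith)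
    calc (1 / 2 - 3 * η) * (t : ℝ) ≤ (1 / 2 - η) * T - T / K - (1 / 2 - η) * K + 1 := by linarith
      _ = (T / K - 1) * ((1 / 2 - η) * K - 1) := by field_simp; ring
      _ ≤ n * ((1 / 2 - η) * K - 1) := mul_le_mul_of_nonneg_right hn2 e1
      _ ≤ n * v := mul_le_mul_of_nonneg_left hv2 (by positivity)
  have hmm0 : m0 ≤ m := by
    have : (m0 : ℝ) ≤ m := by
      have h2 : ((4 * m0 + 1 : ℕ) : ℝ) ≤ t := by exact_mod_cast hm
      push_cast at h2
      linarith
    exact_mod_cast this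
  have hph := hm0 m hmm0 (s0.1 + Y - K)
  rw [abs_le] at hph
  -- the scales
  set s := √ ((t : ℝ) / 2) with hs
  have hs2 : s ^ 2 = t / 2 := Real.sq_sqrt (by positivity)
  have hs0' : 0 < s := Real.sqrt_pos.2 (by positivity)
  set S := √ (m : ℝ) with hS
  have hS2 : S ^ 2 = m := Real.sq_sqrt (by positivity)
  have hSs : (1 - 6 * η) * s ≤ S := by
    apply le_of_sq_le_sq _ (Real.sqrt_nonneg _)
    rw [mul_pow, hS2, hs2]
    have h1 : (1 - 6 * η) ^ 2 ≤ 1 - 6 * η := by
      have h2 : 0 ≤ 1 - 6 * η := by linarith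
      have h3 : 1 - 6 * η ≤ 1 := by linarith
      calc (1 - 6 * η) ^ 2 = (1 - 6 * η) * (1 - 6 * η) := by ring
        _ ≤ (1 - 6 * η) * 1 := mul_le_mul_of_nonneg_left h3 h2
        _ = 1 - 6 * η := mul_one _
    have h4 := mul_le_mul_of_nonneg_right h1 (show 0 ≤ (t : ℝ) / 2 by positivity)
    linarith
  have hSpos : (29 / 32 : ℝ) * s ≤ S := by
    refine le_trans ?_ hSs
    apply mul_le_mul_of_nonneg_right _ hs0'.le
    linarith
  have hS0 : 0 < S := by
    have : 0 < (29 / 32 : ℝ) * s := by positivity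
    linarith
  have hRs : R ≤ 3 / 2 * s := by
    apply le_of_sq_le_sq _ (by positivity)
    rw [hRt, mul_pow, hs2]
    linarith
  set D : ℝ := (s0.1 : ℝ) with hDdef
  have hD0 : 0 ≤ D := by positivity
  set x : ℝ := ((s0.1 + Y - K : ℕ) : ℝ) with hx
  have hx1 : x ≤ D + Y := by
    rw [hDdef, hx]; exact_mod_cast (by omega : s0.1 + Y - K ≤ s0.1 + Y)
  have hx0 : 0 ≤ x := by positivity
  -- comparison of the arguments
  have hcmp : x / S ≤ D / s + 8 * θ := by
    have e1 : D / s ≤ (1.5 : ℝ) / θ := by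
      rw [div_le_div_iff₀ hs0' hθ]
      rw [le_div_iff₀ hθ] at hD
      linarith
    have e2 : D / S ≤ D / s + 12 * η * (D / s) := by
      have h1 : s / S ≤ 1 + 12 * η := by
        rw [div_le_iff₀ hS0]
        have h2 : 0 ≤ 1 + 12 * η := by linarith
        have h5 : 1 ≤ (1 + 12 * η) * (1 - 6 * η) := by
          have : 72 * η * η ≤ 6 * η := by
            have := mul_le_mul_of_nonneg_right hη2 hη0.le
            linarith
          linarith
        calc s = 1 * s := (one_mul s).symm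
          _ ≤ ((1 + 12 * η) * (1 - 6 * η)) * s := mul_le_mul_of_nonneg_right h5 hs0'.le
          _ = (1 + 12 * η) * ((1 - 6 * η) * s) := by ring
          _ ≤ (1 + 12 * η) * S := mul_le_mul_of_nonneg_left hSs h2
      have h3 : D / S = (s / S) * (D / s) := by field_simp
      rw [h3]
      have h4 : 0 ≤ D / s := by positivity
      have h5 : s / S * (D / s) ≤ (1 + 12 * η) * (D / s) := mul_le_mul_of_nonneg_right h1 h4
      linarith
    have e3 : 12 * η * (D / s) ≤ 18 * θ ^ 2 := by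
      calc 12 * η * (D / s) ≤ 12 * η * (1.5 / θ) := mul_le_mul_of_nonneg_left e1 (by positivity)
        _ = 18 * θ ^ 2 := by rw [hη]; field_simp; norm_num
    have e4 : x / S ≤ D / S + Y / S := by
      rw [← add_div]
      exact div_le_div_of_nonneg_right (by linarith) hS0.le
    have e5 : (Y : ℝ) / S ≤ 3 * θ := by
      rw [div_le_iff₀ hS0]
      have h2 : (Y : ℝ) ≤ θ * R + η / 10 * R := by linarith
      have h3 : η * R ≤ θ / 16 * R := mul_le_mul_of_nonneg_right hη1 hR0.le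
      have h4 : θ * R ≤ θ * (3 / 2 * s) := mul_le_mul_of_nonneg_left hRs hθ.le
      have h5 : θ * ((29 / 32 : ℝ) * s) ≤ θ * S := mul_le_mul_of_nonneg_left hSpos hθ.le
      have h6 : 0 ≤ θ * s := by positivity
      linarith
    have e6 : 18 * θ ^ 2 ≤ 4.5 * θ := by
      have := mul_le_mul_of_nonneg_right hθ1 hθ.le
      linarith
    linarith
  have hGa := Ga_le (show 0 ≤ 8 * θ by positivity) hcmp
  have hjY : (j0 : ℝ) / (Y : ℝ) ^ 2 ≤ θ := by
    rw [div_le_iff₀ (by positivity)]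
    have h1 : (θ * R) ^ 2 ≤ (Y : ℝ) ^ 2 := pow_le_pow_left₀ (by positivity) hY1 2
    have h2 : θ * (θ * R) ^ 2 = η * t := by rw [hη, ← hRt]; ring
    have h3 := mul_le_mul_of_nonneg_left h1 hθ.le
    linarith
  linarith

/-- **The limit law for the chain**, uniformly in the forms. -/
theorem chain_law {ε : ℝ} (hε : 0 < ε) : ∃ δ : ℝ, 0 < δ ∧ ∃ t0 : ℕ, ∀ t ≥ t0, ∀ A B : ℕ × ℤ,
    |(A.2 : ℝ)| ≤ Real.exp (δ * t) → |(B.2 : ℝ)| ≤ Real.exp (δ * t) →
    |q step (0, 0) t (st A B) - Ga ((st A B).1 / √ (t / 2))| ≤ ε := by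
  obtain ⟨X, hX⟩ := (Ga_top.eventually (eventually_ge_nhds (show 1 - ε < 1 by linarith))).exists_forall_of_atTop
  set θ : ℝ := min (1 / 4) (min (ε / 22) (1 / (|X| + 1))) with hθdef
  have hθ : 0 < θ := by
    rw [hθdef]
    refine lt_min (by norm_num) (lt_min (by positivity) (by positivity))
  have hθ1 : θ ≤ 1 / 4 := min_le_left _ _
  have hθ2 : θ ≤ ε / 22 := (min_le_right _ _).trans (min_le_left _ _)
  have hθ3 : θ ≤ 1 / (|X| + 1) := (min_le_right _ _).trans (min_le_right _ _)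
  obtain ⟨t1, h1⟩ := near_lower hθ hθ1
  obtain ⟨t2, h2⟩ := near_upper hθ hθ1
  refine ⟨θ ^ 3 / 50, by positivity, max (max t1 t2) 1, fun t ht A B hA hB => ?_⟩
  have ht1 : t1 ≤ t := ((le_max_left _ _).trans (le_max_left _ _)).trans ht
  have ht2 : t2 ≤ t := ((le_max_right _ _).trans (le_max_left _ _)).trans ht
  have ht3 : 1 ≤ t := (le_max_right _ _).trans ht
  have htr : (0 : ℝ) < t := by exact_mod_cast ht3
  have hsq : ∀ x : ℝ, |x| ≤ Real.exp (θ ^ 3 / 50 * t) → √ |x| ≤ Real.exp (θ ^ 3 * t / 100) := by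
    intro x hx
    rw [Real.sqrt_le_left (Real.exp_pos _).le, ← Real.exp_nat_mul]
    refine hx.trans (le_of_eq ?_)
    congr 1
    push_cast
    ring
  by_cases hD : ((st A B).1 : ℝ) ≤ √ t / θ
  · have e1 := h1 t ht1 A B (hsq _ hA) (hsq _ hB) hD
    have e2 := h2 t ht2 A B (hsq _ hA) (hsq _ hB) hD
    rw [abs_le]
    constructor <;> linarith
  · push Not at hD
    have hst : 0 < √ (t : ℝ) := Real.sqrt_pos.2 htr
    have hD1 : (0 : ℝ) < (st A B).1 := lt_trans (by positivity) hD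
    have hD1' : 1 ≤ (st A B).1 := by exact_mod_cast hD1
    have e1 := far_chain t (st A B) hD1'
    have e2 := q_le_one step (0, 0) t (st A B)
    have e3 : (t : ℝ) / ((st A B).1 : ℝ) ^ 2 ≤ ε := by
      rw [div_le_iff₀ (by positivity)]
      have h3 : (√ (t : ℝ) / θ) ^ 2 ≤ ((st A B).1 : ℝ) ^ 2 := pow_le_pow_left₀ (by positivity) hD.le 2
      rw [div_pow, Real.sq_sqrt htr.le, div_le_iff₀ (by positivity)] at h3
      have h4 : θ ^ 2 ≤ ε := by nlinarith
      calc (t : ℝ) ≤ ((st A B).1 : ℝ) ^ 2 * θ ^ 2 := h3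
        _ ≤ ((st A B).1 : ℝ) ^ 2 * ε := mul_le_mul_of_nonneg_left h4 (by positivity)
        _ = ε * ((st A B).1 : ℝ) ^ 2 := by ring
    have e4 : 1 - ε ≤ Ga ((st A B).1 / √ (t / 2)) := by
      apply hX
      have hs : 0 < √ ((t : ℝ) / 2) := Real.sqrt_pos.2 (by positivity)
      rw [le_div_iff₀ hs]
      have h5 : √ ((t : ℝ) / 2) ≤ √ t := Real.sqrt_le_sqrt (by linarith)
      have h6 : |X| * θ ≤ 1 := by
        rw [le_div_iff₀ (by positivity)] at hθ3
        nlinarith [abs_nonneg X]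
      rw [div_lt_iff₀ hθ] at hD
      have h7 : X * √ ((t : ℝ) / 2) ≤ |X| * √ t := by
        calc X * √ ((t : ℝ) / 2) ≤ |X| * √ ((t : ℝ) / 2) := mul_le_mul_of_nonneg_right (le_abs_self X) hs.le
          _ ≤ |X| * √ t := mul_le_mul_of_nonneg_left h5 (abs_nonneg X)
      refine h7.trans ?_
      calc |X| * √ t ≤ |X| * ((st A B).1 * θ) := mul_le_mul_of_nonneg_left hD.le (abs_nonneg X)
        _ = (|X| * θ) * (st A B).1 := by ring
        _ ≤ 1 * (st A B).1 := mul_le_mul_of_nonneg_right h6 hD1.le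
        _ = (st A B).1 := one_mul _
    have e5 := Ga_le_one ((st A B).1 / √ (t / 2))
    rw [abs_le]
    constructor <;> linarith

end Pool.Agent.K7.H66.CW
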