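import Pool.Agent.K7.H66.CW.C
import Pool.Agent.W38.CRh

/-!
Coalescence in the critical window, part 12: from the chain to the integers.
-/

set_option autoImplicit false

namespace Pool.Agent.K7.H66.CW

open Finset Filter Topology Pool.Agent.H499R2.CO Pool.Agent.W38.CR

/-- The last `k` binary digits of an integer. -/
def lz (k : ℕ) (x : ℤ) : List Bool := bits k (x % 2 ^ k).toNat

theorem length_lz (k : ℕ) (x : ℤ) : (lz k x).length = k := length_bits _ _

theorem lz_per (k : ℕ) (x m : ℤ) : lz k (x + m * 2 ^ k) = lz k x := by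
  unfold lz
  rw [Int.add_mul_emod_self_right]

theorem lz_nat {k u : ℕ} (hu : u < 2 ^ k) : lz k (u : ℤ) = bits k u := by
  unfold lz
  have h : ((u : ℤ) % 2 ^ k) = u := Int.emod_eq_of_lt (by positivity) (by exact_mod_cast hu)
  rw [h, Int.toNat_natCast]

theorem lz_bv (k : ℕ) (x : ℤ) : 2 ^ k * (x / 2 ^ k) + bv (lz k x) = x := by
  have h2 : (0 : ℤ) < 2 ^ k := by positivity
  have h0 : 0 ≤ x % 2 ^ k := Int.emod_nonneg _ h2.ne'
  have h1 : x % 2 ^ k < 2 ^ k := Int.emod_lt_of_pos _ h2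
  have h3 := bv_bits k (x % 2 ^ k).toNat
  have h4 : ((x % 2 ^ k).toNat : ℤ) = x % 2 ^ k := Int.toNat_of_nonneg h0
  have h5 : (x % 2 ^ k).toNat / 2 ^ k = 0 := by
    apply Nat.div_eq_of_lt
    have : ((x % 2 ^ k).toNat : ℤ) < ((2 ^ k : ℕ) : ℤ) := by rw [h4]; push_cast; exact h1
    exact_mod_cast this
  rw [h5, h4] at h3
  unfold lz
  have h6 := Int.mul_ediv_add_emod x (2 ^ k)
  push_cast at h3
  linarith

/-- The iterates of a form at an integer. -/
theorem iter_lz (k : ℕ) (x : ℤ) (A : ℕ × ℤ) : (Tz 1)^[k] (ev A x) = ev (fl (lz k x) A) (x / 2 ^ k) := by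
  have h1 := Tz_ev_iter (lz k x) A (x / 2 ^ k)
  rw [length_lz, lz_bv] at h1
  exact h1

theorem sum_lz (k : ℕ) (F : List Bool → ℝ) : ∑ u ∈ range (2 ^ k), F (lz k (u : ℤ)) = 2 ^ k * av k F := by
  rw [← sum_bits]
  apply sum_congr rfl
  intro u hu
  rw [lz_nat (mem_range.1 hu)]

theorem sum_Ico_lz {F : List Bool → ℝ} (hF : ∀ l, 0 ≤ F l) (k N : ℕ) (M : ℤ) :
    ∑ x ∈ Finset.Ico M (M + N), F (lz k x) ≤ (N + 2 ^ k) * av k F := by
  have h := per_sum_le (F := fun x => F (lz k x)) (fun x => hF _) (k := k)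
    (fun x m => by rw [lz_per]) (sum_lz k F) M N
  refine h.trans (le_of_eq ?_)
  field_simp

theorem lz_inj {k : ℕ} {x y : ℤ} (h : lz k x = lz k y) : x % 2 ^ k = y % 2 ^ k := by
  have h1 := lz_bv k x
  have h2 := lz_bv k y
  rw [h] at h1
  have h3 : x = y + (x / 2 ^ k - y / 2 ^ k) * 2 ^ k := by linear_combination h2 - h1
  rw [h3, Int.add_mul_emod_self_right]

/-- The integers at which two different forms have the same value are few. -/
theorem acc_card (A B : ℕ × ℤ) (k N : ℕ) (M : ℤ) :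
    #((Finset.Ico M (M + N)).filter (fun x => fl (lz k x) A ≠ fl (lz k x) B ∧
      (Tz 1)^[k] (ev A x) = (Tz 1)^[k] (ev B x))) ≤ 2 ^ k := by
  have h2 : (0 : ℤ) < 2 ^ k := by positivity
  have hcard : #(range (2 ^ k)) = 2 ^ k := card_range _
  rw [← hcard]
  apply Finset.card_le_card_of_injOn (fun x : ℤ => (x % 2 ^ k).toNat)
  · intro x _
    rw [mem_coe, mem_range]
    have h0 : 0 ≤ x % 2 ^ k := Int.emod_nonneg _ h2.ne'
    have h1 : x % 2 ^ k < 2 ^ k := Int.emod_lt_of_pos _ h2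
    have h4 : ((x % 2 ^ k).toNat : ℤ) = x % 2 ^ k := Int.toNat_of_nonneg h0
    have : ((x % 2 ^ k).toNat : ℤ) < ((2 ^ k : ℕ) : ℤ) := by rw [h4]; push_cast; exact h1
    exact_mod_cast this
  · intro x hx y hy hxy
    rw [mem_coe, mem_filter] at hx hy
    obtain ⟨_, hx1, hx2⟩ := hx
    obtain ⟨_, hy1, hy2⟩ := hy
    have h0 : 0 ≤ x % 2 ^ k := Int.emod_nonneg _ h2.ne'
    have h0' : 0 ≤ y % 2 ^ k := Int.emod_nonneg _ h2.ne'
    have hmod : x % 2 ^ k = y % 2 ^ k := by
      have e1 : ((x % 2 ^ k).toNat : ℤ) = x % 2 ^ k := Int.toNat_of_nonneg h0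
      have e2 : ((y % 2 ^ k).toNat : ℤ) = y % 2 ^ k := Int.toNat_of_nonneg h0'
      have e3 : (x % 2 ^ k).toNat = (y % 2 ^ k).toNat := hxy
      rw [← e1, ← e2, e3]
    have hl : lz k x = lz k y := by unfold lz; rw [hmod]
    rw [iter_lz, iter_lz] at hx2 hy2
    rw [← hl] at hy1 hy2
    set A' := fl (lz k x) A
    set B' := fl (lz k x) B
    unfold ev at hx2 hy2
    have hne : A'.1 ≠ B'.1 := by
      intro h
      apply hx1
      rw [h] at hx2
      exact Prod.ext h (by linarith)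
    have h3 : ((3 : ℤ) ^ A'.1 - 3 ^ B'.1) * (x / 2 ^ k - y / 2 ^ k) = 0 := by
      linear_combination hx2 - hy2
    have h4 : (3 : ℤ) ^ A'.1 - 3 ^ B'.1 ≠ 0 := by
      intro h
      apply hne
      have h5 : (3 : ℤ) ^ A'.1 = 3 ^ B'.1 := by linarith
      exact_mod_cast (pow_right_injective₀ (show (0 : ℤ) < 3 by norm_num) (by norm_num)) h5
    have h5 : x / 2 ^ k = y / 2 ^ k := by
      rcases mul_eq_zero.1 h3 with h | h
      · exact absurd h h4
      · linarith
    have h6 := Int.mul_ediv_add_emod x (2 ^ k)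
    have h7 := Int.mul_ediv_add_emod y (2 ^ k)
    rw [h5, hmod] at h6
    linarith

/-- **Transfer.** The number of the integers of an interval at which two forms have merged. -/
theorem transfer (A B : ℕ × ℤ) (k N : ℕ) (M : ℤ) :
    |(#((Finset.Ico M (M + N)).filter (fun x => (Tz 1)^[k] (ev A x) = (Tz 1)^[k] (ev B x))) : ℝ) -
      N * (1 - q step (0, 0) k (st A B))| ≤ 2 * 2 ^ k := by
  classical
  set I := Finset.Ico M (M + N) with hI
  have hcI : (#I : ℝ) = N := by rw [hI, Int.card_Ico]; simp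
  have hq0 := q_nonneg step (0, 0) k (st A B)
  have hq1 := q_le_one step (0, 0) k (st A B)
  have h2 : (0 : ℝ) < 2 ^ k := by positivity
  set C := I.filter (fun x => (Tz 1)^[k] (ev A x) = (Tz 1)^[k] (ev B x)) with hC
  set C' := I.filter (fun x => ¬ (Tz 1)^[k] (ev A x) = (Tz 1)^[k] (ev B x)) with hC'
  have hCC : (#C : ℝ) + #C' = N := by
    rw [← hcI]
    exact_mod_cast Finset.card_filter_add_card_filter_not (s := I) (fun x => (Tz 1)^[k] (ev A x) = (Tz 1)^[k] (ev B x))
  -- first bound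
  have h3 : (#C' : ℝ) ≤ (N + 2 ^ k) * q step (0, 0) k (st A B) := by
    rw [← av_ne k A B]
    refine le_trans ?_ (sum_Ico_lz (F := fun l => nq (fl l A) (fl l B)) (fun l => nq_nonneg _ _) k N M)
    rw [← hI]
    have e : (#C' : ℝ) = ∑ x ∈ C', (1 : ℝ) := by simp
    rw [e, hC', sum_filter]
    apply sum_le_sum
    intro x _
    by_cases h : (Tz 1)^[k] (ev A x) = (Tz 1)^[k] (ev B x)
    · rw [if_neg (by simpa using h)]
      exact nq_nonneg _ _
    · have hne : fl (lz k x) A ≠ fl (lz k x) B := by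
        intro heq
        apply h
        rw [iter_lz, iter_lz, heq]
      rw [nq_ne hne, if_pos h]
  -- second bound
  have h4 : (#C : ℝ) ≤ (N + 2 ^ k) * (1 - q step (0, 0) k (st A B)) + 2 ^ k := by
    have hacc := acc_card A B k N M
    rw [← hI] at hacc
    set E := I.filter (fun x => fl (lz k x) A ≠ fl (lz k x) B ∧
      (Tz 1)^[k] (ev A x) = (Tz 1)^[k] (ev B x)) with hE
    have e1 : (#C : ℝ) ≤ ∑ x ∈ I, (1 - nq (fl (lz k x) A) (fl (lz k x) B)) + #E := by
      have e : (#C : ℝ) = ∑ x ∈ C, (1 : ℝ) := by simp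
      have e' : (#E : ℝ) = ∑ x ∈ E, (1 : ℝ) := by simp
      rw [e, e', hC, hE, sum_filter, sum_filter, ← sum_add_distrib]
      apply sum_le_sum
      intro x _
      have h5 := nq_le_one (fl (lz k x) A) (fl (lz k x) B)
      split_ifs with h6 h7 h8
      · linarith
      · have heq : fl (lz k x) A = fl (lz k x) B := by
          by_contra hne
          exact h7 ⟨hne, h6⟩
        rw [heq, nq_self]
        linarith
      · linarith
      · linarith
    have e2 := sum_Ico_lz (F := fun l => 1 - nq (fl l A) (fl l B))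
      (fun l => by have := nq_le_one (fl l A) (fl l B); linarith) k N M
    have e3 : av k (fun l => 1 - nq (fl l A) (fl l B)) = 1 - q step (0, 0) k (st A B) := by
      have h5 : av k (fun l => (1 : ℝ) + (-1) * nq (fl l A) (fl l B)) = 1 + (-1) * q step (0, 0) k (st A B) := by
        rw [av_add, av_const, av_smul, av_ne]
      have h6 : (fun l : List Bool => 1 - nq (fl l A) (fl l B)) = fun l => (1 : ℝ) + (-1) * nq (fl l A) (fl l B) := by
        funext l; ring
      rw [h6, h5]; ring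
    rw [e3] at e2
    have e4 : (#E : ℝ) ≤ 2 ^ k := by exact_mod_cast hacc
    rw [← hI] at e2
    linarith
  rw [abs_le]
  constructor
  · nlinarith
  · nlinarith

end Pool.Agent.K7.H66.CW
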