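import Pool.Agent.K7.H66.CW.K
import Pool.Agent.K7.H66.CW.L

/-!
Coalescence in the critical window, part 13: the limit law for the integers.
-/

set_option autoImplicit false

namespace Pool.Agent.K7.H66.CW

open Finset Filter Topology MeasureTheory ProbabilityTheory Pool.Agent.H499R2.CO Pool.Agent.W38.CR
open Pool.Agent.H499R2.ND (Phi)

/-- The probability that a standard normal variable is larger than `x` in absolute value. -/
noncomputable def tl (x : ℝ) : ℝ := (gaussianReal 0 1).real {z : ℝ | x < |z|}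

theorem tl_eq {x : ℝ} (hx : 0 ≤ x) : tl x = 1 - Ga x := by
  unfold tl
  have h1 : {z : ℝ | x < |z|} = (Set.Icc (-x) x)ᶜ := by
    ext z
    simp only [Set.mem_setOf_eq, Set.mem_compl_iff, Set.mem_Icc, ← abs_le, not_le]
  have h2 : (gaussianReal 0 1).real (Set.Icc (-x) x) = Ga x := by
    have h3 : Set.Icc (-x) x = {-x} ∪ Set.Ioc (-x) x := by
      rw [Set.union_comm, Set.Ioc_union_left (by linarith)]
    rw [h3, measureReal_union (by simp) measurableSet_Ioc, gauss_Ioc (by linarith)]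
    have h4 : (gaussianReal 0 1).real {-x} = 0 := by
      rw [measureReal_def, Pool.Agent.R344.LS.no_atom]; rfl
    rw [h4]
    unfold Ga
    ring
  rw [h1, probReal_compl_eq_one_sub measurableSet_Icc, h2]

theorem st_level (i j : ℕ) (r r' : ℤ) : ((st (i, r) (j, r')).1 : ℝ) = |(i : ℝ) - j| := by
  rw [st_fst]
  simp only
  rcases le_total i j with h | h
  · have h1 : (i : ℝ) ≤ j := by exact_mod_cast h
    rw [abs_of_nonpos (by linarith), Nat.sub_eq_zero_of_le h, zero_add, Nat.cast_sub h]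
    ring
  · have h1 : (j : ℝ) ≤ i := by exact_mod_cast h
    rw [abs_of_nonneg (by linarith), Nat.sub_eq_zero_of_le h, add_zero, Nat.cast_sub h]

/-- **The limit law for the integers.** -/
theorem int_law {ε : ℝ} (hε : 0 < ε) : ∃ δ : ℝ, 0 < δ ∧ ∃ t0 : ℕ, ∀ t ≥ t0, ∀ (M : ℤ) (N : ℕ),
    (2 : ℝ) ^ t ≤ δ * N → ∀ (i j : ℕ) (r r' : ℤ),
    |(r : ℝ)| ≤ Real.exp (δ * t) → |(r' : ℝ)| ≤ Real.exp (δ * t) →
    |(#((Finset.Ico M (M + N)).filter (fun x => (Tz 1)^[t] (3 ^ i * x + r) = (Tz 1)^[t] (3 ^ j * x + r'))) : ℝ) -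
      N * tl (|(i : ℝ) - j| * √ (2 / t))| ≤ ε * N := by
  obtain ⟨δ, hδ, t0, h⟩ := chain_law (show 0 < ε / 2 by linarith)
  refine ⟨min δ (ε / 4), by positivity, max t0 1, fun t ht M N hN i j r r' hr hr' => ?_⟩
  have ht0 : t0 ≤ t := (le_max_left _ _).trans ht
  have ht1 : 1 ≤ t := (le_max_right _ _).trans ht
  have htr : (0 : ℝ) < t := by exact_mod_cast ht1
  have hexp : Real.exp (min δ (ε / 4) * t) ≤ Real.exp (δ * t) :=
    Real.exp_le_exp.2 (mul_le_mul_of_nonneg_right (min_le_left _ _) htr.le)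
  have h1 := h t ht0 (i, r) (j, r') (hr.trans hexp) (hr'.trans hexp)
  have h2 := transfer (i, r) (j, r') t N M
  have e1 : ∀ (a : ℕ) (b x : ℤ), ev (a, b) x = 3 ^ a * x + b := fun _ _ _ => rfl
  simp only [e1] at h2
  have e2 : ((st (i, r) (j, r')).1 : ℝ) / √ (t / 2) = |(i : ℝ) - j| * √ (2 / t) := by
    rw [st_level, div_eq_mul_inv, ← Real.sqrt_inv, inv_div]
  rw [e2] at h1
  have h3 : tl (|(i : ℝ) - j| * √ (2 / t)) = 1 - Ga (|(i : ℝ) - j| * √ (2 / t)) :=
    tl_eq (by positivity)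
  rw [h3]
  have hN0 : (0 : ℝ) ≤ N := by positivity
  have h4 : 2 * (2 : ℝ) ^ t ≤ ε / 2 * N := by
    have : min δ (ε / 4) * N ≤ ε / 4 * N := mul_le_mul_of_nonneg_right (min_le_right _ _) hN0
    linarith
  set C : ℝ := (#((Finset.Ico M (M + N)).filter (fun x => (Tz 1)^[t] (3 ^ i * x + r) = (Tz 1)^[t] (3 ^ j * x + r'))) : ℝ)
  set Q := q step (0, 0) t (st (i, r) (j, r'))
  set G := Ga (|(i : ℝ) - j| * √ (2 / t))
  have h5 : |(N : ℝ) * (Q - G)| ≤ ε / 2 * N := by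
    rw [abs_mul, abs_of_nonneg hN0, mul_comm]
    exact mul_le_mul_of_nonneg_right h1 hN0
  have h6 : C - N * (1 - G) = (C - N * (1 - Q)) - N * (Q - G) := by ring
  rw [h6]
  calc |(C - N * (1 - Q)) - N * (Q - G)| ≤ |C - N * (1 - Q)| + |N * (Q - G)| := abs_sub _ _
    _ ≤ 2 * 2 ^ t + ε / 2 * N := add_le_add h2 h5
    _ ≤ ε * N := by linarith

end Pool.Agent.K7.H66.CW
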