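import Pool.Agent.K7.H66.CW.E

/-!
The arcsine law, part 1: the waiting times at low levels.
-/

set_option autoImplicit false

namespace Pool.Agent.K7.H66.CW

open Finset Pool.Agent.H499R2.CO Pool.Agent.W38.CR

theorem lb1_odd {k : ℕ} {s : ℕ × ℤ} (ho : ¬ s.2 % 2 = 0) : lb (k + 1) 1 s = 0 := by
  rw [show (1 : ℕ) = 0 + 1 by rfl, lb_odd ho]
  unfold P
  rw [lb_zero, lb_zero]
  norm_num

theorem lb1_zero (s : ℕ × ℤ) : lb 0 1 s = 1 := by simp [lb]

/-- At level `0` the waiting time is the exponent of `2` in the offset. -/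
theorem lb1_level0 : ∀ (L : ℕ) (r : ℤ), lb L 1 (0, r) = if (2 : ℤ) ^ L ∣ r then 1 else 0 := by
  intro L
  induction L with
  | zero => intro r; simp [lb1_zero]
  | succ L ih =>
    intro r
    by_cases ho : r % 2 = 0
    · rw [lb_even ho]
      unfold P
      rw [step_ef ho, step_et ho, ih, ih]
      obtain ⟨m, rfl⟩ : ∃ m, r = 2 * m := ⟨r / 2, by omega⟩
      have e1 : 2 * m / 2 = m := by omega
      have e2 : (3 * (2 * m) + 1 - 3 ^ 0) / 2 = 3 * m := by rw [pow_zero]; omega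
      rw [e1, e2]
      have h1 : ((2 : ℤ) ^ (L + 1) ∣ 2 * m) ↔ (2 : ℤ) ^ L ∣ m := by
        rw [pow_succ, mul_comm]
        exact mul_dvd_mul_iff_left (by norm_num)
      have h2 : ((2 : ℤ) ^ L ∣ 3 * m) ↔ (2 : ℤ) ^ L ∣ m := by
        constructor
        · intro h
          have hc : IsCoprime ((2 : ℤ) ^ L) 3 := by
            apply IsCoprime.pow_left
            exact ⟨-1, 1, by norm_num⟩
          exact hc.dvd_of_dvd_mul_left h
        · intro h; exact Dvd.dvd.mul_left h 3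
      simp only [h1, h2]
      split_ifs <;> norm_num
    · rw [lb1_odd ho, if_neg]
      intro h
      apply ho
      have : (2 : ℤ) ∣ r := dvd_trans (dvd_pow_self 2 (by omega)) h
      omega

/-- If the offset is not divisible by a high power of `2`, there is a move soon. -/
theorem lb1_ndvd : ∀ (k i : ℕ) (r : ℤ), ¬ (2 : ℤ) ^ (k + 1) ∣ r → lb (k + 1) 1 (i, r) ≤ 1 - 1 / 2 ^ k := by
  intro k
  induction k with
  | zero =>
    intro i r h
    rw [zero_add, pow_one] at h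
    rw [lb1_odd (by simp only; omega)]
    norm_num
  | succ k ih =>
    intro i r h
    by_cases ho : r % 2 = 0
    · rw [lb_even ho]
      unfold P
      rw [step_ef ho, step_et ho]
      have h1 : ¬ (2 : ℤ) ^ (k + 1) ∣ r / 2 := by
        intro h2
        apply h
        obtain ⟨m, hm⟩ := h2
        refine ⟨m, ?_⟩
        have : r = 2 * (r / 2) := by omega
        rw [this, hm, pow_succ (2 : ℤ) (k + 1)]
        ring
      have h2 := ih i (r / 2) h1
      have h3 := lb_le_one (k + 1) 1 (i, (3 * r + 1 - 3 ^ i) / 2)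
      have h4 : (1 : ℝ) / 2 ^ (k + 1) = 1 / 2 ^ k / 2 := by rw [pow_succ]; field_simp
      linarith
    · rw [lb1_odd ho]
      have : (1 : ℝ) / 2 ^ (k + 1) ≤ 1 := by
        rw [div_le_one (by positivity)]; exact one_le_pow₀ (by norm_num)
      linarith

/-- The waiting time at the level `i`. -/
theorem lb1_level {i e : ℕ} (he : 1 ≤ e) (hi : ¬ (2 : ℤ) ^ (e + 1) ∣ 3 ^ i - 1) (r : ℤ) :
    lb (e + 1) 1 (i, r) ≤ 1 - 1 / 2 ^ e := by
  by_cases h : (2 : ℤ) ^ (e + 1) ∣ r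
  · have ho : r % 2 = 0 := by
      have : (2 : ℤ) ∣ r := dvd_trans (dvd_pow_self 2 (by omega)) h
      omega
    obtain ⟨m, hm⟩ : ∃ m : ℤ, (3 : ℤ) ^ i = 2 * m + 1 := odd3z i
    have h1 : ¬ (2 : ℤ) ^ e ∣ (3 * r + 1 - 3 ^ i) / 2 := by
      intro h2
      apply hi
      obtain ⟨u, hu⟩ := h2
      obtain ⟨w, hw⟩ := h
      have h3 : 3 * r + 1 - 3 ^ i = 2 * ((3 * r + 1 - 3 ^ i) / 2) := by omega
      refine ⟨3 * w - u, ?_⟩
      rw [hu] at h3
      rw [pow_succ] at hw ⊢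
      linear_combination (-1) * h3 + 3 * hw
    obtain ⟨k, rfl⟩ : ∃ k, e = k + 1 := ⟨e - 1, by omega⟩
    rw [lb_even ho]
    unfold P
    rw [step_ef ho, step_et ho]
    have h2 := lb1_ndvd k i ((3 * r + 1 - 3 ^ i) / 2) h1
    have h3 := lb_le_one (k + 1) 1 (i, r / 2)
    have h4 : (1 : ℝ) / 2 ^ (k + 1) = 1 / 2 ^ k / 2 := by rw [pow_succ]; field_simp
    linarith
  · exact lb1_ndvd e i r h

theorem lb1_mul {i k : ℕ} {ρ : ℝ} (h : ∀ r : ℤ, lb k 1 (i, r) ≤ ρ) : ∀ (k' : ℕ) (r : ℤ),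
    lb (k' + k) 1 (i, r) ≤ ρ * lb k' 1 (i, r) := by
  intro k'
  induction k' with
  | zero => intro r; rw [zero_add, lb1_zero, mul_one]; exact h r
  | succ k' ih =>
    intro r
    rw [show k' + 1 + k = (k' + k) + 1 by ring]
    by_cases ho : r % 2 = 0
    · rw [lb_even ho, lb_even ho]
      unfold P
      rw [step_ef ho, step_et ho]
      have := ih (r / 2)
      have := ih ((3 * r + 1 - 3 ^ i) / 2)
      linarith
    · rw [lb1_odd ho, lb1_odd ho]; simp

theorem lb1_pow {i k : ℕ} {ρ : ℝ} (h : ∀ r : ℤ, lb k 1 (i, r) ≤ ρ) (hρ : 0 ≤ ρ) : ∀ (n : ℕ) (r : ℤ),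
    lb (n * k) 1 (i, r) ≤ ρ ^ n := by
  intro n
  induction n with
  | zero => intro r; rw [zero_mul, lb1_zero, pow_zero]
  | succ n ih =>
    intro r
    rw [show (n + 1) * k = n * k + k by ring]
    refine (lb1_mul h (n * k) r).trans ?_
    rw [pow_succ, mul_comm (ρ ^ n)]
    exact mul_le_mul_of_nonneg_left (ih r) hρ

/-- The exponent of `2` in `3 ^ i - 1`. -/
theorem ndvd_pow {i : ℕ} (hi : 1 ≤ i) : ¬ (2 : ℤ) ^ (Nat.log 2 i + 3) ∣ 3 ^ i - 1 := by
  rcases Nat.even_or_odd i with he | ho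
  · intro h
    have h1 : (2 ^ (Nat.log 2 i + 3) : ℕ) ∣ 3 ^ i - 1 := by
      have h2 : ((2 ^ (Nat.log 2 i + 3) : ℕ) : ℤ) ∣ ((3 ^ i - 1 : ℕ) : ℤ) := by
        rw [Nat.cast_sub (Nat.one_le_pow _ _ (by norm_num))]
        push_cast
        exact h
      exact_mod_cast h2
    have h3 := Nat.two_pow_sub_pow (x := 3) (y := 1) (by norm_num) (by norm_num) he
    rw [one_pow] at h3
    have h4 : (Nat.log 2 i + 3 : ℕ) ≤ emultiplicity 2 (3 ^ i - 1) := le_emultiplicity_of_pow_dvd h1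
    have h5 : emultiplicity 2 (3 + 1) = 2 := by
      have : (3 + 1 : ℕ) = 2 ^ 2 := by norm_num
      rw [this]
      exact_mod_cast emultiplicity_pow_self_of_prime Nat.prime_two.prime 2
    have h6 : emultiplicity 2 (3 - 1) = 1 := by
      have : (3 - 1 : ℕ) = 2 ^ 1 := by norm_num
      rw [this]
      exact_mod_cast emultiplicity_pow_self_of_prime Nat.prime_two.prime 1
    have h7 : emultiplicity 2 i < ((Nat.log 2 i + 1 : ℕ) : ℕ∞) := by
      rw [emultiplicity_lt_iff_not_dvd]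
      intro hd
      have h8 := Nat.le_of_dvd (by omega) hd
      have h9 := Nat.lt_pow_succ_log_self (b := 2) (by norm_num) i
      omega
    obtain ⟨n, hn⟩ := ENat.ne_top_iff_exists.1 (ne_top_of_lt h7)
    rw [← hn] at h7 h3
    rw [h5, h6] at h3
    have h8 : ((Nat.log 2 i + 3 : ℕ) : ℕ∞) + 1 ≤ emultiplicity 2 (3 ^ i - 1) + 1 := by gcongr
    rw [h3] at h8
    have h9 : n < Nat.log 2 i + 1 := by exact_mod_cast h7
    have h10 : Nat.log 2 i + 3 + 1 ≤ 2 + 1 + n := by exact_mod_cast h8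
    omega
  · intro h
    obtain ⟨j, rfl⟩ := ho
    have h1 : (4 : ℤ) ∣ 3 ^ (2 * j + 1) - 1 := by
      refine dvd_trans ?_ h
      exact ⟨2 ^ (Nat.log 2 (2 * j + 1) + 1), by ring⟩
    have h9 : (3 : ℤ) ^ (2 * j) ≡ 1 [ZMOD 4] := by
      rw [pow_mul]
      have h10 : ((3 : ℤ) ^ 2) ≡ 1 [ZMOD 4] := by decide
      simpa using h10.pow j
    have h11 : (3 : ℤ) ^ (2 * j + 1) ≡ 3 [ZMOD 4] := by
      rw [pow_succ]; simpa using h9.mul_right 3
    have h2 : (3 : ℤ) ^ (2 * j + 1) % 4 = 3 := h11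
    omega

end Pool.Agent.K7.H66.CW
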