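import Pool.Agent.K7.H66.CW.N1

/-!
The arcsine law, part 2: the time at low levels.
-/

set_option autoImplicit false

namespace Pool.Agent.K7.H66.CW

open Finset Pool.Agent.H499R2.CO Pool.Agent.W38.CR

/-- A move from a low level. -/
def lo1 (κ : ℕ) (s : ℕ × ℤ) : ℝ := if s.1 ≤ κ ∧ ¬ s.2 % 2 = 0 then 1 else 0

/-- A low level. -/
def lw (κ : ℕ) (s : ℕ × ℤ) : ℝ := if s.1 ≤ κ then 1 else 0

/-- Equal levels, and the offset is divisible by a high power of `2`. -/
noncomputable def zt (L : ℕ) (s : ℕ × ℤ) : ℝ := ind (s.1 = 0 ∧ (2 : ℤ) ^ L ∣ s.2)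

/-- The square, continued linearly. -/
noncomputable def wq (κ : ℕ) (s : ℕ × ℤ) : ℝ :=
  if s.1 ≤ κ + 1 then (s.1 : ℝ) ^ 2 else ((κ : ℝ) + 1) ^ 2 + (2 * κ + 1) * ((s.1 : ℝ) - κ - 1)

theorem lo1_nonneg (κ : ℕ) (s : ℕ × ℤ) : 0 ≤ lo1 κ s := by unfold lo1; split_ifs <;> norm_num

theorem lw_nonneg (κ : ℕ) (s : ℕ × ℤ) : 0 ≤ lw κ s := by unfold lw; split_ifs <;> norm_num

theorem lw_le_one (κ : ℕ) (s : ℕ × ℤ) : lw κ s ≤ 1 := by unfold lw; split_ifs <;> norm_num

theorem zt_nonneg (L : ℕ) (s : ℕ × ℤ) : 0 ≤ zt L s := ind_nonneg _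

theorem P_wq (κ : ℕ) (s : ℕ × ℤ) : P (wq κ) s = wq κ s + lo1 κ s := by
  obtain ⟨i, r⟩ := s
  by_cases ho : r % 2 = 0
  · unfold P
    rw [step_ef ho, step_et ho]
    have : lo1 κ (i, r) = 0 := by unfold lo1; rw [if_neg]; intro h; exact h.2 ho
    rw [this]
    unfold wq
    simp only
    split_ifs <;> ring
  · have ho' : r % 2 = 1 := by omega
    rcases i with _ | i
    · unfold P
      rw [step_0f ho', step_0t ho']
      unfold wq lo1
      simp [ho']
    · unfold P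
      rw [step_sf ho', step_st ho']
      rcases lt_trichotomy i κ with h | h | h
      · have : lo1 κ (i + 1, r) = 1 := by unfold lo1; rw [if_pos ⟨by simp only; omega, ho⟩]
        rw [this]
        unfold wq
        simp only
        rw [if_pos (by omega), if_pos (by omega), if_pos (by omega)]
        push_cast
        ring
      · subst h
        have : lo1 i (i + 1, r) = 0 := by unfold lo1; rw [if_neg]; simp
        rw [this]
        unfold wq
        simp only
        rw [if_neg (by omega), if_pos (by omega), if_pos (by omega)]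
        push_cast
        ring
      · have : lo1 κ (i + 1, r) = 0 := by unfold lo1; rw [if_neg]; simp only; omega
        rw [this]
        unfold wq
        simp only
        rw [if_neg (by omega), if_neg (show ¬ i + 1 ≤ κ + 1 by omega)]
        by_cases h2 : i = κ + 1
        · subst h2
          rw [if_pos (by omega)]
          push_cast
          ring
        · rw [if_neg (by omega)]
          push_cast
          ring

theorem sum_lo1 (κ : ℕ) (k : ℕ) (s : ℕ × ℤ) :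
    ∑ j ∈ range k, (P^[j] (lo1 κ)) s = (P^[k] (wq κ)) s - wq κ s := by
  induction k with
  | zero => simp
  | succ k ih =>
    rw [sum_range_succ, ih, Function.iterate_succ_apply]
    have h : P (wq κ) = fun s => wq κ s + lo1 κ s := funext (P_wq κ)
    rw [h, P_iter_add]
    ring

theorem wq_nonneg (κ : ℕ) (s : ℕ × ℤ) : 0 ≤ wq κ s := by
  unfold wq
  split_ifs with h
  · positivity
  · push Not at h
    have : (κ : ℝ) + 1 ≤ s.1 := by exact_mod_cast h.le
    have h2 : 0 ≤ (s.1 : ℝ) - κ - 1 := by linarith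
    positivity

theorem wq_le (κ : ℕ) (s : ℕ × ℤ) : wq κ s ≤ ((κ : ℝ) + 1) ^ 2 + (2 * κ + 1) * s.1 := by
  unfold wq
  have h1 : (0 : ℝ) ≤ s.1 := by positivity
  have h2 : (0 : ℝ) ≤ κ := by positivity
  split_ifs with h
  · have : (s.1 : ℝ) ≤ κ + 1 := by exact_mod_cast h
    nlinarith
  · nlinarith

theorem lev_mean {y : ℝ} (hy : 0 < y) (k : ℕ) (s : ℕ × ℤ) :
    (P^[k] (fun x => (x.1 : ℝ))) s ≤ (((s.1 : ℝ) ^ 2 + k) / y + y) / 2 := by
  have h1 : ∀ x : ℕ × ℤ, (x.1 : ℝ) ≤ y / 2 + (1 / (2 * y)) * f0 0 x := by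
    intro x
    unfold f0
    have e : (1 / (2 * y)) * (0 - (x.1 : ℝ)) ^ 2 = (x.1 : ℝ) ^ 2 / (2 * y) := by ring
    rw [e]
    have h : (x.1 : ℝ) * (2 * y) ≤ y / 2 * (2 * y) + (x.1 : ℝ) ^ 2 := by nlinarith [sq_nonneg ((x.1 : ℝ) - y)]
    have h2 : (x.1 : ℝ) = ((x.1 : ℝ) * (2 * y)) / (2 * y) := by field_simp
    rw [h2]
    have h3 : y / 2 + ((x.1 : ℝ) * (2 * y) / (2 * y)) ^ 2 / (2 * y) = (y / 2 * (2 * y) + (x.1 : ℝ) ^ 2) / (2 * y) := by
      rw [← h2]; field_simp
    rw [h3]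
    exact div_le_div_of_nonneg_right h (by positivity)
  have h2 := P_iter_mono k h1 s
  rw [P_iter_add k (fun _ => y / 2), P_iter_const, P_iter_smul] at h2
  have h3 := P_iter_f0 (i0 := 0) le_rfl k s
  have h4 : f0 0 s = (s.1 : ℝ) ^ 2 := by unfold f0; ring
  rw [h4] at h3
  have h5 := mul_le_mul_of_nonneg_left h3 (show 0 ≤ 1 / (2 * y) by positivity)
  have h6 : (((s.1 : ℝ) ^ 2 + k) / y + y) / 2 = y / 2 + 1 / (2 * y) * ((s.1 : ℝ) ^ 2 + k) := by
    field_simp; ring
  rw [h6]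
  linarith

/-- The mean number of the moves from low levels. -/
theorem low_moves {y : ℝ} (hy : 0 < y) (κ k : ℕ) (s : ℕ × ℤ) :
    ∑ j ∈ range k, (P^[j] (lo1 κ)) s ≤
      ((κ : ℝ) + 1) ^ 2 + (2 * κ + 1) * ((((s.1 : ℝ) ^ 2 + k) / y + y) / 2) := by
  rw [sum_lo1]
  have h1 := P_iter_mono k (wq_le κ) s
  rw [P_iter_add k (fun _ => ((κ : ℝ) + 1) ^ 2), P_iter_const, P_iter_smul] at h1
  have h2 := lev_mean hy k s
  have h3 := wq_nonneg κ s
  have h4 := mul_le_mul_of_nonneg_left h2 (show (0 : ℝ) ≤ 2 * κ + 1 by positivity)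
  linarith

theorem wait_le (κ : ℕ) : ∀ (L : ℕ) (x : ℕ × ℤ), x.1 ≤ κ →
    1 ≤ lb L 1 x + ∑ j ∈ range L, (P^[j] (lo1 κ)) x := by
  intro L
  induction L with
  | zero => intro x _; simp [lb1_zero]
  | succ L ih =>
    intro x hx
    rw [sum_range_succ', Function.iterate_zero, id]
    by_cases ho : x.2 % 2 = 0
    · obtain ⟨i, r⟩ := x
      simp only at ho hx
      rw [lb_even ho]
      have e : ∀ j ∈ range L, (P^[j + 1] (lo1 κ)) (i, r) =
          ((P^[j] (lo1 κ)) (step (i, r) false) + (P^[j] (lo1 κ)) (step (i, r) true)) / 2 := by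
        intro j _; rw [Function.iterate_succ_apply', P_def]
      rw [sum_congr rfl e, ← sum_div, sum_add_distrib, P_def]
      have h1 := ih (step (i, r) false) (by rw [step_ef ho]; exact hx)
      have h2 := ih (step (i, r) true) (by rw [step_et ho]; exact hx)
      have h3 := lo1_nonneg κ (i, r)
      linarith
    · have h1 : lo1 κ x = 1 := by unfold lo1; rw [if_pos ⟨hx, ho⟩]
      have h2 := lb_nonneg (L + 1) 1 x
      have h3 : 0 ≤ ∑ j ∈ range L, (P^[j + 1] (lo1 κ)) x :=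
        sum_nonneg (fun j _ => P_iter_nonneg (lo1_nonneg κ) _ _)
      rw [h1]
      linarith

theorem low_time_aux (κ L k : ℕ) (s : ℕ × ℤ) :
    ∑ j ∈ range k, (P^[j] (lw κ)) s ≤ ∑ j ∈ range k, (P^[j] (fun x => lw κ x * lb L 1 x)) s +
      L * ∑ j ∈ range (k + L), (P^[j] (lo1 κ)) s := by
  have h1 : ∀ x : ℕ × ℤ, lw κ x ≤ lw κ x * lb L 1 x + ∑ j ∈ range L, (P^[j] (lo1 κ)) x := by
    intro x
    have hS : 0 ≤ ∑ j ∈ range L, (P^[j] (lo1 κ)) x :=
      sum_nonneg (fun j _ => P_iter_nonneg (lo1_nonneg κ) _ _)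
    by_cases h : x.1 ≤ κ
    · have := wait_le κ L x h
      have e : lw κ x = 1 := by unfold lw; rw [if_pos h]
      rw [e, one_mul]
      linarith
    · have e : lw κ x = 0 := by unfold lw; rw [if_neg h]
      rw [e, zero_mul, zero_add]
      exact hS
  have h2 : ∀ j : ℕ, (P^[j] (lw κ)) s ≤ (P^[j] (fun x => lw κ x * lb L 1 x)) s +
      ∑ i ∈ range L, (P^[j + i] (lo1 κ)) s := by
    intro j
    have h3 := P_iter_mono j h1 s
    rw [P_iter_add j (fun x => lw κ x * lb L 1 x), P_iter_sum] at h3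
    have e : ∀ i ∈ range L, (P^[j] (P^[i] (lo1 κ))) s = (P^[j + i] (lo1 κ)) s := by
      intro i _; rw [← Function.iterate_add_apply]
    rw [sum_congr rfl e] at h3
    exact h3
  refine (sum_le_sum (fun j _ => h2 j)).trans ?_
  rw [sum_add_distrib]
  have h4 : ∑ j ∈ range k, ∑ i ∈ range L, (P^[j + i] (lo1 κ)) s ≤
      L * ∑ j ∈ range (k + L), (P^[j] (lo1 κ)) s := by
    rw [sum_comm]
    have h5 : ∀ i ∈ range L, ∑ j ∈ range k, (P^[j + i] (lo1 κ)) s ≤ ∑ j ∈ range (k + L), (P^[j] (lo1 κ)) s := by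
      intro i hi
      rw [mem_range] at hi
      rw [← Finset.sum_image (s := range k) (g := fun j => j + i) (f := fun j => (P^[j] (lo1 κ)) s)
        (by intro a _ b _ h; simp only at h; omega)]
      apply sum_le_sum_of_subset_of_nonneg
      · intro x hx
        rw [mem_image] at hx
        obtain ⟨a, ha, rfl⟩ := hx
        rw [mem_range] at ha ⊢
        omega
      · intro x _ _
        exact P_iter_nonneg (lo1_nonneg κ) _ _
    refine (sum_le_sum h5).trans (le_of_eq ?_)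
    rw [sum_const, card_range, nsmul_eq_mul]
  linarith

/-- The mean time at low levels. -/
theorem low_time {κ L : ℕ} {ρ : ℝ} (hρ : 0 ≤ ρ) (hw : ∀ i, 1 ≤ i → i ≤ κ → ∀ r : ℤ, lb L 1 (i, r) ≤ ρ)
    {y : ℝ} (hy : 0 < y) (k : ℕ) (s : ℕ × ℤ) :
    ∑ j ∈ range k, (P^[j] (lw κ)) s ≤ k * ρ + ∑ j ∈ range k, (P^[j] (zt L)) s +
      L * (((κ : ℝ) + 1) ^ 2 + (2 * κ + 1) * ((((s.1 : ℝ) ^ 2 + (k + L : ℕ)) / y + y) / 2)) := by
  have h1 := low_time_aux κ L k s
  have h2 := low_moves hy κ (k + L) s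
  have h3 : ∀ x : ℕ × ℤ, lw κ x * lb L 1 x ≤ ρ + zt L x := by
    intro x
    obtain ⟨i, r⟩ := x
    by_cases h : i ≤ κ
    · have e : lw κ (i, r) = 1 := by unfold lw; rw [if_pos h]
      rw [e, one_mul]
      rcases Nat.eq_zero_or_pos i with rfl | hi
      · rw [lb1_level0]
        unfold zt
        split_ifs with h4
        · rw [ind_pos ⟨rfl, h4⟩]; linarith
        · have := ind_nonneg (((0, r) : ℕ × ℤ).1 = 0 ∧ (2 : ℤ) ^ L ∣ ((0, r) : ℕ × ℤ).2)
          linarith
      · have := hw i hi h r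
        have := zt_nonneg L (i, r)
        linarith
    · have e : lw κ (i, r) = 0 := by unfold lw; rw [if_neg h]
      rw [e, zero_mul]
      have := zt_nonneg L (i, r)
      linarith
  have h4 : ∑ j ∈ range k, (P^[j] (fun x => lw κ x * lb L 1 x)) s ≤ k * ρ + ∑ j ∈ range k, (P^[j] (zt L)) s := by
    have h5 : ∀ j ∈ range k, (P^[j] (fun x => lw κ x * lb L 1 x)) s ≤ ρ + (P^[j] (zt L)) s := by
      intro j _
      have h6 := P_iter_mono j h3 s
      rw [P_iter_add j (fun _ => ρ), P_iter_const] at h6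
      exact h6
    refine (sum_le_sum h5).trans (le_of_eq ?_)
    rw [sum_add_distrib, sum_const, card_range, nsmul_eq_mul]
  have h5 := mul_le_mul_of_nonneg_left h2 (show (0 : ℝ) ≤ L by positivity)
  linarith

end Pool.Agent.K7.H66.CW
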