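import Pool.Agent.K7.H66.CW.N2

/-!
The arcsine law, part 3: the error in one block, for shifts of any size.
-/

set_option autoImplicit false

namespace Pool.Agent.K7.H66.CW

open Finset Pool.Agent.H499R2.CO Pool.Agent.W38.CR

/-- The centre of the offsets. -/
noncomputable def ctr (A B : ℕ × ℤ) (k i o : ℕ) : ℝ :=
  3 ^ o * (B.2 : ℝ) / 2 ^ k - 3 ^ (i + (B.1 + o - i - A.1)) * (A.2 : ℝ) / 2 ^ k

/-- The window of the offsets. -/
noncomputable def win (c : ℝ) (n : ℕ) : Finset ℤ := Finset.Ico (⌊c⌋ - n) (⌊c⌋ - n + ((2 * n + 1 : ℕ) : ℤ))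

theorem mem_win {c : ℝ} {n : ℕ} {r : ℤ} (h1 : c - n ≤ r) (h2 : (r : ℝ) ≤ c + n) : r ∈ win c (n + 1) := by
  unfold win
  rw [Finset.mem_Ico]
  have h3 := Int.floor_le c
  have h4 := Int.lt_floor_add_one c
  constructor
  · have : ((⌊c⌋ - ((n + 1 : ℕ) : ℤ) : ℤ) : ℝ) ≤ r := by push_cast; linarith
    exact_mod_cast this
  · have : (r : ℝ) < ((⌊c⌋ - ((n + 1 : ℕ) : ℤ) + ((2 * (n + 1) + 1 : ℕ) : ℤ) : ℤ) : ℝ) := by
      push_cast; linarith
    exact_mod_cast this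

theorem r_center {l : List Bool} {A B : ℕ × ℤ} {i : ℕ} (h : (fl l A).1 + i = (fl l B).1) {r : ℤ}
    (hr : (fl l B).2 - 3 ^ i * (fl l A).2 = r) {Bd : ℕ} (hA : gam l A ≤ Bd) (hB : gam l B ≤ Bd) :
    r ∈ win (ctr A B l.length i (dl l B)) (3 ^ i * Bd + 1) := by
  have h1 := gam_rel h hr
  have hda := dl_add l A
  have hdb := dl_add l B
  have h5 : dl l A = B.1 + dl l B - i - A.1 := by omega
  have g1 := gam_nonneg l A
  have g2 := gam_nonneg l B
  have h3 : (1 : ℝ) ≤ 3 ^ i := one_le_pow₀ (by norm_num)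
  have e3 : 3 ^ i * gam l A ≤ 3 ^ i * Bd := mul_le_mul_of_nonneg_left hA (by positivity)
  have e4 : 0 ≤ 3 ^ i * gam l A := by positivity
  have hBd : (0 : ℝ) ≤ Bd := by positivity
  have e5 : (Bd : ℝ) ≤ 3 ^ i * Bd := by nlinarith
  have hc : (r : ℝ) = ctr A B l.length i (dl l B) + gam l B - 3 ^ i * gam l A := by
    unfold ctr
    rw [← h5]
    linarith
  apply mem_win
  · push_cast; linarith
  · push_cast; linarith

/-- The error in one block, for shifts of any size. -/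
theorem block_err2 {β : ℕ × ℤ → ℝ} {κ K : ℕ} {τ : ℝ} (hτ : 0 ≤ τ) (h0 : ∀ s, 0 ≤ β s) (h1 : ∀ s, β s ≤ 1)
    (hκ : ∀ s : ℕ × ℤ, s.1 ≤ κ → β s = 0)
    (hper : ∀ i, κ < i → ∀ r m : ℤ, β (i, r + m * 2 ^ K) = β (i, r))
    (hsum : ∀ i, κ < i → ∑ u ∈ range (2 ^ K), β (i, (u : ℤ)) ≤ 2 ^ K * τ) (hK : K ≤ κ)
    (A B : ℕ × ℤ) (k : ℕ) (Bd : ℕ) (hBd : 1 ≤ Bd) :
    av k (fun l => β (st (fl l A) (fl l B))) ≤
      av k (fun l => ind ((Bd : ℝ) < gam l A)) + av k (fun l => ind ((Bd : ℝ) < gam l B)) +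
      av k (fun l => ind (k < 2 * (st (fl l A) (fl l B)).1)) + 192 * (k : ℝ) ^ 3 * Bd ^ 2 * τ := by
  classical
  have hBr : (1 : ℝ) ≤ Bd := by exact_mod_cast hBd
  set E : ℕ → ℤ → List Bool → ℝ := fun i r l =>
    β (i, r) * ind (st (fl l A) (fl l B) = (i, r) ∧ gam l A ≤ Bd ∧ gam l B ≤ Bd) with hE
  have hE0 : ∀ i r l, 0 ≤ E i r l := fun i r l => mul_nonneg (h0 _) (ind_nonneg _)
  set J : List Bool → ℝ := fun l => ∑ i ∈ Finset.Ioc κ (k / 2), ∑ o ∈ range (k + 1),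
    (∑ r ∈ win (ctr A B k i o) (3 ^ i * Bd + 1), E i r l + ∑ r ∈ win (ctr B A k i o) (3 ^ i * Bd + 1), E i r l) with hJ
  have hin : ∀ i o l, 0 ≤ (∑ r ∈ win (ctr A B k i o) (3 ^ i * Bd + 1), E i r l +
      ∑ r ∈ win (ctr B A k i o) (3 ^ i * Bd + 1), E i r l) := fun i o l =>
    add_nonneg (sum_nonneg (fun r _ => hE0 i r l)) (sum_nonneg (fun r _ => hE0 i r l))
  have hpt : ∀ l : List Bool, l.length = k → β (st (fl l A) (fl l B)) ≤
      ((ind ((Bd : ℝ) < gam l A) + ind ((Bd : ℝ) < gam l B)) +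
      ind (k < 2 * (st (fl l A) (fl l B)).1)) + J l := by
    intro l hl
    have hJ0 : 0 ≤ J l := sum_nonneg (fun i _ => sum_nonneg (fun o _ => hin i o l))
    have i1 := ind_nonneg ((Bd : ℝ) < gam l A)
    have i2 := ind_nonneg ((Bd : ℝ) < gam l B)
    have i5 := ind_nonneg (k < 2 * (st (fl l A) (fl l B)).1)
    have hb1 := h1 (st (fl l A) (fl l B))
    by_cases c1 : (Bd : ℝ) < gam l A
    · rw [ind_pos c1]; linarith
    by_cases c2 : (Bd : ℝ) < gam l B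
    · rw [ind_pos c2]; linarith
    by_cases c5 : k < 2 * (st (fl l A) (fl l B)).1
    · rw [ind_pos c5]; linarith
    push Not at c1 c2 c5
    by_cases c6 : (st (fl l A) (fl l B)).1 ≤ κ
    · rw [hκ _ c6]; linarith
    push Not at c6
    obtain ⟨⟨i, r⟩, hir⟩ : ∃ s : ℕ × ℤ, st (fl l A) (fl l B) = s := ⟨_, rfl⟩
    rw [hir] at c5 c6 i5 ⊢
    simp only at c5 c6
    have e1 : β (i, r) = E i r l := by
      rw [hE]
      simp only
      rw [ind_pos ⟨hir, c1, c2⟩, mul_one]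
    have hmem1 : i ∈ Finset.Ioc κ (k / 2) := by rw [Finset.mem_Ioc]; omega
    have hle : β (i, r) ≤ J l := by
      rw [e1]
      have key : ∀ o ∈ range (k + 1), E i r l ≤ (∑ r ∈ win (ctr A B k i o) (3 ^ i * Bd + 1), E i r l +
          ∑ r ∈ win (ctr B A k i o) (3 ^ i * Bd + 1), E i r l) → E i r l ≤ J l := by
        intro o ho h
        have f1 := single_le_sum (f := fun o => (∑ r ∈ win (ctr A B k i o) (3 ^ i * Bd + 1), E i r l +
          ∑ r ∈ win (ctr B A k i o) (3 ^ i * Bd + 1), E i r l)) (fun o _ => hin i o l) ho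
        have f2 := single_le_sum (f := fun i => ∑ o ∈ range (k + 1), (∑ r ∈ win (ctr A B k i o) (3 ^ i * Bd + 1), E i r l +
          ∑ r ∈ win (ctr B A k i o) (3 ^ i * Bd + 1), E i r l)) (fun i _ => sum_nonneg (fun o _ => hin i o l)) hmem1
        exact h.trans (f1.trans f2)
      rcases st_cases hir with h2 | h2
      · have hm := r_center h2.1 h2.2 c1 c2
        rw [hl] at hm
        have hd := dl_le l B
        rw [hl] at hd
        refine key (dl l B) (by rw [mem_range]; omega) ?_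
        have f1 := single_le_sum (f := fun r => E i r l) (fun r _ => hE0 i r l) hm
        have f2 : 0 ≤ ∑ r ∈ win (ctr B A k i (dl l B)) (3 ^ i * Bd + 1), E i r l := sum_nonneg (fun r _ => hE0 i r l)
        linarith
      · have hm := r_center h2.1 h2.2 c2 c1
        rw [hl] at hm
        have hd := dl_le l A
        rw [hl] at hd
        refine key (dl l A) (by rw [mem_range]; omega) ?_
        have f1 := single_le_sum (f := fun r => E i r l) (fun r _ => hE0 i r l) hm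
        have f2 : 0 ≤ ∑ r ∈ win (ctr A B k i (dl l A)) (3 ^ i * Bd + 1), E i r l := sum_nonneg (fun r _ => hE0 i r l)
        linarith
    linarith
  have hav := av_mono (k := k) hpt
  rw [av_add, av_add, av_add] at hav
  have hJav : av k J ≤ 192 * (k : ℝ) ^ 3 * Bd ^ 2 * τ := by
    -- one window
    have hwin : ∀ (c : ℝ) (i : ℕ), i ∈ Finset.Ioc κ (k / 2) →
        av k (fun l => ∑ r ∈ win c (3 ^ i * Bd + 1), E i r l) ≤ 24 * (k + 1) * Bd ^ 2 * τ := by
      intro c i hi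
      rw [Finset.mem_Ioc] at hi
      rw [av_sum]
      have e1 : ∀ r ∈ win c (3 ^ i * Bd + 1), av k (fun l => E i r l) ≤
          β (i, r) * (2 * (k + 1) * ((Bd : ℝ) / 3 ^ i + 1 / 2 ^ k)) := by
        intro r _
        rw [hE]
        simp only
        rw [av_smul]
        exact mul_le_mul_of_nonneg_left (state_count A B k i r Bd) (h0 _)
      refine (sum_le_sum e1).trans ?_
      rw [← sum_mul]
      set S := ∑ u ∈ range (2 ^ K), β (i, (u : ℤ)) with hS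
      set n : ℕ := 3 ^ i * Bd + 1 with hn
      have e2 := per_sum_le (F := fun r => β (i, r)) (fun r => h0 _) (k := K) (fun r m => hper i hi.1 r m)
        (S := S) rfl (⌊c⌋ - n) (2 * n + 1)
      have hS1 : S ≤ 2 ^ K * τ := hsum i hi.1
      have p2 : (0 : ℝ) < 2 ^ K := by positivity
      have p3 : (0 : ℝ) < 3 ^ i := by positivity
      have hle23 : (2 : ℝ) ^ K ≤ 3 ^ i := by
        calc (2 : ℝ) ^ K ≤ 3 ^ K := pow_le_pow_left₀ (by norm_num) (by norm_num) K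
          _ ≤ 3 ^ i := pow_le_pow_right₀ (by norm_num) (by omega)
      have h31 : (1 : ℝ) ≤ 3 ^ i := one_le_pow₀ (by norm_num)
      have hnr : (n : ℝ) = 3 ^ i * Bd + 1 := by rw [hn]; push_cast; ring
      have e3 : ∑ r ∈ win c n, β (i, r) ≤ 6 * 3 ^ i * Bd * τ := by
        unfold win
        refine e2.trans ?_
        have e4 : (((2 * n + 1 : ℕ) : ℝ) / 2 ^ K + 1) * S ≤ (((2 * n + 1 : ℕ) : ℝ) / 2 ^ K + 1) * (2 ^ K * τ) :=
          mul_le_mul_of_nonneg_left hS1 (by positivity)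
        refine e4.trans ?_
        have e5 : (((2 * n + 1 : ℕ) : ℝ) / 2 ^ K + 1) * (2 ^ K * τ) = (2 * n + 1 + 2 ^ K) * τ := by
          push_cast; field_simp
        rw [e5, hnr]
        apply mul_le_mul_of_nonneg_right _ hτ
        have h4 : (3 : ℝ) ^ i ≤ 3 ^ i * Bd := by nlinarith
        nlinarith
      have hpos : (0 : ℝ) ≤ 2 * (k + 1) * ((Bd : ℝ) / 3 ^ i + 1 / 2 ^ k) := by positivity
      refine (mul_le_mul_of_nonneg_right e3 hpos).trans ?_
      have h32 : (3 : ℝ) ^ i ≤ 2 ^ k := by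
        calc (3 : ℝ) ^ i ≤ 3 ^ (k / 2) := pow_le_pow_right₀ (by norm_num) hi.2
          _ ≤ 4 ^ (k / 2) := pow_le_pow_left₀ (by norm_num) (by norm_num) _
          _ = 2 ^ (2 * (k / 2)) := by rw [pow_mul]; norm_num
          _ ≤ 2 ^ k := pow_le_pow_right₀ (by norm_num) (by omega)
      have e6 : 3 ^ i * ((Bd : ℝ) / 3 ^ i + 1 / 2 ^ k) ≤ 2 * Bd := by
        have : 3 ^ i * ((Bd : ℝ) / 3 ^ i + 1 / 2 ^ k) = Bd + 3 ^ i / 2 ^ k := by field_simp
        rw [this]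
        have : (3 : ℝ) ^ i / 2 ^ k ≤ 1 := by rw [div_le_one (by positivity)]; exact h32
        linarith
      calc 6 * 3 ^ i * Bd * τ * (2 * (k + 1) * ((Bd : ℝ) / 3 ^ i + 1 / 2 ^ k)) =
          (12 * (k + 1) * Bd * τ) * (3 ^ i * ((Bd : ℝ) / 3 ^ i + 1 / 2 ^ k)) := by ring
        _ ≤ (12 * (k + 1) * Bd * τ) * (2 * Bd) := mul_le_mul_of_nonneg_left e6 (by positivity)
        _ = 24 * (k + 1) * Bd ^ 2 * τ := by ring
    rw [hJ, av_sum]
    have hterm : ∀ i ∈ Finset.Ioc κ (k / 2), av k (fun l => ∑ o ∈ range (k + 1),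
        (∑ r ∈ win (ctr A B k i o) (3 ^ i * Bd + 1), E i r l + ∑ r ∈ win (ctr B A k i o) (3 ^ i * Bd + 1), E i r l)) ≤
        48 * (k + 1) ^ 2 * Bd ^ 2 * τ := by
      intro i hi
      rw [av_sum]
      have : ∀ o ∈ range (k + 1), av k (fun l => (∑ r ∈ win (ctr A B k i o) (3 ^ i * Bd + 1), E i r l +
          ∑ r ∈ win (ctr B A k i o) (3 ^ i * Bd + 1), E i r l)) ≤ 48 * (k + 1) * Bd ^ 2 * τ := by
        intro o _
        rw [av_add]
        have f1 := hwin (ctr A B k i o) i hi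
        have f2 := hwin (ctr B A k i o) i hi
        linarith
      refine (sum_le_sum this).trans (le_of_eq ?_)
      rw [sum_const, card_range, nsmul_eq_mul]
      push_cast
      ring
    refine (sum_le_sum hterm).trans ?_
    rw [sum_const, Nat.card_Ioc, nsmul_eq_mul]
    have hX : 0 ≤ 48 * ((k : ℝ) + 1) ^ 2 * Bd ^ 2 * τ := by positivity
    rcases Nat.eq_zero_or_pos k with rfl | hk
    · simp
    · have hk1 : (1 : ℝ) ≤ k := by exact_mod_cast hk
      have hc : ((k / 2 - κ : ℕ) : ℝ) ≤ k := by exact_mod_cast (by omega : k / 2 - κ ≤ k)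
      have hk2 : ((k : ℝ) + 1) ^ 2 ≤ (2 * k) ^ 2 := pow_le_pow_left₀ (by positivity) (by linarith) 2
      calc ((k / 2 - κ : ℕ) : ℝ) * (48 * ((k : ℝ) + 1) ^ 2 * Bd ^ 2 * τ) ≤ k * (48 * ((k : ℝ) + 1) ^ 2 * Bd ^ 2 * τ) :=
            mul_le_mul_of_nonneg_right hc hX
        _ ≤ k * (48 * (2 * k) ^ 2 * Bd ^ 2 * τ) := by gcongr
        _ = 192 * (k : ℝ) ^ 3 * Bd ^ 2 * τ := by ring
  linarith

theorem block_bd2 {β : ℕ × ℤ → ℝ} {κ K : ℕ} {τ : ℝ} (hτ : 0 ≤ τ) (h0 : ∀ s, 0 ≤ β s) (h1 : ∀ s, β s ≤ 1)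
    (hκ : ∀ s : ℕ × ℤ, s.1 ≤ κ → β s = 0)
    (hper : ∀ i, κ < i → ∀ r m : ℤ, β (i, r + m * 2 ^ K) = β (i, r))
    (hsum : ∀ i, κ < i → ∑ u ∈ range (2 ^ K), β (i, (u : ℤ)) ≤ 2 ^ K * τ) (hK : K ≤ κ)
    (A B : ℕ × ℤ) (k : ℕ) (Bd : ℕ) (hBd : 1 ≤ Bd) :
    (P^[k] β) (st A B) ≤ (k : ℝ) / (2 * Bd) +
      2 * Real.exp ((st A B).1) * 0.95 ^ k + 192 * (k : ℝ) ^ 3 * Bd ^ 2 * τ := by
  have hEv : Ev β := by
    intro r
    rw [hκ (0, -r) (by simp), hκ (0, r) (by simp)]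
  rw [← av_pair hEv]
  have hB : (0 : ℝ) < Bd := by exact_mod_cast hBd
  have e1 := block_err2 hτ h0 h1 hκ hper hsum hK A B k Bd hBd
  have e2 := av_gam_big A k hB
  have e3 := av_gam_big B k hB
  have e6 := av_high A B k
  have e7 : (k : ℝ) / (4 * Bd) + k / (4 * Bd) = k / (2 * Bd) := by
    field_simp; ring
  linarith

/-- The error of the clock, after an initial phase, for shifts of any size. -/
noncomputable def Er2 (j0 n K Bd : ℕ) (d : ℝ) (τ : ℝ) : ℝ :=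
  n * (((j0 + n * K : ℕ) : ℝ) / (2 * Bd) + 2 * Real.exp d * 0.95 ^ j0 +
    192 * ((j0 + n * K : ℕ) : ℝ) ^ 3 * Bd ^ 2 * τ)

theorem cut_err2 {β : ℕ × ℤ → ℝ} {κ K : ℕ} {τ : ℝ} (hτ : 0 ≤ τ) (h0 : ∀ s, 0 ≤ β s) (h1 : ∀ s, β s ≤ 1)
    (hper : ∀ i, K ≤ i → ∀ r m : ℤ, β (i, r + m * 2 ^ K) = β (i, r))
    (hsum : ∀ i, K ≤ i → ∑ u ∈ range (2 ^ K), β (i, (u : ℤ)) ≤ 2 ^ K * τ) (hK : K ≤ κ)
    (A B : ℕ × ℤ) (j0 n : ℕ) (Bd : ℕ) (hBd : 1 ≤ Bd) :
    (P^[j0] (fun s => ∑ j ∈ range n, (P^[j * K] (cut κ β)) s)) (st A B) ≤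
      Er2 j0 n K Bd ((st A B).1) τ := by
  rw [P_iter_sum]
  have hterm : ∀ j ∈ range n, (P^[j0] (P^[j * K] (cut κ β))) (st A B) ≤
      (((j0 + n * K : ℕ) : ℝ) / (2 * Bd) +
      2 * Real.exp ((st A B).1) * 0.95 ^ j0 + 192 * ((j0 + n * K : ℕ) : ℝ) ^ 3 * Bd ^ 2 * τ) := by
    intro j hj
    rw [mem_range] at hj
    rw [← Function.iterate_add_apply]
    have hb := block_bd2 (β := cut κ β) (κ := κ) (K := K) hτ (cut_nonneg h0)
      (by intro s; unfold cut; split_ifs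
          · exact h1 s
          · norm_num)
      (by intro s hs; unfold cut; rw [if_neg (by omega)])
      (by intro i hi r m; unfold cut; rw [if_pos (by exact hi), if_pos (by exact hi)]
          exact hper i (by omega) r m)
      (by intro i hi
          have e : ∀ u ∈ range (2 ^ K), cut κ β (i, (u : ℤ)) = β (i, (u : ℤ)) := by
            intro u _; unfold cut; rw [if_pos (by exact hi)]
          rw [sum_congr rfl e]
          exact hsum i (by omega)) hK A B (j0 + j * K) Bd hBd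
    refine hb.trans ?_
    have hjn : j0 + j * K ≤ j0 + n * K := by
      have := Nat.mul_le_mul_right K hj.le
      omega
    have hc : ((j0 + j * K : ℕ) : ℝ) ≤ ((j0 + n * K : ℕ) : ℝ) := by exact_mod_cast hjn
    have hBr : (0 : ℝ) < Bd := by exact_mod_cast hBd
    have i1 : ((j0 + j * K : ℕ) : ℝ) / (2 * Bd) ≤ ((j0 + n * K : ℕ) : ℝ) / (2 * Bd) :=
      div_le_div_of_nonneg_right hc (by positivity)
    have i3 : 2 * Real.exp ((st A B).1) * (0.95 : ℝ) ^ (j0 + j * K) ≤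
        2 * Real.exp ((st A B).1) * 0.95 ^ j0 := by
      apply mul_le_mul_of_nonneg_left _ (by positivity)
      exact pow_le_pow_of_le_one (by norm_num) (by norm_num) (by omega)
    have i4 : 192 * ((j0 + j * K : ℕ) : ℝ) ^ 3 * Bd ^ 2 * τ ≤ 192 * ((j0 + n * K : ℕ) : ℝ) ^ 3 * Bd ^ 2 * τ := by
      apply mul_le_mul_of_nonneg_right _ hτ
      apply mul_le_mul_of_nonneg_right _ (by positivity)
      apply mul_le_mul_of_nonneg_left _ (by norm_num)
      exact pow_le_pow_left₀ (by positivity) hc 3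
    linarith
  refine (sum_le_sum hterm).trans ?_
  rw [sum_const, card_range, nsmul_eq_mul]
  exact le_rfl

end Pool.Agent.K7.H66.CW
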