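import Pool.Agent.K7.H66.CW.N3
import Pool.Agent.K7.H66.CW.F

/-!
The arcsine law, part 4: there are no traps while the offset is large.
-/

set_option autoImplicit false

namespace Pool.Agent.K7.H66.CW

open Finset Pool.Agent.H499R2.CO Pool.Agent.W38.CR

/-! ### the number of the odd steps of a form -/

theorem dl_upper (A : ℕ × ℤ) (k : ℕ) {η : ℝ} (hη : 0 ≤ η) :
    av k (fun l => ind ((1 / 2 + η) * k < (dl l A : ℝ))) ≤ Real.exp (-(2 * η ^ 2 * k)) := by
  set x : ℝ := Real.exp (4 * η) with hx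
  have hx0 : 0 < x := Real.exp_pos _
  have h1 : av k (fun l => ind ((1 / 2 + η) * k < (dl l A : ℝ))) ≤
      av k (fun l => Real.exp (-(4 * η * ((1 / 2 + η) * k))) * x ^ dl l A) := by
    apply av_mono
    intro l _
    by_cases h : (1 / 2 + η) * k < (dl l A : ℝ)
    · rw [ind_pos h, hx, ← Real.exp_nat_mul, ← Real.exp_add]
      apply Real.one_le_exp
      have := mul_le_mul_of_nonneg_left h.le (show 0 ≤ 4 * η by positivity)
      linarith
    · rw [ind_neg h]; positivity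
  refine h1.trans ?_
  rw [av_smul, av_pow]
  have hc : (1 + x) / 2 = Real.exp (2 * η) * Real.cosh (2 * η) := by
    rw [Real.cosh_eq, hx, mul_div_assoc', mul_add, ← Real.exp_add, ← Real.exp_add]
    rw [show 2 * η + 2 * η = 4 * η by ring, show 2 * η + -(2 * η) = 0 by ring, Real.exp_zero]
    ring
  have hcosh := Real.cosh_le_exp_half_sq (2 * η)
  have h2 : ((1 + x) / 2) ^ k ≤ Real.exp (k * (2 * η + (2 * η) ^ 2 / 2)) := by
    rw [Real.exp_nat_mul]
    apply pow_le_pow_left₀ (by positivity)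
    rw [hc, Real.exp_add]
    exact mul_le_mul_of_nonneg_left hcosh (Real.exp_pos _).le
  calc Real.exp (-(4 * η * ((1 / 2 + η) * k))) * ((1 + x) / 2) ^ k ≤
      Real.exp (-(4 * η * ((1 / 2 + η) * k))) * Real.exp (k * (2 * η + (2 * η) ^ 2 / 2)) :=
        mul_le_mul_of_nonneg_left h2 (Real.exp_pos _).le
    _ = Real.exp (-(2 * η ^ 2 * k)) := by rw [← Real.exp_add]; congr 1; ring

theorem dl_lower (A : ℕ × ℤ) (k : ℕ) {η : ℝ} (hη : 0 ≤ η) :
    av k (fun l => ind ((dl l A : ℝ) < (1 / 2 - η) * k)) ≤ Real.exp (-(2 * η ^ 2 * k)) := by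
  set x : ℝ := Real.exp (-(4 * η)) with hx
  have hx0 : 0 < x := Real.exp_pos _
  have h1 : av k (fun l => ind ((dl l A : ℝ) < (1 / 2 - η) * k)) ≤
      av k (fun l => Real.exp (4 * η * ((1 / 2 - η) * k)) * x ^ dl l A) := by
    apply av_mono
    intro l _
    by_cases h : (dl l A : ℝ) < (1 / 2 - η) * k
    · rw [ind_pos h, hx, ← Real.exp_nat_mul, ← Real.exp_add]
      apply Real.one_le_exp
      have := mul_le_mul_of_nonneg_left h.le (show 0 ≤ 4 * η by positivity)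
      linarith
    · rw [ind_neg h]; positivity
  refine h1.trans ?_
  rw [av_smul, av_pow]
  have hc : (1 + x) / 2 = Real.exp (-(2 * η)) * Real.cosh (2 * η) := by
    rw [Real.cosh_eq, hx, mul_div_assoc', mul_add, ← Real.exp_add, ← Real.exp_add]
    rw [show -(2 * η) + -(2 * η) = -(4 * η) by ring, show -(2 * η) + 2 * η = 0 by ring, Real.exp_zero]
  have hcosh := Real.cosh_le_exp_half_sq (2 * η)
  have h2 : ((1 + x) / 2) ^ k ≤ Real.exp (k * (-(2 * η) + (2 * η) ^ 2 / 2)) := by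
    rw [Real.exp_nat_mul]
    apply pow_le_pow_left₀ (by positivity)
    rw [hc, Real.exp_add]
    exact mul_le_mul_of_nonneg_left hcosh (Real.exp_pos _).le
  calc Real.exp (4 * η * ((1 / 2 - η) * k)) * ((1 + x) / 2) ^ k ≤
      Real.exp (4 * η * ((1 / 2 - η) * k)) * Real.exp (k * (-(2 * η) + (2 * η) ^ 2 / 2)) :=
        mul_le_mul_of_nonneg_left h2 (Real.exp_pos _).le
    _ = Real.exp (-(2 * η ^ 2 * k)) := by rw [← Real.exp_add]; congr 1; ring

/-! ### the shifts with a trap -/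

theorem card_window (S : Finset ℕ) {x ℓ : ℝ} (hℓ : 0 ≤ ℓ) (h : ∀ n ∈ S, x ≤ n ∧ (n : ℝ) ≤ x + ℓ) :
    (#S : ℝ) ≤ ℓ + 1 := by
  rcases S.eq_empty_or_nonempty with rfl | hne
  · simp; linarith
  · have hsub : S ⊆ Finset.Icc (S.min' hne) (S.max' hne) := by
      intro n hn
      rw [Finset.mem_Icc]
      exact ⟨S.min'_le n hn, S.le_max' n hn⟩
    have h1 := card_le_card hsub
    rw [Nat.card_Icc] at h1
    have h2 := h _ (S.min'_mem hne)
    have h3 := h _ (S.max'_mem hne)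
    have h4 : S.min' hne ≤ S.max' hne := S.min'_le _ (S.max'_mem hne)
    have h5 : (#S : ℝ) ≤ ((S.max' hne + 1 - S.min' hne : ℕ) : ℝ) := by exact_mod_cast h1
    rw [Nat.cast_sub (by omega)] at h5
    push_cast at h5
    linarith

/-- The shifts `h` for which `a h` is close to a multiple of `2 ^ L`. -/
theorem card_trap {a : ℝ} (ha : 0 < a) (H L Bd : ℕ) (hL : Bd < 2 ^ L) :
    ∑ h ∈ range H, ind (∃ z : ℤ, |2 ^ L * (z : ℝ) - a * h| ≤ Bd) ≤
      (a * H / 2 ^ L + 2) * (2 * Bd / a + 1) := by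
  classical
  have h2 : (0 : ℝ) < 2 ^ L := by positivity
  set Z : ℕ := ⌊a * H / 2 ^ L + 1⌋₊ with hZ
  have h1 : ∀ h ∈ range H, ind (∃ z : ℤ, |2 ^ L * (z : ℝ) - a * h| ≤ Bd) ≤
      ∑ z ∈ range (Z + 1), ind (|2 ^ L * (z : ℝ) - a * h| ≤ Bd) := by
    intro h hhH
    rw [mem_range] at hhH
    by_cases hc : ∃ z : ℤ, |2 ^ L * (z : ℝ) - a * h| ≤ Bd
    · rw [ind_pos hc]
      obtain ⟨z, hz⟩ := hc
      have hz' := hz
      rw [abs_le] at hz
      have hhr : (h : ℝ) ≤ H := by exact_mod_cast hhH.le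
      have hah : 0 ≤ a * h := by positivity
      have hBr : (Bd : ℝ) < 2 ^ L := by exact_mod_cast hL
      have hz0 : 0 ≤ z := by
        by_contra hneg
        push Not at hneg
        have : (z : ℝ) ≤ -1 := by exact_mod_cast (by omega : z ≤ -1)
        have := mul_le_mul_of_nonneg_left this h2.le
        linarith
      obtain ⟨y, rfl⟩ := Int.eq_ofNat_of_zero_le hz0
      rw [Int.cast_natCast] at hz hz'
      have hy : y ∈ range (Z + 1) := by
        rw [mem_range, Nat.lt_succ_iff, hZ]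
        apply Nat.le_floor
        rw [← sub_le_iff_le_add, le_div_iff₀ h2]
        have := mul_le_mul_of_nonneg_left hhr ha.le
        linarith
      refine le_trans ?_ (single_le_sum (f := fun z : ℕ => ind (|2 ^ L * (z : ℝ) - a * h| ≤ Bd))
        (fun _ _ => ind_nonneg _) hy)
      rw [ind_pos hz']
    · rw [ind_neg hc]
      exact sum_nonneg (fun _ _ => ind_nonneg _)
  refine (sum_le_sum h1).trans ?_
  rw [sum_comm]
  have h6 : ∀ z ∈ range (Z + 1), ∑ h ∈ range H, ind (|2 ^ L * (z : ℝ) - a * h| ≤ Bd) ≤ 2 * Bd / a + 1 := by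
    intro z _
    have e : ∑ h ∈ range H, ind (|2 ^ L * (z : ℝ) - a * h| ≤ Bd) =
        (#((range H).filter (fun h : ℕ => |2 ^ L * (z : ℝ) - a * h| ≤ Bd)) : ℝ) := by
      rw [card_filter]
      push_cast
      apply sum_congr rfl
      intro n _
      unfold ind
      congr
    rw [e]
    refine card_window _ (x := (2 ^ L * (z : ℝ) - Bd) / a) (by positivity) ?_
    intro n hn
    rw [mem_filter, abs_le] at hn
    constructor
    · rw [div_le_iff₀ ha]; linarith [hn.2.2]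
    · rw [← add_div, le_div_iff₀ ha]; linarith [hn.2.1]
  refine (sum_le_sum h6).trans ?_
  rw [sum_const, card_range, nsmul_eq_mul]
  apply mul_le_mul_of_nonneg_right _ (by positivity)
  have h7 : (Z : ℝ) ≤ a * H / 2 ^ L + 1 := Nat.floor_le (by positivity)
  push_cast
  linarith

/-- The trap and the position of the shift. -/
theorem zt_le {l : List Bool} {h k Bd L : ℕ} (hl : l.length = k) {o1 o2 : ℝ} :
    zt L (st (fl l (0, 0)) (fl l (0, (h : ℤ)))) ≤
      ((ind ((Bd : ℝ) < gam l (0, 0)) + ind ((Bd : ℝ) < gam l (0, (h : ℤ)))) +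
        (ind ((dl l (0, 0) : ℝ) < o1) + ind (o2 < (dl l (0, 0) : ℝ)))) +
      ∑ o ∈ (range (k + 1)).filter (fun o : ℕ => o1 ≤ o ∧ (o : ℝ) ≤ o2),
        ind (∃ z : ℤ, |2 ^ L * (z : ℝ) - (3 ^ o / 2 ^ k) * h| ≤ Bd) := by
  have i1 := ind_nonneg ((Bd : ℝ) < gam l (0, 0))
  have i2 := ind_nonneg ((Bd : ℝ) < gam l (0, (h : ℤ)))
  have i3 := ind_nonneg ((dl l (0, 0) : ℝ) < o1)
  have i4 := ind_nonneg (o2 < (dl l (0, 0) : ℝ))
  have i5 : 0 ≤ ∑ o ∈ (range (k + 1)).filter (fun o : ℕ => o1 ≤ o ∧ (o : ℝ) ≤ o2),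
        ind (∃ z : ℤ, |2 ^ L * (z : ℝ) - (3 ^ o / 2 ^ k) * h| ≤ Bd) := sum_nonneg (fun o _ => ind_nonneg _)
  by_cases hz : (st (fl l (0, 0)) (fl l (0, (h : ℤ)))).1 = 0 ∧ (2 : ℤ) ^ L ∣ (st (fl l (0, 0)) (fl l (0, (h : ℤ)))).2
  · by_cases c1 : (Bd : ℝ) < gam l (0, 0)
    · rw [ind_pos c1]; have := ind_le_one ((st (fl l (0, 0)) (fl l (0, (h : ℤ)))).1 = 0 ∧ (2 : ℤ) ^ L ∣ (st (fl l (0, 0)) (fl l (0, (h : ℤ)))).2); unfold zt; linarith
    by_cases c2 : (Bd : ℝ) < gam l (0, (h : ℤ))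
    · rw [ind_pos c2]; have := ind_le_one ((st (fl l (0, 0)) (fl l (0, (h : ℤ)))).1 = 0 ∧ (2 : ℤ) ^ L ∣ (st (fl l (0, 0)) (fl l (0, (h : ℤ)))).2); unfold zt; linarith
    by_cases c3 : (dl l (0, 0) : ℝ) < o1
    · rw [ind_pos c3]; have := ind_le_one ((st (fl l (0, 0)) (fl l (0, (h : ℤ)))).1 = 0 ∧ (2 : ℤ) ^ L ∣ (st (fl l (0, 0)) (fl l (0, (h : ℤ)))).2); unfold zt; linarith
    by_cases c4 : o2 < (dl l (0, 0) : ℝ)
    · rw [ind_pos c4]; have := ind_le_one ((st (fl l (0, 0)) (fl l (0, (h : ℤ)))).1 = 0 ∧ (2 : ℤ) ^ L ∣ (st (fl l (0, 0)) (fl l (0, (h : ℤ)))).2); unfold zt; linarith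
    push Not at c1 c2 c3 c4
    have hz1 : zt L (st (fl l (0, 0)) (fl l (0, (h : ℤ)))) = 1 := by unfold zt; rw [ind_pos hz]
    rw [hz1]
    have hdle := dl_le l (0, 0)
    have hlev : (fl l (0, 0)).1 = (fl l (0, (h : ℤ))).1 := by
      have := hz.1
      rw [st_fst] at this
      omega
    have hst : st (fl l (0, 0)) (fl l (0, (h : ℤ))) = (0, (fl l (0, (h : ℤ))).2 - (fl l (0, 0)).2) := by
      unfold st
      rw [if_pos hlev.le, hlev, Nat.sub_self, pow_zero, one_mul]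
    rw [hst] at hz
    simp only at hz
    obtain ⟨z, hzz⟩ := hz.2
    have hg := gam_rel (l := l) (A := (0, 0)) (B := (0, (h : ℤ))) (i := 0) (by rw [add_zero]; exact hlev)
      (r := (fl l (0, (h : ℤ))).2 - (fl l (0, 0)).2) (by rw [pow_zero, one_mul])
    rw [hzz, hl] at hg
    have hda := dl_add l (0, 0)
    have hdb := dl_add l (0, (h : ℤ))
    have hdd : dl l (0, (h : ℤ)) = dl l (0, 0) := by simp only at hda hdb; omega
    rw [hdd] at hg
    have g1 := gam_nonneg l (0, 0)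
    have g2 := gam_nonneg l (0, (h : ℤ))
    have hmem : dl l (0, 0) ∈ (range (k + 1)).filter (fun o : ℕ => o1 ≤ o ∧ (o : ℝ) ≤ o2) := by
      rw [mem_filter, mem_range]
      exact ⟨by omega, c3, c4⟩
    have hsum := single_le_sum (f := fun o : ℕ => ind (∃ z : ℤ, |2 ^ L * (z : ℝ) - (3 ^ o / 2 ^ k) * h| ≤ Bd))
      (fun o _ => ind_nonneg _) hmem
    rw [ind_pos] at hsum
    · linarith
    · refine ⟨z, ?_⟩
      push_cast at hg
      have e : (2 : ℝ) ^ L * z - 3 ^ dl l (0, 0) / 2 ^ k * h = gam l (0, (h : ℤ)) - gam l (0, 0) := by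
        have e1 : (3 : ℝ) ^ dl l (0, 0) / 2 ^ k * h = 3 ^ dl l (0, 0) * h / 2 ^ k := by ring
        rw [e1]
        simp only [pow_zero, one_mul, mul_zero, zero_div, sub_zero] at hg
        linarith
      rw [e, abs_le]
      constructor <;> linarith
  · have : zt L (st (fl l (0, 0)) (fl l (0, (h : ℤ)))) = 0 := by unfold zt; rw [ind_neg hz]
    rw [this]
    linarith

theorem Ev_zt (L : ℕ) : Ev (zt L) := by
  intro r
  unfold zt
  simp only [dvd_neg]

/-- The mean number of the shifts with a trap at the time `k`. -/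
theorem trap_sum {k H L Bd : ℕ} (hL : Bd < 2 ^ L) (hBd : 1 ≤ Bd) {η : ℝ} (hη : 0 ≤ η) (hη1 : η ≤ 1 / 8)
    {a1 : ℝ} (ha1 : 0 < a1) (ha : ∀ o : ℕ, (1 / 2 - η) * k ≤ o → a1 ≤ 3 ^ o / 2 ^ k) :
    ∑ h ∈ range H, (P^[k] (zt L)) (0, (h : ℤ)) ≤ H * (k / (2 * Bd) + 2 * Real.exp (-(2 * η ^ 2 * k))) +
      (k + 1) * (3 * Bd * H / 2 ^ L + 6 * Bd / a1) := by
  classical
  have hBr : (1 : ℝ) ≤ Bd := by exact_mod_cast hBd
  have h2 : (0 : ℝ) < 2 ^ L := by positivity
  set O := (range (k + 1)).filter (fun o : ℕ => (1 / 2 - η) * k ≤ o ∧ (o : ℝ) ≤ (1 / 2 + η) * k) with hO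
  have h1 : ∀ h ∈ range H, (P^[k] (zt L)) (0, (h : ℤ)) ≤ (k / (2 * Bd) + 2 * Real.exp (-(2 * η ^ 2 * k))) +
      ∑ o ∈ O, ind (∃ z : ℤ, |2 ^ L * (z : ℝ) - (3 ^ o / 2 ^ k) * h| ≤ Bd) := by
    intro h _
    have e0 : st (0, 0) (0, (h : ℤ)) = (0, (h : ℤ)) := by unfold st; simp
    rw [← e0, ← av_pair (Ev_zt L)]
    refine (av_mono (fun l hl => zt_le (Bd := Bd) (o1 := (1 / 2 - η) * k) (o2 := (1 / 2 + η) * k) hl)).trans ?_
    rw [av_add, av_add, av_add, av_add, av_const]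
    have hB0 : (0 : ℝ) < Bd := by linarith
    have e1 := av_gam_big (0, 0) k hB0
    have e2 := av_gam_big (0, (h : ℤ)) k hB0
    have e3 := dl_lower (0, 0) k hη
    have e4 := dl_upper (0, 0) k hη
    have e7 : (k : ℝ) / (4 * Bd) + k / (4 * Bd) = k / (2 * Bd) := by
      field_simp; ring
    rw [← hO]
    linarith
  refine (sum_le_sum h1).trans ?_
  rw [sum_add_distrib, sum_const, card_range, nsmul_eq_mul, sum_comm]
  have h3 : ∑ o ∈ O, ∑ h ∈ range H, ind (∃ z : ℤ, |2 ^ L * (z : ℝ) - (3 ^ o / 2 ^ k) * h| ≤ Bd) ≤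
      (k + 1) * (3 * Bd * H / 2 ^ L + 6 * Bd / a1) := by
    have h4 : ∀ o ∈ O, ∑ h ∈ range H, ind (∃ z : ℤ, |2 ^ L * (z : ℝ) - (3 ^ o / 2 ^ k) * h| ≤ Bd) ≤
        3 * Bd * H / 2 ^ L + 6 * Bd / a1 := by
      intro o ho
      rw [hO, mem_filter, mem_range] at ho
      obtain ⟨hok, ho1, ho2⟩ := ho
      set a : ℝ := 3 ^ o / 2 ^ k with haa
      have ha0 : 0 < a := by positivity
      have haa1 : a1 ≤ a := ha o ho1
      have ha2 : a ≤ 1 := by
        rw [haa, div_le_one (by positivity)]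
        have h8 : 8 * o ≤ 5 * k := by
          have : (8 : ℝ) * o ≤ 5 * k := by
            have : (1 / 2 + η) * k ≤ (5 / 8) * k := mul_le_mul_of_nonneg_right (by linarith) (by positivity)
            linarith
          exact_mod_cast this
        have h9 : ((3 : ℝ) ^ o) ^ 8 ≤ ((2 : ℝ) ^ k) ^ 8 := by
          rw [← pow_mul, ← pow_mul]
          calc (3 : ℝ) ^ (o * 8) ≤ 3 ^ (5 * k) := pow_le_pow_right₀ (by norm_num) (by omega)
            _ = (3 ^ 5) ^ k := by rw [pow_mul]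
            _ ≤ (2 ^ 8) ^ k := pow_le_pow_left₀ (by norm_num) (by norm_num) k
            _ = 2 ^ (k * 8) := by rw [← pow_mul, mul_comm]
        exact le_of_pow_le_pow_left₀ (by norm_num) (by positivity) h9
      refine (card_trap ha0 H L Bd hL).trans ?_
      have e2 : (a * H / 2 ^ L + 2) * (2 * Bd / a + 1) = 2 * Bd * H / 2 ^ L + a * H / 2 ^ L + 4 * Bd / a + 2 := by
        field_simp
        ring
      rw [e2]
      have e3 : a * H / 2 ^ L ≤ Bd * H / 2 ^ L := by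
        apply div_le_div_of_nonneg_right _ h2.le
        exact mul_le_mul_of_nonneg_right (by linarith) (by positivity)
      have e4 : 4 * Bd / a ≤ 4 * Bd / a1 := div_le_div_of_nonneg_left (by positivity) ha1 haa1
      have e5 : (2 : ℝ) ≤ 2 * Bd / a1 := by
        rw [le_div_iff₀ ha1]
        nlinarith
      have e6 : 3 * (Bd : ℝ) * H / 2 ^ L = 2 * Bd * H / 2 ^ L + Bd * H / 2 ^ L := by ring
      have e7 : 6 * (Bd : ℝ) / a1 = 4 * Bd / a1 + 2 * Bd / a1 := by ring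
      rw [e6, e7]
      linarith
    refine (sum_le_sum h4).trans ?_
    rw [sum_const, nsmul_eq_mul]
    apply mul_le_mul_of_nonneg_right _ (by positivity)
    have h5 : #O ≤ k + 1 := (card_filter_le _ _).trans (by rw [card_range])
    exact_mod_cast h5
  linarith

end Pool.Agent.K7.H66.CW
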