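import Pool.Agent.K7.H66.CW.N2

/-!
The arcsine law, part 5: the number of the moves.
-/

set_option autoImplicit false

namespace Pool.Agent.K7.H66.CW

open Finset Pool.Agent.H499R2.CO Pool.Agent.W38.CR

theorem hb_anti : ∀ (k : ℕ) {v v' : ℕ} (_ : v ≤ v') (s : ℕ × ℤ), hb k v' s ≤ hb k v s := by
  intro k
  induction k with
  | zero => intro v v' _ s; simp [hb]
  | succ k ih =>
    intro v v' hv s
    by_cases ho : s.2 % 2 = 0
    · rw [hb_even ho, hb_even ho]
      exact P_mono (fun s => ih hv s) s
    · cases v with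
      | zero => rw [hb_odd0 ho]; exact hb_le_one _ _ _
      | succ v =>
        obtain ⟨v'', rfl⟩ : ∃ v'', v' = v'' + 1 := ⟨v' - 1, by omega⟩
        rw [hb_odd ho, hb_odd ho]
        exact P_mono (fun s => ih (by omega) s) s

theorem lb_mono : ∀ (k : ℕ) {v v' : ℕ} (_ : v ≤ v') (s : ℕ × ℤ), lb k v s ≤ lb k v' s := by
  intro k
  induction k with
  | zero =>
    intro v v' hv s
    simp only [lb]
    split_ifs with h1 h2
    · exact le_rfl
    · omega
    · norm_num
    · exact le_rfl
  | succ k ih =>
    intro v v' hv s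
    by_cases ho : s.2 % 2 = 0
    · rw [lb_even ho, lb_even ho]
      exact P_mono (fun s => ih hv s) s
    · cases v with
      | zero => rw [lb_odd0 ho]; exact lb_nonneg _ _ _
      | succ v =>
        obtain ⟨v'', rfl⟩ : ∃ v'', v' = v'' + 1 := ⟨v' - 1, by omega⟩
        rw [lb_odd ho, lb_odd ho]
        exact P_mono (fun s => ih (by omega) s) s

theorem hb_full : ∀ (k v : ℕ), k ≤ v → ∀ s : ℕ × ℤ, hb k v s = 0 := by
  intro k
  induction k with
  | zero => intro v _ s; simp [hb]
  | succ k ih =>
    intro v hv s
    obtain ⟨v', rfl⟩ : ∃ v', v = v' + 1 := ⟨v - 1, by omega⟩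
    by_cases ho : s.2 % 2 = 0
    · rw [hb_even ho, P_def, ih _ (by omega), ih _ (by omega)]; norm_num
    · rw [hb_odd ho, P_def, ih _ (by omega), ih _ (by omega)]; norm_num

theorem hb_sub (k' m : ℕ) : ∀ (K v : ℕ) (s : ℕ × ℤ),
    hb (K + k') (v + m) s ≤ hb K v s + (P^[K] (hb k' m)) s := by
  intro K
  induction K with
  | zero =>
    intro v s
    rw [zero_add, Function.iterate_zero, id]
    have h1 := hb_anti k' (show m ≤ v + m by omega) s
    have h2 := hb_nonneg 0 v s
    linarith
  | succ K ih =>
    intro v s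
    rw [show K + 1 + k' = (K + k') + 1 by ring, Function.iterate_succ_apply']
    by_cases ho : s.2 % 2 = 0
    · rw [hb_even ho, hb_even ho]
      refine (P_mono (ih v) s).trans ?_
      rw [P_def, P_def, P_def]
      linarith
    · cases v with
      | zero =>
        rw [hb_odd0 ho]
        have h1 := hb_le_one (K + k' + 1) (0 + m) s
        have h2 : 0 ≤ P (P^[K] (hb k' m)) s := P_ge (fun x => P_iter_nonneg (hb_nonneg k' m) K x) s
        linarith
      | succ v =>
        rw [show v + 1 + m = (v + m) + 1 by ring, hb_odd ho, hb_odd ho]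
        refine (P_mono (ih v) s).trans ?_
        rw [P_def, P_def, P_def]
        linarith

theorem lb_sub (k' m : ℕ) : ∀ (K v : ℕ) (s : ℕ × ℤ),
    lb (K + k') (v + m) s ≤ lb K v s + (P^[K] (lb k' m)) s := by
  intro K
  induction K with
  | zero =>
    intro v s
    rw [zero_add, Function.iterate_zero, id]
    rcases Nat.eq_zero_or_pos v with rfl | hv
    · rw [zero_add]
      have := lb_nonneg 0 0 s
      linarith
    · have h1 : lb 0 v s = 1 := by simp only [lb]; exact if_pos hv
      have h2 := lb_le_one k' (v + m) s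
      have h3 := lb_nonneg k' m s
      linarith
  | succ K ih =>
    intro v s
    rw [show K + 1 + k' = (K + k') + 1 by ring, Function.iterate_succ_apply']
    by_cases ho : s.2 % 2 = 0
    · rw [lb_even ho, lb_even ho]
      refine (P_mono (ih v) s).trans ?_
      rw [P_def, P_def, P_def]
      linarith
    · cases v with
      | zero =>
        rw [lb_odd0 ho, zero_add, zero_add]
        cases m with
        | zero =>
          rw [lb_odd0 ho]
          exact P_ge (fun x => P_iter_nonneg (lb_nonneg k' 0) K x) s
        | succ m =>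
          rw [lb_odd ho]
          refine (P_mono (lb_mono (K + k') (show m ≤ 0 + (m + 1) by omega)) s).trans ?_
          refine (P_mono (ih 0) s).trans ?_
          rw [P_def, P_def, lb_zero, lb_zero]
          linarith
      | succ v =>
        rw [show v + 1 + m = (v + m) + 1 by ring, lb_odd ho, lb_odd ho]
        refine (P_mono (ih v) s).trans ?_
        rw [P_def, P_def, P_def]
        linarith

/-- The arithmetic of the low blocks. -/
theorem min_arith {E m : ℝ} (hm : 0 ≤ m) : min 1 (E / (m + 1)) ≤ (1 + E) / (m + 2) := by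
  rcases le_total E (m + 1) with h | h
  · refine (min_le_right _ _).trans ?_
    rw [div_le_div_iff₀ (by positivity) (by positivity)]
    nlinarith
  · refine (min_le_left _ _).trans ?_
    rw [le_div_iff₀ (by positivity)]
    linarith

/-- The number of the bad blocks. -/
noncomputable def Bn (κ K n : ℕ) (β : ℕ × ℤ → ℝ) (s : ℕ × ℤ) : ℝ := ∑ j ∈ range n, (P^[j * K] (cut κ β)) s

/-- The number of the low blocks. -/
noncomputable def En (κ K n : ℕ) (s : ℕ × ℤ) : ℝ := ∑ j ∈ range n, (P^[j * K] (lw κ)) s

theorem Bn_nonneg {β : ℕ × ℤ → ℝ} (h : ∀ s, 0 ≤ β s) (κ K n : ℕ) (s : ℕ × ℤ) : 0 ≤ Bn κ K n β s :=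
  sum_nonneg (fun _ _ => P_iter_nonneg (cut_nonneg h) _ _)

theorem En_nonneg (κ K n : ℕ) (s : ℕ × ℤ) : 0 ≤ En κ K n s :=
  sum_nonneg (fun _ _ => P_iter_nonneg (lw_nonneg κ) _ _)

theorem Bn_succ (κ K n : ℕ) (β : ℕ × ℤ → ℝ) (s : ℕ × ℤ) :
    Bn κ K (n + 1) β s = cut κ β s + (P^[K] (Bn κ K n β)) s := by
  unfold Bn
  rw [sum_range_succ', P_iter_sum]
  have e : ∀ j ∈ range n, (P^[(j + 1) * K] (cut κ β)) s = (P^[K] (P^[j * K] (cut κ β))) s := by
    intro j _
    rw [← Function.iterate_add_apply, show K + j * K = (j + 1) * K by ring]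
  rw [sum_congr rfl e, zero_mul, Function.iterate_zero, id]
  ring

theorem En_succ (κ K n : ℕ) (s : ℕ × ℤ) : En κ K (n + 1) s = lw κ s + (P^[K] (En κ K n)) s := by
  unfold En
  rw [sum_range_succ', P_iter_sum]
  have e : ∀ j ∈ range n, (P^[(j + 1) * K] (lw κ)) s = (P^[K] (P^[j * K] (lw κ))) s := by
    intro j _
    rw [← Function.iterate_add_apply, show K + j * K = (j + 1) * K by ring]
  rw [sum_congr rfl e, zero_mul, Function.iterate_zero, id]
  ring

/-- General form of the count of the blocks: `F n m` is a family of probabilities, such that in a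
block from a high level the budget `m` is kept up to the error `β`, and in a block from a low level
one unit of the budget is spent. -/
theorem block_count {F : ℕ → ℕ → ℕ × ℤ → ℝ} {β : ℕ × ℤ → ℝ} {κ K : ℕ} (hβ : ∀ s, 0 ≤ β s)
    (h0 : ∀ m s, F 0 m s ≤ 0) (h1 : ∀ n m s, F n m s ≤ 1)
    (hhigh : ∀ n m s, κ < s.1 → F (n + 1) m s ≤ β s + (P^[K] (F n m)) s)
    (hlow : ∀ n m s, s.1 ≤ κ → F (n + 1) (m + 1) s ≤ (P^[K] (F n m)) s) : ∀ (n m : ℕ) (s : ℕ × ℤ),
    F n m s ≤ Bn κ K n β s + En κ K n s / ((m : ℝ) + 1) := by
  intro n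
  induction n with
  | zero =>
    intro m s
    refine (h0 m s).trans ?_
    have := Bn_nonneg hβ κ K 0 s
    have := En_nonneg κ K 0 s
    positivity
  | succ n ih =>
    intro m s
    have hm : (0 : ℝ) < (m : ℝ) + 1 := by positivity
    have hB : 0 ≤ (P^[K] (Bn κ K n β)) s := P_iter_nonneg (Bn_nonneg hβ κ K n) _ _
    have hE : 0 ≤ (P^[K] (En κ K n)) s := P_iter_nonneg (En_nonneg κ K n) _ _
    rw [Bn_succ, En_succ]
    by_cases hs : κ < s.1
    · have e1 : cut κ β s = β s := by unfold cut; rw [if_pos hs]
      have e2 : lw κ s = 0 := by unfold lw; rw [if_neg (by omega)]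
      rw [e1, e2, zero_add]
      have h2 := P_iter_mono K (ih m) s
      have e3 : (fun s => Bn κ K n β s + En κ K n s / ((m : ℝ) + 1)) =
          fun s => Bn κ K n β s + (1 / ((m : ℝ) + 1)) * En κ K n s := by
        funext s; ring
      rw [e3, P_iter_add, P_iter_smul] at h2
      have h3 := hhigh n m s hs
      have e4 : (P^[K] (En κ K n)) s / ((m : ℝ) + 1) = 1 / ((m : ℝ) + 1) * (P^[K] (En κ K n)) s := by ring
      rw [e4]
      have e5 : (P^[K] (Bn κ K n β)) s = (P^[K] (fun s => Bn κ K n β s)) s := rfl
      have e6 : (P^[K] (F n m)) s = (P^[K] (fun s => F n m s)) s := rfl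
      linarith
    · push Not at hs
      have e1 : cut κ β s = 0 := by unfold cut; rw [if_neg (by omega)]
      have e2 : lw κ s = 1 := by unfold lw; rw [if_pos hs]
      rw [e1, e2, zero_add]
      rcases Nat.eq_zero_or_pos m with rfl | hm'
      · have := h1 (n + 1) 0 s
        push_cast
        rw [zero_add, div_one]
        linarith
      · obtain ⟨m', rfl⟩ : ∃ m', m = m' + 1 := ⟨m - 1, by omega⟩
        have h2 : ∀ x : ℕ × ℤ, F n m' x ≤ (1 / ((m' : ℝ) + 2) + Bn κ K n β x) + (1 / ((m' : ℝ) + 2)) * En κ K n x := by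
          intro x
          have h3 := ih m' x
          have h4 := h1 n m' x
          have h5 := min_arith (E := En κ K n x) (show (0 : ℝ) ≤ m' by positivity)
          have h6 := Bn_nonneg hβ κ K n x
          have h7 : F n m' x ≤ Bn κ K n β x + min 1 (En κ K n x / ((m' : ℝ) + 1)) := by
            rcases min_choice 1 (En κ K n x / ((m' : ℝ) + 1)) with h | h
            · rw [h]; linarith
            · rw [h]; exact h3
          have h8 : (1 + En κ K n x) / ((m' : ℝ) + 2) = 1 / ((m' : ℝ) + 2) + (1 / ((m' : ℝ) + 2)) * En κ K n x := by ring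
          rw [h8] at h5
          linarith
        have h3 := P_iter_mono K h2 s
        rw [P_iter_add K (fun x => 1 / ((m' : ℝ) + 2) + Bn κ K n β x), P_iter_add K (fun _ => 1 / ((m' : ℝ) + 2)),
          P_iter_const, P_iter_smul] at h3
        have h4 := hlow n m' s hs
        have e3 : (1 + (P^[K] (En κ K n)) s) / (((m' + 1 : ℕ) : ℝ) + 1) =
            1 / ((m' : ℝ) + 2) + 1 / ((m' : ℝ) + 2) * (P^[K] (En κ K n)) s := by
          push_cast
          rw [show (m' : ℝ) + 1 + 1 = m' + 2 by ring]
          ring
        rw [e3]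
        have e6 : (P^[K] (F n m')) s = (P^[K] (fun s => F n m' s)) s := rfl
        have e7 : (P^[K] (Bn κ K n β)) s = (P^[K] (fun s => Bn κ K n β s)) s := rfl
        have e8 : (P^[K] (En κ K n)) s = (P^[K] (fun s => En κ K n s)) s := rfl
        linarith

/-- Not too many moves. -/
theorem hb_count (κ K v : ℕ) (n m : ℕ) (s : ℕ × ℤ) :
    hb (n * K) (n * v + m * K) s ≤ Bn κ K n (hb K v) s + En κ K n s / ((m : ℝ) + 1) := by
  refine block_count (F := fun n m s => hb (n * K) (n * v + m * K) s) (hb_nonneg K v) ?_ ?_ ?_ ?_ n m s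
  · intro m s; simp [hb]
  · intro n m s; exact hb_le_one _ _ _
  · intro n m s _
    have := hb_sub (n * K) (n * v + m * K) K v s
    rw [show (n + 1) * K = K + n * K by ring, show (n + 1) * v + m * K = v + (n * v + m * K) by ring]
    exact this
  · intro n m s _
    have h1 := hb_sub (n * K) (n * v + m * K) K (v + K) s
    rw [hb_full K (v + K) (by omega), zero_add] at h1
    rw [show (n + 1) * K = K + n * K by ring, show (n + 1) * v + (m + 1) * K = v + K + (n * v + m * K) by ring]
    exact h1

/-- Not too few moves. -/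
theorem lb_count (κ K v : ℕ) (n m : ℕ) (s : ℕ × ℤ) :
    lb (n * K) ((n - m) * v) s ≤ Bn κ K n (lb K v) s + En κ K n s / ((m : ℝ) + 1) := by
  refine block_count (F := fun n m s => lb (n * K) ((n - m) * v) s) (lb_nonneg K v) ?_ ?_ ?_ ?_ n m s
  · intro m s; simp [lb]
  · intro n m s; exact lb_le_one _ _ _
  · intro n m s _
    have h1 := lb_sub (n * K) ((n - m) * v) K v s
    have h2 : (n + 1 - m) * v ≤ v + (n - m) * v := by
      have : n + 1 - m ≤ 1 + (n - m) := by omega
      calc (n + 1 - m) * v ≤ (1 + (n - m)) * v := Nat.mul_le_mul_right v this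
        _ = v + (n - m) * v := by ring
    have h3 := lb_mono ((n + 1) * K) h2 s
    rw [show (n + 1) * K = K + n * K by ring] at h3 ⊢
    exact h3.trans h1
  · intro n m s _
    have h1 := lb_sub (n * K) ((n - m) * v) K 0 s
    rw [lb_zero, zero_add, zero_add] at h1
    rw [show (n + 1) * K = K + n * K by ring, show n + 1 - (m + 1) = n - m by omega]
    exact h1

theorem lev_up (κ : ℕ) : ∀ (u : ℕ) (x : ℕ × ℤ), lw κ x ≤ (P^[u] (lw (κ + u))) x := by
  intro u
  induction u generalizing κ with
  | zero => intro x; exact le_rfl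
  | succ u ih =>
    intro x
    rw [Function.iterate_succ_apply']
    have h1 : lw κ x ≤ P (lw (κ + 1)) x := by
      unfold lw
      by_cases h : x.1 ≤ κ
      · rw [if_pos h]
        have hstep : ∀ b, (step x b).1 ≤ κ + 1 := by
          intro b
          obtain ⟨i, r⟩ := x
          simp only at h
          by_cases ho : r % 2 = 0
          · cases b
            · rw [step_ef ho]; simp only; omega
            · rw [step_et ho]; simp only; omega
          · have ho' : r % 2 = 1 := by omega
            rcases i with _ | i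
            · cases b
              · rw [step_0f ho']; simp only; omega
              · rw [step_0t ho']; simp only; omega
            · cases b
              · rw [step_sf ho']; simp only; omega
              · rw [step_st ho']; simp only; omega
        unfold P
        simp only [hstep, if_true]
        norm_num
      · rw [if_neg h]
        apply P_ge
        intro s
        split_ifs <;> norm_num
    refine h1.trans ?_
    have h2 := P_mono (ih (κ + 1)) x
    rw [show κ + (u + 1) = κ + 1 + u by ring]
    exact h2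

/-- The low blocks and the time at low levels. -/
theorem En_le (κ K n : ℕ) (s : ℕ × ℤ) : K * En κ K n s ≤ ∑ j ∈ range (n * K), (P^[j] (lw (κ + K))) s := by
  unfold En
  induction n with
  | zero => simp
  | succ n ih =>
    rw [sum_range_succ, mul_add, show (n + 1) * K = n * K + K by ring, sum_range_add]
    have h1 : (K : ℝ) * (P^[n * K] (lw κ)) s ≤ ∑ u ∈ range K, (P^[n * K + u] (lw (κ + K))) s := by
      have h2 : ∀ u ∈ range K, (P^[n * K] (lw κ)) s ≤ (P^[n * K + u] (lw (κ + K))) s := by
        intro u hu
        rw [mem_range] at hu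
        rw [Function.iterate_add_apply]
        apply P_iter_mono
        intro x
        refine (lev_up κ u x).trans ?_
        apply P_iter_mono
        intro y
        unfold lw
        split_ifs with h3 h4
        · exact le_rfl
        · omega
        · norm_num
        · exact le_rfl
      have h3 := sum_le_sum h2
      rw [sum_const, card_range, nsmul_eq_mul] at h3
      exact h3
    linarith

end Pool.Agent.K7.H66.CW
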