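import Pool.Agent.K7.H66.CW.N2
import Pool.Agent.K7.H66.CW.G
import Pool.Agent.K7.H66.CW.H

/-!
The arcsine law, part 6: the level and the reflected walk.
-/

set_option autoImplicit false

namespace Pool.Agent.K7.H66.CW

open Finset Pool.Agent.H499R2.CO Pool.Agent.W38.CR

/-- The mean of `ψ` at the reflected simple random walk from `i` after `m` steps. -/
noncomputable def rw_ (ψ : ℕ → ℝ) : ℕ → ℕ → ℝ
  | 0, i => ψ i
  | m + 1, 0 => rw_ ψ m 1
  | m + 1, i + 1 => (rw_ ψ m (i + 2) + rw_ ψ m i) / 2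

theorem rw_mono {φ ψ : ℕ → ℝ} (h : ∀ i, φ i ≤ ψ i) : ∀ m i : ℕ, rw_ φ m i ≤ rw_ ψ m i := by
  intro m
  induction m with
  | zero => intro i; exact h i
  | succ m ih =>
    intro i
    cases i with
    | zero => exact ih 1
    | succ i => simp only [rw_]; have := ih (i + 2); have := ih i; linarith

theorem rw_lin (a b : ℝ) (ψ : ℕ → ℝ) : ∀ m i : ℕ, rw_ (fun j => a + b * ψ j) m i = a + b * rw_ ψ m i := by
  intro m
  induction m with
  | zero => intro i; rfl
  | succ m ih =>
    intro i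
    cases i with
    | zero => exact ih 1
    | succ i => simp only [rw_]; rw [ih, ih]; ring

theorem rw_const (a : ℝ) (m i : ℕ) : rw_ (fun _ => a) m i = a := by
  have := rw_lin a 0 (fun _ => 0) m i
  simpa using this

theorem rw_sq {i0 : ℝ} (hi : 0 ≤ i0) : ∀ m i : ℕ, rw_ (fun j => (i0 - j) ^ 2) m i ≤ (i0 - i) ^ 2 + m := by
  intro m
  induction m with
  | zero => intro i; simp [rw_]
  | succ m ih =>
    intro i
    cases i with
    | zero =>
      simp only [rw_]
      have := ih 1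
      push_cast at this ⊢
      nlinarith
    | succ i =>
      simp only [rw_]
      have h1 := ih (i + 2)
      have h2 := ih i
      push_cast at h1 h2 ⊢
      nlinarith

theorem lip_aux {lam y a b : ℝ} (hlam : 0 ≤ lam) (hy : 0 < y) :
    lam * |a - b| ≤ lam * (y / 2) + lam / (2 * y) * (a - b) ^ 2 := by
  have h1 : |a - b| ≤ y / 2 + (a - b) ^ 2 / (2 * y) := by
    have h2 : |a - b| * (2 * y) ≤ y ^ 2 + (a - b) ^ 2 := by
      nlinarith [sq_nonneg (|a - b| - y), sq_abs (a - b)]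
    have h3 : y / 2 + (a - b) ^ 2 / (2 * y) = (y ^ 2 + (a - b) ^ 2) / (2 * y) := by field_simp
    rw [h3, le_div_iff₀ (by positivity)]
    exact h2
  have h2 := mul_le_mul_of_nonneg_left h1 hlam
  calc lam * |a - b| ≤ lam * (y / 2 + (a - b) ^ 2 / (2 * y)) := h2
    _ = _ := by ring

theorem rw_lip {ψ : ℕ → ℝ} {lam : ℝ} (hlam : 0 ≤ lam) (h : ∀ i j : ℕ, |ψ i - ψ j| ≤ lam * |(i : ℝ) - j|)
    (m i : ℕ) : |rw_ ψ m i - ψ i| ≤ lam * √ m := by
  rcases Nat.eq_zero_or_pos m with rfl | hm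
  · simp [rw_]
  · have hmr : (0 : ℝ) < m := by exact_mod_cast hm
    set y := √ (m : ℝ) with hy
    have hy0 : 0 < y := Real.sqrt_pos.2 hmr
    have hy2 : y ^ 2 = m := Real.sq_sqrt hmr.le
    have h1 : ∀ j : ℕ, ψ j ≤ (ψ i + lam * (y / 2)) + lam / (2 * y) * ((i : ℝ) - j) ^ 2 := by
      intro j
      have h2 := h j i
      rw [abs_sub_comm (j : ℝ)] at h2
      have h3 := lip_aux (a := i) (b := j) hlam hy0
      have h4 := (abs_le.1 h2).2
      linarith
    have h1' : ∀ j : ℕ, (ψ i - lam * (y / 2)) + (-(lam / (2 * y))) * ((i : ℝ) - j) ^ 2 ≤ ψ j := by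
      intro j
      have h2 := h j i
      rw [abs_sub_comm (j : ℝ)] at h2
      have h3 := lip_aux (a := i) (b := j) hlam hy0
      have h4 := (abs_le.1 h2).1
      linarith
    have h2 := rw_mono h1 m i
    have h2' := rw_mono h1' m i
    rw [rw_lin] at h2 h2'
    have h3 := rw_sq (i0 := (i : ℝ)) (by positivity) m i
    have h4 : ((i : ℝ) - i) ^ 2 + m = m := by ring
    rw [h4] at h3
    have h5 := mul_le_mul_of_nonneg_left h3 (show 0 ≤ lam / (2 * y) by positivity)
    have h6 : lam / (2 * y) * m = lam * (y / 2) := by rw [← hy2]; field_simp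
    rw [h6] at h5
    rw [abs_le]
    constructor <;> linarith

/-- The level of the chain does not move much. -/
theorem lev_lip {ψ : ℕ → ℝ} {lam : ℝ} (hlam : 0 ≤ lam) (h : ∀ i j : ℕ, |ψ i - ψ j| ≤ lam * |(i : ℝ) - j|)
    (m : ℕ) (s : ℕ × ℤ) : |(P^[m] (fun x => ψ x.1)) s - ψ s.1| ≤ lam * √ m := by
  rcases Nat.eq_zero_or_pos m with rfl | hm
  · simp
  · have hmr : (0 : ℝ) < m := by exact_mod_cast hm
    set y := √ (m : ℝ) with hy
    have hy0 : 0 < y := Real.sqrt_pos.2 hmr
    have hy2 : y ^ 2 = m := Real.sq_sqrt hmr.le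
    set i := s.1 with hi
    have h1 : ∀ x : ℕ × ℤ, ψ x.1 ≤ (ψ i + lam * (y / 2)) + lam / (2 * y) * f0 i x := by
      intro x
      have h2 := h x.1 i
      rw [abs_sub_comm (x.1 : ℝ)] at h2
      have h3 := lip_aux (a := i) (b := x.1) hlam hy0
      have h4 := (abs_le.1 h2).2
      unfold f0
      linarith
    have h1' : ∀ x : ℕ × ℤ, (ψ i - lam * (y / 2)) + (-(lam / (2 * y))) * f0 i x ≤ ψ x.1 := by
      intro x
      have h2 := h x.1 i
      rw [abs_sub_comm (x.1 : ℝ)] at h2
      have h3 := lip_aux (a := i) (b := x.1) hlam hy0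
      have h4 := (abs_le.1 h2).1
      unfold f0
      linarith
    have h2 := P_iter_mono m h1 s
    have h2' := P_iter_mono m h1' s
    rw [P_iter_add m (fun _ => ψ i + lam * (y / 2)), P_iter_const, P_iter_smul] at h2
    rw [P_iter_add m (fun _ => ψ i - lam * (y / 2)), P_iter_const, P_iter_smul] at h2'
    have h3 := f0_iter m s
    have h5 := mul_le_mul_of_nonneg_left h3 (show 0 ≤ lam / (2 * y) by positivity)
    have h6 : lam / (2 * y) * m = lam * (y / 2) := by rw [← hy2]; field_simp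
    rw [h6] at h5
    rw [← hi] at h5
    rw [abs_le]
    constructor <;> linarith

/-- The chain, then the reflected walk, up to `m` moves; `0` if there are more than `m` moves. -/
noncomputable def Uf (ψ : ℕ → ℝ) : ℕ → ℕ → ℕ × ℤ → ℝ
  | 0, m, s => rw_ ψ m s.1
  | k + 1, m, s => if s.2 % 2 = 0 then P (Uf ψ k m) s else
      (match m with
        | 0 => 0
        | m + 1 => P (Uf ψ k m) s)

theorem Uf_even {ψ : ℕ → ℝ} {k m : ℕ} {s : ℕ × ℤ} (ho : s.2 % 2 = 0) :
    Uf ψ (k + 1) m s = P (Uf ψ k m) s := by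
  simp only [Uf, if_pos ho]

theorem Uf_odd0 {ψ : ℕ → ℝ} {k : ℕ} {s : ℕ × ℤ} (ho : ¬ s.2 % 2 = 0) : Uf ψ (k + 1) 0 s = 0 := by
  simp only [Uf, if_neg ho]

theorem Uf_odd {ψ : ℕ → ℝ} {k m : ℕ} {s : ℕ × ℤ} (ho : ¬ s.2 % 2 = 0) :
    Uf ψ (k + 1) (m + 1) s = P (Uf ψ k m) s := by
  simp only [Uf, if_neg ho]

variable {ψ : ℕ → ℝ}

theorem rw_nonneg (h0 : ∀ i, 0 ≤ ψ i) (m i : ℕ) : 0 ≤ rw_ ψ m i := by
  have := rw_mono h0 m i
  rwa [rw_const] at this

theorem rw_le_one (h1 : ∀ i, ψ i ≤ 1) (m i : ℕ) : rw_ ψ m i ≤ 1 := by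
  have := rw_mono h1 m i
  rwa [rw_const] at this

/-- The level is the reflected walk at the number of the moves. -/
theorem P_rw {m : ℕ} {s : ℕ × ℤ} (ho : ¬ s.2 % 2 = 0) :
    P (fun x => rw_ ψ m x.1) s = rw_ ψ (m + 1) s.1 := by
  obtain ⟨i, r⟩ := s
  have ho' : r % 2 = 1 := by simp only at ho; omega
  rcases i with _ | i
  · unfold P
    rw [step_0f ho', step_0t ho']
    simp only [rw_]
    ring
  · unfold P
    rw [step_sf ho', step_st ho']
    simp only [rw_]

theorem P_rw_even {m : ℕ} {s : ℕ × ℤ} (ho : s.2 % 2 = 0) :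
    P (fun x => rw_ ψ m x.1) s = rw_ ψ m s.1 := by
  obtain ⟨i, r⟩ := s
  unfold P
  rw [step_ef ho, step_et ho]
  simp only
  ring

theorem Uf_le (h0 : ∀ i, 0 ≤ ψ i) : ∀ (k m : ℕ) (s : ℕ × ℤ), Uf ψ k m s ≤ rw_ ψ m s.1 := by
  intro k
  induction k with
  | zero => intro m s; exact le_rfl
  | succ k ih =>
    intro m s
    by_cases ho : s.2 % 2 = 0
    · rw [Uf_even ho, ← P_rw_even ho]
      exact P_mono (ih m) s
    · cases m with
      | zero => rw [Uf_odd0 ho]; exact rw_nonneg h0 _ _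
      | succ m =>
        rw [Uf_odd ho, ← P_rw ho]
        exact P_mono (ih m) s

theorem Uf_ge (h1 : ∀ i, ψ i ≤ 1) : ∀ (k m : ℕ) (s : ℕ × ℤ), rw_ ψ m s.1 ≤ Uf ψ k m s + hb k m s := by
  intro k
  induction k with
  | zero =>
    intro m s
    have := hb_nonneg 0 m s
    have e : Uf ψ 0 m s = rw_ ψ m s.1 := rfl
    rw [e]; linarith
  | succ k ih =>
    intro m s
    by_cases ho : s.2 % 2 = 0
    · rw [Uf_even ho, hb_even ho, ← P_rw_even ho]
      refine (P_mono (ih m) s).trans ?_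
      rw [P_def, P_def, P_def]; linarith
    · cases m with
      | zero =>
        rw [hb_odd0 ho, Uf_odd0 ho]
        have := rw_le_one h1 0 s.1
        linarith
      | succ m =>
        rw [Uf_odd ho, hb_odd ho, ← P_rw ho]
        refine (P_mono (ih m) s).trans ?_
        rw [P_def, P_def, P_def]; linarith

theorem Psi_le {lam : ℝ} (hlam : 0 ≤ lam) (h1 : ∀ i, ψ i ≤ 1) (h0 : ∀ i, 0 ≤ ψ i)
    (h : ∀ i j : ℕ, |ψ i - ψ j| ≤ lam * |(i : ℝ) - j|) (d : ℕ) : ∀ (k m : ℕ) (s : ℕ × ℤ),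
    (P^[k] (fun x => ψ x.1)) s ≤ Uf ψ k m s + lam * √ d + hb k m s + lb k (m - d) s := by
  intro k
  have hd : 0 ≤ lam * √ (d : ℝ) := by positivity
  induction k with
  | zero =>
    intro m s
    rw [Function.iterate_zero, id]
    have e : Uf ψ 0 m s = rw_ ψ m s.1 := rfl
    rw [e]
    have h2 := hb_nonneg 0 m s
    by_cases hm : m ≤ d
    · have h3 := (abs_le.1 (rw_lip hlam h m s.1)).1
      have h4 : lam * √ (m : ℝ) ≤ lam * √ d := by
        apply mul_le_mul_of_nonneg_left _ hlam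
        exact Real.sqrt_le_sqrt (by exact_mod_cast hm)
      have h5 := lb_nonneg 0 (m - d) s
      linarith
    · have h3 : lb 0 (m - d) s = 1 := by simp only [lb]; exact if_pos (by omega)
      have h4 := rw_nonneg h0 m s.1
      have h5 := h1 s.1
      linarith
  | succ k ih =>
    intro m s
    rw [Function.iterate_succ_apply']
    by_cases ho : s.2 % 2 = 0
    · rw [Uf_even ho, hb_even ho, lb_even ho]
      refine (P_mono (ih m) s).trans ?_
      rw [P_def, P_def, P_def, P_def]; linarith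
    · cases m with
      | zero =>
        rw [hb_odd0 ho, Uf_odd0 ho]
        have h2 : P (P^[k] (fun x => ψ x.1)) s ≤ 1 := by
          apply P_le
          intro x
          have := P_iter_mono k (F := fun x => ψ x.1) (G := fun _ => 1) (fun x => h1 x.1) x
          rwa [P_iter_const] at this
        have h3 := lb_nonneg (k + 1) (0 - d) s
        linarith
      | succ m =>
        rw [Uf_odd ho, hb_odd ho]
        refine (P_mono (ih m) s).trans ?_
        have h3 : P (lb k (m - d)) s ≤ lb (k + 1) (m + 1 - d) s := by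
          by_cases hm : m + 1 ≤ d
          · rw [show m - d = 0 by omega, show m + 1 - d = 0 by omega, lb_odd0 ho, P_def, lb_zero, lb_zero]
            norm_num
          · rw [show m + 1 - d = (m - d) + 1 by omega, lb_odd ho]
        have h4 : P (fun s => Uf ψ k m s + lam * √ (d : ℝ) + hb k m s + lb k (m - d) s) s =
            P (Uf ψ k m) s + lam * √ (d : ℝ) + P (hb k m) s + P (lb k (m - d)) s := by
          rw [P_def, P_def, P_def, P_def]; ring
        rw [h4]
        linarith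

theorem Psi_ge {lam : ℝ} (hlam : 0 ≤ lam) (h1 : ∀ i, ψ i ≤ 1) (h0 : ∀ i, 0 ≤ ψ i)
    (h : ∀ i j : ℕ, |ψ i - ψ j| ≤ lam * |(i : ℝ) - j|) (d : ℕ) : ∀ (k m : ℕ) (s : ℕ × ℤ),
    Uf ψ k m s ≤ (P^[k] (fun x => ψ x.1)) s + lam * √ d + lb k (m - d) s := by
  intro k
  have hd : 0 ≤ lam * √ (d : ℝ) := by positivity
  induction k with
  | zero =>
    intro m s
    rw [Function.iterate_zero, id]
    have e : Uf ψ 0 m s = rw_ ψ m s.1 := rfl
    rw [e]
    by_cases hm : m ≤ d
    · have h3 := (abs_le.1 (rw_lip hlam h m s.1)).2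
      have h4 : lam * √ (m : ℝ) ≤ lam * √ d := by
        apply mul_le_mul_of_nonneg_left _ hlam
        exact Real.sqrt_le_sqrt (by exact_mod_cast hm)
      have h5 := lb_nonneg 0 (m - d) s
      linarith
    · have h3 : lb 0 (m - d) s = 1 := by simp only [lb]; exact if_pos (by omega)
      have h4 := rw_le_one h1 m s.1
      have h5 := h0 s.1
      linarith
  | succ k ih =>
    intro m s
    rw [Function.iterate_succ_apply']
    by_cases ho : s.2 % 2 = 0
    · rw [Uf_even ho, lb_even ho]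
      refine (P_mono (ih m) s).trans ?_
      rw [P_def, P_def, P_def]; linarith
    · cases m with
      | zero =>
        rw [Uf_odd0 ho]
        have h2 : 0 ≤ P (P^[k] (fun x => ψ x.1)) s := by
          apply P_ge
          intro x
          exact P_iter_nonneg (fun x => h0 x.1) k x
        have h3 := lb_nonneg (k + 1) (0 - d) s
        linarith
      | succ m =>
        rw [Uf_odd ho]
        refine (P_mono (ih m) s).trans ?_
        have h3 : P (lb k (m - d)) s ≤ lb (k + 1) (m + 1 - d) s := by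
          by_cases hm : m + 1 ≤ d
          · rw [show m - d = 0 by omega, show m + 1 - d = 0 by omega, lb_odd0 ho, P_def, lb_zero, lb_zero]
            norm_num
          · rw [show m + 1 - d = (m - d) + 1 by omega, lb_odd ho]
        have h4 : P (fun s => (P^[k] (fun x => ψ x.1)) s + lam * √ (d : ℝ) + lb k (m - d) s) s =
            P (P^[k] (fun x => ψ x.1)) s + lam * √ (d : ℝ) + P (lb k (m - d)) s := by
          rw [P_def, P_def, P_def]; ring
        rw [h4]
        linarith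

/-- **The law of the level.** -/
theorem lev_law {lam : ℝ} (hlam : 0 ≤ lam) (h1 : ∀ i, ψ i ≤ 1) (h0 : ∀ i, 0 ≤ ψ i)
    (h : ∀ i j : ℕ, |ψ i - ψ j| ≤ lam * |(i : ℝ) - j|) (d k m : ℕ) (s : ℕ × ℤ) :
    |(P^[k] (fun x => ψ x.1)) s - rw_ ψ m s.1| ≤ lam * √ d + hb k m s + lb k (m - d) s := by
  have e1 := Uf_le h0 k m s
  have e2 := Uf_ge h1 k m s
  have e3 := Psi_le hlam h1 h0 h d k m s
  have e4 := Psi_ge hlam h1 h0 h d k m s
  rw [abs_le]
  constructor <;> linarith

end Pool.Agent.K7.H66.CW
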