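import Pool.Agent.K7.H66.CW.G
import Pool.Agent.K7.H66.CW.N6

/-!
The arcsine law, part 7: the law of the arc tangent.
-/

set_option autoImplicit false

namespace Pool.Agent.K7.H66.CW

open Finset Filter Topology MeasureTheory ProbabilityTheory Pool.Agent.R344.LS
open Pool.Agent.H499R2.ND (Phi)

/-! ### the theorem of Polya, general limit -/

theorem polya2 {F : ℕ → ℝ → ℝ} {Ψ : ℝ → ℝ} (hF : ∀ m, Monotone (F m)) (h0 : ∀ m x, 0 ≤ F m x)
    (h1 : ∀ m x, F m x ≤ 1) (hΨ : Monotone Ψ) (hΨ0 : ∀ x, 0 ≤ Ψ x) (hΨ1 : ∀ x, Ψ x ≤ 1)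
    (hlip : ∀ x y, x ≤ y → Ψ y - Ψ x ≤ y - x) (htop : Tendsto Ψ atTop (𝓝 1)) (hbot : Tendsto Ψ atBot (𝓝 0))
    (hlim : ∀ x, Tendsto (fun m => F m x) atTop (𝓝 (Ψ x)))
    {ε : ℝ} (hε : 0 < ε) : ∃ m0 : ℕ, ∀ m ≥ m0, ∀ x : ℝ, |F m x - Ψ x| ≤ ε := by
  obtain ⟨L1, hL1⟩ := (htop.eventually (eventually_ge_nhds (show 1 - ε / 4 < 1 by linarith))).exists_forall_of_atTop
  obtain ⟨L2, hL2⟩ := (hbot.eventually (eventually_le_nhds (show 0 < ε / 4 by linarith))).exists_forall_of_atBot
  set L : ℝ := max (max L1 (-L2)) 1 with hL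
  have hLa : L1 ≤ L := (le_max_left _ _).trans (le_max_left _ _)
  have hLb : -L ≤ L2 := by
    have : -L2 ≤ L := (le_max_right _ _).trans (le_max_left _ _)
    linarith
  have hL0 : 1 ≤ L := le_max_right _ _
  set N : ℕ := ⌈8 * L / ε⌉₊ with hN
  set g : ℕ → ℝ := fun i => -L + i * (ε / 4) with hg
  have hgN : L ≤ g N := by
    have : 8 * L / ε ≤ N := Nat.le_ceil _
    rw [div_le_iff₀ hε] at this
    simp only [hg]
    linarith
  have hev : ∀ᶠ m in atTop, ∀ i ∈ range (N + 1), |F m (g i) - Ψ (g i)| ≤ ε / 4 := by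
    rw [Filter.eventually_all_finset]
    intro i _
    have := (hlim (g i)).eventually (Metric.closedBall_mem_nhds _ (show 0 < ε / 4 by linarith))
    filter_upwards [this] with m hm
    rw [Real.dist_eq] at hm
    exact hm
  obtain ⟨m0, hm0⟩ := eventually_atTop.1 hev
  refine ⟨m0, fun m hm x => ?_⟩
  have hgrid := hm0 m hm
  by_cases c1 : x < -L
  · have e0 := hgrid 0 (by simp)
    have e1 : g 0 = -L := by simp [hg]
    rw [e1, abs_le] at e0
    have e2 := hF m c1.le
    have e3 := hL2 (-L) hLb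
    have e4 := hΨ c1.le
    have e5 := hΨ0 x
    have e6 := h0 m x
    rw [abs_le]
    constructor <;> linarith
  by_cases c2 : g N ≤ x
  · have e0 := hgrid N (by simp)
    rw [abs_le] at e0
    have e2 := hF m c2
    have e3 := hL1 (g N) (hLa.trans hgN)
    have e4 := hΨ c2
    have e5 := hΨ1 x
    have e6 := h1 m x
    rw [abs_le]
    constructor <;> linarith
  push Not at c1 c2
  set i : ℕ := ⌊(x + L) / (ε / 4)⌋₊ with hi
  have hq : 0 ≤ (x + L) / (ε / 4) := div_nonneg (by linarith) (by linarith)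
  have f1 : (i : ℝ) ≤ (x + L) / (ε / 4) := Nat.floor_le hq
  have f2 : (x + L) / (ε / 4) < i + 1 := Nat.lt_floor_add_one _
  rw [le_div_iff₀ (by linarith)] at f1
  rw [div_lt_iff₀ (by linarith)] at f2
  have g1 : g i ≤ x := by simp only [hg]; linarith
  have g2 : x ≤ g (i + 1) := by simp only [hg]; push_cast; linarith
  have hiN : i < N := by
    by_contra hcon
    push Not at hcon
    have : (N : ℝ) ≤ i := by exact_mod_cast hcon
    have : g N ≤ g i := by
      simp only [hg]
      have := mul_le_mul_of_nonneg_right this (show 0 ≤ ε / 4 by linarith)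
      linarith
    linarith
  have e0 := hgrid i (by rw [mem_range]; omega)
  have e1 := hgrid (i + 1) (by rw [mem_range]; omega)
  rw [abs_le] at e0 e1
  have gg : g (i + 1) = g i + ε / 4 := by simp only [hg]; push_cast; ring
  have p1 := hlip _ _ g1
  have p2 := hlip _ _ g2
  have q1 := hF m g1
  have q2 := hF m g2
  have r1 := hΨ g1
  have r2 := hΨ g2
  rw [abs_le]
  constructor <;> linarith

/-! ### the reflected walk and the binomial law -/

/-- The mean of `g` at the simple random walk. -/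
noncomputable def Ew (g : ℝ → ℝ) (m : ℕ) (x : ℝ) : ℝ :=
  ∑ o ∈ range (m + 1), G m (o : ℤ) * g (x + (2 * (o : ℝ) - m))

theorem Ew_zero (g : ℝ → ℝ) (x : ℝ) : Ew g 0 x = g x := by
  unfold Ew; simp [G_zero]

theorem Ew_succ (g : ℝ → ℝ) (m : ℕ) (x : ℝ) : Ew g (m + 1) x = (Ew g m (x - 1) + Ew g m (x + 1)) / 2 := by
  have h := mom_step (fun y => g (x + y)) m
  unfold Ew
  push_cast
  rw [h, ← sum_add_distrib, sum_div]
  apply sum_congr rfl
  intro o _
  rw [show x + (2 * (o : ℝ) - m - 1) = x - 1 + (2 * (o : ℝ) - m) by ring,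
    show x + (2 * (o : ℝ) - m + 1) = x + 1 + (2 * (o : ℝ) - m) by ring]
  ring

theorem Ew_even {g : ℝ → ℝ} (hg : ∀ x, g (-x) = g x) : ∀ (m : ℕ) (x : ℝ), Ew g m (-x) = Ew g m x := by
  intro m
  induction m with
  | zero => intro x; rw [Ew_zero, Ew_zero, hg]
  | succ m ih =>
    intro x
    rw [Ew_succ, Ew_succ, show -x - 1 = -(x + 1) by ring, show -x + 1 = -(x - 1) by ring, ih, ih]
    ring

theorem rw_Ew {g : ℝ → ℝ} (hg : ∀ x, g (-x) = g x) : ∀ (m i : ℕ), rw_ (fun i => g i) m i = Ew g m i := by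
  intro m
  induction m with
  | zero => intro i; rw [Ew_zero]; rfl
  | succ m ih =>
    intro i
    cases i with
    | zero =>
      simp only [rw_]
      rw [ih, Ew_succ]
      push_cast
      rw [show (0 : ℝ) - 1 = -1 by ring, Ew_even hg]
      norm_num
    | succ i =>
      simp only [rw_]
      rw [ih, ih, Ew_succ]
      push_cast
      rw [show (i : ℝ) + 1 - 1 = i by ring, show (i : ℝ) + 1 + 1 = i + 2 by ring]
      ring

theorem bw_integral {m : ℕ} (f : ℝ → ℝ) : ∫ z, f z ∂(bw m) =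
    ∑ o ∈ range (m + 1), G m (o : ℤ) * f ((2 * (o : ℝ) - m) / Real.sqrt m) := by
  unfold bw
  rw [integral_finsetSum_measure]
  · apply sum_congr rfl
    intro o _
    rw [integral_smul_measure, integral_dirac, ENNReal.toReal_ofReal (G_nonneg m o), smul_eq_mul]
  · intro o _
    apply Integrable.smul_measure _ ENNReal.ofReal_ne_top
    apply integrable_dirac
    exact enorm_lt_top

theorem bw_tendsto : Tendsto bwP atTop (𝓝 gaP) := by
  rw [ProbabilityMeasure.tendsto_iff_tendsto_charFun]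
  intro t
  have e1 : charFun (gaussianReal 0 1) t = ((Real.exp (-(t ^ 2 / 2)) : ℝ) : ℂ) := by
    rw [charFun_gaussianReal]
    push_cast
    congr 1
    simp
  show Tendsto (fun k => charFun (bw k) t) atTop (𝓝 (charFun (gaussianReal 0 1) t))
  rw [e1]
  simp only [bw_charFun]
  exact (Complex.continuous_ofReal.tendsto _).comp (cos_pow t)

theorem Phi_continuous : Continuous Phi := by
  rw [Metric.continuous_iff]
  intro x ε hε
  refine ⟨ε, hε, fun y hy => ?_⟩
  rw [Real.dist_eq] at hy ⊢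
  exact (Phi_lip' x y).trans_lt hy

theorem Ga_continuous : Continuous Ga := by
  unfold Ga
  exact Phi_continuous.sub (Phi_continuous.comp continuous_neg)

/-! ### the mean of `Ga` for the normal law -/

/-- The density. -/
noncomputable def gd (x : ℝ) : ℝ := gaussianPDFReal 0 1 x

theorem gd_eq (x : ℝ) : gd x = (√ (2 * Real.pi))⁻¹ * Real.exp (-x ^ 2 / 2) := by
  unfold gd gaussianPDFReal
  simp

theorem gd_cont : Continuous gd := by
  have : gd = fun x => (√ (2 * Real.pi))⁻¹ * Real.exp (-x ^ 2 / 2) := funext gd_eq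
  rw [this]; fun_prop

theorem gd_nonneg (x : ℝ) : 0 ≤ gd x := by rw [gd_eq]; positivity

theorem gd_le_one (x : ℝ) : gd x ≤ 1 := by
  rw [gd_eq]
  have h1 : (√ (2 * Real.pi))⁻¹ ≤ 1 := by
    rw [inv_le_one₀ (by positivity), Real.one_le_sqrt]
    have := Real.pi_gt_three
    linarith
  have h2 : Real.exp (-x ^ 2 / 2) ≤ 1 := by
    rw [Real.exp_le_one_iff]
    have : 0 ≤ x ^ 2 := sq_nonneg x
    linarith
  calc _ ≤ (1 : ℝ) * 1 := mul_le_mul h1 h2 (Real.exp_pos _).le (by norm_num)
    _ = 1 := by norm_num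

theorem gd_even (x : ℝ) : gd (-x) = gd x := by rw [gd_eq, gd_eq]; simp

theorem Phi_integral (x : ℝ) : Phi x = Phi 0 + ∫ z in (0 : ℝ)..x, gd z := by
  have key : ∀ a b : ℝ, a ≤ b → Phi b - Phi a = ∫ z in a..b, gd z := by
    intro a b hab
    rw [← gauss_Ioc hab, measureReal_def, gaussianReal_apply_eq_integral 0 one_ne_zero,
      ENNReal.toReal_ofReal (setIntegral_nonneg measurableSet_Ioc (fun z _ => gaussianPDFReal_nonneg 0 1 z)),
      intervalIntegral.integral_of_le hab]
    rfl
  rcases le_total 0 x with h | h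
  · have := key 0 x h; linarith
  · have := key x 0 h
    rw [intervalIntegral.integral_symm]
    linarith

theorem Phi_deriv (x : ℝ) : HasDerivAt Phi (gd x) x := by
  have h1 : Phi = fun x => Phi 0 + ∫ z in (0 : ℝ)..x, gd z := funext Phi_integral
  rw [h1]
  have h2 : HasDerivAt (fun u => ∫ z in (0 : ℝ)..u, gd z) (gd x) x :=
    intervalIntegral.integral_hasDerivAt_right (gd_cont.intervalIntegrable _ _)
      (gd_cont.stronglyMeasurableAtFilter _ _) gd_cont.continuousAt
  exact h2.const_add _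

theorem Ga_deriv (a ρ : ℝ) : HasDerivAt (fun ρ => Ga (ρ * a)) (2 * a * gd (ρ * a)) ρ := by
  have h1 : HasDerivAt (fun ρ => ρ * a) a ρ := by simpa using (hasDerivAt_id ρ).mul_const a
  have h2 := HasDerivAt.comp ρ (Phi_deriv (ρ * a)) h1
  have h3 : HasDerivAt (fun ρ => -(ρ * a)) (-a) ρ := h1.neg
  have h4 := HasDerivAt.comp ρ (Phi_deriv (-(ρ * a))) h3
  simp only [Function.comp_def] at h2 h4
  have h5 := h2.sub h4
  rw [gd_even] at h5
  refine h5.congr_deriv ?_
  ring

theorem int_abs_exp {b : ℝ} (hb : 0 < b) : ∫ x : ℝ, |x| * Real.exp (-b * |x| ^ 2) = 1 / b := by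
  have h1 := integral_comp_abs (f := fun x => x * Real.exp (-b * x ^ 2))
  rw [h1]
  have h2 := integral_rpow_mul_exp_neg_mul_rpow (p := 2) (q := 1) (b := b) (by norm_num) (by norm_num) hb
  have h3 : ∫ x in Set.Ioi (0 : ℝ), x * Real.exp (-b * x ^ 2) = 1 / (2 * b) := by
    have h4 : ∫ x in Set.Ioi (0 : ℝ), x ^ (1 : ℝ) * Real.exp (-b * x ^ (2 : ℝ)) =
        ∫ x in Set.Ioi (0 : ℝ), x * Real.exp (-b * x ^ 2) := by
      apply setIntegral_congr_fun measurableSet_Ioi
      intro x _
      simp only [Real.rpow_one]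
      norm_num
    rw [← h4, h2]
    have h5 : ((1 : ℝ) + 1) / 2 = 1 := by norm_num
    rw [h5, Real.Gamma_one, show -((1 : ℝ) + 1) / 2 = -1 by norm_num, Real.rpow_neg_one]
    field_simp
  rw [h3]
  field_simp

theorem int_abs : Integrable (fun z : ℝ => |z|) (gaussianReal 0 1) := by
  have h : Integrable (fun z : ℝ => z) (gaussianReal 0 1) := by
    have := memLp_id_gaussianReal (μ := 0) (v := 1) 1
    exact (memLp_one_iff_integrable).1 this
  exact h.abs

/-- The mean of `Ga (ρ |Z|)`. -/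
noncomputable def Am (ρ : ℝ) : ℝ := ∫ z, Ga (ρ * |z|) ∂(gaussianReal 0 1)

theorem Ga_abs_le (x : ℝ) : |Ga x| ≤ 1 := by
  have h1 := Ga_le_one x
  unfold Ga at *
  have := Phi_nonneg x
  have := Phi_le_one (-x)
  rw [abs_le]
  constructor <;> linarith

theorem Am_deriv (ρ : ℝ) : HasDerivAt Am (2 / Real.pi * (1 / (1 + ρ ^ 2))) ρ := by
  have hmeas : ∀ r : ℝ, AEStronglyMeasurable (fun z : ℝ => Ga (r * |z|)) (gaussianReal 0 1) := fun r =>
    (Ga_continuous.comp (by fun_prop)).aestronglyMeasurable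
  have h := hasDerivAt_integral_of_dominated_loc_of_deriv_le (μ := gaussianReal 0 1) (x₀ := ρ)
    (s := Set.univ) (F := fun r z => Ga (r * |z|)) (F' := fun r z => 2 * |z| * gd (r * |z|))
    (bound := fun z => 2 * |z|) Filter.univ_mem (Filter.Eventually.of_forall hmeas)
    ((integrable_const (1 : ℝ)).mono' (hmeas ρ) (Filter.Eventually.of_forall (fun z => Ga_abs_le _)))
    ((by fun_prop : Continuous fun z : ℝ => 2 * |z|).mul (gd_cont.comp (by fun_prop))).aestronglyMeasurable
    (Filter.Eventually.of_forall (fun z r _ => by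
      rw [Real.norm_eq_abs, abs_mul, abs_of_nonneg (gd_nonneg _), abs_of_nonneg (by positivity : 0 ≤ 2 * |z|)]
      calc 2 * |z| * gd (r * |z|) ≤ 2 * |z| * 1 := mul_le_mul_of_nonneg_left (gd_le_one _) (by positivity)
        _ = 2 * |z| := mul_one _))
    (int_abs.const_mul 2)
    (Filter.Eventually.of_forall (fun z r _ => Ga_deriv |z| r))
  have h2 := h.2
  have h3 : ∫ z, 2 * |z| * gd (ρ * |z|) ∂(gaussianReal 0 1) = 2 / Real.pi * (1 / (1 + ρ ^ 2)) := by
    rw [integral_gaussianReal_eq_integral_smul one_ne_zero]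
    have e : ∀ z : ℝ, gaussianPDFReal 0 1 z • (2 * |z| * gd (ρ * |z|)) =
        (1 / Real.pi) * (|z| * Real.exp (-((1 + ρ ^ 2) / 2) * |z| ^ 2)) := by
      intro z
      rw [smul_eq_mul]
      have e1 : gaussianPDFReal 0 1 z = gd z := rfl
      rw [e1, gd_eq, gd_eq]
      have e2 : Real.exp (-((1 + ρ ^ 2) / 2) * |z| ^ 2) = Real.exp (-z ^ 2 / 2) * Real.exp (-(ρ * |z|) ^ 2 / 2) := by
        rw [← Real.exp_add]; congr 1
        rw [mul_pow, sq_abs]; ring
      rw [e2]
      have e3 : (√ (2 * Real.pi))⁻¹ * (√ (2 * Real.pi))⁻¹ = 1 / (2 * Real.pi) := by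
        rw [← mul_inv, Real.mul_self_sqrt (by positivity), one_div]
      have e4 : (√ (2 * Real.pi))⁻¹ * Real.exp (-z ^ 2 / 2) * (2 * |z| * ((√ (2 * Real.pi))⁻¹ * Real.exp (-(ρ * |z|) ^ 2 / 2))) =
          ((√ (2 * Real.pi))⁻¹ * (√ (2 * Real.pi))⁻¹) * (2 * (|z| * (Real.exp (-z ^ 2 / 2) * Real.exp (-(ρ * |z|) ^ 2 / 2)))) := by ring
      rw [e4, e3]
      field_simp
    simp only [e]
    rw [integral_const_mul, int_abs_exp (by positivity)]
    field_simp
  rw [h3] at h2
  exact h2

theorem Am_eq (ρ : ℝ) : Am ρ = 2 / Real.pi * Real.arctan ρ := by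
  have h1 : ∀ r, HasDerivAt (fun ρ => Am ρ - 2 / Real.pi * Real.arctan ρ) 0 r := by
    intro r
    have h2 := (Am_deriv r).sub ((Real.hasDerivAt_arctan r).const_mul (2 / Real.pi))
    refine h2.congr_deriv ?_
    ring
  have h2 := is_const_of_deriv_eq_zero (f := fun ρ => Am ρ - 2 / Real.pi * Real.arctan ρ)
    (fun r => (h1 r).differentiableAt) (fun r => (h1 r).deriv) ρ 0
  have h3 : Am 0 = 0 := by
    unfold Am
    have hG0 : Ga 0 = 0 := by unfold Ga; simp
    simp [hG0]
  simp only [h3, Real.arctan_zero, mul_zero, sub_zero] at h2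
  linarith

/-! ### the uniform law -/

/-- The limit function. -/
noncomputable def At (ρ : ℝ) : ℝ := 2 / Real.pi * Real.arctan (max ρ 0)

theorem two_pi_le : 2 / Real.pi ≤ 1 := by
  rw [div_le_one Real.pi_pos]
  linarith [Real.pi_gt_three]

theorem arctan_lip {x y : ℝ} (h : x ≤ y) : Real.arctan y - Real.arctan x ≤ y - x := by
  have h1 : Monotone (fun x => x - Real.arctan x) := by
    apply monotone_of_deriv_nonneg
    · exact differentiable_id.sub Real.differentiable_arctan
    · intro x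
      have h2 : HasDerivAt (fun x => x - Real.arctan x) (1 - 1 / (1 + x ^ 2)) x :=
        (hasDerivAt_id x).sub (Real.hasDerivAt_arctan x)
      rw [h2.deriv]
      have : 1 / (1 + x ^ 2) ≤ 1 := by
        rw [div_le_one (by positivity)]
        nlinarith [sq_nonneg x]
      linarith
  have := h1 h
  simp only at this
  linarith

theorem At_mono : Monotone At := by
  intro x y h
  unfold At
  apply mul_le_mul_of_nonneg_left _ (by positivity)
  exact Real.arctan_mono (max_le_max_right 0 h)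

theorem At_nonneg (x : ℝ) : 0 ≤ At x := by
  unfold At
  have h := Real.arctan_mono (le_max_right x 0)
  rw [Real.arctan_zero] at h
  positivity

theorem At_le_one (x : ℝ) : At x ≤ 1 := by
  unfold At
  have h := (Real.arctan_lt_pi_div_two (max x 0)).le
  calc 2 / Real.pi * Real.arctan (max x 0) ≤ 2 / Real.pi * (Real.pi / 2) :=
        mul_le_mul_of_nonneg_left h (by positivity)
    _ = 1 := by field_simp

theorem At_lip (x y : ℝ) (h : x ≤ y) : At y - At x ≤ y - x := by
  unfold At
  have h1 : max x 0 ≤ max y 0 := max_le_max_right 0 h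
  have h2 := arctan_lip h1
  have h3 : max y 0 - max x 0 ≤ y - x := by
    rcases le_total y 0 with hy | hy
    · rw [max_eq_right hy, max_eq_right (h.trans hy)]; linarith
    · rw [max_eq_left hy]
      have := le_max_left x 0
      linarith
  have h4 : 0 ≤ Real.arctan (max y 0) - Real.arctan (max x 0) := by
    have := Real.arctan_mono h1
    linarith
  calc 2 / Real.pi * Real.arctan (max y 0) - 2 / Real.pi * Real.arctan (max x 0) =
        2 / Real.pi * (Real.arctan (max y 0) - Real.arctan (max x 0)) := by ring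
    _ ≤ 1 * (Real.arctan (max y 0) - Real.arctan (max x 0)) := mul_le_mul_of_nonneg_right two_pi_le h4
    _ ≤ y - x := by linarith

theorem At_top : Tendsto At atTop (𝓝 1) := by
  have h1 : Tendsto (fun x : ℝ => 2 / Real.pi * Real.arctan x) atTop (𝓝 (2 / Real.pi * (Real.pi / 2))) :=
    ((Real.tendsto_arctan_atTop).mono_right nhdsWithin_le_nhds).const_mul _
  have h2 : 2 / Real.pi * (Real.pi / 2) = 1 := by field_simp
  rw [h2] at h1
  refine h1.congr' ?_
  filter_upwards [eventually_ge_atTop 0] with x hx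
  unfold At
  rw [max_eq_left hx]

theorem At_bot : Tendsto At atBot (𝓝 0) := by
  refine tendsto_const_nhds.congr' ?_
  filter_upwards [eventually_le_atBot 0] with x hx
  unfold At
  rw [max_eq_right hx, Real.arctan_zero, mul_zero]

/-- **The reflected walk and the arc tangent.** -/
theorem rw_law {ε : ℝ} (hε : 0 < ε) : ∃ m0 : ℕ, 1 ≤ m0 ∧ ∀ m ≥ m0, ∀ σ : ℝ, 0 < σ →
    |rw_ (fun i => Ga (i / σ)) m 0 - 2 / Real.pi * Real.arctan (√ m / σ)| ≤ ε := by
  obtain ⟨m0, hm0⟩ := polya2 (F := fun m ρ => ∫ z, Ga (max ρ 0 * |z|) ∂(bw m)) (Ψ := At)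
    (by
      intro m ρ ρ' h
      apply integral_mono_of_nonneg
      · exact Filter.Eventually.of_forall (fun z => Ga_nonneg (by positivity))
      · apply (integrable_const (1 : ℝ)).mono'
        · exact (Ga_continuous.comp (by fun_prop)).aestronglyMeasurable
        · exact Filter.Eventually.of_forall (fun z => Ga_abs_le _)
      · exact Filter.Eventually.of_forall (fun z => Ga_mono (mul_le_mul_of_nonneg_right (max_le_max_right 0 h) (abs_nonneg z))))
    (fun m ρ => integral_nonneg (fun z => Ga_nonneg (by positivity)))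
    (by
      intro m ρ
      have h : ∫ z, Ga (max ρ 0 * |z|) ∂(bw m) ≤ ∫ _, (1 : ℝ) ∂(bw m) := by
        apply integral_mono_of_nonneg
        · exact Filter.Eventually.of_forall (fun z => Ga_nonneg (by positivity))
        · exact integrable_const _
        · exact Filter.Eventually.of_forall (fun z => Ga_le_one _)
      simpa using h)
    At_mono At_nonneg At_le_one At_lip At_top At_bot
    (by
      intro ρ
      have h1 := (ProbabilityMeasure.tendsto_iff_forall_integral_tendsto.1 bw_tendsto)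
        (BoundedContinuousFunction.ofNormedAddCommGroup (fun z : ℝ => Ga (max ρ 0 * |z|))
          (Ga_continuous.comp (by fun_prop)) 1 (fun z => Ga_abs_le _))
      have h2 : At ρ = ∫ z, Ga (max ρ 0 * |z|) ∂(gaussianReal 0 1) := (Am_eq (max ρ 0)).symm
      rw [h2]
      exact h1) hε
  refine ⟨max m0 1, le_max_right _ _, fun m hm σ hσ => ?_⟩
  have hm1 : 1 ≤ m := (le_max_right _ _).trans hm
  have hmr : (0 : ℝ) < m := by exact_mod_cast hm1
  have hs : 0 < √ (m : ℝ) := Real.sqrt_pos.2 hmr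
  have h1 := hm0 m ((le_max_left _ _).trans hm) (√ m / σ)
  have hpos : 0 ≤ √ (m : ℝ) / σ := by positivity
  have h2 : At (√ m / σ) = 2 / Real.pi * Real.arctan (√ m / σ) := by
    unfold At; rw [max_eq_left hpos]
  have h3 : rw_ (fun i => Ga (i / σ)) m 0 = ∫ z, Ga (max (√ m / σ) 0 * |z|) ∂(bw m) := by
    have e1 : (fun i : ℕ => Ga ((i : ℝ) / σ)) = fun i : ℕ => (fun x : ℝ => Ga (|x| / σ)) (i : ℝ) := by
      funext i
      simp only
      rw [abs_of_nonneg (by positivity)]
    rw [e1, rw_Ew (g := fun x : ℝ => Ga (|x| / σ)) (fun x => by simp only [abs_neg]), bw_integral]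
    unfold Ew
    apply sum_congr rfl
    intro o _
    rw [max_eq_left hpos]
    congr 2
    push_cast
    rw [zero_add, abs_div, abs_of_pos hs]
    field_simp
  rw [h3, ← h2]
  exact h1

end Pool.Agent.K7.H66.CW
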