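import Pool.Agent.K7.H66.CW.N4
import Pool.Agent.K7.H66.CW.N5
import Pool.Agent.K7.H66.CW.N7
import Pool.Agent.K7.H66.CW.K

/-!
The arcsine law, part 8: the inequalities, averaged over the shifts.
-/

set_option autoImplicit false

namespace Pool.Agent.K7.H66.CW

open Finset Filter Topology Pool.Agent.H499R2.CO Pool.Agent.W38.CR

theorem st_00 (s : ℕ × ℤ) : st (0, 0) s = s := by
  unfold st
  simp

/-- The mean number of the moves is not too large. -/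
theorem up_moves {κ K v : ℕ} {η : ℝ} (hη : 0 ≤ η) (hv : (1 / 2 + η) * K ≤ v) (hK : K ≤ κ) (hK0 : 0 < K)
    (j0 n m H Bd : ℕ) (hBd : 1 ≤ Bd) :
    ∑ h ∈ range H, hb (j0 + n * K) (j0 + (n * v + m * K)) (0, (h : ℤ)) ≤
      H * Er2 j0 n K Bd 0 (Real.exp (-(2 * η ^ 2 * K))) +
      (∑ h ∈ range H, ∑ j ∈ range (j0 + n * K), (P^[j] (lw (κ + K))) (0, (h : ℤ))) / (K * ((m : ℝ) + 1)) := by
  have hKr : (0 : ℝ) < K := by exact_mod_cast hK0
  have hmr : (0 : ℝ) < (m : ℝ) + 1 := by positivity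
  have h1 : ∀ h ∈ range H, hb (j0 + n * K) (j0 + (n * v + m * K)) (0, (h : ℤ)) ≤
      Er2 j0 n K Bd 0 (Real.exp (-(2 * η ^ 2 * K))) +
      (∑ j ∈ range (j0 + n * K), (P^[j] (lw (κ + K))) (0, (h : ℤ))) / (K * ((m : ℝ) + 1)) := by
    intro h _
    have e1 := hb_sub (n * K) (n * v + m * K) j0 j0 (0, (h : ℤ))
    rw [hb_full j0 j0 le_rfl, zero_add] at e1
    have e2 := P_iter_mono j0 (fun s => hb_count κ K v n m s) (0, (h : ℤ))
    have e3 : (fun s => Bn κ K n (hb K v) s + En κ K n s / ((m : ℝ) + 1)) =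
        fun s => Bn κ K n (hb K v) s + (1 / ((m : ℝ) + 1)) * En κ K n s := by funext s; ring
    rw [e3, P_iter_add, P_iter_smul] at e2
    have e4 := cut_err2 (β := hb K v) (κ := κ) (K := K) (τ := Real.exp (-(2 * η ^ 2 * K))) (Real.exp_pos _).le
      (hb_nonneg K v) (hb_le_one K v) (fun i hi => hb_per K v i hi)
      (by intro i hi
          rw [hb_sum K v i hi]
          exact mul_le_mul_of_nonneg_left (bt_tail hη hv) (by positivity)) hK (0, 0) (0, (h : ℤ)) j0 n Bd hBd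
    rw [st_00] at e4
    simp only [Nat.cast_zero] at e4
    have e5 : (P^[j0] (Bn κ K n (hb K v))) (0, (h : ℤ)) =
        (P^[j0] (fun s => ∑ j ∈ range n, (P^[j * K] (cut κ (hb K v))) s)) (0, (h : ℤ)) := rfl
    have e6 : (K : ℝ) * (P^[j0] (En κ K n)) (0, (h : ℤ)) ≤ ∑ j ∈ range (j0 + n * K), (P^[j] (lw (κ + K))) (0, (h : ℤ)) := by
      have f1 := P_iter_mono j0 (fun s => En_le κ K n s) (0, (h : ℤ))
      rw [P_iter_smul, P_iter_sum] at f1
      have f2 : ∀ j ∈ range (n * K), (P^[j0] (P^[j] (lw (κ + K)))) (0, (h : ℤ)) = (P^[j0 + j] (lw (κ + K))) (0, (h : ℤ)) := by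
        intro j _; rw [← Function.iterate_add_apply]
      rw [sum_congr rfl f2] at f1
      rw [sum_range_add]
      have f3 : 0 ≤ ∑ j ∈ range j0, (P^[j] (lw (κ + K))) (0, (h : ℤ)) :=
        sum_nonneg (fun _ _ => P_iter_nonneg (lw_nonneg _) _ _)
      linarith
    have e7 : 1 / ((m : ℝ) + 1) * (P^[j0] (En κ K n)) (0, (h : ℤ)) ≤
        (∑ j ∈ range (j0 + n * K), (P^[j] (lw (κ + K))) (0, (h : ℤ))) / (K * ((m : ℝ) + 1)) := by
      rw [le_div_iff₀ (by positivity)]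
      calc 1 / ((m : ℝ) + 1) * (P^[j0] (En κ K n)) (0, (h : ℤ)) * (K * ((m : ℝ) + 1)) =
          K * (P^[j0] (En κ K n)) (0, (h : ℤ)) := by field_simp
        _ ≤ _ := e6
    have e8 : (P^[j0] (En κ K n)) (0, (h : ℤ)) = (P^[j0] (fun s => En κ K n s)) (0, (h : ℤ)) := rfl
    have e9 : (P^[j0] (hb (n * K) (n * v + m * K))) (0, (h : ℤ)) =
        (P^[j0] (fun s => hb (n * K) (n * v + m * K) s)) (0, (h : ℤ)) := rfl
    have e10 : (P^[j0] (Bn κ K n (hb K v))) (0, (h : ℤ)) = (P^[j0] (fun s => Bn κ K n (hb K v) s)) (0, (h : ℤ)) := rfl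
    linarith
  refine (sum_le_sum h1).trans (le_of_eq ?_)
  rw [sum_add_distrib, sum_const, card_range, nsmul_eq_mul, ← sum_div]

/-- The mean number of the moves is not too small. -/
theorem lo_moves {κ K v : ℕ} {η : ℝ} (hη : 0 ≤ η) (hv : (v : ℝ) ≤ (1 / 2 - η) * K) (hK : K ≤ κ) (hK0 : 0 < K)
    (j0 n m H Bd : ℕ) (hBd : 1 ≤ Bd) :
    ∑ h ∈ range H, lb (j0 + n * K) ((n - m) * v) (0, (h : ℤ)) ≤
      H * Er2 j0 n K Bd 0 (Real.exp (-(2 * η ^ 2 * K))) +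
      (∑ h ∈ range H, ∑ j ∈ range (j0 + n * K), (P^[j] (lw (κ + K))) (0, (h : ℤ))) / (K * ((m : ℝ) + 1)) := by
  have hKr : (0 : ℝ) < K := by exact_mod_cast hK0
  have hmr : (0 : ℝ) < (m : ℝ) + 1 := by positivity
  have h1 : ∀ h ∈ range H, lb (j0 + n * K) ((n - m) * v) (0, (h : ℤ)) ≤
      Er2 j0 n K Bd 0 (Real.exp (-(2 * η ^ 2 * K))) +
      (∑ j ∈ range (j0 + n * K), (P^[j] (lw (κ + K))) (0, (h : ℤ))) / (K * ((m : ℝ) + 1)) := by
    intro h _
    have e1 := lb_sub (n * K) ((n - m) * v) j0 0 (0, (h : ℤ))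
    rw [lb_zero, zero_add, zero_add] at e1
    have e2 := P_iter_mono j0 (fun s => lb_count κ K v n m s) (0, (h : ℤ))
    have e3 : (fun s => Bn κ K n (lb K v) s + En κ K n s / ((m : ℝ) + 1)) =
        fun s => Bn κ K n (lb K v) s + (1 / ((m : ℝ) + 1)) * En κ K n s := by funext s; ring
    rw [e3, P_iter_add, P_iter_smul] at e2
    have e4 := cut_err2 (β := lb K v) (κ := κ) (K := K) (τ := Real.exp (-(2 * η ^ 2 * K))) (Real.exp_pos _).le
      (lb_nonneg K v) (lb_le_one K v) (fun i hi => lb_per K v i hi)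
      (by intro i hi
          rw [lb_sum K v i hi]
          exact mul_le_mul_of_nonneg_left (lt_tail hη hv) (by positivity)) hK (0, 0) (0, (h : ℤ)) j0 n Bd hBd
    rw [st_00] at e4
    simp only [Nat.cast_zero] at e4
    have e5 : (P^[j0] (Bn κ K n (lb K v))) (0, (h : ℤ)) =
        (P^[j0] (fun s => ∑ j ∈ range n, (P^[j * K] (cut κ (lb K v))) s)) (0, (h : ℤ)) := rfl
    have e6 : (K : ℝ) * (P^[j0] (En κ K n)) (0, (h : ℤ)) ≤ ∑ j ∈ range (j0 + n * K), (P^[j] (lw (κ + K))) (0, (h : ℤ)) := by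
      have f1 := P_iter_mono j0 (fun s => En_le κ K n s) (0, (h : ℤ))
      rw [P_iter_smul, P_iter_sum] at f1
      have f2 : ∀ j ∈ range (n * K), (P^[j0] (P^[j] (lw (κ + K)))) (0, (h : ℤ)) = (P^[j0 + j] (lw (κ + K))) (0, (h : ℤ)) := by
        intro j _; rw [← Function.iterate_add_apply]
      rw [sum_congr rfl f2] at f1
      rw [sum_range_add]
      have f3 : 0 ≤ ∑ j ∈ range j0, (P^[j] (lw (κ + K))) (0, (h : ℤ)) :=
        sum_nonneg (fun _ _ => P_iter_nonneg (lw_nonneg _) _ _)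
      linarith
    have e7 : 1 / ((m : ℝ) + 1) * (P^[j0] (En κ K n)) (0, (h : ℤ)) ≤
        (∑ j ∈ range (j0 + n * K), (P^[j] (lw (κ + K))) (0, (h : ℤ))) / (K * ((m : ℝ) + 1)) := by
      rw [le_div_iff₀ (by positivity)]
      calc 1 / ((m : ℝ) + 1) * (P^[j0] (En κ K n)) (0, (h : ℤ)) * (K * ((m : ℝ) + 1)) =
          K * (P^[j0] (En κ K n)) (0, (h : ℤ)) := by field_simp
        _ ≤ _ := e6
    have e8 : (P^[j0] (En κ K n)) (0, (h : ℤ)) = (P^[j0] (fun s => En κ K n s)) (0, (h : ℤ)) := rfl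
    have e9 : (P^[j0] (lb (n * K) ((n - m) * v))) (0, (h : ℤ)) =
        (P^[j0] (fun s => lb (n * K) ((n - m) * v) s)) (0, (h : ℤ)) := rfl
    have e10 : (P^[j0] (Bn κ K n (lb K v))) (0, (h : ℤ)) = (P^[j0] (fun s => Bn κ K n (lb K v) s)) (0, (h : ℤ)) := rfl
    linarith
  refine (sum_le_sum h1).trans (le_of_eq ?_)
  rw [sum_add_distrib, sum_const, card_range, nsmul_eq_mul, ← sum_div]

theorem zt_le_one (L : ℕ) (s : ℕ × ℤ) : zt L s ≤ 1 := ind_le_one _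

/-- The total time at low levels. -/
theorem low_total {κ L : ℕ} {ρ : ℝ} (hρ : 0 ≤ ρ) (hw : ∀ i, 1 ≤ i → i ≤ κ → ∀ r : ℤ, lb L 1 (i, r) ≤ ρ)
    {y : ℝ} (hy : 0 < y) (j0 k H : ℕ) {e : ℝ} (he : 0 ≤ e)
    (htrap : ∀ j, j0 ≤ j → j < k → ∑ h ∈ range H, (P^[j] (zt L)) (0, (h : ℤ)) ≤ H * e) :
    ∑ h ∈ range H, ∑ j ∈ range k, (P^[j] (lw κ)) (0, (h : ℤ)) ≤
      H * (k * ρ + (j0 + k * e) + L * (((κ : ℝ) + 1) ^ 2 + (2 * κ + 1) * ((((k + L : ℕ) : ℝ) / y + y) / 2))) := by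
  have h1 : ∀ h ∈ range H, ∑ j ∈ range k, (P^[j] (lw κ)) (0, (h : ℤ)) ≤
      (k * ρ + L * (((κ : ℝ) + 1) ^ 2 + (2 * κ + 1) * ((((k + L : ℕ) : ℝ) / y + y) / 2))) +
        ∑ j ∈ range k, (P^[j] (zt L)) (0, (h : ℤ)) := by
    intro h _
    have := low_time hρ hw hy k (0, (h : ℤ))
    simp only [Nat.cast_zero] at this
    have e1 : ((0 : ℝ) ^ 2 + ((k + L : ℕ) : ℝ)) = ((k + L : ℕ) : ℝ) := by ring
    rw [e1] at this
    linarith
  refine (sum_le_sum h1).trans ?_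
  rw [sum_add_distrib, sum_const, card_range, nsmul_eq_mul, sum_comm]
  have h2 : ∑ j ∈ range k, ∑ h ∈ range H, (P^[j] (zt L)) (0, (h : ℤ)) ≤ H * (j0 + k * e) := by
    have h3 : ∀ j ∈ range k, ∑ h ∈ range H, (P^[j] (zt L)) (0, (h : ℤ)) ≤ H * e + (if j < j0 then (H : ℝ) else 0) := by
      intro j hj
      rw [mem_range] at hj
      split_ifs with hlt
      · have h4 : ∀ h ∈ range H, (P^[j] (zt L)) (0, (h : ℤ)) ≤ 1 := by
          intro h _
          have := P_iter_mono j (F := zt L) (G := fun _ => 1) (zt_le_one L) (0, (h : ℤ))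
          rwa [P_iter_const] at this
        have h5 := sum_le_sum h4
        rw [sum_const, card_range, nsmul_eq_mul, mul_one] at h5
        have : 0 ≤ (H : ℝ) * e := by positivity
        linarith
      · rw [add_zero]
        exact htrap j (by omega) hj
    refine (sum_le_sum h3).trans ?_
    rw [sum_add_distrib, sum_const, card_range, nsmul_eq_mul, ← sum_filter, sum_const, nsmul_eq_mul]
    have h4 : #((range k).filter (fun j => j < j0)) ≤ j0 := by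
      refine (card_le_card (t := range j0) ?_).trans (by rw [card_range])
      intro j hj
      rw [mem_filter] at hj
      rw [mem_range]
      exact hj.2
    have h5 : (#((range k).filter (fun j => j < j0)) : ℝ) ≤ j0 := by exact_mod_cast h4
    have h6 : (#((range k).filter (fun j => j < j0)) : ℝ) * H ≤ j0 * H := mul_le_mul_of_nonneg_right h5 (by positivity)
    linarith
  linarith

/-- The chain at the time when the offset is small. -/
theorem late {k t' Bd : ℕ} (hBd : 1 ≤ Bd) {η : ℝ} (hη : 0 ≤ η) {Y : ℕ} (hY : 1 ≤ Y) {ε : ℝ} (hε : 0 ≤ ε) {Ψ : ℕ → ℝ}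
    (h0 : ∀ i, 0 ≤ Ψ i) (h1 : ∀ i, Ψ i ≤ 1) {h : ℕ}
    (hh : ∀ o : ℕ, (o : ℝ) ≤ (1 / 2 + η) * k → 3 ^ o * (h : ℝ) ≤ 2 ^ k)
    (hlaw : ∀ s : ℕ × ℤ, s.1 ≤ Y → |s.2| ≤ 2 * 3 ^ s.1 * (Bd + 1) → |q step (0, 0) t' s - Ψ s.1| ≤ ε) :
    |q step (0, 0) (k + t') (0, (h : ℤ)) - (P^[k] (fun s => Ψ s.1)) (0, (h : ℤ))| ≤
      ε + k / (2 * Bd) + Real.exp (-(2 * η ^ 2 * k)) + k / (Y : ℝ) ^ 2 := by
  have hB0 : (0 : ℝ) < Bd := by exact_mod_cast hBd
  have hYr : (0 : ℝ) < Y := by exact_mod_cast hY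
  rw [q_add_eq]
  have hEv1 : Ev (fun s => q step (0, 0) t' s) := Ev_q t'
  have hEv2 : Ev (fun s : ℕ × ℤ => Ψ s.1) := fun _ => rfl
  have hEv3 : Ev (f0 0) := fun _ => rfl
  have e0 : ((0 : ℕ), (h : ℤ)) = st (0, 0) (0, (h : ℤ)) := (st_00 _).symm
  rw [e0, ← av_pair hEv1, ← av_pair hEv2]
  set Z : List Bool → ℝ := fun l => ((ε + ind ((Bd : ℝ) < gam l (0, 0))) + ind ((Bd : ℝ) < gam l (0, (h : ℤ)))) +
    (ind ((1 / 2 + η) * k < (dl l (0, (h : ℤ)) : ℝ)) + (1 / (Y : ℝ) ^ 2) * f0 0 (st (fl l (0, 0)) (fl l (0, (h : ℤ))))) with hZ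
  have hpt : ∀ l : List Bool, l.length = k →
      |q step (0, 0) t' (st (fl l (0, 0)) (fl l (0, (h : ℤ)))) - Ψ (st (fl l (0, 0)) (fl l (0, (h : ℤ)))).1| ≤ Z l := by
    intro l hl
    have i1 := ind_nonneg ((Bd : ℝ) < gam l (0, 0))
    have i2 := ind_nonneg ((Bd : ℝ) < gam l (0, (h : ℤ)))
    have i3 := ind_nonneg ((1 / 2 + η) * k < (dl l (0, (h : ℤ)) : ℝ))
    set s := st (fl l (0, 0)) (fl l (0, (h : ℤ))) with hs
    have i4 : 0 ≤ (1 / (Y : ℝ) ^ 2) * f0 0 s := by unfold f0; positivity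
    have hle1 : |q step (0, 0) t' s - Ψ s.1| ≤ 1 := by
      have a1 := q_nonneg step (0, 0) t' s
      have a2 := q_le_one step (0, 0) t' s
      have a3 := h0 s.1
      have a4 := h1 s.1
      rw [abs_le]; constructor <;> linarith
    rw [hZ]
    simp only
    rw [← hs]
    by_cases c1 : (Bd : ℝ) < gam l (0, 0)
    · rw [ind_pos c1]; linarith
    by_cases c2 : (Bd : ℝ) < gam l (0, (h : ℤ))
    · rw [ind_pos c2]; linarith
    by_cases c3 : (1 / 2 + η) * k < (dl l (0, (h : ℤ)) : ℝ)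
    · rw [ind_pos c3]; linarith
    by_cases c4 : s.1 ≤ Y
    · push Not at c1 c2 c3
      have hr : |s.2| ≤ 2 * 3 ^ s.1 * (Bd + 1) := by
        have hA' : (3 : ℝ) ^ dl l (0, 0) * |(((0, 0) : ℕ × ℤ).2 : ℝ)| ≤ 2 ^ l.length := by simp
        have hB' : (3 : ℝ) ^ dl l (0, (h : ℤ)) * |(((0, (h : ℤ)) : ℕ × ℤ).2 : ℝ)| ≤ 2 ^ l.length := by
          simp only
          rw [Int.cast_natCast, abs_of_nonneg (by positivity), hl]
          exact hh _ c3
        have hst : st (fl l (0, 0)) (fl l (0, (h : ℤ))) = (s.1, s.2) := hs.symm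
        rcases st_cases hst with h2 | h2
        · exact r_bound h2.1 h2.2 c1 c2 hA' hB'
        · exact r_bound h2.1 h2.2 c2 c1 hB' hA'
      have := hlaw s c4 hr
      linarith
    · have h2 : 1 ≤ (1 / (Y : ℝ) ^ 2) * f0 0 s := by
        rw [one_div, inv_mul_eq_div, le_div_iff₀ (by positivity), one_mul]
        unfold f0
        rw [zero_sub, neg_sq]
        apply pow_le_pow_left₀ hYr.le
        exact_mod_cast (by omega : Y ≤ s.1)
      linarith
  have h2 : av k (fun l => q step (0, 0) t' (st (fl l (0, 0)) (fl l (0, (h : ℤ))))) ≤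
      av k (fun l => Ψ (st (fl l (0, 0)) (fl l (0, (h : ℤ)))).1 + Z l) := by
    apply av_mono
    intro l hl
    have := (abs_le.1 (hpt l hl)).2
    linarith
  have h3 : av k (fun l => Ψ (st (fl l (0, 0)) (fl l (0, (h : ℤ)))).1) ≤
      av k (fun l => q step (0, 0) t' (st (fl l (0, 0)) (fl l (0, (h : ℤ)))) + Z l) := by
    apply av_mono
    intro l hl
    have := (abs_le.1 (hpt l hl)).1
    linarith
  rw [av_add] at h2 h3
  have h4 : av k Z ≤ ε + k / (2 * Bd) + Real.exp (-(2 * η ^ 2 * k)) + k / (Y : ℝ) ^ 2 := by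
    rw [hZ, av_add, av_add, av_add, av_const, av_add, av_smul, av_pair hEv3]
    have e1 := av_gam_big (0, 0) k hB0
    have e2 := av_gam_big (0, (h : ℤ)) k hB0
    have e3 := dl_upper (0, (h : ℤ)) k hη
    have e4 := P_iter_f0 (i0 := 0) le_rfl k (st (0, 0) (0, (h : ℤ)))
    rw [st_00] at e4 ⊢
    have e5 : f0 0 (0, (h : ℤ)) = 0 := by unfold f0; simp
    rw [e5, zero_add] at e4
    have e6 := mul_le_mul_of_nonneg_left e4 (show 0 ≤ 1 / (Y : ℝ) ^ 2 by positivity)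
    have e7 : (k : ℝ) / (4 * Bd) + k / (4 * Bd) = k / (2 * Bd) := by
      field_simp; ring
    have e8 : 1 / (Y : ℝ) ^ 2 * k = k / (Y : ℝ) ^ 2 := by ring
    rw [e8] at e6
    linarith
  rw [abs_le]
  constructor <;> linarith

/-- The change of the level between two times. -/
theorem lev_time {ψ : ℕ → ℝ} {lam : ℝ} (hlam : 0 ≤ lam) (h : ∀ i j : ℕ, |ψ i - ψ j| ≤ lam * |(i : ℝ) - j|)
    (k m : ℕ) (s : ℕ × ℤ) : |(P^[k + m] (fun x => ψ x.1)) s - (P^[k] (fun x => ψ x.1)) s| ≤ lam * √ m := by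
  rw [Function.iterate_add_apply]
  have h1 : ∀ x : ℕ × ℤ, (P^[m] (fun x => ψ x.1)) x ≤ ψ x.1 + lam * √ m := by
    intro x
    have := (abs_le.1 (lev_lip hlam h m x)).2
    linarith
  have h2 : ∀ x : ℕ × ℤ, ψ x.1 + (-1) * (lam * √ m) ≤ (P^[m] (fun x => ψ x.1)) x := by
    intro x
    have := (abs_le.1 (lev_lip hlam h m x)).1
    linarith
  have h3 := P_iter_mono k h1 s
  have h4 := P_iter_mono k h2 s
  rw [P_iter_add k (fun x => ψ x.1), P_iter_const] at h3 h4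
  rw [abs_le]
  constructor <;> linarith

theorem Ga_Lip {σ : ℝ} (hσ : 0 < σ) (i j : ℕ) : |Ga ((i : ℝ) / σ) - Ga ((j : ℝ) / σ)| ≤ 2 / σ * |(i : ℝ) - j| := by
  have key : ∀ a b : ℕ, a ≤ b → |Ga ((a : ℝ) / σ) - Ga ((b : ℝ) / σ)| ≤ 2 / σ * |(a : ℝ) - b| := by
    intro a b hab
    have h1 : (a : ℝ) ≤ b := by exact_mod_cast hab
    have h2 : (a : ℝ) / σ ≤ b / σ := div_le_div_of_nonneg_right h1 hσ.le
    have h3 := Ga_lip h2
    have h4 := Ga_mono h2
    rw [abs_of_nonpos (by linarith), abs_of_nonpos (by linarith)]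
    have e : 2 / σ * -((a : ℝ) - b) = 2 * (b / σ - a / σ) := by ring
    rw [e]
    linarith
  rcases le_total i j with h | h
  · exact key i j h
  · rw [abs_sub_comm, abs_sub_comm (i : ℝ)]
    exact key j i h

end Pool.Agent.K7.H66.CW
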