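import Pool.Agent.K7.H66.CW.N8

/-!
The arcsine law, part 9: the constants and the time at low levels.
-/

set_option autoImplicit false

namespace Pool.Agent.K7.H66.CW

open Finset Filter Topology Pool.Agent.H499R2.CO Pool.Agent.W38.CR

/-- The speed at which the logarithm of an offset decreases. -/
noncomputable def c0 : ℝ := Real.log (4 / 3) / 2

theorem c0_eq : c0 = Real.log 2 - Real.log 3 / 2 := by
  unfold c0
  rw [Real.log_div (by norm_num) (by norm_num), show (4 : ℝ) = 2 ^ 2 by norm_num, Real.log_pow]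
  push_cast
  ring

theorem c0_ge : 1 / 8 ≤ c0 := by
  have h := Real.one_sub_inv_le_log_of_pos (show (0 : ℝ) < 4 / 3 by norm_num)
  unfold c0
  norm_num at h
  linarith

theorem c0_pos : 0 < c0 := by have := c0_ge; linarith

theorem c0_le : c0 ≤ 1 / 2 := by
  have h := Real.log_le_sub_one_of_pos (show (0 : ℝ) < 4 / 3 by norm_num)
  unfold c0
  linarith

theorem log3_le : Real.log 3 ≤ 1.1 := by
  rw [Real.log_le_iff_le_exp (by norm_num)]
  have h1 := Real.exp_one_gt_d9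
  have h2 := Real.add_one_le_exp (0.1 : ℝ)
  have h3 : Real.exp 1.1 = Real.exp 1 * Real.exp 0.1 := by rw [← Real.exp_add]; norm_num
  have h4 := Real.quadratic_le_exp_of_nonneg (show (0 : ℝ) ≤ 0.1 by norm_num)
  rw [h3]
  nlinarith

theorem log3_nonneg : 0 ≤ Real.log 3 := Real.log_nonneg (by norm_num)

theorem pow_log (a : ℝ) (ha : 0 < a) (n : ℕ) : a ^ n = Real.exp (n * Real.log a) := by
  rw [Real.exp_nat_mul, Real.exp_log ha]

/-- At the time `(1 + 16 η) T` the shifts below `exp (c0 T)` are forgotten. -/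
theorem hh_ok {η T0 : ℝ} (hη : 0 < η) (hη1 : η ≤ 1 / 64) (hT : 0 ≤ T0) {k h : ℕ}
    (hh : (h : ℝ) ≤ Real.exp (c0 * T0)) (hk : (1 + 16 * η) * T0 ≤ k) (o : ℕ) (ho : (o : ℝ) ≤ (1 / 2 + η) * k) :
    3 ^ o * (h : ℝ) ≤ 2 ^ k := by
  rw [pow_log 3 (by norm_num), pow_log 2 (by norm_num)]
  refine (mul_le_mul_of_nonneg_left hh (Real.exp_pos _).le).trans ?_
  rw [← Real.exp_add]
  apply Real.exp_le_exp.2
  have h1 := c0_eq
  have h2 := c0_ge
  have h3 := log3_le
  have h4 := log3_nonneg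
  have hkr : (0 : ℝ) ≤ k := by positivity
  have e1 : (o : ℝ) * Real.log 3 ≤ (1 / 2 + η) * k * Real.log 3 := mul_le_mul_of_nonneg_right ho h4
  have e2 : η * Real.log 3 ≤ η * 1.1 := mul_le_mul_of_nonneg_left h3 hη.le
  have e3 : 0 ≤ c0 - η * Real.log 3 := by linarith
  have e4 : (1 + 16 * η) * T0 * (c0 - η * Real.log 3) ≤ k * (c0 - η * Real.log 3) :=
    mul_le_mul_of_nonneg_right hk e3
  have e5 : c0 ≤ (1 + 16 * η) * (c0 - η * Real.log 3) := by
    have e6 : (1 + 16 * η) * (c0 - η * 1.1) ≤ (1 + 16 * η) * (c0 - η * Real.log 3) :=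
      mul_le_mul_of_nonneg_left (by linarith) (by positivity)
    have e7 : 16 * η * (1 / 8) ≤ 16 * η * c0 := mul_le_mul_of_nonneg_left h2 (by positivity)
    have e8 : η * η ≤ η * (1 / 64) := mul_le_mul_of_nonneg_left hη1 hη.le
    have e9 : (1 + 16 * η) * (c0 - η * 1.1) = c0 + 16 * η * c0 - 1.1 * η - 17.6 * (η * η) := by ring
    linarith
  have e10 : T0 * c0 ≤ T0 * ((1 + 16 * η) * (c0 - η * Real.log 3)) := mul_le_mul_of_nonneg_left e5 hT
  have e11 : (1 / 2 + η) * k * Real.log 3 = k * Real.log 2 - k * (c0 - η * Real.log 3) := by rw [h1]; ring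
  have e12 : T0 * ((1 + 16 * η) * (c0 - η * Real.log 3)) = (1 + 16 * η) * T0 * (c0 - η * Real.log 3) := by ring
  linarith

/-- Before the time `(1 - 16 η) T` the shifts below `exp (c0 T)` are not forgotten. -/
theorem a1_ok {η T0 : ℝ} (hη : 0 < η) (hT : 0 ≤ T0) {j : ℕ}
    (hj : (j : ℝ) ≤ (1 - 16 * η) * T0) (o : ℕ) (ho : (1 / 2 - η) * j ≤ o) :
    Real.exp (-(c0 * T0) + η * T0 / 2) ≤ 3 ^ o / 2 ^ j := by
  rw [pow_log 3 (by norm_num), pow_log 2 (by norm_num), ← Real.exp_sub]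
  apply Real.exp_le_exp.2
  have h1 := c0_eq
  have h2 := c0_ge
  have h3 := log3_le
  have h4 := log3_nonneg
  have e1 : (1 / 2 - η) * j * Real.log 3 ≤ o * Real.log 3 := mul_le_mul_of_nonneg_right ho h4
  have e2 : η * Real.log 3 ≤ η * 1.1 := mul_le_mul_of_nonneg_left h3 hη.le
  have hjr : (0 : ℝ) ≤ j := by positivity
  have e3 : (1 / 2 - η) * j * Real.log 3 = j * Real.log 2 - j * (c0 + η * Real.log 3) := by rw [h1]; ring
  have e4 : j * (c0 + η * Real.log 3) ≤ j * (c0 + η * 1.1) := mul_le_mul_of_nonneg_left (by linarith) hjr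
  have e5 : j * (c0 + η * 1.1) ≤ (1 - 16 * η) * T0 * (c0 + η * 1.1) := by
    apply mul_le_mul_of_nonneg_right hj
    have := mul_pos hη (show (0 : ℝ) < 1.1 by norm_num)
    linarith
  have e6 : (1 - 16 * η) * T0 * (c0 + η * 1.1) = T0 * c0 + T0 * η * 1.1 - 16 * (T0 * η * c0) - 17.6 * (T0 * η * η) := by ring
  have e7 : 0 ≤ T0 * η := by positivity
  have e8 : T0 * η * (1 / 8) ≤ T0 * η * c0 := mul_le_mul_of_nonneg_left h2 e7
  have e9 : 0 ≤ T0 * η * η := by positivity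
  linarith

/-- A bound for powers of the block length. -/
theorem KK_pow {η : ℝ} (hη : 0 < η) {c : ℝ} (hc : 0 < c) (n : ℕ) :
    ∀ᶠ t : ℕ in atTop, (KK η t : ℝ) ^ n ≤ c * t := by
  set C : ℝ := 5 / η ^ 2 + 2 with hC
  have hC0 : 0 < C := by positivity
  have h1 := (Real.isLittleO_pow_log_id_atTop (n := n)).def (show 0 < c / C ^ n by positivity)
  have h2 := tendsto_natCast_atTop_atTop (R := ℝ) |>.eventually h1
  have h3 : ∀ᶠ t : ℕ in atTop, 3 ≤ t := eventually_ge_atTop 3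
  filter_upwards [h2, h3] with t h4 h5
  have ht : (3 : ℝ) ≤ t := by exact_mod_cast h5
  have hlog : 1 ≤ Real.log t := by
    rw [Real.le_log_iff_exp_le (by linarith)]
    have := Real.exp_one_lt_d9
    linarith
  rw [Real.norm_eq_abs, Real.norm_eq_abs, abs_of_nonneg (by positivity), id, abs_of_nonneg (by linarith)] at h4
  have h7 : (KK η t : ℝ) ≤ 5 * Real.log t / η ^ 2 + 2 := by
    unfold KK
    push_cast
    have := Nat.ceil_lt_add_one (show 0 ≤ 5 * Real.log t / η ^ 2 by positivity)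
    linarith
  have h8 : (KK η t : ℝ) ≤ C * Real.log t := by
    rw [hC]
    have : (5 / η ^ 2 + 2) * Real.log t = 5 * Real.log t / η ^ 2 + 2 * Real.log t := by ring
    linarith
  calc (KK η t : ℝ) ^ n ≤ (C * Real.log t) ^ n := pow_le_pow_left₀ (by positivity) h8 n
    _ = C ^ n * Real.log t ^ n := by ring
    _ ≤ C ^ n * (c / C ^ n * t) := mul_le_mul_of_nonneg_left h4 (by positivity)
    _ = c * t := by field_simp

theorem KK_sqrt {η : ℝ} (hη : 0 < η) {c : ℝ} (hc : 0 < c) (n : ℕ) :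
    ∀ᶠ t : ℕ in atTop, (KK η t : ℝ) ^ n ≤ c * √ t := by
  filter_upwards [KK_pow hη (c := c ^ 2) (by positivity) (n * 2)] with t h1
  have h3 : c ^ 2 * t = (c * √ (t : ℝ)) ^ 2 := by
    rw [mul_pow, Real.sq_sqrt (by positivity)]
  rw [h3, pow_mul] at h1
  exact le_of_pow_le_pow_left₀ (by norm_num) (by positivity) h1

/-- The traps are rare. -/
theorem trap_avg {η : ℝ} (hη : 0 < η) (hη1 : η ≤ 1 / 64) {θ1 : ℝ} (hθ1 : 0 < θ1) : ∃ t0 : ℕ, ∀ t ≥ t0,
    ∀ (H L j : ℕ) (T0 : ℝ), (H : ℝ) = Real.exp (c0 * T0) → θ1 * t ≤ T0 → (t : ℝ) ^ 5 ≤ 2 ^ L →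
    η * t - 1 ≤ j → (j : ℝ) ≤ (1 - 16 * η) * T0 → j ≤ t →
    ∑ h ∈ range H, (P^[j] (zt L)) (0, (h : ℤ)) ≤ H * η := by
  have l1 := inv_lim 1
  have l2 := inv_lim 12
  have l3 : Tendsto (fun t : ℕ => 4 * ((t : ℝ) * Real.exp (-(2 * η ^ 3 * t)))) atTop (𝓝 (4 * 0)) :=
    (t_exp_lim (show 0 < 2 * η ^ 3 by positivity)).const_mul 4
  have l4 : Tendsto (fun t : ℕ => (t : ℝ) ^ 4 * Real.exp (-(η * θ1 / 2 * t))) atTop (𝓝 0) := by
    have h1 := Real.tendsto_pow_mul_exp_neg_atTop_nhds_zero 4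
    have h2 : Tendsto (fun t : ℕ => (η * θ1 / 2) * (t : ℝ)) atTop atTop :=
      tendsto_natCast_atTop_atTop.const_mul_atTop (by positivity)
    have h3 := (h1.comp h2).const_mul ((η * θ1 / 2) ^ 4)⁻¹
    rw [mul_zero] at h3
    refine h3.congr (fun t => ?_)
    simp only [Function.comp]
    field_simp
  rw [mul_zero] at l3
  have l4' : Tendsto (fun t : ℕ => 12 * ((t : ℝ) ^ 4 * Real.exp (-(η * θ1 / 2 * t)))) atTop (𝓝 (12 * 0)) :=
    l4.const_mul 12
  rw [mul_zero] at l4'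
  have hη4 : 0 < η / 4 := by positivity
  have hev := (l1.eventually (eventually_le_nhds hη4)).and
    ((l2.eventually (eventually_le_nhds hη4)).and
    ((l3.eventually (eventually_le_nhds hη4)).and
    ((l4'.eventually (eventually_le_nhds hη4)).and (eventually_ge_atTop 2))))
  obtain ⟨t0, ht0⟩ := eventually_atTop.1 hev
  refine ⟨t0, fun t ht H L j T0 hH hT hL hj1 hj2 hjt => ?_⟩
  obtain ⟨g1, g2, g3, g4, g5⟩ := ht0 t ht
  have htr : (2 : ℝ) ≤ t := by exact_mod_cast g5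
  have ht0' : (0 : ℝ) < t := by linarith
  have hjr : (j : ℝ) ≤ t := by exact_mod_cast hjt
  have hT0 : 0 ≤ T0 := le_trans (by positivity) hT
  have hH0 : (0 : ℝ) < H := by rw [hH]; exact Real.exp_pos _
  have hBd : t ^ 3 < 2 ^ L := by
    have h1 : ((t ^ 3 : ℕ) : ℝ) < 2 ^ L := by
      refine lt_of_lt_of_le ?_ hL
      push_cast
      exact pow_lt_pow_right₀ (by linarith) (by norm_num)
    exact_mod_cast h1
  have h1 := trap_sum (k := j) (H := H) hBd (Nat.one_le_pow _ _ (by omega)) hη.le (by linarith)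
    (Real.exp_pos (-(c0 * T0) + η * T0 / 2)) (a1_ok hη hT0 hj2)
  refine h1.trans ?_
  push_cast
  have e1 : (j : ℝ) / (2 * (t : ℝ) ^ 3) ≤ η / 4 := by
    refine le_trans ?_ g1
    rw [div_le_div_iff₀ (by positivity) ht0']
    have : (j : ℝ) * t ≤ t * t := mul_le_mul_of_nonneg_right hjr ht0'.le
    have h2 : (t : ℝ) * t ≤ 2 * t ^ 3 := by
      have : (t : ℝ) * t * 1 ≤ t * t * (2 * t) := mul_le_mul_of_nonneg_left (by linarith) (by positivity)
      calc (t : ℝ) * t = t * t * 1 := by ring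
        _ ≤ _ := this
        _ = _ := by ring
    linarith
  have e2 : 2 * Real.exp (-(2 * η ^ 2 * j)) ≤ η / 4 := by
    refine le_trans ?_ g3
    have h2 : Real.exp (-(2 * η ^ 2 * j)) ≤ Real.exp (1 / 2) * Real.exp (-(2 * η ^ 3 * t)) := by
      rw [← Real.exp_add]
      apply Real.exp_le_exp.2
      have h3 : 2 * η ^ 2 * (η * t - 1) ≤ 2 * η ^ 2 * j := mul_le_mul_of_nonneg_left hj1 (by positivity)
      have h4 : η ^ 2 ≤ 1 / 4 := by nlinarith
      have h5 : 2 * η ^ 2 * (η * t - 1) = 2 * η ^ 3 * t - 2 * η ^ 2 := by ring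
      linarith
    have h3 : Real.exp (1 / 2) ≤ 2 * t := by have := exp_half.2; linarith
    have h4 := mul_le_mul_of_nonneg_right h3 (Real.exp_pos (-(2 * η ^ 3 * t))).le
    linarith
  have e3 : ((j : ℝ) + 1) * (3 * t ^ 3 * H / 2 ^ L) ≤ H * (η / 4) := by
    have h2 : 3 * (t : ℝ) ^ 3 * H / 2 ^ L ≤ 3 * (t : ℝ) ^ 3 * H / t ^ 5 :=
      div_le_div_of_nonneg_left (by positivity) (by positivity) hL
    calc ((j : ℝ) + 1) * (3 * t ^ 3 * H / 2 ^ L) ≤ (2 * t) * (3 * (t : ℝ) ^ 3 * H / t ^ 5) := by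
          apply mul_le_mul (by linarith) h2 (by positivity) (by positivity)
      _ = (H : ℝ) * (6 / t) := by field_simp; norm_num
      _ ≤ H * (η / 4) := by
          apply mul_le_mul_of_nonneg_left _ hH0.le
          have : 6 / (t : ℝ) ≤ 12 / t := div_le_div_of_nonneg_right (by norm_num) ht0'.le
          linarith
  have e4 : ((j : ℝ) + 1) * (6 * t ^ 3 / Real.exp (-(c0 * T0) + η * T0 / 2)) ≤ H * (η / 4) := by
    have h2 : 1 / Real.exp (-(c0 * T0) + η * T0 / 2) = H * Real.exp (-(η * T0 / 2)) := by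
      rw [hH, one_div, ← Real.exp_neg, ← Real.exp_add]; congr 1; ring
    have h3 : Real.exp (-(η * T0 / 2)) ≤ Real.exp (-(η * θ1 / 2 * t)) := by
      apply Real.exp_le_exp.2
      have := mul_le_mul_of_nonneg_left hT hη.le
      linarith
    calc ((j : ℝ) + 1) * (6 * t ^ 3 / Real.exp (-(c0 * T0) + η * T0 / 2)) =
        ((j : ℝ) + 1) * (6 * t ^ 3) * (1 / Real.exp (-(c0 * T0) + η * T0 / 2)) := by ring
      _ = ((j : ℝ) + 1) * (6 * t ^ 3) * (H * Real.exp (-(η * T0 / 2))) := by rw [h2]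
      _ ≤ (2 * t) * (6 * t ^ 3) * (H * Real.exp (-(η * θ1 / 2 * t))) := by
          apply mul_le_mul _ _ (by positivity) (by positivity)
          · exact mul_le_mul_of_nonneg_right (by linarith) (by positivity)
          · exact mul_le_mul_of_nonneg_left h3 hH0.le
      _ = H * (12 * ((t : ℝ) ^ 4 * Real.exp (-(η * θ1 / 2 * t)))) := by ring
      _ ≤ _ := mul_le_mul_of_nonneg_left g4 hH0.le
  have e5 := mul_le_mul_of_nonneg_left (add_le_add e1 e2) hH0.le
  rw [mul_add ((j : ℝ) + 1)]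
  have e6 : (H : ℝ) * η = H * (η / 4 + η / 4) + (H * (η / 4) + H * (η / 4)) := by ring
  rw [e6]
  linarith

end Pool.Agent.K7.H66.CW
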