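import Pool.Agent.K7.H66.CW.N9

/-!
The arcsine law, part 10: the number of the moves.
-/

set_option autoImplicit false

namespace Pool.Agent.K7.H66.CW

open Finset Filter Topology Pool.Agent.H499R2.CO Pool.Agent.W38.CR

/-- The length of the waiting times. -/
def LL (K : ℕ) : ℕ := (2 ^ (Nat.log 2 (2 * K) + 2) * K) * (Nat.log 2 (2 * K) + 2 + 1)

theorem LL_wait (K : ℕ) (i : ℕ) (hi : 1 ≤ i) (hiK : i ≤ 2 * K) (r : ℤ) : lb (LL K) 1 (i, r) ≤ Real.exp (-K) := by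
  set e := Nat.log 2 (2 * K) + 2 with he
  have h1 : ¬ (2 : ℤ) ^ (e + 1) ∣ 3 ^ i - 1 := by
    intro h
    apply ndvd_pow hi
    refine dvd_trans (pow_dvd_pow 2 ?_) h
    have := Nat.log_mono_right (b := 2) hiK
    omega
  have h2 := fun r => lb1_level (e := e) (by omega) h1 r
  have h3 : (0 : ℝ) ≤ 1 - 1 / 2 ^ e := by
    have : (1 : ℝ) / 2 ^ e ≤ 1 := by
      rw [div_le_one (by positivity)]
      exact one_le_pow₀ (by norm_num)
    linarith
  have h4 := lb1_pow h2 h3 (2 ^ e * K) r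
  have h5 : LL K = 2 ^ e * K * (e + 1) := rfl
  rw [h5]
  refine h4.trans ?_
  have h6 : (1 : ℝ) - 1 / 2 ^ e ≤ Real.exp (-(1 / 2 ^ e)) := by
    have := Real.add_one_le_exp (-(1 / (2 : ℝ) ^ e)); linarith
  refine (pow_le_pow_left₀ h3 h6 _).trans (le_of_eq ?_)
  rw [← Real.exp_nat_mul]
  congr 1
  push_cast
  field_simp

theorem LL_le {K : ℕ} (hK : 1 ≤ K) : LL K ≤ 40 * K ^ 3 := by
  have h1 : Nat.log 2 (2 * K) ≤ 2 * K := Nat.log_le_self _ _
  have h2 : 2 ^ Nat.log 2 (2 * K) ≤ 2 * K := Nat.pow_log_le_self 2 (by omega)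
  have h3 : 2 ^ (Nat.log 2 (2 * K) + 2) ≤ 8 * K := by rw [pow_add]; omega
  unfold LL
  calc (2 ^ (Nat.log 2 (2 * K) + 2) * K) * (Nat.log 2 (2 * K) + 2 + 1) ≤ (8 * K * K) * (2 * K + 3) := by
        apply Nat.mul_le_mul _ (by omega)
        exact Nat.mul_le_mul_right K h3
    _ ≤ (8 * K * K) * (5 * K) := Nat.mul_le_mul_left _ (by omega)
    _ = 40 * K ^ 3 := by ring

theorem LL_ge (K : ℕ) : 8 * K ≤ LL K := by
  unfold LL
  have h1 : 4 ≤ 2 ^ (Nat.log 2 (2 * K) + 2) := by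
    rw [pow_add]
    have := Nat.one_le_two_pow (n := Nat.log 2 (2 * K))
    omega
  calc 8 * K ≤ (4 * K) * 3 := by omega
    _ ≤ (2 ^ (Nat.log 2 (2 * K) + 2) * K) * (Nat.log 2 (2 * K) + 2 + 1) := by
      apply Nat.mul_le_mul _ (by omega)
      exact Nat.mul_le_mul_right K h1

theorem LL_pow {t K : ℕ} (ht : 1 ≤ t) (hK : Real.log t ≤ K) : (t : ℝ) ^ 5 ≤ 2 ^ LL K := by
  have htr : (0 : ℝ) < t := by exact_mod_cast ht
  rw [pow_log _ htr, pow_log 2 (by norm_num)]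
  apply Real.exp_le_exp.2
  have h1 := LL_ge K
  have h2 : (8 : ℝ) * K ≤ LL K := by exact_mod_cast h1
  have h3 := Real.log_two_gt_d9
  have h4 : (LL K : ℝ) * 0.6931471803 ≤ LL K * Real.log 2 := mul_le_mul_of_nonneg_left h3.le (by positivity)
  push_cast
  have h5 : (0 : ℝ) ≤ K := by positivity
  linarith

/-- The mean time at low levels. -/
theorem low_avg {η : ℝ} (hη : 0 < η) (hη1 : η ≤ 1 / 64) {θ1 : ℝ} (hθ1 : 0 < θ1) : ∃ t0 : ℕ, ∀ t ≥ t0,
    ∀ (H k : ℕ) (T0 : ℝ), (H : ℝ) = Real.exp (c0 * T0) → θ1 * t ≤ T0 → (k : ℝ) ≤ (1 - 16 * η) * T0 → k ≤ t →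
    ∑ h ∈ range H, ∑ j ∈ range k, (P^[j] (lw (KK (η / 2) t + KK (η / 2) t))) (0, (h : ℤ)) ≤ H * (4 * η * t) := by
  obtain ⟨t1, ht1⟩ := trap_avg hη hη1 hθ1
  have hη2 : 0 < η / 2 := by positivity
  have hev := (KK_sqrt hη2 (show 0 < η / 2000 by positivity) 5).and ((KK_big hη2 1).and
    ((eventually_ge_atTop t1).and ((eventually_ge_atTop 3).and
    ((tendsto_natCast_atTop_atTop (R := ℝ)).eventually_ge_atTop (2 / η)))))
  obtain ⟨t0, ht0⟩ := eventually_atTop.1 hev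
  refine ⟨t0, fun t ht H k T0 hH hT hk hkt => ?_⟩
  obtain ⟨g1, g2, g3, g4, g5⟩ := ht0 t ht
  set K := KK (η / 2) t with hK
  have htr : (3 : ℝ) ≤ t := by exact_mod_cast g4
  have ht0' : (0 : ℝ) < t := by linarith
  have hR0 : 0 < √ (t : ℝ) := Real.sqrt_pos.2 ht0'
  have hRt : √ (t : ℝ) * √ t = t := Real.mul_self_sqrt ht0'.le
  have hR1 : 1 ≤ √ (t : ℝ) := by rw [Real.one_le_sqrt]; linarith
  have hRt' : √ (t : ℝ) ≤ t := by
    have := mul_le_mul_of_nonneg_right hR1 hR0.le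
    linarith
  have hlog : Real.log t ≤ K := by
    have h1 := KK_ge hη2 t
    rw [← hK] at h1
    have h2 : (η / 2) ^ 2 * K ≤ 1 * K := by
      apply mul_le_mul_of_nonneg_right _ (by positivity)
      nlinarith
    have h3 : 0 ≤ Real.log t := Real.log_nonneg (by linarith)
    linarith
  have hK1 : 1 ≤ K := by exact_mod_cast g2
  have hKr : (1 : ℝ) ≤ K := g2
  have hηt : 2 ≤ η * t := by rw [div_le_iff₀ hη] at g5; linarith
  have hkr : (k : ℝ) ≤ t := by exact_mod_cast hkt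
  have hL := LL_pow (t := t) (K := K) (by omega) hlog
  have hLle : (LL K : ℝ) ≤ 40 * K ^ 3 := by exact_mod_cast LL_le hK1
  have h1 := low_total (κ := K + K) (L := LL K) (ρ := Real.exp (-K)) (Real.exp_pos _).le
    (fun i hi hiK r => LL_wait K i hi (by omega) r) hR0 ⌊η * t⌋₊ k H hη.le
    (fun j hj1 hj2 => ht1 t g3 H (LL K) j T0 hH hT hL
      (by
        have a1 := Nat.lt_floor_add_one (η * (t : ℝ))
        have a2 : ((⌊η * (t : ℝ)⌋₊ : ℕ) : ℝ) ≤ j := by exact_mod_cast hj1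
        linarith)
      (by
        have a2 : (j : ℝ) ≤ k := by exact_mod_cast hj2.le
        linarith) (by omega))
  refine h1.trans ?_
  apply mul_le_mul_of_nonneg_left _ (by positivity)
  have e1 : (k : ℝ) * Real.exp (-K) ≤ 1 := by
    have a1 : Real.exp (-(K : ℝ)) ≤ Real.exp (-Real.log t) := Real.exp_le_exp.2 (by linarith)
    rw [Real.exp_neg (Real.log t), Real.exp_log ht0'] at a1
    calc (k : ℝ) * Real.exp (-K) ≤ t * (t : ℝ)⁻¹ := mul_le_mul hkr a1 (Real.exp_pos _).le ht0'.le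
      _ = 1 := by field_simp
  have e2 : ((⌊η * (t : ℝ)⌋₊ : ℕ) : ℝ) ≤ η * t := Nat.floor_le (by positivity)
  have e3 : (k : ℝ) * η ≤ t * η := mul_le_mul_of_nonneg_right hkr hη.le
  have hK5 : ∀ n : ℕ, n ≤ 5 → (K : ℝ) ^ n ≤ K ^ 5 := fun n hn => pow_le_pow_right₀ hKr hn
  have e4 : ((((k + LL K : ℕ) : ℝ)) / √ t + √ t) / 2 ≤ 2 * √ t := by
    have a1 : (LL K : ℝ) ≤ t := by
      have := hK5 3 (by norm_num)
      have h3 : η / 2000 * √ (t : ℝ) ≤ 1 / 40 * √ t := mul_le_mul_of_nonneg_right (by linarith) hR0.le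
      linarith
    have a2 : (((k + LL K : ℕ) : ℝ)) / √ t ≤ 2 * √ t := by
      rw [div_le_iff₀ hR0]
      push_cast
      have : 2 * √ (t : ℝ) * √ t = 2 * t := by rw [mul_assoc, hRt]
      linarith
    linarith
  have e5 : (LL K : ℝ) * ((((K + K : ℕ) : ℝ) + 1) ^ 2 + (2 * ((K + K : ℕ) : ℝ) + 1) *
      (((((k + LL K : ℕ) : ℝ)) / √ t + √ t) / 2)) ≤ η * t := by
    have a0 : (LL K : ℝ) * ((((K + K : ℕ) : ℝ) + 1) ^ 2 + (2 * ((K + K : ℕ) : ℝ) + 1) *
      (((((k + LL K : ℕ) : ℝ)) / √ t + √ t) / 2)) ≤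
      (40 * K ^ 3) * ((3 * K) ^ 2 + (5 * K) * (2 * √ t)) := by
      apply mul_le_mul hLle _ (by positivity) (by positivity)
      push_cast
      apply add_le_add
      · apply pow_le_pow_left₀ (by positivity); linarith
      · apply mul_le_mul (by linarith) _ (by positivity) (by positivity)
        have := e4; push_cast at this; exact this
    refine a0.trans ?_
    calc (40 * (K : ℝ) ^ 3) * ((3 * K) ^ 2 + (5 * K) * (2 * √ t)) = 360 * K ^ 5 + 400 * K ^ 4 * √ t := by ring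
      _ ≤ 360 * K ^ 5 * √ t + 400 * K ^ 5 * √ t := by
          apply add_le_add
          · have : 360 * (K : ℝ) ^ 5 * 1 ≤ 360 * K ^ 5 * √ t := mul_le_mul_of_nonneg_left hR1 (by positivity)
            linarith
          · apply mul_le_mul_of_nonneg_right _ hR0.le
            have := hK5 4 (by norm_num)
            linarith
      _ = 760 * (K ^ 5 * √ t) := by ring
      _ ≤ 760 * (η / 2000 * √ t * √ t) := by
          apply mul_le_mul_of_nonneg_left _ (by norm_num)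
          exact mul_le_mul_of_nonneg_right g1 hR0.le
      _ = 760 / 2000 * (η * t) := by rw [mul_assoc (η / 2000), hRt]; ring
      _ ≤ η * t := by
          have : 0 ≤ η * t := by positivity
          linarith
  linarith

/-- The error is small. -/
theorem Er2_small {η : ℝ} (hη : 0 < η) {ε : ℝ} (hε : 0 < ε) : ∃ t0 : ℕ, ∀ t ≥ t0,
    ∀ (n K j0 : ℕ), n ≤ t → j0 + n * K ≤ t → η * t - 1 ≤ j0 → 20 * Real.log t ≤ η ^ 2 * K →
    Er2 j0 n K (t ^ 3) 0 (Real.exp (-(2 * η ^ 2 * K))) ≤ ε := by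
  have l1 : Tendsto (fun t : ℕ => 193 / (t : ℝ) + 4 * ((t : ℝ) * Real.exp (-(0.05 * η * t)))) atTop (𝓝 (0 + 4 * 0)) :=
    (inv_lim 193).add ((t_exp_lim (show 0 < 0.05 * η by positivity)).const_mul 4)
  rw [mul_zero, add_zero] at l1
  have hev := (l1.eventually (eventually_le_nhds hε)).and (eventually_ge_atTop 1)
  obtain ⟨t0, ht0⟩ := eventually_atTop.1 hev
  refine ⟨t0, fun t ht n K j0 hn hnK hj hK => ?_⟩
  obtain ⟨g1, g2⟩ := ht0 t ht
  refine le_trans ?_ g1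
  have htr : (1 : ℝ) ≤ t := by exact_mod_cast g2
  have ht0' : (0 : ℝ) < t := by linarith
  have hnr : (n : ℝ) ≤ t := by exact_mod_cast hn
  have hjn : ((j0 + n * K : ℕ) : ℝ) ≤ t := by exact_mod_cast hnK
  have hτ : Real.exp (-(2 * η ^ 2 * K)) ≤ 1 / (t : ℝ) ^ 40 := by
    rw [pow_log _ ht0', one_div, ← Real.exp_neg]
    apply Real.exp_le_exp.2
    push_cast
    linarith
  have h95 : (0.95 : ℝ) ^ j0 ≤ 2 * Real.exp (-(0.05 * η * t)) := by
    refine (pow_exp (by norm_num) exp_95 j0).trans ?_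
    have h1 : Real.exp (-(0.05 * (j0 : ℝ))) ≤ Real.exp (1 / 2) * Real.exp (-(0.05 * η * t)) := by
      rw [← Real.exp_add]; apply Real.exp_le_exp.2; linarith
    have h2 : Real.exp (1 / 2) ≤ 2 := by have := exp_half.2; linarith
    exact h1.trans (mul_le_mul_of_nonneg_right h2 (Real.exp_pos _).le)
  unfold Er2
  rw [Real.exp_zero]
  push_cast at hjn ⊢
  have e1 : ((j0 : ℝ) + n * K) / (2 * (t : ℝ) ^ 3) ≤ t / (2 * (t : ℝ) ^ 3) :=
    div_le_div_of_nonneg_right hjn (by positivity)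
  have e3 : 192 * ((j0 : ℝ) + n * K) ^ 3 * ((t : ℝ) ^ 3) ^ 2 * Real.exp (-(2 * η ^ 2 * K)) ≤
      192 * (t : ℝ) ^ 3 * ((t : ℝ) ^ 3) ^ 2 * (1 / t ^ 40) := by
    gcongr
  have e4 : 192 * (t : ℝ) ^ 3 * ((t : ℝ) ^ 3) ^ 2 * (1 / t ^ 40) ≤ 192 / t ^ 2 := by
    have a1 : 192 * (t : ℝ) ^ 3 * ((t : ℝ) ^ 3) ^ 2 * (1 / t ^ 40) = 192 / t ^ 31 := by
      field_simp
    rw [a1]
    exact div_le_div_of_nonneg_left (by norm_num) (by positivity) (pow_le_pow_right₀ htr (by norm_num))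
  calc (n : ℝ) * (((j0 : ℝ) + n * K) / (2 * (t : ℝ) ^ 3) + 2 * 1 * 0.95 ^ j0 +
      192 * ((j0 : ℝ) + n * K) ^ 3 * ((t : ℝ) ^ 3) ^ 2 * Real.exp (-(2 * η ^ 2 * K))) ≤
      t * (t / (2 * (t : ℝ) ^ 3) + 2 * 1 * (2 * Real.exp (-(0.05 * η * t))) + 192 / t ^ 2) := by
        apply mul_le_mul hnr _ (by positivity) ht0'.le
        have := mul_le_mul_of_nonneg_left h95 (show (0 : ℝ) ≤ 2 * 1 by norm_num)
        linarith
    _ = (385 / 2) / t + 4 * ((t : ℝ) * Real.exp (-(0.05 * η * t))) := by field_simp; ring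
    _ ≤ _ := by
        have : (385 / 2 : ℝ) / t ≤ 193 / t := div_le_div_of_nonneg_right (by norm_num) ht0'.le
        linarith

end Pool.Agent.K7.H66.CW
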