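import Pool.Agent.K7.H66.CW.NA

/-!
The arcsine law, part 11: the main range.
-/

set_option autoImplicit false

namespace Pool.Agent.K7.H66.CW

open Finset Filter Topology Pool.Agent.H499R2.CO Pool.Agent.W38.CR

/-- The arcsine law. -/
noncomputable def As (x : ℝ) : ℝ := 2 / Real.pi * Real.arcsin (√ x)

theorem As_cont : Continuous As := by
  unfold As
  exact continuous_const.mul (Real.continuous_arcsin.comp Real.continuous_sqrt)

theorem As_of_nonpos {x : ℝ} (hx : x ≤ 0) : As x = 0 := by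
  unfold As
  rw [Real.sqrt_eq_zero_of_nonpos hx, Real.arcsin_zero, mul_zero]

theorem As_of_one_le {x : ℝ} (hx : 1 ≤ x) : As x = 1 := by
  unfold As
  rw [Real.arcsin_of_one_le (by rwa [Real.one_le_sqrt])]
  field_simp

theorem As_mono : Monotone As := by
  intro x y h
  unfold As
  apply mul_le_mul_of_nonneg_left _ (by positivity)
  exact Real.monotone_arcsin (Real.sqrt_le_sqrt h)

theorem As_nonneg (x : ℝ) : 0 ≤ As x := by
  rcases le_total x 0 with h | h
  · rw [As_of_nonpos h]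
  · rw [← As_of_nonpos (le_refl 0)]; exact As_mono h

theorem As_le_one (x : ℝ) : As x ≤ 1 := by
  rcases le_total 1 x with h | h
  · rw [As_of_one_le h]
  · rw [← As_of_one_le (le_refl 1)]; exact As_mono h

theorem As_proj (x : ℝ) : As (Set.projIcc (0 : ℝ) 1 zero_le_one x) = As x := by
  rcases le_total x 0 with h | h
  · rw [Set.projIcc_of_le_left _ h, As_of_nonpos h, As_of_nonpos (le_refl _)]
  · rcases le_total 1 x with h1 | h1
    · rw [Set.projIcc_of_right_le _ h1, As_of_one_le h1, As_of_one_le (le_refl _)]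
    · rw [Set.projIcc_of_mem _ ⟨h, h1⟩]

theorem As_unif {ε : ℝ} (hε : 0 < ε) : ∃ δ : ℝ, 0 < δ ∧ ∀ x y : ℝ, |x - y| ≤ δ → |As x - As y| ≤ ε := by
  have h1 : UniformContinuous (fun x : Set.Icc (0 : ℝ) 1 => As x) :=
    CompactSpace.uniformContinuous_of_continuous (As_cont.comp continuous_subtype_val)
  have h2 := h1.comp (LipschitzWith.projIcc (zero_le_one (α := ℝ))).uniformContinuous
  rw [Metric.uniformContinuous_iff] at h2
  obtain ⟨δ, hδ, h3⟩ := h2 ε hε
  refine ⟨δ / 2, by positivity, fun x y hxy => ?_⟩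
  have h4 := h3 (a := x) (b := y) (by rw [Real.dist_eq]; linarith)
  simp only [Function.comp, As_proj, Real.dist_eq] at h4
  exact h4.le

theorem As_arctan {M σ : ℝ} (hM : 0 ≤ M) (hσ : 0 < σ) :
    2 / Real.pi * Real.arctan (√ M / σ) = As (M / (M + σ ^ 2)) := by
  unfold As
  rw [Real.arctan_eq_arcsin]
  congr 2
  have h1 : M / (M + σ ^ 2) = (√ M / σ) ^ 2 / (1 + (√ M / σ) ^ 2) := by
    rw [div_pow, Real.sq_sqrt hM]
    field_simp
    ring
  rw [h1, Real.sqrt_div (by positivity), Real.sqrt_sq (by positivity)]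

theorem ratio_close {A D T0 t θ : ℝ} (ht : 0 < t) (hθ : 0 < θ) (hθ8 : θ ≤ 1 / 8) (hT : 0 ≤ T0) (hTt : T0 ≤ t)
    (h1 : |A - T0| ≤ 3 * θ * t) (h2 : |D - t| ≤ 5 * θ * t) : |A / D - T0 / t| ≤ 22 * θ := by
  have h3 : 3 / 8 * t ≤ D := by
    have := (abs_le.1 h2).1
    have h4 : θ * t ≤ 1 / 8 * t := mul_le_mul_of_nonneg_right hθ8 ht.le
    linarith
  have hD : 0 < D := by linarith
  have h4 : A / D - T0 / t = (t * (A - T0) - T0 * (D - t)) / (D * t) := by
    field_simp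
    ring
  rw [h4, abs_div, abs_of_pos (mul_pos hD ht), div_le_iff₀ (mul_pos hD ht)]
  have h5 : |t * (A - T0) - T0 * (D - t)| ≤ t * (3 * θ * t) + t * (5 * θ * t) := by
    refine (abs_sub _ _).trans ?_
    rw [abs_mul, abs_mul, abs_of_pos ht, abs_of_nonneg hT]
    apply add_le_add
    · exact mul_le_mul_of_nonneg_left h1 ht.le
    · exact mul_le_mul hTt h2 (abs_nonneg _) ht.le
  have h6 : 22 * θ * (3 / 8 * t * t) ≤ 22 * θ * (D * t) := by
    apply mul_le_mul_of_nonneg_left _ (by positivity)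
    exact mul_le_mul_of_nonneg_right h3 ht.le
  have h7 : 0 ≤ θ * t * t := by positivity
  linarith

/-- The offsets at moderate levels are small. -/
theorem offs_small {θ c : ℝ} (hθ : 0 < θ) (hc : 0 < c) : ∀ᶠ t : ℕ in atTop,
    ∀ i : ℕ, i ≤ ⌈√ (t : ℝ) / θ⌉₊ + 1 → 2 * (3 : ℝ) ^ i * ((t : ℝ) ^ 3 + 1) ≤ Real.exp (c * t) := by
  filter_upwards [eventually_ge_atTop 1, sqrt_big ((1.1 / θ + 20) / c)] with t h1 h2 i hi
  have ht : (1 : ℝ) ≤ t := by exact_mod_cast h1
  have ht0 : (0 : ℝ) < t := by linarith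
  have hR1 : 1 ≤ √ (t : ℝ) := by rw [Real.one_le_sqrt]; exact ht
  have hR0 : 0 < √ (t : ℝ) := by linarith
  have hRt : √ (t : ℝ) * √ t = t := Real.mul_self_sqrt ht0.le
  have hi2 : (i : ℝ) ≤ √ t / θ + 2 := by
    have a1 : (i : ℝ) ≤ ((⌈√ (t : ℝ) / θ⌉₊ + 1 : ℕ) : ℝ) := by exact_mod_cast hi
    have a2 := Nat.ceil_lt_add_one (show 0 ≤ √ (t : ℝ) / θ by positivity)
    push_cast at a1
    linarith
  have e1 : (3 : ℝ) ^ i ≤ Real.exp ((√ t / θ + 2) * 1.1) := by
    rw [pow_log 3 (by norm_num)]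
    apply Real.exp_le_exp.2
    apply mul_le_mul hi2 log3_le log3_nonneg (by positivity)
  have e2 : (t : ℝ) ^ 3 + 1 ≤ 2 * Real.exp (6 * √ t) := by
    have a1 : (t : ℝ) ≤ Real.exp (2 * √ t) := by
      have a2 := Real.add_one_le_exp (√ (t : ℝ))
      have a3 : √ (t : ℝ) ≤ Real.exp (√ t) := by linarith
      calc (t : ℝ) = √ t * √ t := hRt.symm
        _ ≤ Real.exp (√ t) * Real.exp (√ t) := mul_le_mul a3 a3 hR0.le (Real.exp_pos _).le
        _ = Real.exp (2 * √ t) := by rw [← Real.exp_add]; congr 1; ring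
    have a2 : (t : ℝ) ^ 3 ≤ Real.exp (6 * √ t) := by
      refine (pow_le_pow_left₀ ht0.le a1 3).trans (le_of_eq ?_)
      rw [← Real.exp_nat_mul]; congr 1; push_cast; ring
    have a3 : 1 ≤ Real.exp (6 * √ (t : ℝ)) := Real.one_le_exp (by positivity)
    linarith
  have e3 : (4 : ℝ) ≤ Real.exp 4 := by
    have := Real.add_one_le_exp (4 : ℝ); linarith
  have e4 : (√ t / θ + 2) * 1.1 + 6 * √ t + 4 ≤ c * (t : ℝ) := by
    rw [div_le_iff₀ hc] at h2
    have a1 := mul_le_mul_of_nonneg_right h2 hR0.le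
    have a2 : √ (t : ℝ) * c * √ t = c * t := by rw [mul_comm (√ (t : ℝ)) c, mul_assoc, hRt]
    have a3 : (1.1 / θ + 20) * √ (t : ℝ) = √ t / θ * 1.1 + 20 * √ t := by ring
    rw [a2, a3] at a1
    linarith
  calc 2 * (3 : ℝ) ^ i * ((t : ℝ) ^ 3 + 1) ≤ 2 * Real.exp ((√ t / θ + 2) * 1.1) * (2 * Real.exp (6 * √ t)) := by
        gcongr
    _ = 4 * (Real.exp ((√ t / θ + 2) * 1.1) * Real.exp (6 * √ t)) := by ring
    _ ≤ Real.exp 4 * (Real.exp ((√ t / θ + 2) * 1.1) * Real.exp (6 * √ t)) :=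
        mul_le_mul_of_nonneg_right e3 (by positivity)
    _ = Real.exp ((√ t / θ + 2) * 1.1 + 6 * √ t + 4) := by rw [← Real.exp_add, ← Real.exp_add]; congr 1; ring
    _ ≤ _ := Real.exp_le_exp.2 e4

end Pool.Agent.K7.H66.CW
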