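import Pool.Agent.K7.H66.CW.NB

/-!
The arcsine law, part 12: the main range.
-/

set_option autoImplicit false

namespace Pool.Agent.K7.H66.CW

open Finset Filter Topology Pool.Agent.H499R2.CO Pool.Agent.W38.CR

/-- The law in the main range. -/
theorem mid_law {θ1 θ2 ε : ℝ} (hθ1 : 0 < θ1) (hθ2 : 0 < θ2) (hε : 0 < ε) :
    ∃ t0 : ℕ, ∀ t ≥ t0, ∀ (H : ℕ) (T0 : ℝ), (H : ℝ) = Real.exp (c0 * T0) → θ1 * t ≤ T0 → T0 ≤ (1 - θ2) * t →
    ∑ h ∈ range H, |q step (0, 0) t (0, (h : ℤ)) - As (T0 / t)| ≤ ε * H := by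
  obtain ⟨δm, hδm, hmod⟩ := As_unif (show 0 < ε / 10 by positivity)
  obtain ⟨δ, hδ, tc, hchain⟩ := chain_law (show 0 < ε / 10 by positivity)
  obtain ⟨m0, _, hrw⟩ := rw_law (show 0 < ε / 10 by positivity)
  obtain ⟨θ, hθ, hθ8, hθθ1, hθθ2, hθε, hθεε, hθm⟩ : ∃ θ : ℝ, 0 < θ ∧ θ ≤ 1 / 8 ∧ 4 * θ ≤ θ1 ∧ 4 * θ ≤ θ2 ∧
      20 * θ ≤ ε ∧ 4800 * θ ≤ ε ^ 2 * θ2 ∧ 22 * θ ≤ δm := by
    refine ⟨min (1 / 8) (min (θ1 / 4) (min (θ2 / 4) (min (ε / 20) (min (ε ^ 2 * θ2 / 4800) (δm / 22))))), ?_, ?_⟩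
    · positivity
    · set a := min (1 / 8) (min (θ1 / 4) (min (θ2 / 4) (min (ε / 20) (min (ε ^ 2 * θ2 / 4800) (δm / 22))))) with ha
      have h1 : a ≤ 1 / 8 := min_le_left _ _
      have h1' : a ≤ min (θ1 / 4) (min (θ2 / 4) (min (ε / 20) (min (ε ^ 2 * θ2 / 4800) (δm / 22)))) := min_le_right _ _
      have h2 := h1'.trans (min_le_left _ _)
      have h2' := h1'.trans (min_le_right _ _)
      have h3 := h2'.trans (min_le_left _ _)
      have h3' := h2'.trans (min_le_right _ _)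
      have h4 := h3'.trans (min_le_left _ _)
      have h4' := h3'.trans (min_le_right _ _)
      have h5 := h4'.trans (min_le_left _ _)
      have h5' := h4'.trans (min_le_right _ _)
      refine ⟨h1, by linarith, by linarith, by linarith, by linarith, by linarith⟩
  obtain ⟨η, hη, hηθ, hη1, hη4⟩ : ∃ η : ℝ, 0 < η ∧ η ≤ θ / 64 ∧ η ≤ 1 / 64 ∧ 4 * η ≤ θ * (4 * θ ^ 2) := by
    refine ⟨θ ^ 3, by positivity, ?_, ?_, by nlinarith⟩
    · have : θ ^ 2 ≤ (1 / 8) ^ 2 := pow_le_pow_left₀ hθ.le hθ8 2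
      have e : θ ^ 3 = θ ^ 2 * θ := by ring
      have := mul_le_mul_of_nonneg_right this hθ.le
      rw [e]; linarith
    · have : θ ^ 2 ≤ (1 / 8) ^ 2 := pow_le_pow_left₀ hθ.le hθ8 2
      have e : θ ^ 3 = θ ^ 2 * θ := by ring
      have := mul_le_mul_of_nonneg_right this hθ.le
      rw [e]; linarith
  obtain ⟨tE, hE⟩ := Er2_small hη (show 0 < ε / 20 by positivity)
  obtain ⟨tL, hlow⟩ := low_avg hη hη1 hθ1
  have hη2 : 0 < η / 2 := by positivity
  have l1 : Tendsto (fun t : ℕ => Real.exp (-(2 * η ^ 2 * θ1 * t))) atTop (𝓝 0) := by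
    have h2 : Tendsto (fun t : ℕ => (2 * η ^ 2 * θ1) * (t : ℝ)) atTop atTop :=
      tendsto_natCast_atTop_atTop.const_mul_atTop (by positivity)
    exact (Real.tendsto_exp_neg_atTop_nhds_zero.comp h2)
  have hε30 : 0 < ε / 30 := by positivity
  have hT := tendsto_natCast_atTop_atTop (R := ℝ)
  have hev := (KK_pow hη2 (show 0 < η / 10 by positivity) 1).and ((KK_big hη2 (4 / η)).and
    ((eventually_ge_atTop tE).and ((eventually_ge_atTop tL).and ((hT.eventually_ge_atTop (100 / η)).and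
    ((hT.eventually_ge_atTop (4 * m0 / θ1)).and ((hT.eventually_ge_atTop (2 * tc / θ2)).and
    ((l1.eventually (eventually_le_nhds hε30)).and (((inv_lim 1).eventually (eventually_le_nhds hε30)).and
    ((offs_small hθ (show 0 < δ * (θ2 / 2) by positivity)).and (eventually_ge_atTop 3))))))))))
  obtain ⟨t0, ht0⟩ := eventually_atTop.1 hev
  refine ⟨t0, fun t ht H T0 hH hT1 hT2 => ?_⟩
  obtain ⟨g1, g2, g3, g4, g5, g6, g7, g8, g9, g10, g11⟩ := ht0 t ht
  rw [pow_one] at g1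
  set K := KK (η / 2) t with hK
  have htr : (3 : ℝ) ≤ t := by exact_mod_cast g11
  have ht0' : (0 : ℝ) < t := by linarith
  have hT0 : 0 ≤ T0 := le_trans (by positivity) hT1
  have hTt : T0 ≤ t := by
    have : 0 ≤ θ2 * t := by positivity
    linarith
  have hηt : 100 ≤ η * t := by rw [div_le_iff₀ hη] at g5; linarith
  have hηK : 4 ≤ η * K := by rw [div_le_iff₀ hη] at g2; linarith
  have hK0 : (0 : ℝ) < K := by
    have : 0 < 4 / η := by positivity
    linarith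
  have hK0' : 0 < K := by exact_mod_cast hK0
  have hH0 : (0 : ℝ) < H := by rw [hH]; exact Real.exp_pos _
  have pηT : 0 ≤ η * T0 := by positivity
  have pηT' : η * T0 ≤ η * t := mul_le_mul_of_nonneg_left hTt hη.le
  have pθt : 64 * (η * t) ≤ θ * t := by
    have := mul_le_mul_of_nonneg_right hηθ ht0'.le
    linarith
  have pθ1 : 4 * (θ * t) ≤ T0 := by
    have := mul_le_mul_of_nonneg_right hθθ1 ht0'.le
    linarith
  have pθ2 : 4 * (θ * t) ≤ θ2 * t := by
    have := mul_le_mul_of_nonneg_right hθθ2 ht0'.le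
    linarith
  -- the parameters
  set j0 : ℕ := ⌊η * t⌋₊ with hj0
  have hj1 : (j0 : ℝ) ≤ η * t := Nat.floor_le (by positivity)
  have hj2 : η * t - 1 ≤ j0 := by have := Nat.lt_floor_add_one (η * (t : ℝ)); linarith
  set k0 : ℕ := ⌊(1 - 16 * η) * T0⌋₊ with hk0
  have hk1 : (k0 : ℝ) ≤ (1 - 16 * η) * T0 := Nat.floor_le (mul_nonneg (by linarith) hT0)
  have hk2 : (1 - 16 * η) * T0 - 1 ≤ k0 := by have := Nat.lt_floor_add_one ((1 - 16 * η) * T0); linarith
  have hjk : j0 ≤ k0 := by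
    have : (j0 : ℝ) ≤ k0 := by linarith
    exact_mod_cast this
  set n : ℕ := (k0 - j0) / K with hn
  have hn1 : n * K ≤ k0 - j0 := Nat.div_mul_le_self _ K
  have hn1r : (n : ℝ) * K ≤ k0 - j0 := by
    have : ((n * K : ℕ) : ℝ) ≤ ((k0 - j0 : ℕ) : ℝ) := by exact_mod_cast hn1
    rw [Nat.cast_sub hjk] at this
    push_cast at this
    exact this
  have hn2 : (k0 : ℝ) - j0 - K ≤ n * K := by
    have h1 : k0 - j0 < K * ((k0 - j0) / K + 1) := Nat.lt_mul_div_succ _ hK0'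
    have h2 : ((k0 - j0 : ℕ) : ℝ) < K * (n + 1) := by exact_mod_cast h1
    rw [Nat.cast_sub hjk] at h2
    linarith
  have hnη : (n : ℝ) * 4 ≤ η * t := by
    have h1 : (n : ℝ) * 4 ≤ n * (η * K) := mul_le_mul_of_nonneg_left hηK (by positivity)
    have h2 : η * ((n : ℝ) * K) ≤ η * T0 := mul_le_mul_of_nonneg_left (by linarith) hη.le
    linarith
  set k : ℕ := j0 + n * K with hkdef
  have hkr : (k : ℝ) = j0 + n * K := by rw [hkdef]; push_cast; ring
  have hkk0 : k ≤ k0 := by omega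
  have hkk0r : (k : ℝ) ≤ k0 := by exact_mod_cast hkk0
  have hkt : k ≤ t := by
    have : (k : ℝ) ≤ t := by linarith
    exact_mod_cast this
  set v : ℕ := ⌈(1 / 2 + η) * K⌉₊ with hv
  have hv1 : (1 / 2 + η) * K ≤ v := Nat.le_ceil _
  have hv2 : (v : ℝ) ≤ (1 / 2 + η) * K + 1 := (Nat.ceil_lt_add_one (by positivity)).le
  set v' : ℕ := ⌊(1 / 2 - η) * K⌋₊ with hv'
  have hv1' : (v' : ℝ) ≤ (1 / 2 - η) * K := Nat.floor_le (mul_nonneg (by linarith) hK0.le)
  have hv2' : (1 / 2 - η) * K - 1 ≤ v' := by have := Nat.lt_floor_add_one ((1 / 2 - η) * (K : ℝ)); linarith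
  have hvv : v' ≤ v := by
    have : (v' : ℝ) ≤ v := by
      have : 0 ≤ η * (K : ℝ) := by positivity
      linarith
    exact_mod_cast this
  set m : ℕ := ⌈θ * t / K⌉₊ with hm
  have hm1 : θ * t ≤ m * K := by
    have h1 := Nat.le_ceil (θ * (t : ℝ) / K)
    rw [div_le_iff₀ hK0] at h1
    exact h1
  have hm2 : (m : ℝ) * K ≤ θ * t + K := by
    have h1 := Nat.ceil_lt_add_one (show 0 ≤ θ * (t : ℝ) / K by positivity)
    have h2 := mul_le_mul_of_nonneg_right h1.le hK0.le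
    have h3 : (θ * t / K + 1) * (K : ℝ) = θ * t + K := by field_simp
    rw [h3] at h2
    exact h2
  have hmn : m ≤ n := by
    have h1 : (m : ℝ) * K ≤ n * K := by linarith
    have h2 : (m : ℝ) ≤ n := le_of_mul_le_mul_right h1 hK0
    exact_mod_cast h2
  set Mu : ℕ := j0 + (n * v + m * K) with hMu
  set Ml : ℕ := (n - m) * v' with hMl
  have hMur : (Mu : ℝ) = j0 + (n * v + m * K) := by rw [hMu]; push_cast; ring
  have hMlr : (Ml : ℝ) = (n - m) * v' := by rw [hMl]; push_cast; rw [Nat.cast_sub hmn]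
  have hMlu : Ml ≤ Mu := by
    have h1 : (n - m) * v' ≤ n * v := Nat.mul_le_mul (Nat.sub_le _ _) hvv
    omega
  have hnv : (n : ℝ) * v ≤ n * K * (1 / 2 + η) + n := by
    have := mul_le_mul_of_nonneg_left hv2 (show (0 : ℝ) ≤ n by positivity)
    linarith
  have hnv' : (n : ℝ) * K * (1 / 2 - η) - n ≤ n * v' := by
    have := mul_le_mul_of_nonneg_left hv2' (show (0 : ℝ) ≤ n by positivity)
    linarith
  have hnv2 : (n : ℝ) * K * (1 / 2 + η) ≤ n * v := by
    have := mul_le_mul_of_nonneg_left hv1 (show (0 : ℝ) ≤ n by positivity)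
    linarith
  have hmv : (m : ℝ) * v' ≤ m * K / 2 := by
    have h1 : (v' : ℝ) ≤ K / 2 := by
      have : 0 ≤ η * (K : ℝ) := by positivity
      linarith
    have := mul_le_mul_of_nonneg_left h1 (show (0 : ℝ) ≤ m by positivity)
    linarith
  have pnK : (n : ℝ) * K ≤ T0 := by linarith
  have pnK0 : (0 : ℝ) ≤ (n : ℝ) * K := by positivity
  have pηnK : η * ((n : ℝ) * K) ≤ η * T0 := mul_le_mul_of_nonneg_left pnK hη.le
  have pηnK0 : 0 ≤ η * ((n : ℝ) * K) := by positivity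
  have hd : ((Mu - Ml : ℕ) : ℝ) ≤ 3 * (θ * t) := by
    rw [Nat.cast_sub hMlu, hMur, hMlr]
    linarith
  have hA1 : |2 * (Mu : ℝ) - T0| ≤ 3 * θ * t := by
    rw [hMur, abs_le]
    constructor <;> linarith
  set k1 : ℕ := ⌈(1 + 16 * η) * T0⌉₊ with hk1def
  have hk11 : (1 + 16 * η) * T0 ≤ k1 := Nat.le_ceil _
  have hk12 : (k1 : ℝ) ≤ (1 + 16 * η) * T0 + 1 := (Nat.ceil_lt_add_one (by positivity)).le
  have hk1t : (k1 : ℝ) ≤ t - θ2 / 2 * t := by linarith
  have hk1t' : k1 ≤ t := by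
    have : (k1 : ℝ) ≤ t := by
      have : 0 ≤ θ2 / 2 * t := by positivity
      linarith
    exact_mod_cast this
  have hkk1 : k ≤ k1 := by
    have : (k : ℝ) ≤ k1 := by linarith
    exact_mod_cast this
  set t' : ℕ := t - k1 with ht'
  have ht'r : (t' : ℝ) = t - k1 := by rw [ht', Nat.cast_sub hk1t']
  have ht'2 : θ2 / 2 * t ≤ t' := by rw [ht'r]; linarith
  have ht'0 : (0 : ℝ) < t' := lt_of_lt_of_le (by positivity) ht'2
  set σ : ℝ := √ ((t' : ℝ) / 2) with hσ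
  have hσ0 : 0 < σ := Real.sqrt_pos.2 (by positivity)
  have hσ2 : σ ^ 2 = t' / 2 := Real.sq_sqrt (by positivity)
  have hlam : 0 ≤ 2 / σ := by positivity
  have hlx : ∀ x : ℕ, (x : ℝ) ≤ 3 * (θ * t) → 2 / σ * √ (x : ℝ) ≤ ε / 10 := by
    intro x hx
    rw [div_mul_eq_mul_div, div_le_iff₀ hσ0]
    apply le_of_sq_le_sq _ (by positivity)
    rw [mul_pow, mul_pow, hσ2, Real.sq_sqrt (by positivity)]
    have h1 : (ε / 10) ^ 2 * (θ2 / 2 * t / 2) ≤ (ε / 10) ^ 2 * (t' / 2) := by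
      apply mul_le_mul_of_nonneg_left _ (by positivity)
      linarith
    have h2 := mul_le_mul_of_nonneg_right hθεε ht0'.le
    have h3 : (ε / 10) ^ 2 * (θ2 / 2 * t / 2) = ε ^ 2 * θ2 * t / 400 := by ring
    linarith
  have hD1 : |2 * (Mu : ℝ) + t' - t| ≤ 5 * θ * t := by
    have h1 := abs_le.1 hA1
    rw [ht'r, abs_le]
    constructor <;> linarith
  -- the test function
  set Ψ : ℕ → ℝ := fun i => Ga (i / σ) with hΨ
  have hΨ0 : ∀ i, 0 ≤ Ψ i := fun i => Ga_nonneg (by positivity)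
  have hΨ1 : ∀ i, Ψ i ≤ 1 := fun i => Ga_le_one _
  have hΨL : ∀ i j : ℕ, |Ψ i - Ψ j| ≤ 2 / σ * |(i : ℝ) - j| := fun i j => Ga_Lip hσ0 i j
  -- the late times
  have S1 : ∀ h ∈ range H, |q step (0, 0) t (0, (h : ℤ)) - (P^[k1] (fun s => Ψ s.1)) (0, (h : ℤ))| ≤ ε / 4 := by
    intro h hh
    rw [mem_range] at hh
    have hhr : (h : ℝ) ≤ Real.exp (c0 * T0) := by rw [← hH]; exact_mod_cast hh.le
    set Y : ℕ := ⌈√ (t : ℝ) / θ⌉₊ + 1 with hY
    have hY1 : √ (t : ℝ) / θ ≤ Y := by rw [hY]; push_cast; have := Nat.le_ceil (√ (t : ℝ) / θ); linarith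
    have hlate := late (k := k1) (t' := t') (Bd := t ^ 3) (Nat.one_le_pow _ _ (by omega)) hη.le (Y := Y) (by omega)
      (show 0 ≤ ε / 10 by positivity) hΨ0 hΨ1 (h := h)
      (fun o ho => hh_ok hη hη1 hT0 hhr hk11 o ho)
      (by
        intro s hs hr
        have h1 := hchain t' (by
          have h2 : (tc : ℝ) ≤ t' := by
            rw [div_le_iff₀ hθ2] at g7; linarith
          exact_mod_cast h2) (0, 0) s (by simp only [Int.cast_zero, abs_zero]; exact (Real.exp_pos _).le)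
          (by
            have h3 := g10 s.1 hs
            have h4 : (|s.2| : ℝ) ≤ 2 * (3 : ℝ) ^ s.1 * ((t : ℝ) ^ 3 + 1) := by
              have h5 : ((|s.2| : ℤ) : ℝ) ≤ ((2 * 3 ^ s.1 * ((t ^ 3 : ℕ) + 1) : ℤ) : ℝ) := by exact_mod_cast hr
              push_cast at h5
              exact h5
            refine (h4.trans h3).trans (Real.exp_le_exp.2 ?_)
            have := mul_le_mul_of_nonneg_left ht'2 hδ.le
            linarith)
        rw [st_00] at h1
        exact h1)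
    have e1 : k1 + t' = t := by omega
    rw [e1] at hlate
    refine hlate.trans ?_
    have hk1r : (k1 : ℝ) ≤ t := by exact_mod_cast hk1t'
    have e2 : (k1 : ℝ) / (2 * ((t ^ 3 : ℕ) : ℝ)) ≤ ε / 30 := by
      refine le_trans ?_ g9
      push_cast
      rw [div_le_div_iff₀ (by positivity) ht0']
      have a1 : (k1 : ℝ) * t ≤ t * t := mul_le_mul_of_nonneg_right hk1r ht0'.le
      have a2 : (t : ℝ) * t * 1 ≤ t * t * (2 * t) := mul_le_mul_of_nonneg_left (by linarith) (by positivity)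
      calc (k1 : ℝ) * t ≤ t * t * 1 := by linarith
        _ ≤ _ := a2
        _ = _ := by ring
    have e3 : Real.exp (-(2 * η ^ 2 * k1)) ≤ ε / 30 := by
      refine le_trans (Real.exp_le_exp.2 ?_) g8
      have a1 : θ1 * t ≤ k1 := by linarith
      have := mul_le_mul_of_nonneg_left a1 (show 0 ≤ 2 * η ^ 2 by positivity)
      linarith
    have e4 : (k1 : ℝ) / (Y : ℝ) ^ 2 ≤ ε / 20 := by
      have a1 : t / θ ^ 2 ≤ (Y : ℝ) ^ 2 := by
        have := pow_le_pow_left₀ (by positivity) hY1 2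
        rw [div_pow, Real.sq_sqrt ht0'.le] at this
        exact this
      have a2 : (0 : ℝ) < t / θ ^ 2 := by positivity
      rw [div_le_iff₀ (lt_of_lt_of_le a2 a1)]
      have a3 : ε / 20 * (t / θ ^ 2) ≤ ε / 20 * (Y : ℝ) ^ 2 := mul_le_mul_of_nonneg_left a1 (by positivity)
      have a4 : θ * (t / θ ^ 2) ≤ ε / 20 * (t / θ ^ 2) := mul_le_mul_of_nonneg_right (by linarith) a2.le
      have a5 : (t : ℝ) ≤ θ * (t / θ ^ 2) := by
        have a6 : θ * ((t : ℝ) / θ ^ 2) = t / θ := by field_simp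
        rw [a6, le_div_iff₀ hθ]
        have := mul_le_mul_of_nonneg_left hθ8 ht0'.le
        linarith
      linarith
    linarith
  -- from `k` to `k1`
  have S2 : ∀ h : ℕ, |(P^[k1] (fun s => Ψ s.1)) (0, (h : ℤ)) - (P^[k] (fun s => Ψ s.1)) (0, (h : ℤ))| ≤ ε / 10 := by
    intro h
    have h1 := lev_time hlam hΨL k (k1 - k) (0, (h : ℤ))
    have e1 : k + (k1 - k) = k1 := by omega
    rw [e1] at h1
    refine h1.trans (hlx _ ?_)
    rw [Nat.cast_sub hkk1]
    linarith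
  -- the law of the level
  have S3 : ∀ h : ℕ, |(P^[k] (fun s => Ψ s.1)) (0, (h : ℤ)) - rw_ Ψ Mu 0| ≤
      ε / 10 + hb k Mu (0, (h : ℤ)) + lb k Ml (0, (h : ℤ)) := by
    intro h
    have h1 := lev_law hlam hΨ1 hΨ0 hΨL (Mu - Ml) k Mu (0, (h : ℤ))
    have e1 : Mu - (Mu - Ml) = Ml := by omega
    rw [e1] at h1
    have h2 := hlx (Mu - Ml) hd
    simp only at h1
    linarith
  -- the reflected walk
  have S4 : |rw_ Ψ Mu 0 - As (T0 / t)| ≤ ε / 5 := by
    have hMum : m0 ≤ Mu := by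
      have h1 : (m0 : ℝ) ≤ Mu := by
        have h2 := (abs_le.1 hA1).1
        rw [div_le_iff₀ hθ1] at g6
        linarith
      exact_mod_cast h1
    have h1 := hrw Mu hMum σ hσ0
    rw [As_arctan (by positivity) hσ0, hσ2] at h1
    have e1 : (Mu : ℝ) / (Mu + t' / 2) = (2 * Mu) / (2 * Mu + t') := by
      field_simp
    rw [e1] at h1
    have h2 := hmod _ _ ((ratio_close ht0' hθ hθ8 hT0 hTt hA1 hD1).trans hθm)
    rw [hΨ]
    calc |rw_ (fun i : ℕ => Ga (i / σ)) Mu 0 - As (T0 / t)| ≤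
        |rw_ (fun i : ℕ => Ga (i / σ)) Mu 0 - As (2 * Mu / (2 * Mu + t'))| +
        |As (2 * Mu / (2 * Mu + t')) - As (T0 / t)| := abs_sub_le _ _ _
      _ ≤ ε / 10 + ε / 10 := add_le_add h1 h2
      _ = ε / 5 := by ring
  -- the number of the moves
  have hEr : Er2 j0 n K (t ^ 3) 0 (Real.exp (-(2 * η ^ 2 * K))) ≤ ε / 20 := by
    apply hE t g3 n K j0 _ hkt hj2
    · have h1 := KK_ge hη2 t
      rw [← hK] at h1
      linarith
    · have : (n : ℝ) ≤ t := by linarith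
      exact_mod_cast this
  have hlowk := hlow t g4 H k T0 hH hT1 (by linarith) hkt
  rw [← hK] at hlowk
  have hlowm : (∑ h ∈ range H, ∑ j ∈ range k, (P^[j] (lw (K + K))) (0, (h : ℤ))) / (K * ((m : ℝ) + 1)) ≤ H * (ε / 20) := by
    rw [div_le_iff₀ (by positivity)]
    refine hlowk.trans ?_
    rw [mul_assoc (H : ℝ) (ε / 20)]
    apply mul_le_mul_of_nonneg_left _ hH0.le
    have h1 : θ * t ≤ K * ((m : ℝ) + 1) := by linarith
    have h2 : ε / 20 * (θ * t) ≤ ε / 20 * (K * ((m : ℝ) + 1)) := mul_le_mul_of_nonneg_left h1 (by positivity)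
    have h3 : 4 * η * t ≤ θ * (4 * θ ^ 2) * t := mul_le_mul_of_nonneg_right hη4 ht0'.le
    have h4 : θ * (4 * θ ^ 2) * t ≤ ε / 20 * (θ * t) := by
      have h5 : 4 * θ ^ 2 ≤ ε / 20 := by
        have : θ * θ ≤ θ * (1 / 8) := mul_le_mul_of_nonneg_left hθ8 hθ.le
        nlinarith
      have := mul_le_mul_of_nonneg_right h5 (show 0 ≤ θ * t by positivity)
      linarith
    linarith
  have S5 : ∑ h ∈ range H, hb k Mu (0, (h : ℤ)) ≤ H * (ε / 10) := by
    have h1 := up_moves hη.le hv1 (le_refl K) hK0' j0 n m H (t ^ 3) (Nat.one_le_pow _ _ (by omega))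
    have h2 := mul_le_mul_of_nonneg_left hEr hH0.le
    refine h1.trans ?_
    linarith
  have S6 : ∑ h ∈ range H, lb k Ml (0, (h : ℤ)) ≤ H * (ε / 10) := by
    have h1 := lo_moves hη.le hv1' (le_refl K) hK0' j0 n m H (t ^ 3) (Nat.one_le_pow _ _ (by omega))
    have h2 := mul_le_mul_of_nonneg_left hEr hH0.le
    refine h1.trans ?_
    linarith
  -- the sum
  have h2 : ∀ h ∈ range H, |q step (0, 0) t (0, (h : ℤ)) - As (T0 / t)| ≤
      (ε / 4 + ε / 10 + ε / 10 + ε / 5) + hb k Mu (0, (h : ℤ)) + lb k Ml (0, (h : ℤ)) := by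
    intro h hh
    have a1 := S1 h hh
    have a2 := S2 h
    have a3 := S3 h
    rw [abs_le] at a1 a2 a3 ⊢
    have a4 := abs_le.1 S4
    constructor <;> linarith [a1.1, a1.2, a2.1, a2.2, a3.1, a3.2, a4.1, a4.2]
  refine (sum_le_sum h2).trans ?_
  rw [sum_add_distrib, sum_add_distrib, sum_const, card_range, nsmul_eq_mul]
  have h3 : 0 ≤ ε * H := by positivity
  linarith

end Pool.Agent.K7.H66.CW
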