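import Pool.Agent.K7.H66.CW.NC
import Pool.Agent.K7.H66.CW.L

/-!
The arcsine law, part 13: all ranges, and the transfer to the integers.
-/

set_option autoImplicit false

namespace Pool.Agent.K7.H66.CW

open Finset Filter Topology Pool.Agent.H499R2.CO Pool.Agent.W38.CR

theorem q_anti {t t' : ℕ} (h : t ≤ t') (s : ℕ × ℤ) : q step (0, 0) t' s ≤ q step (0, 0) t s := by
  obtain ⟨m, rfl⟩ : ∃ m, t' = t + m := ⟨t' - t, by omega⟩
  rw [q_add_eq]
  have e : q step (0, 0) t s = (P^[t] (fun s => q step (0, 0) 0 s)) s := by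
    rw [← q_add_eq]; rfl
  rw [e]
  apply P_iter_mono
  intro x
  by_cases hx : x = (0, 0)
  · rw [hx, q_o, q_o]
  · rw [q_zero_ne step (0, 0) hx]
    exact q_le_one _ _ _ _

/-- **The arcsine law for almost all shifts.** -/
theorem avg_law {ε : ℝ} (hε : 0 < ε) : ∃ t0 : ℕ, ∀ t ≥ t0, ∀ H : ℕ, 1 ≤ H →
    ∑ h ∈ range H, |q step (0, 0) t (0, (h : ℤ)) - As (Real.log H / (c0 * t))| ≤ ε * H := by
  have hε4 : 0 < ε / 4 := by positivity
  obtain ⟨δm, hδm, hmod⟩ := As_unif hε4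
  obtain ⟨δ, hδ, tc, hchain⟩ := chain_law hε4
  have hc0 := c0_pos
  obtain ⟨θ1, hθ1, hθ12, hθ1m, hθ1δ⟩ : ∃ θ1 : ℝ, 0 < θ1 ∧ θ1 ≤ 1 / 2 ∧ θ1 ≤ δm ∧ c0 * θ1 ≤ δ := by
    refine ⟨min (1 / 2) (min δm (δ / c0)), by positivity, min_le_left _ _,
      (min_le_right _ _).trans (min_le_left _ _), ?_⟩
    have h1 : min (1 / 2) (min δm (δ / c0)) ≤ δ / c0 := (min_le_right _ _).trans (min_le_right _ _)
    have := mul_le_mul_of_nonneg_left h1 hc0.le
    refine this.trans (le_of_eq ?_)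
    field_simp
  obtain ⟨θ2, hθ2, hθ28, hθ2m⟩ : ∃ θ2 : ℝ, 0 < θ2 ∧ θ2 ≤ 1 / 8 ∧ 4 * θ2 ≤ δm :=
    ⟨min (1 / 8) (δm / 4), by positivity, min_le_left _ _, by
      have := min_le_right (1 / 8) (δm / 4); linarith⟩
  obtain ⟨t1, hmid⟩ := mid_law hθ1 hθ2 hε4
  have hT := tendsto_natCast_atTop_atTop (R := ℝ)
  have hev := (eventually_ge_atTop tc).and ((eventually_ge_atTop t1).and ((hT.eventually_ge_atTop (2 / θ2)).and
    (eventually_ge_atTop 1)))
  obtain ⟨t0, ht0⟩ := eventually_atTop.1 hev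
  refine ⟨t0, fun t ht H hH => ?_⟩
  obtain ⟨g1, g2, g3, g4⟩ := ht0 t ht
  have htr : (1 : ℝ) ≤ t := by exact_mod_cast g4
  have ht0' : (0 : ℝ) < t := by linarith
  have hHr : (1 : ℝ) ≤ H := by exact_mod_cast hH
  have hH0 : (0 : ℝ) < H := by linarith
  set T0 : ℝ := Real.log H / c0 with hT0
  have hHT : (H : ℝ) = Real.exp (c0 * T0) := by
    rw [hT0, mul_div_cancel₀ _ hc0.ne', Real.exp_log hH0]
  have hu : Real.log H / (c0 * t) = T0 / t := by rw [hT0, div_div]
  rw [hu]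
  have hT00 : 0 ≤ T0 := div_nonneg (Real.log_nonneg hHr) hc0.le
  rcases le_or_gt T0 (θ1 * t) with hlo | hlo
  · -- small shifts
    have h1 : ∀ h ∈ range H, |q step (0, 0) t (0, (h : ℤ)) - As (T0 / t)| ≤ ε := by
      intro h hh
      rw [mem_range] at hh
      have h2 := hchain t g1 (0, 0) (0, (h : ℤ)) (by simp only [Int.cast_zero, abs_zero]; exact (Real.exp_pos _).le)
        (by
          simp only [Int.cast_natCast]
          rw [abs_of_nonneg (by positivity)]
          have h3 : (h : ℝ) ≤ H := by exact_mod_cast hh.le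
          refine h3.trans ?_
          rw [hHT]
          apply Real.exp_le_exp.2
          calc c0 * T0 ≤ c0 * (θ1 * t) := mul_le_mul_of_nonneg_left hlo hc0.le
            _ = c0 * θ1 * t := by ring
            _ ≤ δ * t := mul_le_mul_of_nonneg_right hθ1δ ht0'.le)
      rw [st_00] at h2
      simp only [Nat.cast_zero, zero_div] at h2
      have h4 : Ga 0 = 0 := by unfold Ga; simp
      rw [h4, sub_zero] at h2
      have h5 : |As (T0 / t) - As 0| ≤ ε / 4 := by
        apply hmod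
        rw [sub_zero, abs_of_nonneg (by positivity), div_le_iff₀ ht0']
        exact hlo.trans (mul_le_mul_of_nonneg_right hθ1m ht0'.le)
      rw [As_of_nonpos (le_refl 0), sub_zero] at h5
      refine (abs_sub _ _).trans ?_
      linarith
    refine (sum_le_sum h1).trans ?_
    rw [sum_const, card_range, nsmul_eq_mul, mul_comm]
  rcases le_or_gt T0 ((1 - θ2) * t) with hmi | hhi
  · have h1 := hmid t g2 H T0 hHT hlo.le hmi
    refine h1.trans ?_
    exact mul_le_mul_of_nonneg_right (by linarith) hH0.le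
  · -- large shifts
    have h3θ : 0 < 1 - 3 * θ2 := by linarith
    set t2 : ℕ := ⌈T0 / (1 - 3 * θ2)⌉₊ with ht2
    have ht21 : T0 / (1 - 3 * θ2) ≤ t2 := Nat.le_ceil _
    have ht22 : (t2 : ℝ) ≤ T0 / (1 - 3 * θ2) + 1 := (Nat.ceil_lt_add_one (by positivity)).le
    have htt2 : (t : ℝ) ≤ t2 := by
      refine le_trans ?_ ht21
      rw [le_div_iff₀ h3θ]
      have : 0 ≤ θ2 * (t : ℝ) := by positivity
      linarith
    have htt2' : t ≤ t2 := by exact_mod_cast htt2
    have ht20 : (0 : ℝ) < t2 := by linarith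
    have e1 : T0 ≤ (1 - 3 * θ2) * t2 := by
      rw [div_le_iff₀ h3θ] at ht21; linarith
    have e2 : (1 - 4 * θ2) * t2 ≤ T0 := by
      have a0 : 1 ≤ T0 * θ2 := by
        rw [div_le_iff₀ hθ2] at g3
        have a1 : (1 - 1 / 8) * (t : ℝ) ≤ (1 - θ2) * t := mul_le_mul_of_nonneg_right (by linarith) ht0'.le
        have a2 : (7 / 8) * (t : ℝ) ≤ T0 := by linarith
        have a3 := mul_le_mul_of_nonneg_right a2 hθ2.le
        linarith
      have a1 : (1 - 4 * θ2) * t2 ≤ (1 - 4 * θ2) * (T0 / (1 - 3 * θ2) + 1) :=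
        mul_le_mul_of_nonneg_left ht22 (by linarith)
      have a2 : (1 - 4 * θ2) * (T0 / (1 - 3 * θ2) + 1) ≤ T0 := by
        rw [div_add_one h3θ.ne', mul_div_assoc', div_le_iff₀ h3θ]
        have a4 : 0 ≤ θ2 * (1 - 3 * θ2) := by positivity
        nlinarith
      linarith
    have e3 : θ1 * t2 ≤ T0 := by
      refine le_trans (mul_le_mul_of_nonneg_right ?_ ht20.le) e2
      linarith
    have h1 := hmid t2 (g2.trans htt2') H T0 hHT e3
      (e1.trans (mul_le_mul_of_nonneg_right (by linarith) ht20.le))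
    have h2 : |As (T0 / t2) - As 1| ≤ ε / 4 := by
      apply hmod
      have a1 : T0 / t2 ≤ 1 := by
        rw [div_le_one ht20]
        have : 0 ≤ 3 * θ2 * (t2 : ℝ) := by positivity
        linarith
      have a2 : 1 - 4 * θ2 ≤ T0 / t2 := by rwa [le_div_iff₀ ht20]
      rw [abs_of_nonpos (by linarith)]
      linarith
    have h3 : |As (max (1 - θ2) (min 1 (T0 / t))) - As 1| ≤ ε / 4 := by
      apply hmod
      have a1 : max (1 - θ2) (min 1 (T0 / t)) ≤ 1 := max_le (by linarith) (min_le_left _ _)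
      have a2 : 1 - θ2 ≤ max (1 - θ2) (min 1 (T0 / t)) := le_max_left _ _
      rw [abs_of_nonpos (by linarith)]
      linarith
    have h4 : As (max (1 - θ2) (min 1 (T0 / t))) ≤ As (T0 / t) := by
      rcases le_total 1 (T0 / t) with h | h
      · rw [As_of_one_le h]; exact As_le_one _
      · rw [min_eq_right h, max_eq_right]
        rw [le_div_iff₀ ht0']; exact hhi.le
    rw [As_of_one_le (le_refl 1)] at h2 h3
    have h5 := As_le_one (T0 / t)
    have h6 : 1 - ε / 4 ≤ As (T0 / t) := by have := (abs_le.1 h3).1; linarith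
    have h7 : 1 - ε / 4 ≤ As (T0 / t2) := by have := (abs_le.1 h2).1; linarith
    have h8 : ∀ h ∈ range H, |q step (0, 0) t (0, (h : ℤ)) - As (T0 / t)| ≤
        ε / 2 + |q step (0, 0) t2 (0, (h : ℤ)) - As (T0 / t2)| := by
      intro h _
      have a1 := q_anti htt2' (0, (h : ℤ))
      have a2 := q_le_one step (0, 0) t (0, (h : ℤ))
      have a3 := abs_nonneg (q step (0, 0) t2 (0, (h : ℤ)) - As (T0 / t2))
      have a4 := neg_abs_le (q step (0, 0) t2 (0, (h : ℤ)) - As (T0 / t2))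
      have a5 := As_le_one (T0 / t2)
      rw [abs_le]
      constructor <;> linarith
    refine (sum_le_sum h8).trans ?_
    rw [sum_add_distrib, sum_const, card_range, nsmul_eq_mul]
    have h9 : 0 ≤ ε * (H : ℝ) := by positivity
    linarith

theorem one_sub_As (x : ℝ) : 1 - As x = 2 / Real.pi * Real.arccos (√ x) := by
  unfold As Real.arccos
  field_simp

/-- **The arcsine law for the integers.** -/
theorem arc_int {ε : ℝ} (hε : 0 < ε) : ∃ δ : ℝ, 0 < δ ∧ ∃ t0 : ℕ, ∀ t ≥ t0, ∀ H : ℕ, 1 ≤ H →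
    ∃ B : Finset ℕ, (#B : ℝ) ≤ ε * H ∧ ∀ h < H, h ∉ B → ∀ (M : ℤ) (N : ℕ), (2 : ℝ) ^ t ≤ δ * N →
      |(#((Finset.Ico M (M + N)).filter (fun x => (Tz 1)^[t] x = (Tz 1)^[t] (x + h))) : ℝ) -
        N * (2 / Real.pi * Real.arccos (√ (Real.log H / (c0 * t))))| ≤ ε * N := by
  classical
  obtain ⟨t0, h0⟩ := avg_law (show 0 < ε * (ε / 2) by positivity)
  refine ⟨ε / 4, by positivity, t0, fun t ht H hH => ?_⟩
  have h1 := h0 t ht H hH
  set u := Real.log H / (c0 * t) with hu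
  rw [← one_sub_As]
  set B := (range H).filter (fun h : ℕ => ε / 2 < |q step (0, 0) t (0, (h : ℤ)) - As u|) with hB
  refine ⟨B, ?_, ?_⟩
  · have h3 : (#B : ℝ) * (ε / 2) ≤ ∑ h ∈ range H, |q step (0, 0) t (0, (h : ℤ)) - As u| := by
      calc (#B : ℝ) * (ε / 2) = ∑ h ∈ B, ε / 2 := by rw [sum_const, nsmul_eq_mul]
        _ ≤ ∑ h ∈ B, |q step (0, 0) t (0, (h : ℤ)) - As u| :=
          sum_le_sum (fun h hh => ((mem_filter.1 hh).2).le)
        _ ≤ _ := sum_le_sum_of_subset_of_nonneg (filter_subset _ _) (fun _ _ _ => abs_nonneg _)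
    have h4 : (#B : ℝ) * (ε / 2) ≤ (ε * H) * (ε / 2) := by linarith
    exact le_of_mul_le_mul_right h4 (by positivity)
  · intro h hh hhB M N hN
    have h2 : |q step (0, 0) t (0, (h : ℤ)) - As u| ≤ ε / 2 := by
      by_contra hcon
      exact hhB (mem_filter.2 ⟨mem_range.2 hh, not_le.1 hcon⟩)
    have h3 := transfer (0, 0) (0, (h : ℤ)) t N M
    rw [st_00] at h3
    have e1 : ∀ x : ℤ, ev (0, 0) x = x := fun x => by unfold ev; simp
    have e2 : ∀ x : ℤ, ev (0, (h : ℤ)) x = x + h := fun x => by unfold ev; simp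
    simp only [e1, e2] at h3
    set C : ℝ := (#((Finset.Ico M (M + N)).filter (fun x => (Tz 1)^[t] x = (Tz 1)^[t] (x + h))) : ℝ)
    set Q := q step (0, 0) t (0, (h : ℤ))
    have hN0 : (0 : ℝ) ≤ N := by positivity
    have h6 : C - N * (1 - As u) = (C - N * (1 - Q)) - N * (Q - As u) := by ring
    rw [h6]
    have h7 := abs_sub (C - N * (1 - Q)) (N * (Q - As u))
    rw [abs_mul, abs_of_nonneg hN0] at h7
    have h8 := mul_le_mul_of_nonneg_left h2 hN0
    linarith

end Pool.Agent.K7.H66.CW
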