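import Pool.Agent.K7.H66.CW.ND

/-!
The sharp tail of the coalescence time, part 1: the mean level converges.
-/

set_option autoImplicit false

namespace Pool.Agent.K7.H66.CW

open Finset Filter Topology Pool.Agent.H499R2.CO Pool.Agent.W38.CR

/-- The level. -/
def lv (s : ℕ × ℤ) : ℝ := s.1

/-- The moves from the level `0`. -/
def g0 (s : ℕ × ℤ) : ℝ := if s.1 = 0 ∧ ¬ s.2 % 2 = 0 then 1 else 0

/-- Not absorbed. -/
noncomputable def nz (s : ℕ × ℤ) : ℝ := q step (0, 0) 0 s

theorem g0_nonneg (s : ℕ × ℤ) : 0 ≤ g0 s := by unfold g0; split_ifs <;> norm_num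

theorem g0_le_one (s : ℕ × ℤ) : g0 s ≤ 1 := by unfold g0; split_ifs <;> norm_num

theorem nz_of {s : ℕ × ℤ} (h : s ≠ (0, 0)) : nz s = 1 := q_zero_ne _ _ h

theorem nz_zero : nz (0, 0) = 0 := q_o _ _ _

theorem nz_nonneg (s : ℕ × ℤ) : 0 ≤ nz s := q_nonneg _ _ _ _

theorem nz_le_one (s : ℕ × ℤ) : nz s ≤ 1 := q_le_one _ _ _ _

theorem P_lv (s : ℕ × ℤ) : P lv s = lv s + g0 s := by
  obtain ⟨i, r⟩ := s
  unfold P lv g0
  rcases Int.emod_two_eq_zero_or_one r with hr | hr
  · rw [step_ef hr, step_et hr, if_neg (by simp [hr])]; simp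
  · rcases i with _ | j
    · rw [step_0f hr, step_0t hr, if_pos ⟨rfl, by simp only; omega⟩]; norm_num
    · rw [step_sf hr, step_st hr, if_neg (by simp)]; push_cast; ring

theorem P_at_zero (F : ℕ × ℤ → ℝ) : P F (0, 0) = F (0, 0) := by
  unfold P
  rw [step_ef (by norm_num), step_et (by norm_num)]
  norm_num

theorem P_iter_at_zero (F : ℕ × ℤ → ℝ) (k : ℕ) : (P^[k] F) (0, 0) = F (0, 0) := by
  induction k with
  | zero => rfl
  | succ k ih => rw [Function.iterate_succ_apply', P_at_zero, ih]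

theorem P_iter_nz (k : ℕ) (s : ℕ × ℤ) : (P^[k] nz) s = q step (0, 0) k s := by
  have h := q_add_eq 0 k s
  rw [add_zero] at h
  rw [h]; rfl

theorem exists_t1 : ∃ t1 : ℕ, ∀ s ∈ FF, q step (0, 0) t1 s ≤ 1 / 2 := by
  have h : ∀ᶠ t1 in atTop, ∀ s ∈ FF, q step (0, 0) t1 s ≤ 1 / 2 := by
    rw [eventually_all_finite FF_finite]
    intro s _
    exact (q_lim s).eventually (eventually_le_nhds (by norm_num))
  exact h.exists

/-- The potential. -/
noncomputable def Wf (s : ℕ × ℤ) : ℝ :=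
  Vp s + 1300000 * ∑ j ∈ range exists_t1.choose, q step (0, 0) j s

theorem Wf_nonneg (s : ℕ × ℤ) : 0 ≤ Wf s := by
  unfold Wf
  have h1 := Vp_nonneg s
  have h2 : 0 ≤ ∑ j ∈ range exists_t1.choose, q step (0, 0) j s := sum_nonneg (fun _ _ => q_nonneg _ _ _ _)
  linarith

theorem P_sum {ι : Type*} (A : Finset ι) (F : ι → ℕ × ℤ → ℝ) (x : ℕ × ℤ) :
    P (fun x => ∑ i ∈ A, F i x) x = ∑ i ∈ A, P (F i) x := P_iter_sum 1 A F x

theorem P_q (j : ℕ) (s : ℕ × ℤ) : P (fun s => q step (0, 0) j s) s = q step (0, 0) (j + 1) s := by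
  have h := q_add_eq j 1 s
  rw [add_comm] at h
  exact h.symm

theorem P_Wf (s : ℕ × ℤ) : P Wf s ≤ Wf s - g0 s := by
  set t1 := exists_t1.choose with ht1
  have ht1s := exists_t1.choose_spec
  rw [← ht1] at ht1s
  have hQ : P (fun s => ∑ j ∈ range t1, q step (0, 0) j s) s =
      ∑ j ∈ range t1, q step (0, 0) j s + q step (0, 0) t1 s - q step (0, 0) 0 s := by
    rw [P_sum, sum_congr rfl (fun j _ => P_q j s)]
    have h1 := sum_range_succ (fun j => q step (0, 0) j s) t1
    have h2 := sum_range_succ' (fun j => q step (0, 0) j s) t1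
    linarith
  have hW : P Wf s = P Vp s + 1300000 * P (fun s => ∑ j ∈ range t1, q step (0, 0) j s) s := by
    unfold P Wf
    ring
  rw [hW, hQ]
  have hW2 : Wf s = Vp s + 1300000 * ∑ j ∈ range t1, q step (0, 0) j s := rfl
  rw [hW2]
  have hq : q step (0, 0) t1 s ≤ q step (0, 0) 0 s := q_anti (Nat.zero_le _) s
  by_cases h0 : s = (0, 0)
  · rw [h0, P_at_zero, q_o, q_o]
    have : g0 (0, 0) = 0 := by unfold g0; simp
    rw [this]; simp
  by_cases hF : s ∈ FF
  · have h1 := ht1s s hF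
    rw [q_zero_ne _ _ h0]
    have h2 : P Vp s ≤ 600000 := by
      have h3 : P Vp s ≤ P (fun s => pw s + 480048) s := P_mono Vp_le s
      have h4 : P (fun s => pw s + 480048) s = P pw s + 480048 := by unfold P; ring
      have h5 := P_pw s
      have h6 : pw s ≤ 31623 := by
        obtain ⟨i, r⟩ := s
        obtain ⟨h7, h8⟩ := hF
        simp only at h7 h8
        subst h7
        unfold pw w
        simp only [pow_zero, one_mul]
        rw [Real.sqrt_le_left (by norm_num)]
        have : |(r : ℝ)| ≤ 10 ^ 9 := by exact_mod_cast h8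
        linarith
      linarith
    have h3 := Vp_nonneg s
    have h4 := g0_le_one s
    linarith
  · have h1 : P Vp s ≤ Vp s - g0 s := by
      obtain ⟨i, r⟩ := s
      rcases Nat.eq_zero_or_pos i with rfl | hi
      · have hb : ¬ |r| ≤ 10 ^ 9 := fun h => hF ⟨rfl, h⟩
        have h := Vp_zero hb
        have h4 := g0_le_one (0, r)
        unfold P
        linarith
      · have hg : g0 (i, r) = 0 := by unfold g0; rw [if_neg (by simp only; omega)]
        rw [hg, sub_zero]
        unfold P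
        rcases Int.emod_two_eq_zero_or_one r with hr | hr
        · have h := Vp_even hi hr
          linarith
        · obtain ⟨j, rfl⟩ : ∃ j, i = j + 1 := ⟨i - 1, by omega⟩
          have h := Vp_odd (j := j) hr
          linarith
    linarith

theorem Wf_zero : Wf (0, 0) = 0 := by
  unfold Wf
  have h1 : Vp (0, 0) = 0 := by
    unfold Vp part w H
    simp
  rw [h1, sum_congr rfl (fun j _ => q_o step (0, 0) j), sum_const_zero]
  norm_num

theorem Wf_le : ∃ C : ℝ, 0 < C ∧ ∀ s, Wf s ≤ pw s + C * nz s := by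
  refine ⟨480048 + 1300000 * exists_t1.choose, by positivity, fun s => ?_⟩
  by_cases h0 : s = (0, 0)
  · rw [h0, Wf_zero, nz_zero, mul_zero, add_zero]; exact pw_nonneg _
  · rw [nz_of h0, mul_one]
    unfold Wf
    have h1 := Vp_le s
    have h2 : ∑ j ∈ range exists_t1.choose, q step (0, 0) j s ≤ ∑ j ∈ range exists_t1.choose, (1 : ℝ) :=
      sum_le_sum (fun _ _ => q_le_one _ _ _ _)
    rw [sum_const, card_range, nsmul_eq_mul, mul_one] at h2
    linarith

theorem P_iter_Wf (n : ℕ) (s : ℕ × ℤ) : (P^[n] Wf) s + ∑ k ∈ range n, (P^[k] g0) s ≤ Wf s := by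
  induction n with
  | zero => simp
  | succ n ih =>
    rw [Function.iterate_succ_apply, sum_range_succ]
    have h1 : (P^[n] (P Wf)) s ≤ (P^[n] (fun s => Wf s + (-1) * g0 s)) s :=
      P_iter_mono n (fun x => by have := P_Wf x; linarith) s
    rw [P_iter_add, P_iter_smul] at h1
    have h2 : (P^[n] (fun s => Wf s)) s = (P^[n] Wf) s := rfl
    linarith

theorem P_iter_lv (n : ℕ) (s : ℕ × ℤ) : (P^[n] lv) s = lv s + ∑ k ∈ range n, (P^[k] g0) s := by
  induction n with
  | zero => simp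
  | succ n ih =>
    rw [Function.iterate_succ_apply, sum_range_succ]
    have h1 : P lv = fun s => lv s + g0 s := by funext s; exact P_lv s
    rw [h1, P_iter_add]
    have h2 : (P^[n] (fun s => lv s)) s = (P^[n] lv) s := rfl
    have h3 : (P^[n] (fun s => g0 s)) s = (P^[n] g0) s := rfl
    linarith

theorem lv_mono {n m : ℕ} (h : n ≤ m) (s : ℕ × ℤ) : (P^[n] lv) s ≤ (P^[m] lv) s := by
  rw [P_iter_lv, P_iter_lv]
  have : ∑ k ∈ range n, (P^[k] g0) s ≤ ∑ k ∈ range m, (P^[k] g0) s :=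
    sum_le_sum_of_subset_of_nonneg (range_mono h) (fun k _ _ => P_iter_nonneg g0_nonneg k s)
  linarith

theorem lv_le_W (n : ℕ) (s : ℕ × ℤ) : (P^[n] lv) s ≤ lv s + Wf s := by
  rw [P_iter_lv]
  have h1 := P_iter_Wf n s
  have h2 := P_iter_nonneg Wf_nonneg n s
  linarith

/-- The limit of the mean level. -/
noncomputable def aa (s : ℕ × ℤ) : ℝ := ⨆ n, (P^[n] lv) s

theorem aa_bdd (s : ℕ × ℤ) : BddAbove (Set.range (fun n => (P^[n] lv) s)) :=
  ⟨lv s + Wf s, by rintro _ ⟨n, rfl⟩; exact lv_le_W n s⟩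

theorem lv_le_aa (n : ℕ) (s : ℕ × ℤ) : (P^[n] lv) s ≤ aa s := le_ciSup (aa_bdd s) n

theorem aa_le (m : ℕ) (s : ℕ × ℤ) : aa s ≤ (P^[m] lv) s + (P^[m] Wf) s := by
  apply ciSup_le
  intro n
  have h0 := P_iter_nonneg Wf_nonneg m s
  rcases le_total n m with h | h
  · have := lv_mono h s; linarith
  · obtain ⟨n', rfl⟩ : ∃ n', n = m + n' := ⟨n - m, by omega⟩
    rw [Function.iterate_add_apply]
    have h1 := P_iter_mono m (fun x => lv_le_W n' x) s
    rw [P_iter_add m lv Wf] at h1
    exact h1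

theorem aa_tendsto (s : ℕ × ℤ) : Tendsto (fun n => (P^[n] lv) s) atTop (𝓝 (aa s)) :=
  tendsto_atTop_ciSup (fun _ _ h => lv_mono h s) (aa_bdd s)

/-- The scale of the mean level. -/
noncomputable def bb (s : ℕ × ℤ) : ℝ := 1 + lv s + √ (Real.log (1 + pw s))

theorem lv_nonneg (s : ℕ × ℤ) : 0 ≤ lv s := by unfold lv; positivity

theorem log_pw_nonneg (s : ℕ × ℤ) : 0 ≤ Real.log (1 + pw s) := Real.log_nonneg (by have := pw_nonneg s; linarith)

theorem bb_ge_one (s : ℕ × ℤ) : 1 ≤ bb s := by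
  unfold bb
  have := lv_nonneg s
  have := Real.sqrt_nonneg (Real.log (1 + pw s))
  linarith

theorem pow98 {m : ℕ} {p : ℝ} (hp : 0 ≤ p) (h : 50 * Real.log (1 + p) ≤ m) : (0.98 : ℝ) ^ m * p ≤ 1 := by
  have h1 := pow_exp (by norm_num) exp_98 m
  have h2 : p ≤ Real.exp (0.02 * m) := by
    have h3 : Real.log (1 + p) ≤ 0.02 * m := by linarith
    rw [Real.log_le_iff_le_exp (by linarith)] at h3
    linarith
  calc (0.98 : ℝ) ^ m * p ≤ Real.exp (-(0.02 * m)) * Real.exp (0.02 * m) :=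
        mul_le_mul h1 h2 hp (Real.exp_pos _).le
    _ = 1 := by rw [← Real.exp_add]; simp

theorem lv_sqrt (m : ℕ) (s : ℕ × ℤ) : (P^[m] lv) s ≤ lv s + √ m := by
  have h := lev_lip (ψ := fun i => (i : ℝ)) (lam := 1) zero_le_one (fun i j => by rw [one_mul]) m s
  have := (abs_le.1 h).2
  have e : (P^[m] (fun x : ℕ × ℤ => (x.1 : ℝ))) s = (P^[m] lv) s := rfl
  rw [e] at this
  have e2 : lv s = (s.1 : ℝ) := rfl
  linarith

theorem aa_le_bb : ∃ C : ℝ, 0 < C ∧ ∀ s, aa s ≤ C * bb s := by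
  obtain ⟨C, hC, hW⟩ := Wf_le
  refine ⟨C + 50, by positivity, fun s => ?_⟩
  set L := Real.log (1 + pw s) with hL
  have hL0 : 0 ≤ L := log_pw_nonneg s
  set m : ℕ := ⌈50 * L⌉₊ with hm
  have h1 := aa_le m s
  have h2 := lv_sqrt m s
  have h3 : (P^[m] Wf) s ≤ (P^[m] pw) s + C := by
    have h4 := P_iter_mono m hW s
    rw [P_iter_add m pw (fun x => C * nz x), P_iter_smul, P_iter_nz] at h4
    have := q_le_one step (0, 0) m s
    have := mul_le_mul_of_nonneg_left this hC.le
    linarith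
  have h4 := P_iter_pw m s
  have h5 := pow98 (pw_nonneg s) (Nat.le_ceil (50 * L))
  have h6 : √ (m : ℝ) ≤ 1 + 8 * √ L := by
    rw [Real.sqrt_le_left (by positivity)]
    have h7 : (m : ℝ) ≤ 50 * L + 1 := (Nat.ceil_lt_add_one (by positivity)).le
    have h8 : √ L ^ 2 = L := Real.sq_sqrt hL0
    have h9 := Real.sqrt_nonneg L
    nlinarith
  unfold bb
  rw [← hL]
  have h7 := lv_nonneg s
  have h8 := Real.sqrt_nonneg L
  have e1 : (C + 50) * (1 + lv s + √ L) = C + 50 + C * lv s + 50 * lv s + C * √ L + 50 * √ L := by ring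
  have e2 : 0 ≤ C * lv s := by positivity
  have e3 : 0 ≤ C * √ L := by positivity
  rw [e1]
  linarith

theorem aa_ge (s : ℕ × ℤ) : lv s ≤ aa s := lv_le_aa 0 s

/-- The limit is harmonic. -/
theorem aa_harm (s : ℕ × ℤ) : P aa s = aa s := by
  have h1 := (aa_tendsto s).comp (tendsto_add_atTop_nat 1)
  have h2 : Tendsto (fun n => P (P^[n] lv) s) atTop (𝓝 (P aa s)) := by
    unfold P
    exact ((aa_tendsto _).add (aa_tendsto _)).div_const 2
  refine tendsto_nhds_unique h2 (h1.congr (fun n => ?_))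
  simp only [Function.comp]
  rw [Function.iterate_succ_apply']

/-- The mean level is at least `1` if the forms are different. -/
theorem aa_ge_one {s : ℕ × ℤ} (hs : s ≠ (0, 0)) : 1 ≤ aa s := by
  obtain ⟨i, r⟩ := s
  have hpos : ∀ (i : ℕ) (r : ℤ), 1 ≤ i → 1 ≤ aa (i, r) := by
    intro i r hi
    have h2 : (1 : ℝ) ≤ lv (i, r) := by
      unfold lv
      exact_mod_cast hi
    exact h2.trans (aa_ge _)
  rcases Nat.eq_zero_or_pos i with rfl | hi
  · -- the level is `0` and the offset is not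
    have key : ∀ (n : ℕ) (r : ℤ), ¬ (2 : ℤ) ^ n ∣ r → 1 ≤ aa (0, r) := by
      intro n
      induction n with
      | zero => intro r h; exact absurd (by simp) h
      | succ n ih =>
        intro r h
        rw [← aa_harm]
        unfold P
        rcases Int.emod_two_eq_zero_or_one r with hr | hr
        · rw [step_ef hr, step_et hr]
          obtain ⟨m, rfl⟩ : ∃ m, r = 2 * m := ⟨r / 2, by omega⟩
          have e1 : 2 * m / 2 = m := by omega
          have e2 : (3 * (2 * m) + 1 - 3 ^ 0) / 2 = 3 * m := by rw [pow_zero]; omega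
          rw [e1, e2]
          have hm : ¬ (2 : ℤ) ^ n ∣ m := by
            intro hd
            apply h
            rw [pow_succ, mul_comm]
            exact mul_dvd_mul_left 2 hd
          have hm3 : ¬ (2 : ℤ) ^ n ∣ 3 * m := by
            intro hd
            apply hm
            have hc : IsCoprime ((2 : ℤ) ^ n) 3 := IsCoprime.pow_left (by norm_num)
            exact hc.dvd_of_dvd_mul_left hd
          have := ih m hm
          have := ih (3 * m) hm3
          linarith
        · rw [step_0f hr, step_0t hr]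
          have := hpos 1 ((3 * r + 1) / 2) le_rfl
          have := hpos 1 ((1 - 3 * r) / 2) le_rfl
          linarith
    have hr : r ≠ 0 := fun h => hs (by rw [h])
    apply key (r.natAbs) r
    intro hd
    have h1 := Int.natAbs_dvd_natAbs.2 hd
    rw [Int.natAbs_pow] at h1
    have h2 := Nat.le_of_dvd (Int.natAbs_pos.2 hr) h1
    have h3 : r.natAbs < 2 ^ r.natAbs := Nat.lt_two_pow_self
    have h4 : (2 : ℤ).natAbs = 2 := rfl
    rw [h4] at h2
    omega
  · exact hpos i r hi

end Pool.Agent.K7.H66.CW
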