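import Pool.Agent.K7.H66.CW.O1

/-!
The sharp tail of the coalescence time, part 2: the upper bound of the order `1 / √t`.
-/

set_option autoImplicit false

namespace Pool.Agent.K7.H66.CW

open Finset Filter Topology Pool.Agent.H499R2.CO Pool.Agent.W38.CR

theorem Ga_zero : Ga 0 = 0 := by unfold Ga; simp

theorem Ga_le_two {x : ℝ} (hx : 0 ≤ x) : Ga x ≤ 2 * x := by
  have := Ga_lip hx
  rw [Ga_zero] at this
  linarith

/-- The offset in terms of `pw`. -/
theorem offs_pw {s : ℕ × ℤ} {Λ : ℝ} (h : pw s ≤ Λ) : |(s.2 : ℝ)| ≤ Λ ^ 2 * 3 ^ (2 * s.1) := by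
  obtain ⟨i, r⟩ := s
  unfold pw w at h
  simp only at h ⊢
  have h0 : (0 : ℝ) < (11 / 20) ^ i := by positivity
  have h1 : √ |(r : ℝ)| ≤ Λ * (20 / 11) ^ i := by
    have h2 : √ |(r : ℝ)| = ((11 / 20 : ℝ) ^ i * √ |(r : ℝ)|) * (20 / 11) ^ i := by
      have : (11 / 20 : ℝ) ^ i * (20 / 11) ^ i = 1 := by rw [← mul_pow]; norm_num
      calc √ |(r : ℝ)| = ((11 / 20 : ℝ) ^ i * (20 / 11) ^ i) * √ |(r : ℝ)| := by rw [this, one_mul]
        _ = _ := by ring
    rw [h2]
    exact mul_le_mul_of_nonneg_right h (by positivity)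
  have h3 : |(r : ℝ)| = √ |(r : ℝ)| ^ 2 := (Real.sq_sqrt (abs_nonneg _)).symm
  rw [h3]
  refine (pow_le_pow_left₀ (Real.sqrt_nonneg _) h1 2).trans ?_
  rw [mul_pow, ← pow_mul, mul_comm i 2, pow_mul, pow_mul]
  apply mul_le_mul_of_nonneg_left _ (by positivity)
  exact pow_le_pow_left₀ (by positivity) (by norm_num) i

/-- The offsets at moderate levels. -/
theorem offs_mod {c A : ℝ} (hc : 0 < c) (hA : 0 < A) : ∀ᶠ t : ℕ in atTop,
    ∀ s : ℕ × ℤ, lv s ≤ A * √ t → pw s ≤ t → |(s.2 : ℝ)| ≤ Real.exp (c * t) := by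
  filter_upwards [offs_small (θ := 1 / (2 * A)) (by positivity) hc, eventually_ge_atTop 1] with t h1 h2 s hs hp
  refine (offs_pw hp).trans ?_
  have h3 := h1 (2 * s.1) (by
    have h4 : (s.1 : ℝ) ≤ A * √ t := hs
    have h5 : 2 * (s.1 : ℝ) ≤ √ (t : ℝ) / (1 / (2 * A)) := by
      rw [div_div_eq_mul_div, div_one]
      linarith
    have h6 : ((2 * s.1 : ℕ) : ℝ) ≤ ((⌈√ (t : ℝ) / (1 / (2 * A))⌉₊ : ℕ) : ℝ) := by
      push_cast
      exact h5.trans (Nat.le_ceil _)
    have h7 : 2 * s.1 ≤ ⌈√ (t : ℝ) / (1 / (2 * A))⌉₊ := by exact_mod_cast h6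
    omega)
  refine le_trans ?_ h3
  have ht : (1 : ℝ) ≤ t := by exact_mod_cast h2
  have h4 : (t : ℝ) ^ 2 ≤ 2 * ((t : ℝ) ^ 3 + 1) := by
    have : (t : ℝ) ^ 2 ≤ t ^ 3 := pow_le_pow_right₀ ht (by norm_num)
    have : (0 : ℝ) ≤ (t : ℝ) ^ 3 := by positivity
    linarith
  calc (t : ℝ) ^ 2 * 3 ^ (2 * s.1) ≤ (2 * ((t : ℝ) ^ 3 + 1)) * 3 ^ (2 * s.1) :=
        mul_le_mul_of_nonneg_right h4 (by positivity)
    _ = _ := by ring

/-- The pointwise bound for the chain law. -/
theorem chain_pt {ε A : ℝ} (hε : 0 < ε) (hA : 0 < A) : ∃ t0 : ℕ, ∀ t ≥ t0, ∀ t' : ℕ, t ≤ 4 * t' →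
    ∀ x : ℕ × ℤ, lv x ≤ A * √ t → pw x ≤ t →
    |q step (0, 0) t' x - Ga (lv x / √ ((t' : ℝ) / 2))| ≤ ε * nz x := by
  obtain ⟨δ, hδ, tc, hchain⟩ := chain_law hε
  obtain ⟨t1, ht1⟩ := eventually_atTop.1 (offs_mod (show 0 < δ / 4 by positivity) hA)
  refine ⟨max t1 (4 * tc), fun t ht t' htt x hx hp => ?_⟩
  by_cases h0 : x = (0, 0)
  · rw [h0, q_o, nz_zero, mul_zero]
    have : lv (0, 0) = 0 := by unfold lv; simp
    rw [this, zero_div, Ga_zero, sub_zero, abs_zero]
  · rw [nz_of h0, mul_one]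
    have h1 := ht1 t ((le_max_left _ _).trans ht) x hx hp
    have h2 : tc ≤ t' := by
      have := (le_max_right t1 (4 * tc)).trans ht
      omega
    have h3 := hchain t' h2 (0, 0) x (by simp only [Int.cast_zero, abs_zero]; exact (Real.exp_pos _).le)
      (by
        refine h1.trans (Real.exp_le_exp.2 ?_)
        have h4 : (t : ℝ) ≤ 4 * t' := by exact_mod_cast htt
        have := mul_le_mul_of_nonneg_left h4 (show 0 ≤ δ / 4 by positivity)
        linarith)
    rw [st_00] at h3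
    exact h3

/-- **The upper bound of the right order.** -/
theorem q_sharp : ∃ C : ℝ, 1 ≤ C ∧ ∀ (t : ℕ) (s : ℕ × ℤ), √ t * q step (0, 0) t s ≤ C * bb s := by
  obtain ⟨Ca, hCa, haa⟩ := aa_le_bb
  obtain ⟨t1, hpt⟩ := chain_pt (show (0 : ℝ) < 1 / 20 by norm_num) (show (0 : ℝ) < 1 by norm_num)
  set t0 : ℕ := max t1 16 with ht0
  set C : ℝ := 10 + √ t0 + (125 * Ca + 50) * 5 / 4 with hC
  have hC10 : 10 ≤ C := by
    rw [hC]
    have := Real.sqrt_nonneg (t0 : ℝ)
    linarith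
  refine ⟨C, by linarith, fun t => ?_⟩
  induction t using Nat.strong_induction_on with
  | _ t ih =>
  intro s
  have hb := bb_ge_one s
  have hb0 : 0 < bb s := by linarith
  rcases lt_or_ge t t0 with hlt | hge
  · have h1 : √ (t : ℝ) ≤ √ (t0 : ℝ) := Real.sqrt_le_sqrt (by exact_mod_cast hlt.le)
    have h2 := q_le_one step (0, 0) t s
    have h3 : √ (t : ℝ) * q step (0, 0) t s ≤ √ (t0 : ℝ) * 1 :=
      mul_le_mul h1 h2 (q_nonneg _ _ _ _) (Real.sqrt_nonneg _)
    have h4 : √ (t0 : ℝ) ≤ C := by rw [hC]; linarith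
    have h5 : C * 1 ≤ C * bb s := mul_le_mul_of_nonneg_left hb (by linarith)
    linarith
  have ht16 : 16 ≤ t := (le_max_right _ _).trans hge
  have ht1 : t1 ≤ t := (le_max_left _ _).trans hge
  have htr : (16 : ℝ) ≤ t := by exact_mod_cast ht16
  have htp : (0 : ℝ) < t := by linarith
  by_cases hp : Real.exp (t / 100) < 1 + pw s
  · -- large offsets
    have h1 : (t : ℝ) / 100 ≤ Real.log (1 + pw s) := by
      rw [Real.le_log_iff_exp_le (by have := pw_nonneg s; linarith)]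
      exact hp.le
    have h2 : √ (t : ℝ) ≤ 10 * bb s := by
      rw [Real.sqrt_le_left (by positivity)]
      have h3 : Real.log (1 + pw s) ≤ bb s ^ 2 := by
        have h4 : √ (Real.log (1 + pw s)) ≤ bb s := by
          unfold bb
          have := lv_nonneg s
          linarith
        have h5 := pow_le_pow_left₀ (Real.sqrt_nonneg _) h4 2
        rwa [Real.sq_sqrt (log_pw_nonneg s)] at h5
      nlinarith
    have h3 : √ (t : ℝ) * q step (0, 0) t s ≤ √ (t : ℝ) * 1 :=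
      mul_le_mul_of_nonneg_left (q_le_one _ _ _ _) (Real.sqrt_nonneg _)
    have h4 := mul_le_mul_of_nonneg_right hC10 hb0.le
    linarith
  push Not at hp
  set t' : ℕ := t / 2 with ht'
  set m : ℕ := t - t' with hm
  have hmt : m + t' = t := by omega
  have hmt' : t' ≤ m := by omega
  have ht3 : (t : ℝ) ≤ 3 * t' := by
    have : t ≤ 3 * t' := by omega
    exact_mod_cast this
  have ht'0 : (0 : ℝ) < t' := by linarith
  set R : ℝ := √ ((t' : ℝ) / 2) / 40 with hR
  have hσ0 : 0 < √ ((t' : ℝ) / 2) := Real.sqrt_pos.2 (by positivity)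
  have hR0 : 0 < R := by positivity
  have hsq : √ ((t' : ℝ) / 2) ≤ √ t := Real.sqrt_le_sqrt (by
    have : (t' : ℝ) ≤ t := by exact_mod_cast (by omega : t' ≤ t)
    linarith)
  have hpt1 : ∀ x : ℕ × ℤ, q step (0, 0) t' x ≤ 1 / 10 * nz x + ((1 / R) * lv x + (1 / (t : ℝ)) * pw x) := by
    intro x
    have h1 : 0 ≤ (1 / R) * lv x := mul_nonneg (by positivity) (lv_nonneg x)
    have h2 : 0 ≤ (1 / (t : ℝ)) * pw x := mul_nonneg (by positivity) (pw_nonneg x)
    have h3 := nz_nonneg x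
    have h4 := q_le_one step (0, 0) t' x
    by_cases c1 : R < lv x
    · have h5 : 1 ≤ (1 / R) * lv x := by
        rw [one_div, inv_mul_eq_div, le_div_iff₀ hR0]; linarith
      linarith
    by_cases c2 : (t : ℝ) < pw x
    · have h5 : 1 ≤ (1 / (t : ℝ)) * pw x := by
        rw [one_div, inv_mul_eq_div, le_div_iff₀ htp]; linarith
      linarith
    push Not at c1 c2
    have h5 := hpt t ht1 t' (by omega) x (by
      rw [one_mul]
      refine c1.trans ?_
      rw [hR]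
      linarith) c2
    by_cases h0 : x = (0, 0)
    · rw [h0, q_o]
      rw [h0] at h1 h2 h3
      linarith
    · rw [nz_of h0] at h5 ⊢
      have h6 : Ga (lv x / √ ((t' : ℝ) / 2)) ≤ 1 / 20 := by
        refine (Ga_le_two (div_nonneg (lv_nonneg x) hσ0.le)).trans ?_
        rw [mul_div_assoc', div_le_iff₀ hσ0]
        rw [hR] at c1
        linarith
      have := (abs_le.1 h5).2
      linarith
  have h1 : q step (0, 0) t s ≤ 1 / 10 * q step (0, 0) t' s + ((1 / R) * aa s + (1 / (t : ℝ)) * 39) := by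
    have h2 := P_iter_mono m hpt1 s
    rw [← q_add_eq, hmt, P_iter_add, P_iter_add, P_iter_smul, P_iter_smul, P_iter_smul, P_iter_nz] at h2
    have h3 := q_anti hmt' s
    have h4 := lv_le_aa m s
    have h5 : (P^[m] pw) s ≤ 39 := by
      have h6 := P_iter_pw m s
      have h7 : (0.98 : ℝ) ^ m * pw s ≤ 1 := by
        apply pow98 (pw_nonneg s)
        have h8 : Real.log (1 + pw s) ≤ t / 100 := by
          rw [Real.log_le_iff_le_exp (by have := pw_nonneg s; linarith)]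
          exact hp
        have h9 : (t : ℝ) ≤ 2 * m := by exact_mod_cast (by omega : t ≤ 2 * m)
        linarith
      linarith
    have e1 := mul_le_mul_of_nonneg_left h4 (show 0 ≤ 1 / R by positivity)
    have e2 := mul_le_mul_of_nonneg_left h5 (show 0 ≤ 1 / (t : ℝ) by positivity)
    linarith
  have h2 := ih t' (by omega) s
  have h3 : √ (t : ℝ) ≤ 2 * √ (t' : ℝ) := by
    rw [Real.sqrt_le_left (by positivity), mul_pow, Real.sq_sqrt ht'0.le]
    linarith
  have h4 : √ (t : ℝ) * (1 / R) ≤ 125 := by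
    rw [hR, mul_one_div, div_div_eq_mul_div, div_le_iff₀ hσ0]
    have h5 : √ (t : ℝ) ≤ 3 * √ ((t' : ℝ) / 2) := by
      rw [Real.sqrt_le_left (by positivity), mul_pow, Real.sq_sqrt (by positivity)]
      linarith
    linarith
  have h5 : √ (t : ℝ) * (1 / (t : ℝ)) ≤ 1 := by
    rw [mul_one_div, div_le_one htp]
    rw [Real.sqrt_le_left htp.le]
    nlinarith
  have hq0 := q_nonneg step (0, 0) t' s
  have hR1 := Real.sqrt_nonneg (t : ℝ)
  have haa0 : 0 ≤ aa s := (lv_nonneg s).trans (aa_ge s)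
  calc √ (t : ℝ) * q step (0, 0) t s ≤
      √ (t : ℝ) * (1 / 10 * q step (0, 0) t' s + ((1 / R) * aa s + (1 / (t : ℝ)) * 39)) :=
        mul_le_mul_of_nonneg_left h1 hR1
    _ = 1 / 10 * (√ (t : ℝ) * q step (0, 0) t' s) + (√ (t : ℝ) * (1 / R)) * aa s + (√ (t : ℝ) * (1 / (t : ℝ))) * 39 := by ring
    _ ≤ 1 / 10 * (2 * √ (t' : ℝ) * q step (0, 0) t' s) + 125 * aa s + 1 * 39 := by
        gcongr
    _ ≤ 1 / 10 * (2 * (C * bb s)) + 125 * (Ca * bb s) + 39 * bb s := by
        have := haa s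
        linarith
    _ ≤ C * bb s := by
        have h6 : (125 * Ca + 50) * 5 / 4 * bb s ≤ C * bb s := by
          apply mul_le_mul_of_nonneg_right _ hb0.le
          rw [hC]
          have := Real.sqrt_nonneg (t0 : ℝ)
          linarith
        have h7 : 1 / 10 * (2 * (C * bb s)) + 125 * (Ca * bb s) + 39 * bb s =
            C * bb s - 4 / 5 * (C * bb s - (125 * Ca + 39) * 5 / 4 * bb s) := by ring
        rw [h7]
        have h8 : (125 * Ca + 39) * 5 / 4 * bb s ≤ (125 * Ca + 50) * 5 / 4 * bb s :=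
          mul_le_mul_of_nonneg_right (by linarith) hb0.le
        linarith

end Pool.Agent.K7.H66.CW
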