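import Pool.Agent.K7.H66.CW.O2

/-!
The sharp tail of the coalescence time, part 3: moments.
-/

set_option autoImplicit false

namespace Pool.Agent.K7.H66.CW

open Finset Filter Topology Pool.Agent.H499R2.CO Pool.Agent.W38.CR

theorem sum_q {D : ℝ} (hD : 0 ≤ D) {s : ℕ × ℤ} (h : ∀ t : ℕ, √ t * q step (0, 0) t s ≤ D) (m : ℕ) :
    ∑ k ∈ range m, q step (0, 0) k s ≤ 1 + 4 * D * √ m := by
  induction m with
  | zero => simp
  | succ m ih =>
    rw [sum_range_succ]
    rcases Nat.eq_zero_or_pos m with rfl | hm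
    · have h1 := q_le_one step (0, 0) 0 s
      have h2 : 0 ≤ 4 * D * √ ((0 + 1 : ℕ) : ℝ) := by positivity
      simp only [range_zero, sum_empty, zero_add]
      simp only [zero_add] at h2
      linarith
    · have hmr : (1 : ℝ) ≤ m := by exact_mod_cast hm
      have hs0 : 0 < √ (m : ℝ) := Real.sqrt_pos.2 (by linarith)
      have hs1 : √ ((m + 1 : ℕ) : ℝ) ≤ 2 * √ m := by
        rw [Real.sqrt_le_left (by positivity), mul_pow, Real.sq_sqrt (by linarith)]
        push_cast
        linarith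
      have hs2 : √ (m : ℝ) ≤ √ ((m + 1 : ℕ) : ℝ) := Real.sqrt_le_sqrt (by push_cast; linarith)
      have h1 := h m
      have hq := q_nonneg step (0, 0) m s
      have h2 : (√ ((m + 1 : ℕ) : ℝ) - √ m) * (√ ((m + 1 : ℕ) : ℝ) + √ m) = 1 := by
        have a1 : √ ((m + 1 : ℕ) : ℝ) * √ ((m + 1 : ℕ) : ℝ) = m + 1 := by
          rw [Real.mul_self_sqrt (by positivity)]; push_cast; ring
        have a2 : √ (m : ℝ) * √ (m : ℝ) = m := Real.mul_self_sqrt (by linarith)
        linear_combination a1 - a2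
      set a := √ ((m + 1 : ℕ) : ℝ)
      set b := √ (m : ℝ)
      have h3 : q step (0, 0) m s ≤ 4 * D * (a - b) := by
        have h4 : 0 < a + b := by linarith
        have h5 : q step (0, 0) m s * (a + b) ≤ 3 * (b * q step (0, 0) m s) := by
          have : a + b ≤ 3 * b := by linarith
          have := mul_le_mul_of_nonneg_left this hq
          linarith
        have h6 : q step (0, 0) m s * (a + b) ≤ 4 * D * (a - b) * (a + b) := by
          have : 4 * D * (a - b) * (a + b) = 4 * D := by rw [mul_assoc, h2, mul_one]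
          rw [this]; linarith
        exact le_of_mul_le_mul_right h6 h4
      linarith

theorem P_iter_sq (m : ℕ) (s : ℕ × ℤ) : (P^[m] (fun x => lv x ^ 2)) s ≤
    lv s ^ 2 + ∑ k ∈ range m, q step (0, 0) k s := by
  have h1 : ∀ x, P (fun x => lv x ^ 2) x ≤ lv x ^ 2 + nz x := by
    intro x
    by_cases h0 : x = (0, 0)
    · rw [h0, P_at_zero, nz_zero, add_zero]
    · rw [nz_of h0]; exact P_sq x
  induction m with
  | zero => simp
  | succ m ih =>
    rw [Function.iterate_succ_apply, sum_range_succ]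
    have h2 := P_iter_mono m h1 s
    rw [P_iter_add m (fun x => lv x ^ 2) nz, P_iter_nz] at h2
    have e : (P^[m] (fun x => P (fun x => lv x ^ 2) x)) s = (P^[m] (P (fun x => lv x ^ 2))) s := rfl
    linarith

theorem P_iter_pw0 (m : ℕ) (x : ℕ × ℤ) : (P^[m] pw) x ≤ 0.98 ^ m * pw x + 37.5 * nz x := by
  by_cases h0 : x = (0, 0)
  · rw [h0, P_iter_at_zero, nz_zero]
    unfold pw w
    simp
  · rw [nz_of h0, mul_one]; exact P_iter_pw m x

theorem W_decay : ∃ C : ℝ, 0 < C ∧ ∀ (m1 m2 : ℕ) (s : ℕ × ℤ), (P^[m1 + m2] Wf) s ≤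
    0.98 ^ m2 * (0.98 ^ m1 * pw s + 37.5) + C * q step (0, 0) m1 s := by
  obtain ⟨C, hC, hW⟩ := Wf_le
  refine ⟨37.5 + C, by positivity, fun m1 m2 s => ?_⟩
  have h1 := P_iter_mono (m1 + m2) hW s
  rw [P_iter_add (m1 + m2) pw (fun x => C * nz x), P_iter_smul, P_iter_nz] at h1
  have h2 : q step (0, 0) (m1 + m2) s ≤ q step (0, 0) m1 s := q_anti (by omega) s
  have h3 : (P^[m1 + m2] pw) s ≤ 0.98 ^ m2 * (0.98 ^ m1 * pw s + 37.5) + 37.5 * q step (0, 0) m1 s := by
    rw [Function.iterate_add_apply]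
    have h4 := P_iter_mono m1 (P_iter_pw0 m2) s
    rw [P_iter_add m1 (fun x => 0.98 ^ m2 * pw x) (fun x => 37.5 * nz x), P_iter_smul, P_iter_smul, P_iter_nz] at h4
    have h5 := P_iter_pw m1 s
    have h6 := mul_le_mul_of_nonneg_left h5 (show (0 : ℝ) ≤ 0.98 ^ m2 by positivity)
    have e : (P^[m1] fun x => (P^[m2] pw) x) s = (P^[m1] (P^[m2] pw)) s := rfl
    linarith
  have h4 := mul_le_mul_of_nonneg_left h2 hC.le
  linarith

/-- The slope of `Ga` at `0`. -/
noncomputable def cG : ℝ := √ (2 / Real.pi)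

theorem cG_eq : cG = 2 * gd 0 := by
  rw [gd_eq]
  unfold cG
  have h1 : (0 : ℝ) < 2 * Real.pi := by positivity
  simp only [ne_eq, OfNat.ofNat_ne_zero, not_false_eq_true, zero_pow, neg_zero, zero_div, Real.exp_zero, mul_one]
  rw [← Real.sqrt_inv]
  have h2 : (2 : ℝ) / Real.pi = 2 ^ 2 * (2 * Real.pi)⁻¹ := by field_simp
  rw [h2, Real.sqrt_mul (by norm_num), Real.sqrt_sq (by norm_num)]

theorem gd_diff {x : ℝ} (hx : 0 ≤ x) : gd 0 - gd x ≤ x ∧ gd x ≤ gd 0 := by
  rw [gd_eq, gd_eq]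
  have h0 : (0 : ℝ) < (√ (2 * Real.pi))⁻¹ := by positivity
  have h1 : (√ (2 * Real.pi))⁻¹ ≤ 1 := by
    apply inv_le_one_of_one_le₀
    rw [Real.one_le_sqrt]
    have := Real.pi_gt_three
    linarith
  have h2 : Real.exp (-x ^ 2 / 2) ≤ 1 := by
    rw [Real.exp_le_one_iff]
    have := sq_nonneg x
    linarith
  have h3 : 1 - Real.exp (-x ^ 2 / 2) ≤ x := by
    have h4 := Real.add_one_le_exp (-x ^ 2 / 2)
    have h5 := Real.exp_pos (-x ^ 2 / 2)
    rcases le_total x 2 with h | h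
    · nlinarith
    · linarith
  have h6 : Real.exp (-(0 : ℝ) ^ 2 / 2) = 1 := by norm_num
  rw [h6]
  constructor
  · have : (√ (2 * Real.pi))⁻¹ * (1 - Real.exp (-x ^ 2 / 2)) ≤ 1 * x :=
      mul_le_mul h1 h3 (by linarith) zero_le_one
    linarith
  · exact mul_le_mul_of_nonneg_left h2 h0.le

theorem Ga_hasDeriv (x : ℝ) : HasDerivAt Ga (2 * gd x) x := by
  have h := Ga_deriv 1 x
  simp only [mul_one] at h
  exact h

theorem Ga_slope {x : ℝ} (hx : 0 ≤ x) : |Ga x - cG * x| ≤ x ^ 2 := by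
  have h1 : MonotoneOn (fun y => cG * y - Ga y) (Set.Ici 0) := by
    apply monotoneOn_of_deriv_nonneg (convex_Ici 0)
    · exact ((continuous_const.mul continuous_id).sub Ga_continuous).continuousOn
    · exact fun y _ => (((hasDerivAt_id y).const_mul cG).sub (Ga_hasDeriv y)).differentiableAt.differentiableWithinAt
    · intro y hy
      rw [interior_Ici] at hy
      have h2 := ((hasDerivAt_id y).const_mul cG).sub (Ga_hasDeriv y)
      have h3 : deriv (fun y => cG * y - Ga y) y = cG * 1 - 2 * gd y := h2.deriv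
      rw [h3, cG_eq]
      have := (gd_diff (le_of_lt hy)).2
      linarith
  have h4 : MonotoneOn (fun y => y ^ 2 - (cG * y - Ga y)) (Set.Ici 0) := by
    apply monotoneOn_of_deriv_nonneg (convex_Ici 0)
    · exact ((continuous_pow 2).sub ((continuous_const.mul continuous_id).sub Ga_continuous)).continuousOn
    · exact fun y _ => ((hasDerivAt_pow 2 y).sub
        (((hasDerivAt_id y).const_mul cG).sub (Ga_hasDeriv y))).differentiableAt.differentiableWithinAt
    · intro y hy
      rw [interior_Ici] at hy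
      have h2 := (hasDerivAt_pow 2 y).sub (((hasDerivAt_id y).const_mul cG).sub (Ga_hasDeriv y))
      have h3 : deriv (fun y => y ^ 2 - (cG * y - Ga y)) y = ((2 : ℕ) : ℝ) * y ^ (2 - 1) - (cG * 1 - 2 * gd y) := h2.deriv
      rw [h3, cG_eq]
      have := (gd_diff (le_of_lt hy)).1
      norm_num
      linarith
  have h5 := h1 (Set.mem_Ici.2 le_rfl) (Set.mem_Ici.2 hx) hx
  have h6 := h4 (Set.mem_Ici.2 le_rfl) (Set.mem_Ici.2 hx) hx
  simp only [mul_zero, Ga_zero, sub_zero, ne_eq, OfNat.ofNat_ne_zero, not_false_eq_true, zero_pow] at h5 h6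
  rw [abs_le]
  constructor <;> linarith

end Pool.Agent.K7.H66.CW
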