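import Pool.Agent.K7.H66.CW.O3

/-!
The sharp tail of the coalescence time, part 4: the limit.
-/

set_option autoImplicit false

namespace Pool.Agent.K7.H66.CW

open Finset Filter Topology Pool.Agent.H499R2.CO Pool.Agent.W38.CR

theorem cG_pos : 0 < cG := by unfold cG; positivity

theorem cG_le_one : cG ≤ 1 := by
  unfold cG
  rw [Real.sqrt_le_left (by norm_num)]
  have := two_pi_le
  linarith

/-- **The sharp tail of the coalescence time.** -/
theorem sharp_chain {ε : ℝ} (hε : 0 < ε) : ∃ δ : ℝ, 0 < δ ∧ ∃ t0 : ℕ, ∀ t ≥ t0, ∀ s : ℕ × ℤ,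
    lv s ≤ δ * √ t → pw s ≤ Real.exp (δ * t) →
    |√ t * q step (0, 0) t s - √ 2 * cG * aa s| ≤ ε * bb s := by
  obtain ⟨C, hC1, hqs⟩ := q_sharp
  obtain ⟨Ca, hCa, haa⟩ := aa_le_bb
  obtain ⟨CW, hCW, hWd⟩ := W_decay
  have hC0 : 0 < C := by linarith
  obtain ⟨φ, hφ, hφ2, hφC, hφa⟩ : ∃ φ : ℝ, 0 < φ ∧ φ ≤ 1 / 2 ∧ 500 * C * φ ≤ ε ∧ 80 * Ca * φ ≤ ε := by
    refine ⟨min (1 / 2) (min (ε / (500 * C)) (ε / (80 * Ca))), by positivity, min_le_left _ _, ?_, ?_⟩
    · have h1 : min (1 / 2) (min (ε / (500 * C)) (ε / (80 * Ca))) ≤ ε / (500 * C) :=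
        (min_le_right _ _).trans (min_le_left _ _)
      rw [le_div_iff₀ (by positivity)] at h1
      linarith
    · have h1 : min (1 / 2) (min (ε / (500 * C)) (ε / (80 * Ca))) ≤ ε / (80 * Ca) :=
        (min_le_right _ _).trans (min_le_right _ _)
      rw [le_div_iff₀ (by positivity)] at h1
      linarith
  set θ : ℝ := φ ^ 2 with hθdef
  have hθ : 0 < θ := by positivity
  have hθφ : θ ≤ φ := by rw [hθdef]; nlinarith
  have hθ4 : θ ≤ 1 / 4 := by rw [hθdef]; nlinarith
  have hε' : 0 < ε * θ / (20 * C) := by positivity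
  obtain ⟨t1, hpt⟩ := chain_pt hε' (show 0 < 1 / θ by positivity)
  obtain ⟨δ, hδ, hδ1, hδθ, hδε⟩ : ∃ δ : ℝ, 0 < δ ∧ δ ≤ 1 ∧ 500 * δ ≤ θ ∧ 100 * δ ≤ ε := by
    refine ⟨min 1 (min (θ / 500) (ε / 100)), by positivity, min_le_left _ _, ?_, ?_⟩
    · have := (min_le_right 1 (min (θ / 500) (ε / 100))).trans (min_le_left _ _)
      linarith
    · have := (min_le_right 1 (min (θ / 500) (ε / 100))).trans (min_le_right _ _)
      linarith
  refine ⟨δ, hδ, ?_⟩
  have l1 : Tendsto (fun n : ℕ => 38.5 * (0.98 : ℝ) ^ n) atTop (𝓝 (38.5 * 0)) :=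
    (tendsto_pow_atTop_nhds_zero_of_lt_one (by norm_num) (by norm_num)).const_mul _
  rw [mul_zero] at l1
  have hε80 : 0 < ε / 80 := by positivity
  obtain ⟨M0, hM0⟩ := eventually_atTop.1 (l1.eventually (eventually_le_nhds hε80))
  have hT := tendsto_natCast_atTop_atTop (R := ℝ)
  have hev := (eventually_ge_atTop t1).and ((hT.eventually_ge_atTop ((M0 + 100) * 5 / θ)).and
    ((sqrt_big (400 / ε)).and ((hT.eventually_ge_atTop ((80 * CW * C / ε) ^ 2 * 5 / θ)).and
    (eventually_ge_atTop 1))))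
  obtain ⟨t0, ht0⟩ := eventually_atTop.1 hev
  refine ⟨t0, fun t ht s hs hp => ?_⟩
  obtain ⟨g1, g2, g3, g4, g5⟩ := ht0 t ht
  have htr : (1 : ℝ) ≤ t := by exact_mod_cast g5
  have htp : (0 : ℝ) < t := by linarith
  have hb := bb_ge_one s
  have hb0 : 0 < bb s := by linarith
  set R : ℝ := √ (t : ℝ) with hR
  have hR1 : 1 ≤ R := by rw [hR, Real.one_le_sqrt]; exact htr
  have hR0 : 0 < R := by linarith
  have hRt : R * R = t := Real.mul_self_sqrt htp.le
  have hR400 : 400 ≤ ε * R := by rw [div_le_iff₀ hε] at g3; linarith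
  have hθt : (M0 + 100) * 5 ≤ θ * t := by rw [div_le_iff₀ hθ] at g2; linarith
  have hM0r : (0 : ℝ) ≤ M0 := by positivity
  -- the parameters
  set m : ℕ := ⌊θ * t⌋₊ with hm
  have hm1 : (m : ℝ) ≤ θ * t := Nat.floor_le (by positivity)
  have hm2 : θ * t - 1 ≤ m := by have := Nat.lt_floor_add_one (θ * (t : ℝ)); linarith
  have hθt4 : θ * t ≤ 1 / 4 * t := mul_le_mul_of_nonneg_right hθ4 htp.le
  have hmt : m ≤ t := by
    have : (m : ℝ) ≤ t := by linarith
    exact_mod_cast this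
  set t' : ℕ := t - m with ht'
  have ht'r : (t' : ℝ) = t - m := by rw [ht', Nat.cast_sub hmt]
  have ht'1 : 3 / 4 * (t : ℝ) ≤ t' := by rw [ht'r]; linarith
  have ht'2 : (t' : ℝ) ≤ t := by rw [ht'r]; have : (0 : ℝ) ≤ m := by positivity
                                 linarith
  have ht'3 : (1 - θ) * t ≤ t' := by rw [ht'r]; linarith
  have ht'0 : (0 : ℝ) < t' := by linarith
  have htt : t ≤ 4 * t' := by
    have : (t : ℝ) ≤ ((4 * t' : ℕ) : ℝ) := by push_cast; linarith
    exact_mod_cast this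
  set σ : ℝ := √ ((t' : ℝ) / 2) with hσ
  have hσ0 : 0 < σ := Real.sqrt_pos.2 (by positivity)
  have hσ2 : σ ^ 2 = t' / 2 := Real.sq_sqrt (by positivity)
  set m1 : ℕ := m / 2 with hm1def
  set m2 : ℕ := m - m1 with hm2def
  have hm12 : m1 + m2 = m := by omega
  have hm1r : θ * t / 5 ≤ m1 := by
    have h1 : m ≤ 2 * m1 + 1 := by omega
    have h2 : (m : ℝ) ≤ 2 * m1 + 1 := by exact_mod_cast h1
    linarith
  have hm1M : (M0 : ℝ) + 100 ≤ m1 := by linarith
  have hm1m2 : m1 ≤ m2 := by omega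
  have hlogp : Real.log (1 + pw s) ≤ δ * t + 1 := by
    rw [Real.log_le_iff_le_exp (by have := pw_nonneg s; linarith)]
    have h1 : 1 ≤ Real.exp (δ * t) := Real.one_le_exp (by positivity)
    have h2 := Real.exp_one_gt_d9
    rw [Real.exp_add]
    have h3 : Real.exp (δ * t) * 2 ≤ Real.exp (δ * t) * Real.exp 1 :=
      mul_le_mul_of_nonneg_left (by linarith) (Real.exp_pos _).le
    linarith
  have hδt : 500 * (δ * t) ≤ θ * t := by
    have := mul_le_mul_of_nonneg_right hδθ htp.le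
    linarith
  have hpm1 : (0.98 : ℝ) ^ m1 * pw s ≤ 1 := by
    apply pow98 (pw_nonneg s)
    linarith
  have hpm : (0.98 : ℝ) ^ m * pw s ≤ 1 := by
    apply pow98 (pw_nonneg s)
    have : (m1 : ℝ) ≤ m := by exact_mod_cast (by omega : m1 ≤ m)
    linarith
  -- the moments at the time `m`
  set D : ℝ := C * bb s with hD
  have hD0 : 0 ≤ D := by positivity
  have hsum := sum_q hD0 (fun t => hqs t s) m
  have hsq : (P^[m] (fun x => lv x ^ 2)) s ≤ lv s ^ 2 + (1 + 4 * D * √ m) := by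
    have := P_iter_sq m s
    linarith
  have hlv0 := lv_nonneg s
  have hlvb : lv s ≤ bb s := by
    unfold bb
    have := Real.sqrt_nonneg (Real.log (1 + pw s))
    linarith
  have hlv2 : lv s ^ 2 ≤ δ * R * bb s := by
    calc lv s ^ 2 = lv s * lv s := by ring
      _ ≤ (δ * R) * bb s := mul_le_mul hs hlvb hlv0 (by positivity)
  have hsm : √ (m : ℝ) ≤ φ * R := by
    rw [Real.sqrt_le_left (by positivity), mul_pow, ← hθdef]
    have : R ^ 2 = t := by rw [sq]; exact hRt
    rw [this]; exact hm1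
  have hS2 : (P^[m] (fun x => lv x ^ 2)) s ≤ (δ + 4 * C * φ) * R * bb s + 1 := by
    have h1 : 4 * D * √ (m : ℝ) ≤ 4 * D * (φ * R) := mul_le_mul_of_nonneg_left hsm (by positivity)
    have h2 : 4 * D * (φ * R) = 4 * C * φ * R * bb s := by rw [hD]; ring
    linarith
  have hPpw : (P^[m] pw) s ≤ 39 := by
    have := P_iter_pw m s
    linarith
  -- the pointwise bound
  have hY : 0 < (1 / θ) * R := by positivity
  have hpt1 : ∀ x : ℕ × ℤ, |q step (0, 0) t' x - (cG / σ) * lv x| ≤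
      (ε * θ / (20 * C)) * nz x + ((θ ^ 2 / t + 1 / σ ^ 2) * lv x ^ 2 + (1 / (t : ℝ)) * pw x) := by
    intro x
    have hx0 := lv_nonneg x
    have h2 : 0 ≤ (1 / (t : ℝ)) * pw x := mul_nonneg (by positivity) (pw_nonneg x)
    have h3 : 0 ≤ (ε * θ / (20 * C)) * nz x := mul_nonneg hε'.le (nz_nonneg x)
    have h4 : 0 ≤ θ ^ 2 / t * lv x ^ 2 := by positivity
    have h5 : |Ga (lv x / σ) - (cG / σ) * lv x| ≤ 1 / σ ^ 2 * lv x ^ 2 := by
      have h6 := Ga_slope (div_nonneg hx0 hσ0.le)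
      rw [div_pow] at h6
      have e1 : cG * (lv x / σ) = (cG / σ) * lv x := by ring
      have e2 : lv x ^ 2 / σ ^ 2 = 1 / σ ^ 2 * lv x ^ 2 := by ring
      rwa [e1, e2] at h6
    have h7 : |q step (0, 0) t' x - Ga (lv x / σ)| ≤
        (ε * θ / (20 * C)) * nz x + (θ ^ 2 / t * lv x ^ 2 + (1 / (t : ℝ)) * pw x) := by
      have hle1 : |q step (0, 0) t' x - Ga (lv x / σ)| ≤ 1 := by
        have a1 := q_nonneg step (0, 0) t' x
        have a2 := q_le_one step (0, 0) t' x
        have a3 := Ga_nonneg (div_nonneg hx0 hσ0.le)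
        have a4 := Ga_le_one (lv x / σ)
        rw [abs_le]; constructor <;> linarith
      by_cases c1 : (1 / θ) * R < lv x
      · have h8 : 1 ≤ θ ^ 2 / t * lv x ^ 2 := by
          have h9 : ((1 / θ) * R) ^ 2 ≤ lv x ^ 2 := pow_le_pow_left₀ hY.le c1.le 2
          have h10 : ((1 / θ) * R) ^ 2 = t / θ ^ 2 := by
            rw [mul_pow, sq R, hRt]; field_simp
          rw [h10] at h9
          calc (1 : ℝ) = θ ^ 2 / t * (t / θ ^ 2) := by field_simp
            _ ≤ _ := mul_le_mul_of_nonneg_left h9 (by positivity)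
        linarith
      by_cases c2 : (t : ℝ) < pw x
      · have h8 : 1 ≤ (1 / (t : ℝ)) * pw x := by
          rw [one_div, inv_mul_eq_div, le_div_iff₀ htp]; linarith
        linarith
      push Not at c1 c2
      have h8 := hpt t g1 t' htt x c1 c2
      linarith
    have h9 := abs_sub_le (q step (0, 0) t' x) (Ga (lv x / σ)) ((cG / σ) * lv x)
    rw [add_mul]
    linarith
  -- the average at the time `m`
  have hav : |q step (0, 0) t s - (cG / σ) * (P^[m] lv) s| ≤
      (ε * θ / (20 * C)) * q step (0, 0) m s +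
      ((θ ^ 2 / t + 1 / σ ^ 2) * (P^[m] (fun x => lv x ^ 2)) s + (1 / (t : ℝ)) * (P^[m] pw) s) := by
    have h1 : ∀ x : ℕ × ℤ, q step (0, 0) t' x ≤ (cG / σ) * lv x + ((ε * θ / (20 * C)) * nz x +
        ((θ ^ 2 / t + 1 / σ ^ 2) * lv x ^ 2 + (1 / (t : ℝ)) * pw x)) := by
      intro x; have := (abs_le.1 (hpt1 x)).2; linarith
    have h2 : ∀ x : ℕ × ℤ, (cG / σ) * lv x ≤ q step (0, 0) t' x + ((ε * θ / (20 * C)) * nz x +
        ((θ ^ 2 / t + 1 / σ ^ 2) * lv x ^ 2 + (1 / (t : ℝ)) * pw x)) := by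
      intro x; have := (abs_le.1 (hpt1 x)).1; linarith
    have e1 : m + t' = t := by omega
    have h3 := P_iter_mono m h1 s
    have h4 := P_iter_mono m h2 s
    rw [P_iter_add, P_iter_add, P_iter_add, P_iter_smul, P_iter_smul, P_iter_smul, P_iter_smul, P_iter_nz,
      ← q_add_eq, e1] at h3
    rw [P_iter_add m (fun x => q step (0, 0) t' x), P_iter_add, P_iter_add, P_iter_smul, P_iter_smul,
      P_iter_smul, P_iter_smul, P_iter_nz, ← q_add_eq, e1] at h4
    rw [abs_le]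
    constructor <;> linarith
  -- the errors
  have E1 : R * ((ε * θ / (20 * C)) * q step (0, 0) m s) ≤ ε / 10 * bb s := by
    have h1 := hqs m s
    have h2 : θ * R ≤ 2 * √ (m : ℝ) := by
      have h3 : θ * t / 2 ≤ m := by linarith
      have h4 : θ * R ≤ √ (4 * (m : ℝ)) := by
        apply Real.le_sqrt_of_sq_le
        rw [mul_pow, sq R, hRt]
        have h5 : θ ^ 2 * (t : ℝ) ≤ 1 * (θ * t) := by
          have : θ ^ 2 * (t : ℝ) = θ * (θ * t) := by ring
          rw [this]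
          exact mul_le_mul_of_nonneg_right (by linarith) (by positivity)
        linarith
      rw [Real.sqrt_mul (by norm_num), show √ (4 : ℝ) = 2 by
        rw [show (4 : ℝ) = 2 ^ 2 by norm_num]; exact Real.sqrt_sq (by norm_num)] at h4
      exact h4
    have hq0 := q_nonneg step (0, 0) m s
    calc R * ((ε * θ / (20 * C)) * q step (0, 0) m s) = ε / (20 * C) * ((θ * R) * q step (0, 0) m s) := by ring
      _ ≤ ε / (20 * C) * ((2 * √ (m : ℝ)) * q step (0, 0) m s) := by gcongr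
      _ = ε / (10 * C) * (√ (m : ℝ) * q step (0, 0) m s) := by ring
      _ ≤ ε / (10 * C) * (C * bb s) := by gcongr
      _ = ε / 10 * bb s := by field_simp
  have E2 : R * ((θ ^ 2 / t + 1 / σ ^ 2) * (P^[m] (fun x => lv x ^ 2)) s) ≤ ε / 5 * bb s := by
    have h1 : θ ^ 2 / t + 1 / σ ^ 2 ≤ 3 / t := by
      rw [hσ2]
      have a1 : θ ^ 2 / t ≤ (1 / 3) / t := div_le_div_of_nonneg_right (by nlinarith) htp.le
      have a2 : 1 / ((t' : ℝ) / 2) ≤ (8 / 3) / t := by
        rw [div_le_div_iff₀ (by positivity) htp]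
        linarith
      have a3 : (1 / 3) / (t : ℝ) + (8 / 3) / t = 3 / t := by ring
      linarith
    have h0 : 0 ≤ (P^[m] (fun x => lv x ^ 2)) s := P_iter_nonneg (fun x => by positivity) m s
    have h2 : (δ + 4 * C * φ) * R * bb s + 1 ≤ (δ + 4 * C * φ + 1 / R) * R * bb s := by
      have : 1 / R * R = 1 := by field_simp
      have : (δ + 4 * C * φ + 1 / R) * R * bb s = (δ + 4 * C * φ) * R * bb s + bb s := by
        rw [add_mul (δ + 4 * C * φ), this]; ring
      linarith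
    have h3 : 1 / R ≤ ε / 400 := by
      rw [div_le_iff₀ hR0]; linarith
    have h4 : 3 * (δ + 4 * C * φ + 1 / R) ≤ ε / 5 := by linarith
    calc R * ((θ ^ 2 / t + 1 / σ ^ 2) * (P^[m] (fun x => lv x ^ 2)) s) ≤
        R * (3 / t * ((δ + 4 * C * φ + 1 / R) * R * bb s)) := by
          apply mul_le_mul_of_nonneg_left _ hR0.le
          exact mul_le_mul h1 (hS2.trans h2) h0 (by positivity)
      _ = 3 * (δ + 4 * C * φ + 1 / R) * bb s * ((R * R) / t) := by ring
      _ = 3 * (δ + 4 * C * φ + 1 / R) * bb s := by rw [hRt, div_self htp.ne', mul_one]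
      _ ≤ ε / 5 * bb s := mul_le_mul_of_nonneg_right h4 hb0.le
  have E3 : R * ((1 / (t : ℝ)) * (P^[m] pw) s) ≤ ε / 10 * bb s := by
    have h1 : R * ((1 / (t : ℝ)) * (P^[m] pw) s) ≤ R * ((1 / (t : ℝ)) * 39) := by gcongr
    have h2 : R * ((1 / (t : ℝ)) * 39) = 39 / R := by
      rw [← hRt]; field_simp
    have h3 : 39 / R ≤ ε / 10 := by
      rw [div_le_iff₀ hR0]; linarith
    have h4 : ε / 10 * 1 ≤ ε / 10 * bb s := mul_le_mul_of_nonneg_left hb (by positivity)
    linarith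
  have hPl0 : 0 ≤ (P^[m] lv) s := P_iter_nonneg lv_nonneg m s
  have hPla := lv_le_aa m s
  have E4 : |R * ((cG / σ) * (P^[m] lv) s) - √ 2 * cG * aa s| ≤ ε / 2 * bb s := by
    -- the ratio
    set κ : ℝ := R / √ (t' : ℝ) with hκ
    have hst0 : 0 < √ (t' : ℝ) := Real.sqrt_pos.2 ht'0
    have hκ1 : 1 ≤ κ := by
      rw [hκ, le_div_iff₀ hst0, one_mul]
      exact Real.sqrt_le_sqrt ht'2
    have hκ2 : κ ≤ 1 + θ := by
      rw [hκ, div_le_iff₀ hst0, hR, Real.sqrt_le_left (by positivity), mul_pow, Real.sq_sqrt ht'0.le]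
      have a1 : (1 + θ) ^ 2 * ((1 - θ) * t) ≤ (1 + θ) ^ 2 * t' := mul_le_mul_of_nonneg_left ht'3 (by positivity)
      have a2 : (1 : ℝ) ≤ (1 + θ) ^ 2 * (1 - θ) := by nlinarith
      have a3 := mul_le_mul_of_nonneg_right a2 htp.le
      linarith
    have e1 : R * ((cG / σ) * (P^[m] lv) s) = √ 2 * cG * (κ * (P^[m] lv) s) := by
      have h1 : σ = √ (t' : ℝ) / √ 2 := by rw [hσ, Real.sqrt_div (by positivity)]
      rw [h1, hκ]
      field_simp
    rw [e1, ← mul_sub, abs_mul, abs_of_pos (mul_pos (by positivity) cG_pos)]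
    have h2 : √ (2 : ℝ) * cG ≤ 2 := by
      have : √ (2 : ℝ) ≤ 2 := by rw [Real.sqrt_le_left (by norm_num)]; norm_num
      calc √ (2 : ℝ) * cG ≤ 2 * 1 := mul_le_mul this cG_le_one cG_pos.le (by norm_num)
        _ = 2 := by norm_num
    have hW : (P^[m] Wf) s ≤ ε / 40 * bb s := by
      have h3 := hWd m1 m2 s
      rw [hm12] at h3
      have h4 : (0.98 : ℝ) ^ m2 * (0.98 ^ m1 * pw s + 37.5) ≤ ε / 80 := by
        have h5 : (0.98 : ℝ) ^ m2 * (0.98 ^ m1 * pw s + 37.5) ≤ 0.98 ^ m2 * 38.5 := by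
          apply mul_le_mul_of_nonneg_left _ (by positivity)
          linarith
        have h6 := hM0 m2 (by
          have : (M0 : ℝ) ≤ m1 := by linarith
          have : M0 ≤ m1 := by exact_mod_cast this
          omega)
        linarith
      have h7 : CW * q step (0, 0) m1 s ≤ ε / 80 * bb s := by
        have h8 := hqs m1 s
        have hm10 : (0 : ℝ) < m1 := by linarith
        have hsm1 : 0 < √ (m1 : ℝ) := Real.sqrt_pos.2 hm10
        have h9 : 80 * CW * C / ε ≤ √ (m1 : ℝ) := by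
          apply Real.le_sqrt_of_sq_le
          rw [div_le_iff₀ hθ] at g4
          linarith
        rw [div_le_iff₀ hε] at h9
        have h10 : CW * q step (0, 0) m1 s * √ (m1 : ℝ) ≤ ε / 80 * bb s * √ (m1 : ℝ) := by
          calc CW * q step (0, 0) m1 s * √ (m1 : ℝ) = CW * (√ (m1 : ℝ) * q step (0, 0) m1 s) := by ring
            _ ≤ CW * (C * bb s) := mul_le_mul_of_nonneg_left h8 hCW.le
            _ = (80 * CW * C) * (bb s / 80) := by ring
            _ ≤ (√ (m1 : ℝ) * ε) * (bb s / 80) := mul_le_mul_of_nonneg_right h9 (by positivity)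
            _ = _ := by ring
        exact le_of_mul_le_mul_right h10 hsm1
      have h11 : ε / 80 * 1 ≤ ε / 80 * bb s := mul_le_mul_of_nonneg_left hb (by positivity)
      linarith
    have hal := aa_le m s
    have hθPl : θ * (P^[m] lv) s ≤ φ * (Ca * bb s) := by
      apply mul_le_mul hθφ (hPla.trans (haa s)) hPl0 hφ.le
    have hφCa : φ * (Ca * bb s) ≤ ε / 80 * bb s := by
      have := mul_le_mul_of_nonneg_right hφa hb0.le
      linarith
    have hκP1 : (P^[m] lv) s ≤ κ * (P^[m] lv) s := by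
      have := mul_le_mul_of_nonneg_right hκ1 hPl0
      linarith
    have hκP2 : κ * (P^[m] lv) s ≤ (P^[m] lv) s + θ * (P^[m] lv) s := by
      have := mul_le_mul_of_nonneg_right hκ2 hPl0
      linarith
    have h3 : |κ * (P^[m] lv) s - aa s| ≤ ε / 20 * bb s := by
      have : 0 ≤ ε * bb s := by positivity
      rw [abs_le]
      constructor <;> linarith
    calc √ 2 * cG * |κ * (P^[m] lv) s - aa s| ≤ 2 * (ε / 20 * bb s) :=
          mul_le_mul h2 h3 (abs_nonneg _) (by norm_num)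
      _ ≤ ε / 2 * bb s := by
          have : 0 ≤ ε * bb s := by positivity
          linarith
  have h1 : |R * q step (0, 0) t s - R * ((cG / σ) * (P^[m] lv) s)| ≤ ε / 10 * bb s + (ε / 5 * bb s + ε / 10 * bb s) := by
    rw [← mul_sub, abs_mul, abs_of_pos hR0]
    have := mul_le_mul_of_nonneg_left hav hR0.le
    linarith
  have h2 := abs_sub_le (R * q step (0, 0) t s) (R * ((cG / σ) * (P^[m] lv) s)) (√ 2 * cG * aa s)
  have : 0 ≤ ε * bb s := by positivity
  linarith

end Pool.Agent.K7.H66.CW
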