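import Pool.Agent.K7.H66.CW.O4
import Pool.Agent.K7.H66.CW.M

/-!
The sharp tail of the coalescence time, part 5: the integers.
-/

set_option autoImplicit false

namespace Pool.Agent.K7.H66.CW

open Finset Filter Topology Pool.Agent.H499R2.CO Pool.Agent.W38.CR

/-- The number of the odd terms among the first `k` terms of the trajectory of `n`. -/
def oc (k : ℕ) (n : ℤ) : ℕ := ((range k).filter fun m => ((Tz 1)^[m] n) % 2 = 1).card

theorem oc_succ (k : ℕ) (n : ℤ) : oc (k + 1) n = (if n % 2 = 1 then 1 else 0) + oc k (Tz 1 n) := by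
  unfold oc
  rw [card_filter, card_filter, sum_range_succ']
  simp only [Function.iterate_succ_apply, Function.iterate_zero, id]
  rw [add_comm]
  rfl

theorem fl_oc (l : List Bool) : ∀ (A : ℕ × ℤ) (y : ℤ),
    (fl l A).1 = A.1 + oc l.length (ev A (2 ^ l.length * y + bv l)) := by
  induction l with
  | nil => intro A y; simp [fl, oc]
  | cons b l ih =>
    intro A y
    have e : (2 : ℤ) ^ (b :: l).length * y + bv (b :: l) = 2 * (2 ^ l.length * y + bv l) + bz b := by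
      simp only [List.length_cons, bv, pow_succ]; ring
    rw [e, List.length_cons, oc_succ, Tz_ev]
    have e2 : ev A (2 * (2 ^ l.length * y + bv l) + bz b) = 2 * (3 ^ A.1 * (2 ^ l.length * y + bv l)) + vl b A := by
      unfold ev vl; ring
    have h1 := ih (fs b A) y
    simp only [fl]
    rw [h1, e2]
    unfold fs
    by_cases h : vl b A % 2 = 0
    · rw [if_pos h, if_neg (by omega)]
      simp
    · rw [if_neg h, if_pos (by omega)]
      simp only
      ring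

theorem Ev_lv : Ev lv := fun _ => rfl

/-- The mean difference of the levels. -/
theorem mean_eq (k i j : ℕ) (r r' : ℤ) :
    (∑ x ∈ range (2 ^ k), |((i : ℝ) + oc k (3 ^ i * x + r)) - (j + oc k (3 ^ j * x + r'))|) / 2 ^ k =
      (P^[k] lv) (st (i, r) (j, r')) := by
  rw [← av_pair Ev_lv]
  have h1 := sum_bits k (fun l => lv (st (fl l (i, r)) (fl l (j, r'))))
  have h2 : ∀ x ∈ range (2 ^ k), |((i : ℝ) + oc k (3 ^ i * x + r)) - (j + oc k (3 ^ j * x + r'))| =
      lv (st (fl (bits k x) (i, r)) (fl (bits k x) (j, r'))) := by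
    intro x hx
    rw [mem_range] at hx
    have h3 : bv (bits k x) = x := by
      rw [bv_bits_mod, Nat.mod_eq_of_lt hx]
    have h4 := fl_oc (bits k x) (i, r) 0
    have h5 := fl_oc (bits k x) (j, r') 0
    rw [length_bits, mul_zero, zero_add, h3] at h4 h5
    unfold ev at h4 h5
    simp only at h4 h5
    have h6 := st_level (fl (bits k x) (i, r)).1 (fl (bits k x) (j, r')).1 (fl (bits k x) (i, r)).2
      (fl (bits k x) (j, r')).2
    unfold lv
    rw [h6, h4, h5]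
    push_cast
    rfl
  rw [sum_congr rfl h2, h1]
  field_simp

theorem bb_le (i j : ℕ) (r r' : ℤ) : bb (st (i, r) (j, r')) ≤
    1 + |(i : ℝ) - j| + √ (Real.log (2 + |(r : ℝ)| + |(r' : ℝ)|)) := by
  unfold bb
  have h1 : lv (st (i, r) (j, r')) = |(i : ℝ) - j| := st_level i j r r'
  rw [h1]
  have h2 := pw_st (i, r) (j, r')
  simp only at h2
  have h3 : ∀ a : ℝ, 0 ≤ a → √ a ≤ (1 + a) / 2 := by
    intro a ha
    rw [Real.sqrt_le_left (by positivity)]
    nlinarith [sq_nonneg (a - 1)]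
  have h4 := h3 |(r : ℝ)| (abs_nonneg _)
  have h5 := h3 |(r' : ℝ)| (abs_nonneg _)
  have h6 := abs_nonneg (r : ℝ)
  have h7 := abs_nonneg (r' : ℝ)
  have h8 := pw_nonneg (st (i, r) (j, r'))
  have h9 : √ (Real.log (1 + pw (st (i, r) (j, r')))) ≤ √ (Real.log (2 + |(r : ℝ)| + |(r' : ℝ)|)) := by
    apply Real.sqrt_le_sqrt
    apply Real.log_le_log (by linarith)
    linarith
  linarith

/-- The asymptotic formula for the integers. -/
theorem sharp_int {ε : ℝ} (hε : 0 < ε) : ∃ δ : ℝ, 0 < δ ∧ ∃ t0 : ℕ, 1 ≤ t0 ∧ ∀ t ≥ t0, ∀ (M : ℤ) (N : ℕ),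
    (2 : ℝ) ^ t * √ t ≤ δ * N → ∀ (i j : ℕ) (r r' : ℤ), |(i : ℝ) - j| ≤ δ * √ t →
    |(r : ℝ)| ≤ Real.exp (δ * t) → |(r' : ℝ)| ≤ Real.exp (δ * t) →
    |(#((Finset.Ico M (M + N)).filter (fun x => ¬ (Tz 1)^[t] (3 ^ i * x + r) = (Tz 1)^[t] (3 ^ j * x + r'))) : ℝ) -
      √ 2 * cG * aa (st (i, r) (j, r')) * (N / √ t)| ≤
      ε * (1 + |(i : ℝ) - j| + √ (Real.log (2 + |(r : ℝ)| + |(r' : ℝ)|))) * (N / √ t) := by
  classical
  obtain ⟨δ, hδ, t1, h⟩ := sharp_chain (show 0 < ε / 2 by positivity)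
  obtain ⟨t2, ht2⟩ := exists_nat_ge (2 / δ)
  refine ⟨min δ (ε / 4), by positivity, max t1 (max t2 1), ?_, fun t ht M N hN i j r r' hij hr hr' => ?_⟩
  · exact (le_max_right _ _).trans (le_max_right _ _)
  have ht1 : t1 ≤ t := (le_max_left _ _).trans ht
  have ht2' : t2 ≤ t := ((le_max_left _ _).trans (le_max_right _ _)).trans ht
  have ht3 : 1 ≤ t := ((le_max_right _ _).trans (le_max_right _ _)).trans ht
  have htr : (1 : ℝ) ≤ t := by exact_mod_cast ht3
  have htp : (0 : ℝ) < t := by linarith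
  have hR0 : 0 < √ (t : ℝ) := Real.sqrt_pos.2 htp
  have hδt : 2 ≤ δ * t := by
    have h1 : (t2 : ℝ) ≤ t := by exact_mod_cast ht2'
    have h2 := ht2.trans h1
    rw [div_le_iff₀ hδ] at h2
    linarith
  have hmin : min δ (ε / 4) * t ≤ δ * t := mul_le_mul_of_nonneg_right (min_le_left _ _) htp.le
  have hlv : lv (st (i, r) (j, r')) ≤ δ * √ t := by
    have h1 : lv (st (i, r) (j, r')) = |(i : ℝ) - j| := st_level i j r r'
    rw [h1]
    exact hij.trans (mul_le_mul_of_nonneg_right (min_le_left _ _) hR0.le)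
  have hsqrt : ∀ a : ℤ, |(a : ℝ)| ≤ Real.exp (min δ (ε / 4) * t) → √ |(a : ℝ)| ≤ Real.exp (δ * t / 2) := by
    intro a ha
    rw [Real.sqrt_le_left (Real.exp_pos _).le, ← Real.exp_nat_mul]
    refine ha.trans (Real.exp_le_exp.2 ?_)
    push_cast
    linarith
  have hpw : pw (st (i, r) (j, r')) ≤ Real.exp (δ * t) := by
    have h1 := pw_st (i, r) (j, r')
    simp only at h1
    have h2 := hsqrt r hr
    have h3 := hsqrt r' hr'
    have h4 : 2 ≤ Real.exp (δ * t / 2) := by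
      have := Real.add_one_le_exp (δ * t / 2); linarith
    have h5 : 2 * Real.exp (δ * t / 2) ≤ Real.exp (δ * t / 2) * Real.exp (δ * t / 2) :=
      mul_le_mul_of_nonneg_right h4 (Real.exp_pos _).le
    rw [← Real.exp_add] at h5
    have h6 : δ * t / 2 + δ * t / 2 = δ * t := by ring
    rw [h6] at h5
    linarith
  have h1 := h t ht1 _ hlv hpw
  have h2 := transfer (i, r) (j, r') t N M
  have e1 : ∀ (a : ℕ) (b x : ℤ), ev (a, b) x = 3 ^ a * x + b := fun _ _ _ => rfl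
  simp only [e1] at h2
  have h3 := card_filter_add_card_filter_not (s := Finset.Ico M (M + N))
    (fun x => (Tz 1)^[t] (3 ^ i * x + r) = (Tz 1)^[t] (3 ^ j * x + r'))
  rw [Int.card_Ico] at h3
  simp only [add_sub_cancel_left, Int.toNat_natCast] at h3
  have h4 : (#((Finset.Ico M (M + N)).filter (fun x => (Tz 1)^[t] (3 ^ i * x + r) = (Tz 1)^[t] (3 ^ j * x + r'))) : ℝ) +
      (#((Finset.Ico M (M + N)).filter (fun x => ¬ (Tz 1)^[t] (3 ^ i * x + r) = (Tz 1)^[t] (3 ^ j * x + r'))) : ℝ) = N := by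
    exact_mod_cast h3
  set c1 : ℝ := (#((Finset.Ico M (M + N)).filter (fun x => (Tz 1)^[t] (3 ^ i * x + r) = (Tz 1)^[t] (3 ^ j * x + r'))) : ℝ)
  set c2 : ℝ := (#((Finset.Ico M (M + N)).filter (fun x => ¬ (Tz 1)^[t] (3 ^ i * x + r) = (Tz 1)^[t] (3 ^ j * x + r'))) : ℝ)
  set Q := q step (0, 0) t (st (i, r) (j, r'))
  set a := aa (st (i, r) (j, r'))
  set β : ℝ := 1 + |(i : ℝ) - j| + √ (Real.log (2 + |(r : ℝ)| + |(r' : ℝ)|)) with hβ
  have hβ1 : 1 ≤ β := by
    rw [hβ]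
    have := abs_nonneg ((i : ℝ) - j)
    have := Real.sqrt_nonneg (Real.log (2 + |(r : ℝ)| + |(r' : ℝ)|))
    linarith
  have hN0 : (0 : ℝ) ≤ N := by positivity
  have hNt : 0 ≤ (N : ℝ) / √ t := by positivity
  have h5 : |c2 - N * Q| ≤ 2 * 2 ^ t := by
    have : c2 - N * Q = -(c1 - N * (1 - Q)) := by linarith
    rw [this, abs_neg]
    exact h2
  have h6 : (2 : ℝ) ^ t ≤ ε / 4 * (N / √ t) := by
    rw [mul_div_assoc', le_div_iff₀ hR0]
    exact hN.trans (mul_le_mul_of_nonneg_right (min_le_right _ _) hN0)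
  have h7 : |(N : ℝ) * Q - √ 2 * cG * a * (N / √ t)| ≤ ε / 2 * β * (N / √ t) := by
    have e2 : (N : ℝ) * Q - √ 2 * cG * a * (N / √ t) = (N / √ t) * (√ t * Q - √ 2 * cG * a) := by
      field_simp
    rw [e2, abs_mul, abs_of_nonneg hNt, mul_comm]
    apply mul_le_mul_of_nonneg_right _ hNt
    exact h1.trans (mul_le_mul_of_nonneg_left (bb_le i j r r') (by positivity))
  have h8 : ε / 2 * (N / √ t) ≤ ε / 2 * β * (N / √ t) := by
    apply mul_le_mul_of_nonneg_right _ hNt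
    have := mul_le_mul_of_nonneg_left hβ1 (show 0 ≤ ε / 2 by positivity)
    linarith
  calc |c2 - √ 2 * cG * a * (N / √ t)| ≤ |c2 - N * Q| + |(N : ℝ) * Q - √ 2 * cG * a * (N / √ t)| := abs_sub_le _ _ _
    _ ≤ 2 * 2 ^ t + ε / 2 * β * (N / √ t) := add_le_add h5 h7
    _ ≤ ε * β * (N / √ t) := by linarith

/-- For every large `N` there is a time `t` with `2 ^ t √t ≤ δ N` and `log₂ N ≤ (1 + η) t`. -/
theorem exists_time {δ η : ℝ} (hδ : 0 < δ) (hη : 0 < η) (t0 : ℕ) : ∃ N0 : ℕ, ∀ N ≥ N0, ∃ t ≥ t0,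
    (2 : ℝ) ^ t * √ t ≤ δ * N ∧ Real.logb 2 N ≤ (1 + η) * t := by
  classical
  -- large times
  have hl : ∀ᶠ t : ℕ in atTop, (2 : ℝ) ^ (t + 1) * √ ((t + 1 : ℕ) : ℝ) ≤ δ * (2 : ℝ) ^ ((1 + η) * t) := by
    have h1 : Tendsto (fun t : ℕ => (t : ℝ) ^ 1 * Real.exp (-((t : ℝ)))) atTop (𝓝 0) :=
      (Real.tendsto_pow_mul_exp_neg_atTop_nhds_zero 1).comp tendsto_natCast_atTop_atTop
    have h2 := t_exp_lim (c := η * Real.log 2) (by have := Real.log_pos (show (1 : ℝ) < 2 by norm_num); positivity)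
    filter_upwards [h2.eventually (eventually_le_nhds (show 0 < δ / 4 by positivity)), eventually_ge_atTop 1] with t h3 h4
    have htr : (1 : ℝ) ≤ t := by exact_mod_cast h4
    have h5 : √ ((t + 1 : ℕ) : ℝ) ≤ 2 * t := by
      rw [Real.sqrt_le_left (by positivity)]
      push_cast
      nlinarith
    have h6 : (2 : ℝ) ^ ((1 + η) * (t : ℝ)) = 2 ^ t * Real.exp (η * Real.log 2 * t) := by
      rw [add_mul, one_mul, Real.rpow_add (by norm_num), Real.rpow_natCast]
      congr 1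
      rw [Real.rpow_def_of_pos (by norm_num)]
      congr 1; ring
    rw [h6]
    have h7 : (t : ℝ) ≤ δ / 4 * Real.exp (η * Real.log 2 * t) := by
      calc (t : ℝ) = (t * Real.exp (-(η * Real.log 2 * t))) * Real.exp (η * Real.log 2 * t) := by
            rw [mul_assoc, ← Real.exp_add]; simp
        _ ≤ _ := mul_le_mul_of_nonneg_right h3 (Real.exp_pos _).le
    calc (2 : ℝ) ^ (t + 1) * √ ((t + 1 : ℕ) : ℝ) ≤ (2 : ℝ) ^ (t + 1) * (2 * t) :=
          mul_le_mul_of_nonneg_left h5 (by positivity)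
      _ = 2 ^ t * (4 * t) := by ring
      _ ≤ 2 ^ t * (4 * (δ / 4 * Real.exp (η * Real.log 2 * t))) := by gcongr
      _ = _ := by ring
  obtain ⟨t1, ht1⟩ := eventually_atTop.1 hl
  set t2 : ℕ := max t0 (max t1 1) with ht2
  obtain ⟨N0, hN0⟩ := exists_nat_ge ((2 : ℝ) ^ t2 * √ t2 / δ)
  refine ⟨max N0 1, fun N hN => ?_⟩
  have hN1 : 1 ≤ N := (le_max_right _ _).trans hN
  have hNr : (1 : ℝ) ≤ N := by exact_mod_cast hN1
  have hP2 : (2 : ℝ) ^ t2 * √ t2 ≤ δ * N := by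
    have h1 : (N0 : ℝ) ≤ N := by exact_mod_cast (le_max_left _ _).trans hN
    have h2 := hN0.trans h1
    rw [div_le_iff₀ hδ] at h2
    linarith
  -- the greatest time
  have hbd : ∃ B : ℕ, ∀ t : ℕ, (2 : ℝ) ^ t * √ t ≤ δ * N → t ≤ B := by
    obtain ⟨B, hB⟩ := exists_nat_ge (δ * N)
    refine ⟨max B 1, fun t ht => ?_⟩
    by_contra hcon
    push Not at hcon
    have h1 : 1 ≤ t := ((le_max_right B 1).trans_lt hcon).le
    have h2 : B < t := (le_max_left B 1).trans_lt hcon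
    have h3 : (t : ℝ) < 2 ^ t := by exact_mod_cast Nat.lt_two_pow_self (n := t)
    have h4 : 1 ≤ √ (t : ℝ) := by rw [Real.one_le_sqrt]; exact_mod_cast h1
    have h5 : (B : ℝ) < t := by exact_mod_cast h2
    have h6 : (2 : ℝ) ^ t * 1 ≤ 2 ^ t * √ t := mul_le_mul_of_nonneg_left h4 (by positivity)
    linarith
  obtain ⟨B, hB⟩ := hbd
  set S := (range (B + 1)).filter (fun t : ℕ => (2 : ℝ) ^ t * √ t ≤ δ * N) with hS
  have hne : S.Nonempty := ⟨t2, by rw [hS, mem_filter, mem_range]; exact ⟨by have := hB t2 hP2; omega, hP2⟩⟩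
  set t := S.max' hne with ht
  have htS : t ∈ S := S.max'_mem hne
  rw [hS, mem_filter] at htS
  have htt2 : t2 ≤ t := S.le_max' t2 (by rw [hS, mem_filter, mem_range]; exact ⟨by have := hB t2 hP2; omega, hP2⟩)
  have hnext : δ * N < (2 : ℝ) ^ (t + 1) * √ ((t + 1 : ℕ) : ℝ) := by
    by_contra hcon
    push Not at hcon
    have h1 : t + 1 ∈ S := by
      rw [hS, mem_filter, mem_range]
      exact ⟨by have := hB (t + 1) hcon; omega, hcon⟩
    have := S.le_max' (t + 1) h1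
    omega
  refine ⟨t, (le_max_left _ _).trans htt2, htS.2, ?_⟩
  have h1 := ht1 t (((le_max_left _ _).trans (le_max_right _ _)).trans htt2)
  have h2 : (N : ℝ) < (2 : ℝ) ^ ((1 + η) * (t : ℝ)) := by
    have := hnext.trans_le h1
    exact lt_of_mul_lt_mul_left this hδ.le
  rw [Real.logb_le_iff_le_rpow (by norm_num) (by linarith)]
  exact h2.le

end Pool.Agent.K7.H66.CW
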